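import Pool.Agent.H2.T2.Defs

/-!
# Cells and squares
-/

open MeasureTheory Set
open scoped ComplexConjugate Real

namespace Pool.Agent.H2.T2

/-- The lower left corner of a cell. -/
noncomputable def corner (s : ℝ) (k : ℤ × ℤ) : ℂ := ⟨s * k.1, s * k.2⟩

theorem cell_eq_sq {s : ℝ} (hs : 0 < s) (k : ℤ × ℤ) : {z | cellOf s z = k} = sq (corner s k) s := by
  ext z
  obtain ⟨a, b⟩ := k
  simp only [mem_ofPred_eq, cellOf, sq, corner, Prod.mk.injEq, Int.floor_eq_iff, le_div_iff₀ hs,
    div_lt_iff₀ hs]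
  constructor
  · rintro ⟨⟨h1, h2⟩, h3, h4⟩
    refine ⟨by linarith, by nlinarith, by linarith, by nlinarith⟩
  · rintro ⟨h1, h2, h3, h4⟩
    refine ⟨⟨by linarith, by nlinarith⟩, by linarith, by nlinarith⟩

theorem mem_sq_cell {s : ℝ} (hs : 0 < s) (z : ℂ) : z ∈ sq (corner s (cellOf s z)) s := by
  rw [← cell_eq_sq hs]
  rfl

theorem measurableSet_sq (z₀ : ℂ) (L : ℝ) : MeasurableSet (sq z₀ L) := by
  unfold sq
  have h1 := Complex.measurable_re
  have h2 := Complex.measurable_im
  exact (measurableSet_le measurable_const h1).inter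
    ((measurableSet_lt h1 measurable_const).inter
      ((measurableSet_le measurable_const h2).inter (measurableSet_lt h2 measurable_const)))

theorem measurable_cellOf (s : ℝ) : Measurable (cellOf s) := by
  unfold cellOf
  exact (Int.measurable_floor.comp (Complex.measurable_re.div_const s)).prodMk
    (Int.measurable_floor.comp (Complex.measurable_im.div_const s))

theorem measurable_cell_comp {X : Type*} [MeasurableSpace X] (s : ℝ) (f : ℤ × ℤ → X) :
    Measurable fun z => f (cellOf s z) :=
  (measurable_of_countable f).comp (measurable_cellOf s)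

theorem measurable_ec : Measurable ec := by
  unfold ec
  fun_prop

theorem continuous_ec : Continuous ec := by
  unfold ec
  fun_prop

theorem norm_ec (t : ℝ) : ‖ec t‖ = 1 := Complex.norm_exp_ofReal_mul_I t

theorem ec_add (s t : ℝ) : ec (s + t) = ec s * ec t := by
  unfold ec
  rw [← Complex.exp_add]
  push_cast
  ring_nf

theorem ec_zero : ec 0 = 1 := by simp [ec]

theorem conj_ec (t : ℝ) : conj (ec t) = ec (-t) := by
  unfold ec
  rw [← Complex.exp_conj]
  simp

theorem ec_mul_conj (t : ℝ) : ec t * conj (ec t) = 1 := by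
  rw [conj_ec, ← ec_add]
  simp [ec_zero]

theorem volume_sq (z₀ : ℂ) {L : ℝ} (hL : 0 ≤ L) : volume (sq z₀ L) = ENNReal.ofReal (L ^ 2) := by
  have h : sq z₀ L = Complex.measurableEquivRealProd ⁻¹'
      (Ico z₀.re (z₀.re + L) ×ˢ Ico z₀.im (z₀.im + L)) := by
    ext z
    simp [sq, Complex.measurableEquivRealProd_apply, and_assoc]
  rw [h, Complex.volume_preserving_equiv_real_prod.measure_preimage
    ((measurableSet_Ico.prod measurableSet_Ico).nullMeasurableSet), Measure.volume_eq_prod,
    Measure.prod_prod, Real.volume_Ico, Real.volume_Ico, ← ENNReal.ofReal_mul (by linarith)]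
  congr 1
  ring

theorem norm_sub_le_of_mem_sq {z₀ z z' : ℂ} {L : ℝ} (h : z ∈ sq z₀ L) (h' : z' ∈ sq z₀ L) :
    ‖z - z'‖ ≤ 2 * L := by
  obtain ⟨a1, a2, a3, a4⟩ := h
  obtain ⟨b1, b2, b3, b4⟩ := h'
  refine (Complex.norm_le_abs_re_add_abs_im _).trans ?_
  have h1 : |(z - z').re| ≤ L := by
    rw [Complex.sub_re, abs_le]; constructor <;> linarith
  have h2 : |(z - z').im| ≤ L := by
    rw [Complex.sub_im, abs_le]; constructor <;> linarith
  linarith

end Pool.Agent.H2.T2
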