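import Pool.Agent.H2.T2.Defs
import Pool.Agent.H2.T2.Cell

/-!
# The global form of stage 2 (AG) from AG1, S2 and the cell union principle
-/

open MeasureTheory Set
open scoped ComplexConjugate Real

namespace Pool.Agent.H2.T2

theorem ag_norm_ec_sub (s t : ℝ) : ‖ec s - ec t‖ ≤ |s - t| := by
  have h : ec s - ec t = ec t * (Complex.exp (Complex.I * ((s - t : ℝ) : ℂ)) - 1) := by
    have h1 : ec s = ec t * Complex.exp (Complex.I * ((s - t : ℝ) : ℂ)) := by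
      unfold ec
      rw [← Complex.exp_add]
      congr 1
      push_cast
      ring
    rw [mul_sub, ← h1, mul_one]
  rw [h, norm_mul, norm_ec, one_mul]
  exact Real.norm_exp_I_mul_ofReal_sub_one_le

theorem ag_sys_mono {α β : ℂ} {η η' δ : ℝ} {w f g : ℂ → ℂ} {G G' : Set (ℂ × ℝ)}
    (h : Sys α β η δ w f g G) (h0 : 0 < η') (h1 : η' ≤ η) (h3 : G' ⊆ G)
    (h4 : MeasurableSet G') : Sys α β η' δ w f g G' where
  mw := h.mw
  mf := h.mf
  mg := h.mg
  mG := h4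
  ang x hx := h.ang x (h3 hx)
  force x hx := h.force x (h3 hx)
  im x hx := h.im x (h3 hx)
  lo x hx := h1.trans (h.lo x (h3 hx))
  hi x hx := (h.hi x (h3 hx)).trans (one_div_le_one_div_of_le h0 h1)

/-- The moment is determined up to `O(s)` by the cell and the arc. -/
theorem ag_moment {α β : ℂ} {η s δ E : ℝ} {w f g : ℂ → ℂ} {G : Set (ℂ × ℝ)} {x : ℂ × ℝ}
    {w₀ g₀ : ℂ} (hη0 : 0 < η) (hs : 0 < s) (hs1 : s ≤ 1) (hδ : δ ≤ s) (hE : 1 ≤ E)
    (h : Sys α β η δ w f g G) (hη : 1 / η ≤ E) (hx : x ∈ G)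
    (hw : ‖w x.1 - w₀‖ ≤ s * E) (hg : ‖g (x.1 + β * ec x.2) - g₀‖ ≤ s * E) :
    |(mo α β f g x).re - (conj (ec (⌊x.2 / s⌋ * s)) * (-conj α * w₀ + conj (β - α) * g₀)).re|
      ≤ s * (E * (4 * ‖α‖ + 2 * ‖β - α‖ + 2)) := by
  set V : ℂ := -conj α * w₀ + conj (β - α) * g₀ with hV
  set φ := x.2 with hφ
  set W := conj α * f (x.1 + α * ec φ) + conj β * g (x.1 + β * ec φ) with hW
  have hmo : mo α β f g x = conj (ec φ) * W := rfl
  have hnorm : ‖conj (ec φ)‖ = 1 := by rw [Complex.norm_conj, norm_ec]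
  have hF := h.force x hx
  -- `W - V` is small
  have hWV : W - V = conj α * (w x.1 + f (x.1 + α * ec x.2) + g (x.1 + β * ec x.2))
      - conj α * (w x.1 - w₀) + conj (β - α) * (g (x.1 + β * ec x.2) - g₀) := by
    rw [hW, hV, map_sub]
    ring
  have hb1 : ‖W - V‖ ≤ ‖α‖ * δ + ‖α‖ * (s * E) + ‖β - α‖ * (s * E) := by
    rw [hWV]
    refine (norm_add_le _ _).trans (add_le_add ((norm_sub_le _ _).trans (add_le_add ?_ ?_)) ?_)
    · rw [norm_mul, Complex.norm_conj]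
      exact mul_le_mul_of_nonneg_left hF (norm_nonneg _)
    · rw [norm_mul, Complex.norm_conj]
      exact mul_le_mul_of_nonneg_left hw (norm_nonneg _)
    · rw [norm_mul, Complex.norm_conj]
      exact mul_le_mul_of_nonneg_left hg (norm_nonneg _)
  have hb2 : ‖W - V‖ ≤ s * (E * (2 * ‖α‖ + ‖β - α‖)) := by
    refine hb1.trans ?_
    have h1 : ‖α‖ * δ ≤ ‖α‖ * (s * E) := by
      refine mul_le_mul_of_nonneg_left ?_ (norm_nonneg _)
      nlinarith
    nlinarith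
  have hWn : ‖W‖ ≤ E + s := by
    have h1 : ‖W‖ = ‖mo α β f g x‖ := by rw [hmo, norm_mul, hnorm, one_mul]
    rw [h1]
    refine (Complex.norm_le_abs_re_add_abs_im _).trans (add_le_add ?_ ((h.im x hx).trans hδ))
    rw [abs_le]
    have hl := h.lo x hx
    have hh := h.hi x hx
    constructor <;> linarith
  have hVn : ‖V‖ ≤ E + s + s * (E * (2 * ‖α‖ + ‖β - α‖)) := by
    have h1 : V = W - (W - V) := by ring
    rw [h1]
    exact (norm_sub_le _ _).trans (add_le_add hWn hb2)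
  have hfl : |φ - ⌊φ / s⌋ * s| ≤ s := by
    have h1 := Int.floor_le (φ / s)
    have h2 := Int.lt_floor_add_one (φ / s)
    rw [le_div_iff₀ hs] at h1
    rw [div_lt_iff₀ hs] at h2
    rw [abs_le]
    constructor <;> nlinarith
  have hec : ‖conj (ec φ) - conj (ec (⌊φ / s⌋ * s))‖ ≤ s := by
    rw [← map_sub, Complex.norm_conj]
    exact (ag_norm_ec_sub _ _).trans hfl
  have hdec : mo α β f g x - conj (ec (⌊φ / s⌋ * s)) * V
      = conj (ec φ) * (W - V) + (conj (ec φ) - conj (ec (⌊φ / s⌋ * s))) * V := by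
    rw [hmo]
    ring
  have hfin : ‖mo α β f g x - conj (ec (⌊φ / s⌋ * s)) * V‖
      ≤ s * (E * (4 * ‖α‖ + 2 * ‖β - α‖ + 2)) := by
    rw [hdec]
    have h1 : ‖(conj (ec φ) - conj (ec (⌊φ / s⌋ * s))) * V‖
        ≤ s * (E + s + s * (E * (2 * ‖α‖ + ‖β - α‖))) := by
      rw [norm_mul]
      exact mul_le_mul hec hVn (norm_nonneg _) hs.le
    have h2 : ‖conj (ec φ) * (W - V)‖ ≤ s * (E * (2 * ‖α‖ + ‖β - α‖)) := by
      rw [norm_mul, hnorm, one_mul]
      exact hb2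
    refine (norm_add_le _ _).trans ((add_le_add h2 h1).trans ?_)
    have h3 : 0 ≤ E * (2 * ‖α‖ + ‖β - α‖) := by positivity
    have h4 : s * (E * (2 * ‖α‖ + ‖β - α‖)) ≤ E * (2 * ‖α‖ + ‖β - α‖) :=
      mul_le_of_le_one_left h3 hs1
    have h5 : E + s + s * (E * (2 * ‖α‖ + ‖β - α‖)) ≤ 2 * E + E * (2 * ‖α‖ + ‖β - α‖) := by
      linarith
    nlinarith
  calc |(mo α β f g x).re - (conj (ec (⌊φ / s⌋ * s)) * V).re|
      = |(mo α β f g x - conj (ec (⌊φ / s⌋ * s)) * V).re| := by rw [Complex.sub_re]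
    _ ≤ ‖mo α β f g x - conj (ec (⌊φ / s⌋ * s)) * V‖ := Complex.abs_re_le_norm _
    _ ≤ _ := hfin

theorem ag_of {α β : ℂ} (h1 : AG1 α β) (h2 : S2 α β) (h3 : CU) : AG α β := by
  classical
  obtain ⟨C1, h1⟩ := h1
  obtain ⟨C2, h2⟩ := h2
  obtain ⟨C3, h3⟩ := h3
  obtain ⟨N, hN⟩ : ∃ N : ℕ, 4 * ‖α‖ + 2 * ‖β - α‖ + 2 ≤ 2 ^ N := by
    obtain ⟨N, hN⟩ := pow_unbounded_of_one_lt (4 * ‖α‖ + 2 * ‖β - α‖ + 2) one_lt_two
    exact ⟨N, hN.le⟩
  set K1 := C1 + 1 + N with hK1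
  set D := K1 * (C3 + 1) with hD
  refine ⟨D * C2 + K1 * C3 + C1 + 1, ?_⟩
  intro η s δ w f g G hη hη2 hs hsC hδ0 hδ hsys hreg hvol
  have hη1 : η ≤ 1 := by linarith
  have hle : ∀ {a b : ℕ}, a ≤ b → η ^ b ≤ η ^ a := fun hab => pow_le_pow_of_le_one hη.le hη1 hab
  have hs1 : s ≤ 1 := hsC.trans (pow_le_one₀ hη.le hη1)
  have hδs : δ ≤ s := hδ.trans (by nlinarith)
  obtain ⟨G1, w₀, g₀, mG1, hG1, vG1, hx1⟩ := h1 η s δ w f g G hη hη2 hs
    (hsC.trans (hle (by omega))) hδ0 hδs hsys hreg hvol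
  have hinv : ∀ {a b : ℕ}, a ≤ b → 1 / η ^ a ≤ 1 / η ^ b := fun hab =>
    one_div_le_one_div_of_le (pow_pos hη _) (hle hab)
  have hK1pos : 1 ≤ K1 := by omega
  have hDK : K1 ≤ D := by rw [hD]; nlinarith
  have hD1 : 1 ≤ D := hK1pos.trans hDK
  have hηD : 0 < η ^ D := pow_pos hη _
  have hηDη : η ^ D ≤ η := by simpa using hle hD1
  have hηK : η ^ K1 ≤ η := by simpa using hle hK1pos
  have hηK0 : 0 < η ^ K1 := pow_pos hη _
  -- the moment
  set Φ : ℤ × ℤ → ℤ → ℝ := fun k m =>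
    (conj (ec (m * s)) * (-conj α * w₀ k + conj (β - α) * g₀ (k, m))).re with hΦ
  have hE : (1 : ℝ) ≤ 1 / η ^ (C1 + 1) := by
    rw [le_div_iff₀ (pow_pos hη _), one_mul]
    exact pow_le_one₀ hη.le hη1
  have hmom : ∀ x ∈ G1, |(mo α β f g x).re - Φ (cellOf s x.1) ⌊x.2 / s⌋| ≤ s / η ^ D := by
    intro x hx
    have hw := (hx1 x hx).1
    have hg := (hx1 x hx).2
    have hsE : s / η ^ C1 ≤ s * (1 / η ^ (C1 + 1)) := by
      rw [div_eq_mul_one_div]
      exact mul_le_mul_of_nonneg_left (hinv (by omega)) hs.le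
    have h := ag_moment (E := 1 / η ^ (C1 + 1)) hη hs hs1 hδs hE hsys
      (by simpa using hinv (a := 1) (b := C1 + 1) (by omega)) (hG1 hx) (hw.trans hsE)
      (hg.trans hsE)
    refine h.trans ?_
    have h5 : 1 / η ^ (C1 + 1) * (4 * ‖α‖ + 2 * ‖β - α‖ + 2) ≤ 1 / η ^ (C1 + 1) * (1 / η ^ N) := by
      refine mul_le_mul_of_nonneg_left (hN.trans ?_) (by positivity)
      rw [← one_div_pow]
      refine pow_le_pow_left₀ (by norm_num) ?_ _
      rw [le_div_iff₀ hη]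
      linarith
    have h6 : 1 / η ^ (C1 + 1) * (1 / η ^ N) = 1 / η ^ K1 := by
      rw [hK1, pow_add η (C1 + 1) N, one_div_mul_one_div]
    have h7 : s / η ^ D = s * (1 / η ^ D) := by ring
    rw [h7]
    exact mul_le_mul_of_nonneg_left (h5.trans (h6.le.trans (hinv hDK))) hs.le
  have hwD : ∀ x ∈ G1, ‖w x.1 - w₀ (cellOf s x.1)‖ ≤ s / η ^ D := by
    intro x hx
    refine (hx1 x hx).1.trans ?_
    exact div_le_div_of_nonneg_left hs.le hηD (hle (by omega))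
  -- the parts in the cells
  set Gk : ℤ × ℤ → Set (ℂ × ℝ) := fun k => G1 ∩ {x | cellOf s x.1 = k} with hGk
  have mGk : ∀ k, MeasurableSet (Gk k) := fun k =>
    mG1.inter (((measurable_cellOf s).comp measurable_fst) (measurableSet_singleton k))
  have hkey : ∀ k, ∃ (G' : Set (ℂ × ℝ)) (u₀ m' : ℂ) (m : ℝ), MeasurableSet G' ∧ G' ⊆ Gk k ∧
      (ENNReal.ofReal ((η ^ K1) ^ C3 * s ^ 2) ≤ volume (Gk k) →
        ENNReal.ofReal ((η ^ D) ^ C2 * s ^ 2) ≤ volume G') ∧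
      |m| ≤ 1 / (η ^ D) ^ C2 ∧ ‖m'‖ ≤ 1 / (η ^ D) ^ C2 ∧
      ∀ x ∈ G', ‖w x.1 - u₀ - m * x.1 - m' * conj x.1‖ ≤ s ^ 2 / (η ^ D) ^ C2 ∧
        |(mo α β f g x).re - ((α * conj β).re * m
          - (conj (α * β) * m' * ec (-2 * x.2)).re)| ≤ s / (η ^ D) ^ C2 := by
    intro k
    by_cases hv : ENNReal.ofReal ((η ^ K1) ^ C3 * s ^ 2) ≤ volume (Gk k)
    · have hv' : ENNReal.ofReal (η ^ D * s ^ 2) ≤ volume (Gk k) := by
        refine le_trans (ENNReal.ofReal_le_ofReal ?_) hv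
        refine mul_le_mul_of_nonneg_right ?_ (by positivity)
        rw [← pow_mul]
        exact hle (by rw [hD]; nlinarith)
      obtain ⟨G', u₀, m', m, q1, q2, q3, q4, q5, q6⟩ := h2 (η ^ D) s δ (corner s k) (w₀ k) w f g
        (Gk k) (Φ k) hηD (hηDη.trans hη2) hs
        (hsC.trans (by rw [← pow_mul]; exact hle (by omega))) hδ0 hδ
        (ag_sys_mono hsys hηD hηDη ((inter_subset_left).trans hG1) (mGk k))
        (fun x hx => by
          have := hx.2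
          rw [← cell_eq_sq hs]
          exact this)
        hv'
        (fun x hx => by
          have h := hwD x hx.1
          have hc : cellOf s x.1 = k := hx.2
          rwa [hc] at h)
        (fun x hx => by
          have h := hmom x hx.1
          have hc : cellOf s x.1 = k := hx.2
          rwa [hc] at h)
      exact ⟨G', u₀, m', m, q1, q2, fun _ => q3, q4, q5, q6⟩
    · refine ⟨∅, 0, 0, 0, MeasurableSet.empty, empty_subset _, fun h => absurd h hv, ?_, ?_,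
        fun x hx => absurd hx (by simp)⟩
      · rw [abs_zero]; positivity
      · rw [norm_zero]; positivity
  choose G' u₀ m' m q1 q2 q3 q4 q5 q6 using hkey
  have hbig : (η ^ D) ^ C2 * (η ^ K1) ^ C3 = η ^ (D * C2 + K1 * C3) := by
    rw [pow_add η (D * C2) (K1 * C3), pow_mul η D C2, pow_mul η K1 C3]
  have hvU : ENNReal.ofReal ((η ^ D) ^ C2 * (η ^ K1) ^ C3) ≤ volume (⋃ k, G' k) := by
    refine h3 (η ^ K1) s ((η ^ D) ^ C2) G1 G' hηK0 (hηK.trans hη2) hs hs1 (by positivity) mG1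
      ?_ ?_ (fun k => ⟨q1 k, q2 k⟩) q3
    · intro x hx
      refine ⟨(hreg x (hG1 hx)).trans (one_div_le_one_div_of_le hηK0 hηK), hsys.ang x (hG1 hx)⟩
    · exact le_trans (ENNReal.ofReal_le_ofReal (hle (by omega))) vG1
  have hCC : (η ^ D) ^ C2 = η ^ (D * C2) := (pow_mul η D C2).symm
  refine ⟨⋃ k, G' k, u₀, m', m, MeasurableSet.iUnion q1,
    iUnion_subset fun k => (q2 k).trans (inter_subset_left.trans hG1), ?_, ?_, ?_, ?_⟩
  · refine le_trans (ENNReal.ofReal_le_ofReal ?_) hvU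
    rw [hbig]
    exact hle (by omega)
  · intro k
    refine (q4 k).trans ?_
    rw [hCC]
    exact hinv (by omega)
  · intro k
    refine (q5 k).trans ?_
    rw [hCC]
    exact hinv (by omega)
  · intro x hx
    obtain ⟨k, hk⟩ := mem_iUnion.mp hx
    have hc : cellOf s x.1 = k := (q2 k hk).2
    rw [hc]
    obtain ⟨r1, r2⟩ := q6 k x hk
    rw [hCC] at r1 r2
    refine ⟨r1.trans ?_, r2.trans ?_⟩
    · exact div_le_div_of_nonneg_left (by positivity) (pow_pos hη _) (hle (by omega))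
    · exact div_le_div_of_nonneg_left hs.le (pow_pos hη _) (hle (by omega))

end Pool.Agent.H2.T2
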