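import Pool.Agent.H2.T2.Cell

/-!
# Shears of `ℂ × ℝ`
-/

open MeasureTheory Set
open scoped ComplexConjugate Real

namespace Pool.Agent.H2.T2

/-- The shear `(z, t) ↦ (z + c t, t)` preserves the volume. -/
theorem mp_shear {c : ℝ → ℂ} (hc : Measurable c) :
    MeasurePreserving (fun x : ℂ × ℝ => (x.1 + c x.2, x.2)) volume volume := by
  have h1 : MeasurePreserving (fun p : ℝ × ℂ => (p.1, p.2 + c p.1))
      ((volume : Measure ℝ).prod (volume : Measure ℂ)) (volume.prod volume) := by
    refine (MeasurePreserving.id (volume : Measure ℝ)).skew_product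
      (g := fun t z => z + c t) ?_ ?_
    · exact measurable_snd.add (hc.comp measurable_fst)
    · exact Filter.Eventually.of_forall fun t => (measurePreserving_add_right volume (c t)).map_eq
  have h2 : MeasurePreserving (Prod.swap : ℂ × ℝ → ℝ × ℂ) (volume.prod volume)
      (volume.prod volume) := Measure.measurePreserving_swap
  have h3 : MeasurePreserving (Prod.swap : ℝ × ℂ → ℂ × ℝ) (volume.prod volume)
      (volume.prod volume) := Measure.measurePreserving_swap
  exact (h3.comp h1).comp h2

theorem measurable_shear {c : ℝ → ℂ} (hc : Measurable c) :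
    Measurable (fun x : ℂ × ℝ => (x.1 + c x.2, x.2)) := (mp_shear hc).measurable

theorem volume_shear_preimage {c : ℝ → ℂ} (hc : Measurable c) {G : Set (ℂ × ℝ)}
    (hG : MeasurableSet G) :
    volume ((fun x : ℂ × ℝ => (x.1 + c x.2, x.2)) ⁻¹' G) = volume G :=
  (mp_shear hc).measure_preimage hG.nullMeasurableSet

end Pool.Agent.H2.T2
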