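import Pool.Agent.H2.T2.Defs2
import Pool.Agent.H2.T2.Cell
import Pool.Agent.H2.T2.Shear

/-!
# The boxes in which the vertex changes its cell
-/

open MeasureTheory Set
open scoped ComplexConjugate Real

namespace Pool.Agent.H2.T2

/-- The points of the line close to the grid of side `h`. -/
def gridNear (R h w : ℝ) : Set ℝ := {u | |u| ≤ R ∧ ∃ k : ℤ, |u - k * h| ≤ w}

theorem measurableSet_gridNear (R h w : ℝ) : MeasurableSet (gridNear R h w) := by
  have h1 : gridNear R h w = {u | |u| ≤ R} ∩ ⋃ k : ℤ, {u | |u - k * h| ≤ w} := by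
    ext u
    simp [gridNear]
  rw [h1]
  refine (measurableSet_le (by fun_prop) measurable_const).inter
    (MeasurableSet.iUnion fun k => measurableSet_le (by fun_prop) measurable_const)

theorem volume_gridNear_le {R h w : ℝ} (hh : 0 < h) (h1 : h ≤ 1) (hR : 0 ≤ R) (hw : 0 ≤ w) :
    volume (gridNear R h w) ≤ ENNReal.ofReal ((2 * R + 2 * w + 3) * (2 * w) / h) := by
  set N : ℕ := ⌈(R + w) / h⌉₊ with hN
  have hq0 : 0 ≤ (R + w) / h := by positivity
  have hN1 : (R + w) / h ≤ N := Nat.le_ceil _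
  have hN2 : (N : ℝ) < (R + w) / h + 1 := Nat.ceil_lt_add_one hq0
  have hsub : gridNear R h w ⊆
      ⋃ k ∈ Finset.Icc (-(N : ℤ)) N, Icc ((k : ℝ) * h - w) ((k : ℝ) * h + w) := by
    rintro u ⟨hu, k, hk⟩
    rw [abs_le] at hu hk
    have hk1 : (k : ℝ) * h ≤ R + w := by linarith
    have hk2 : -(R + w) ≤ (k : ℝ) * h := by linarith
    have hNh : R + w ≤ N * h := by rwa [div_le_iff₀ hh] at hN1
    have hk3 : (k : ℝ) ≤ N := by
      by_contra hc
      push Not at hc
      nlinarith
    have hk4 : -(N : ℝ) ≤ k := by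
      by_contra hc
      push Not at hc
      nlinarith
    simp only [mem_iUnion, Finset.mem_Icc, mem_Icc, exists_prop]
    refine ⟨k, ⟨by exact_mod_cast hk4, by exact_mod_cast hk3⟩, by linarith, by linarith⟩
  calc volume (gridNear R h w) ≤ volume (⋃ k ∈ Finset.Icc (-(N : ℤ)) N,
        Icc ((k : ℝ) * h - w) ((k : ℝ) * h + w)) := measure_mono hsub
    _ ≤ ∑ k ∈ Finset.Icc (-(N : ℤ)) N, volume (Icc ((k : ℝ) * h - w) ((k : ℝ) * h + w)) :=
        measure_biUnion_finset_le _ _
    _ = ∑ _k ∈ Finset.Icc (-(N : ℤ)) N, ENNReal.ofReal (2 * w) := by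
        refine Finset.sum_congr rfl fun k _ => ?_
        rw [Real.volume_Icc]
        congr 1
        ring
    _ = ENNReal.ofReal ((2 * N + 1) * (2 * w)) := by
        have h2 : ((N : ℤ) + 1 - -(N : ℤ)).toNat = 2 * N + 1 := by omega
        have h3 : (2 * (N : ℝ) + 1) = ((2 * N + 1 : ℕ) : ℝ) := by push_cast; ring
        have h4 : ENNReal.ofReal (((2 * N + 1 : ℕ) : ℝ) * (2 * w)) =
            ENNReal.ofReal ((2 * N + 1 : ℕ) : ℝ) * ENNReal.ofReal (2 * w) :=
          ENNReal.ofReal_mul (Nat.cast_nonneg _)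
        rw [Finset.sum_const, Int.card_Icc, nsmul_eq_mul, h2, h3, h4, ENNReal.ofReal_natCast]
    _ ≤ ENNReal.ofReal ((2 * R + 2 * w + 3) * (2 * w) / h) := by
        refine ENNReal.ofReal_le_ofReal ?_
        have h3 : (2 * (N : ℝ) + 1) ≤ (2 * R + 2 * w + 3) / h := by
          rw [le_div_iff₀ hh]
          have h4 : (N : ℝ) * h ≤ R + w + h := by
            have h5 : (N : ℝ) * h ≤ ((R + w) / h + 1) * h :=
              mul_le_mul_of_nonneg_right hN2.le hh.le
            have h6 : ((R + w) / h + 1) * h = R + w + h := by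
              field_simp
            linarith
          nlinarith
        calc (2 * (N : ℝ) + 1) * (2 * w) ≤ (2 * R + 2 * w + 3) / h * (2 * w) :=
              mul_le_mul_of_nonneg_right h3 (by positivity)
          _ = (2 * R + 2 * w + 3) * (2 * w) / h := by ring

/-- The points of the plane with a coordinate close to the grid. -/
def gridSet (R h w : ℝ) : Set ℂ :=
  {b | (b.re ∈ gridNear R h w ∧ |b.im| ≤ R) ∨ (b.im ∈ gridNear R h w ∧ |b.re| ≤ R)}

theorem measurableSet_gridSet (R h w : ℝ) : MeasurableSet (gridSet R h w) := by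
  refine MeasurableSet.union ?_ ?_
  · exact (Complex.measurable_re (measurableSet_gridNear R h w)).inter
      (measurableSet_le (continuous_abs.measurable.comp Complex.measurable_im) measurable_const)
  · exact (Complex.measurable_im (measurableSet_gridNear R h w)).inter
      (measurableSet_le (continuous_abs.measurable.comp Complex.measurable_re) measurable_const)

theorem volume_gridSet_le {R h w : ℝ} (hh : 0 < h) (h1 : h ≤ 1) (hR : 0 ≤ R) (hw : 0 ≤ w) :
    volume (gridSet R h w) ≤
      ENNReal.ofReal (2 * ((2 * R + 2 * w + 3) * (2 * w) / h * (2 * R))) := by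
  have hm := measurableSet_gridNear R h w
  have hv := volume_gridNear_le hh h1 hR hw
  have hq : 0 ≤ (2 * R + 2 * w + 3) * (2 * w) / h := by positivity
  have e1 : gridSet R h w = Complex.measurableEquivRealProd ⁻¹'
      ((gridNear R h w ×ˢ Icc (-R) R) ∪ (Icc (-R) R ×ˢ gridNear R h w)) := by
    ext z
    simp only [gridSet, mem_ofPred_eq, mem_preimage, Complex.measurableEquivRealProd_apply,
      mem_union, mem_prod, mem_Icc, ← abs_le]
    tauto
  have hI : volume (Icc (-R) R) = ENNReal.ofReal (2 * R) := by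
    rw [Real.volume_Icc]
    congr 1
    ring
  rw [e1, Complex.volume_preserving_equiv_real_prod.measure_preimage
    (((hm.prod measurableSet_Icc).union (measurableSet_Icc.prod hm)).nullMeasurableSet)]
  refine (measure_union_le _ _).trans ?_
  have e2 : ENNReal.ofReal (2 * ((2 * R + 2 * w + 3) * (2 * w) / h * (2 * R))) =
      ENNReal.ofReal ((2 * R + 2 * w + 3) * (2 * w) / h) * ENNReal.ofReal (2 * R) +
      ENNReal.ofReal ((2 * R + 2 * w + 3) * (2 * w) / h) * ENNReal.ofReal (2 * R) := by
    rw [← ENNReal.ofReal_mul hq, ← ENNReal.ofReal_add (by positivity) (by positivity)]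
    congr 1
    ring
  rw [Measure.volume_eq_prod, Measure.prod_prod, Measure.prod_prod, hI, e2]
  refine add_le_add (mul_le_mul_left hv _) ?_
  rw [mul_comm]
  exact mul_le_mul_left hv _

/-- If a coordinate is not close to the grid, a small motion does not change its cell. -/
theorem floor_eq_of_not_near {R h w u v : ℝ} (hh : 0 < h) (hu : |u| ≤ R)
    (hn : u ∉ gridNear R h w) (hv : |v - u| ≤ w) : ⌊v / h⌋ = ⌊u / h⌋ := by
  have hn' : ∀ k : ℤ, w < |u - k * h| := by
    intro k
    by_contra hc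
    push Not at hc
    exact hn ⟨hu, k, hc⟩
  have hw : 0 ≤ w := (abs_nonneg _).trans hv
  set k : ℤ := ⌊u / h⌋ with hk
  have h1 : (k : ℝ) ≤ u / h := Int.floor_le _
  have h2 : u / h < k + 1 := Int.lt_floor_add_one _
  rw [le_div_iff₀ hh] at h1
  rw [div_lt_iff₀ hh] at h2
  have h3 := hn' k
  have h4 := hn' (k + 1)
  rw [abs_of_nonneg (by linarith)] at h3
  push_cast at h4
  rw [abs_of_nonpos (by linarith)] at h4
  rw [abs_le] at hv
  rw [Int.floor_eq_iff, le_div_iff₀ hh, div_lt_iff₀ hh]
  constructor <;> linarith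

theorem norm_ec_sub_ec_le (s t : ℝ) : ‖ec s - ec t‖ ≤ |s - t| := by
  have h1 : ec s - ec t = ec t * (Complex.exp (((s - t : ℝ) : ℂ) * Complex.I) - 1) := by
    have : ec s = ec t * ec (s - t) := by rw [← ec_add]; congr 1; ring
    rw [this]
    unfold ec
    ring
  rw [h1, norm_mul, norm_ec, one_mul]
  have h2 := Real.norm_exp_I_mul_ofReal_sub_one_le (x := s - t)
  rw [mul_comm Complex.I] at h2
  simpa using h2

theorem abs_sub_lt_of_floor_eq {s a b : ℝ} (hs : 0 < s) (h : ⌊a / s⌋ = ⌊b / s⌋) :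
    |a - b| < s := by
  have h1 := Int.floor_le (a / s)
  have h2 := Int.lt_floor_add_one (a / s)
  have h3 := Int.floor_le (b / s)
  have h4 := Int.lt_floor_add_one (b / s)
  rw [h] at h1 h2
  rw [le_div_iff₀ hs] at h1 h3
  rw [div_lt_iff₀ hs] at h2 h4
  rw [abs_lt]
  constructor <;> linarith

/-- The boxes in which the vertex changes its cell have small total measure. -/
theorem cross (β : ℂ) : Cross β := by
  set K : ℝ := ‖β‖ with hK
  have hK0 : 0 ≤ K := norm_nonneg _
  set M : ℝ := 2 * (((2 * (1 + K) + 2 * (K + 2) + 3) * (2 * (K + 2))) * (2 * (1 + K))) *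
    (2 * π) with hM
  have hM0 : 0 ≤ M := by positivity
  obtain ⟨n, hn⟩ : ∃ n : ℕ, M < 2 ^ n := pow_unbounded_of_one_lt M one_lt_two
  refine ⟨n + 2, fun η s h hη hη2 hs hsh hh1 => ?_⟩
  have hh : 0 < h := hs.trans_le hsh
  have hs1 : s ≤ 1 := hsh.trans hh1
  set R : ℝ := 1 / η + K with hR
  set w : ℝ := (K + 2) * s with hw
  have hR0 : 0 ≤ R := by positivity
  have hw0 : 0 ≤ w := by positivity
  have hη1 : 1 ≤ 1 / η := by
    rw [le_div_iff₀ hη]; linarith
  have hη2' : 2 ≤ 1 / η := by
    rw [le_div_iff₀ hη]; linarith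
  have hc : Measurable (fun t : ℝ => β * ec t) := measurable_ec.const_mul β
  set G : Set (ℂ × ℝ) := gridSet R h w ×ˢ Ico 0 (2 * π) with hG
  have hGm : MeasurableSet G := (measurableSet_gridSet R h w).prod measurableSet_Ico
  refine ⟨(fun x : ℂ × ℝ => (x.1 + β * ec x.2, x.2)) ⁻¹' G, measurable_shear hc hGm, ?_, ?_⟩
  · rw [volume_shear_preimage hc hGm, hG, Measure.volume_eq_prod, Measure.prod_prod,
      Real.volume_Ico, sub_zero]
    have hp : 0 ≤ 2 * ((2 * R + 2 * w + 3) * (2 * w) / h * (2 * R)) := by positivity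
    calc volume (gridSet R h w) * ENNReal.ofReal (2 * π)
        ≤ ENNReal.ofReal (2 * ((2 * R + 2 * w + 3) * (2 * w) / h * (2 * R))) *
          ENNReal.ofReal (2 * π) := mul_le_mul_left (volume_gridSet_le hh hh1 hR0 hw0) _
      _ = ENNReal.ofReal (2 * ((2 * R + 2 * w + 3) * (2 * w) / h * (2 * R)) * (2 * π)) := by
          rw [← ENNReal.ofReal_mul hp]
      _ ≤ ENNReal.ofReal (s / h / η ^ (n + 2)) := by
          refine ENNReal.ofReal_le_ofReal ?_
          have hR1 : R ≤ (1 + K) * (1 / η) := by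
            rw [hR]
            nlinarith
          have hw1 : w ≤ (K + 2) * (1 / η) := by
            rw [hw]
            refine mul_le_mul_of_nonneg_left (hs1.trans hη1) (by positivity)
          have h3 : (3 : ℝ) ≤ 3 * (1 / η) := by linarith
          have hA : 2 * R + 2 * w + 3 ≤ (2 * (1 + K) + 2 * (K + 2) + 3) * (1 / η) := by
            nlinarith
          have hsh0 : 0 ≤ s / h := by positivity
          have e1 : 2 * ((2 * R + 2 * w + 3) * (2 * w) / h * (2 * R)) * (2 * π)
              = 2 * (((2 * R + 2 * w + 3) * (2 * (K + 2))) * (2 * R)) * (2 * π) * (s / h) := by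
            rw [hw]; ring
          have e2 : s / h / η ^ (n + 2) = (1 / η) ^ n * (1 / η) ^ 2 * (s / h) := by
            rw [← pow_add, one_div, inv_pow]
            field_simp
          rw [e1, e2]
          refine mul_le_mul_of_nonneg_right ?_ hsh0
          have h5 : M * (1 / η) ^ 2 ≤ (1 / η) ^ n * (1 / η) ^ 2 := by
            refine mul_le_mul_of_nonneg_right ?_ (by positivity)
            exact hn.le.trans (pow_le_pow_left₀ (by norm_num) hη2' n)
          refine le_trans ?_ h5
          have h6 : (2 * R + 2 * w + 3) * (2 * (K + 2)) * (2 * R) ≤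
              ((2 * (1 + K) + 2 * (K + 2) + 3) * (1 / η)) * (2 * (K + 2)) *
                (2 * ((1 + K) * (1 / η))) := by
            refine mul_le_mul ?_ (by linarith) (by positivity) (by positivity)
            exact mul_le_mul_of_nonneg_right hA (by positivity)
          have h7 : M * (1 / η) ^ 2 = 2 * (((2 * (1 + K) + 2 * (K + 2) + 3) * (1 / η)) *
              (2 * (K + 2)) * (2 * ((1 + K) * (1 / η)))) * (2 * π) := by
            rw [hM]; ring
          rw [h7]
          have hpi : (0 : ℝ) ≤ 2 * π := by positivity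
          refine mul_le_mul_of_nonneg_right ?_ hpi
          linarith
  · intro x y hx1 hx2 hx3 hxB hc1 hc2
    have hb : ‖x.1 + β * ec x.2‖ ≤ R := by
      refine (norm_add_le _ _).trans ?_
      rw [norm_mul, norm_ec, mul_one]
      linarith
    have hre : |(x.1 + β * ec x.2).re| ≤ R := (Complex.abs_re_le_norm _).trans hb
    have him : |(x.1 + β * ec x.2).im| ≤ R := (Complex.abs_im_le_norm _).trans hb
    have hnG : x.1 + β * ec x.2 ∉ gridSet R h w := by
      intro hmem
      exact hxB ⟨hmem, hx2, hx3⟩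
    have hdist : ‖(y.1 + β * ec y.2) - (x.1 + β * ec x.2)‖ ≤ w := by
      have hy1 : y.1 ∈ sq (corner s (cellOf s x.1)) s := by
        rw [← hc1]; exact mem_sq_cell hs y.1
      have h1 : ‖y.1 - x.1‖ ≤ 2 * s := norm_sub_le_of_mem_sq hy1 (mem_sq_cell hs x.1)
      have h2 : ‖ec y.2 - ec x.2‖ ≤ s :=
        (norm_ec_sub_ec_le _ _).trans (abs_sub_lt_of_floor_eq hs hc2).le
      have e1 : (y.1 + β * ec y.2) - (x.1 + β * ec x.2) =
          (y.1 - x.1) + β * (ec y.2 - ec x.2) := by ring
      rw [e1]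
      refine (norm_add_le _ _).trans ?_
      rw [norm_mul]
      have h3 : ‖β‖ * ‖ec y.2 - ec x.2‖ ≤ K * s := mul_le_mul_of_nonneg_left h2 hK0
      rw [hw]
      linarith
    have hdre : |(y.1 + β * ec y.2).re - (x.1 + β * ec x.2).re| ≤ w := by
      rw [← Complex.sub_re]
      exact (Complex.abs_re_le_norm _).trans hdist
    have hdim : |(y.1 + β * ec y.2).im - (x.1 + β * ec x.2).im| ≤ w := by
      rw [← Complex.sub_im]
      exact (Complex.abs_im_le_norm _).trans hdist
    have hn1 : (x.1 + β * ec x.2).re ∉ gridNear R h w := fun hm => hnG (Or.inl ⟨hm, him⟩)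
    have hn2 : (x.1 + β * ec x.2).im ∉ gridNear R h w := fun hm => hnG (Or.inr ⟨hm, hre⟩)
    unfold cellOf
    rw [floor_eq_of_not_near hh hre hn1 hdre, floor_eq_of_not_near hh him hn2 hdim]

end Pool.Agent.H2.T2
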