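import Pool.Agent.H98.T2.AG1b
import Pool.Agent.H2.T2.Cross

/-!
# The structure theorem on one scale
-/

namespace Pool.Agent.H2.T2

theorem ag1_of {α β : ℂ} (h1 : S1 α β) (h2 : S1 (α - β) (-β)) (h3 : SwapS α β) (h4 : CU) :
    AG1 α β :=
  ag1_of_cross h1 h2 h3 h4 (cross β)

end Pool.Agent.H2.T2
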