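import Pool.Agent.H2.T2.Defs
import Pool.Agent.H2.T2.Cell
import Pool.Agent.H38.PT.Cherry

/-!
# Homothetic copies differ by constants on dense sets: first half of `Aff`
-/

open MeasureTheory Set
open scoped ComplexConjugate Real ENNReal

namespace Pool.Agent.H2.T2

namespace AffAaux

/-- The square containing all preimages. -/
noncomputable abbrev Y : Set ℂ := sq (-8 - 8 * Complex.I) 16

/-- The parameters of the homotheties. -/
noncomputable abbrev H : Set (ℝ × ℂ) := Icc (1 / 2 : ℝ) 1 ×ˢ Y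

theorem mY : MeasurableSet Y := measurableSet_sq _ _

theorem mH : MeasurableSet H := measurableSet_Icc.prod mY

theorem vY : volume Y = ENNReal.ofReal 256 := by
  rw [volume_sq _ (by norm_num)]; norm_num

theorem vH : volume H = ENNReal.ofReal 128 := by
  rw [Measure.volume_eq_prod, Measure.prod_prod, vY, Real.volume_Icc,
    ← ENNReal.ofReal_mul (by norm_num)]
  norm_num

/-- Volume of `ℂ³` is an additive Haar measure. -/
theorem haar3 : (volume : Measure (ℂ × ℂ × ℂ)).IsAddHaarMeasure := by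
  have h2 : (volume : Measure (ℂ × ℂ)).IsAddHaarMeasure :=
    Measure.prod.instIsAddHaarMeasure _ _
  exact Measure.prod.instIsAddHaarMeasure _ _

/-- The triples mapped by a homothety. -/
noncomputable def h3 (h : ℝ × ℂ) (q : ℂ × ℂ × ℂ) : ℂ × ℂ × ℂ :=
  (hmap h q.1, hmap h q.2.1, hmap h q.2.2)

theorem measurable_hmap : Measurable (fun p : (ℝ × ℂ) × ℂ => hmap p.1 p.2) := by
  unfold hmap
  fun_prop

theorem measurable_h3 : Measurable (fun p : (ℝ × ℂ) × (ℂ × ℂ × ℂ) => h3 p.1 p.2) := by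
  unfold h3 hmap
  fun_prop

/-- Contracting homotheties enlarge preimages. -/
theorem vol_preimage (h : ℝ × ℂ) (h0 : 0 < h.1) (h1 : h.1 ≤ 1) (T : Set (ℂ × ℂ × ℂ)) :
    volume T ≤ volume {q | h3 h q ∈ T} := by
  have := haar3
  have e : {q | h3 h q ∈ T} = (fun q : ℂ × ℂ × ℂ => h.1 • q) ⁻¹'
      ((fun q => q + (h.2, h.2, h.2)) ⁻¹' T) := by
    ext q
    have : h3 h q = h.1 • q + (h.2, h.2, h.2) := by
      ext <;> simp [h3, hmap]
    simp only [mem_ofPred_eq, mem_preimage, this]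
  rw [e, Measure.addHaar_preimage_smul _ h0.ne', measure_preimage_add_right]
  have : (1 : ℝ≥0∞) ≤ ENNReal.ofReal |(h.1 ^ Module.finrank ℝ (ℂ × ℂ × ℂ))⁻¹| := by
    rw [ENNReal.one_le_ofReal, abs_of_pos (by positivity)]
    exact (one_le_inv₀ (by positivity)).2 (pow_le_one₀ h0.le h1)
  calc volume T = 1 * volume T := (one_mul _).symm
    _ ≤ _ := by gcongr

theorem inv_mem {h : ℝ × ℂ} (h0 : 1 / 2 ≤ h.1)
    (h2 : h.2 ∈ sq (-3 - 3 * Complex.I) 6) {y : ℂ} (hy : hmap h y ∈ sq 0 1) : y ∈ Y := by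
  simp only [sq, hmap, mem_ofPred_eq, Complex.add_re, Complex.add_im, Complex.mul_re,
    Complex.mul_im, Complex.ofReal_re, Complex.ofReal_im, zero_mul, sub_zero, add_zero,
    Complex.zero_re, Complex.zero_im, zero_add, Complex.sub_re, Complex.sub_im,
    Complex.neg_re, Complex.neg_im, Complex.I_re, Complex.I_im, Complex.re_ofNat,
    Complex.im_ofNat, mul_zero, mul_one] at hy h2 ⊢
  obtain ⟨a1, a2, a3, a4⟩ := hy
  obtain ⟨b1, b2, b3, b4⟩ := h2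
  refine ⟨?_, ?_, ?_, ?_⟩ <;> nlinarith

/-- The set of cherries. -/
def CH (R : Set ℂ) (Ea Eb : Set (ℂ × ℂ)) : Set (ℂ × ℂ × ℂ) :=
  {q | q.1 ∈ R ∧ (q.1, q.2.1) ∈ Ea ∧ (q.1, q.2.2) ∈ Eb}

theorem mCH {R : Set ℂ} {Ea Eb : Set (ℂ × ℂ)} (hR : MeasurableSet R) (ha : MeasurableSet Ea)
    (hb : MeasurableSet Eb) : MeasurableSet (CH R Ea Eb) := by
  unfold CH
  have e1 : Measurable (fun q : ℂ × ℂ × ℂ => (q.1, q.2.1)) := by fun_prop
  have e2 : Measurable (fun q : ℂ × ℂ × ℂ => (q.1, q.2.2)) := by fun_prop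
  exact (measurable_fst hR).inter ((e1 ha).inter (e2 hb))

theorem slice_CH (R : Set ℂ) (Ea Eb : Set (ℂ × ℂ)) (z : ℂ) (hz : z ∈ R) :
    Prod.mk z ⁻¹' (CH R Ea Eb) = {z' | (z, z') ∈ Ea} ×ˢ {z' | (z, z') ∈ Eb} := by
  ext q
  simp [CH, hz]

theorem slice_CH' (R : Set ℂ) (Ea Eb : Set (ℂ × ℂ)) (z : ℂ) (hz : z ∉ R) :
    Prod.mk z ⁻¹' (CH R Ea Eb) = ∅ := by
  ext q
  simp [CH, hz]

theorem vol_CH_ge {R : Set ℂ} {Ea Eb : Set (ℂ × ℂ)} {η : ℝ} (h0 : 0 ≤ η) (hR : MeasurableSet R)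
    (ha : MeasurableSet Ea) (hb : MeasurableSet Eb)
    (h1 : ∀ z ∈ R, ENNReal.ofReal η ≤ volume {z' | (z, z') ∈ Ea})
    (h2 : ∀ z ∈ R, ENNReal.ofReal η ≤ volume {z' | (z, z') ∈ Eb})
    (h3 : ENNReal.ofReal η ≤ volume R) :
    ENNReal.ofReal (η ^ 3) ≤ volume (CH R Ea Eb) := by
  rw [Measure.volume_eq_prod, Measure.prod_apply (mCH hR ha hb)]
  calc ENNReal.ofReal (η ^ 3) = ENNReal.ofReal (η ^ 2) * ENNReal.ofReal η := by
        rw [← ENNReal.ofReal_mul (by positivity)]; ring_nf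
    _ ≤ ENNReal.ofReal (η ^ 2) * volume R := by gcongr
    _ = ∫⁻ z in R, ENNReal.ofReal (η ^ 2) := by rw [setLIntegral_const]
    _ ≤ ∫⁻ z in R, volume (Prod.mk z ⁻¹' (CH R Ea Eb)) := by
        refine setLIntegral_mono' hR fun z hz => ?_
        rw [slice_CH R Ea Eb z hz, Measure.volume_eq_prod, Measure.prod_prod,
          show η ^ 2 = η * η by ring, ENNReal.ofReal_mul h0]
        exact mul_le_mul' (h1 z hz) (h2 z hz)
    _ ≤ _ := setLIntegral_le_lintegral _ _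

theorem vol_CH_le {R Rs : Set ℂ} {Ea Eb : Set (ℂ × ℂ)} {M τ : ℝ≥0∞} (hR : MeasurableSet R)
    (hRs : MeasurableSet Rs)
    (ha : MeasurableSet Ea) (hb : MeasurableSet Eb)
    (h1 : ∀ z ∈ R, volume {z' | (z, z') ∈ Ea} ≤ M)
    (h2 : ∀ z ∈ R, volume {z' | (z, z') ∈ Eb} ≤ M)
    (h3 : ∀ z ∈ R, z ∉ Rs → volume {z' | (z, z') ∈ Ea} ≤ τ ∨ volume {z' | (z, z') ∈ Eb} ≤ τ) :
    volume (CH R Ea Eb) ≤ M * M * volume Rs + M * τ * volume R := by
  rw [Measure.volume_eq_prod, Measure.prod_apply (mCH hR ha hb), ← lintegral_add_compl _ hRs]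
  have hk : ∀ z, volume (Prod.mk z ⁻¹' (CH R Ea Eb)) ≤ M * M := by
    intro z
    by_cases hz : z ∈ R
    · rw [slice_CH R Ea Eb z hz, Measure.volume_eq_prod, Measure.prod_prod]
      exact mul_le_mul' (h1 z hz) (h2 z hz)
    · rw [slice_CH' R Ea Eb z hz]; simp
  have hk2 : ∀ z, z ∉ Rs → volume (Prod.mk z ⁻¹' (CH R Ea Eb)) ≤
      R.indicator (fun _ => M * τ) z := by
    intro z hz'
    by_cases hz : z ∈ R
    · rw [slice_CH R Ea Eb z hz, Measure.volume_eq_prod, Measure.prod_prod,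
        indicator_of_mem hz]
      rcases h3 z hz hz' with h | h
      · rw [mul_comm M τ]; exact mul_le_mul' h (h2 z hz)
      · exact mul_le_mul' (h1 z hz) h
    · rw [slice_CH' R Ea Eb z hz]; simp
  gcongr
  · calc ∫⁻ z in Rs, volume (Prod.mk z ⁻¹' (CH R Ea Eb)) ≤ ∫⁻ z in Rs, M * M :=
          lintegral_mono fun z => hk z
      _ = _ := by rw [setLIntegral_const]
  · calc ∫⁻ z in Rsᶜ, volume (Prod.mk z ⁻¹' (CH R Ea Eb))
        ≤ ∫⁻ z in Rsᶜ, R.indicator (fun _ => M * τ) z :=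
          setLIntegral_mono' hRs.compl fun z hz => hk2 z hz
      _ ≤ ∫⁻ z, R.indicator (fun _ => M * τ) z := setLIntegral_le_lintegral _ _
      _ = _ := by rw [lintegral_indicator hR, setLIntegral_const]

/-- The set of homotheties and triples mapped to cherries. -/
def EE (R : Set ℂ) (Ea Eb : Set (ℂ × ℂ)) : Set ((ℝ × ℂ) × (ℂ × ℂ × ℂ)) :=
  {p | h3 p.1 p.2 ∈ CH R Ea Eb}

theorem mEE {R : Set ℂ} {Ea Eb : Set (ℂ × ℂ)} (hR : MeasurableSet R) (ha : MeasurableSet Ea)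
    (hb : MeasurableSet Eb) : MeasurableSet (EE R Ea Eb) :=
  measurable_h3 (mCH hR ha hb)

/-- Restricted measures. -/
noncomputable abbrev μH : Measure (ℝ × ℂ) := volume.restrict H

noncomputable abbrev νY : Measure (ℂ × ℂ × ℂ) := volume.restrict (Y ×ˢ Y ×ˢ Y)

theorem mYYY : MeasurableSet (Y ×ˢ Y ×ˢ Y) := mY.prod (mY.prod mY)

theorem νY_univ : νY univ = ENNReal.ofReal (2 ^ 24) := by
  rw [Measure.restrict_apply_univ, Measure.volume_eq_prod, Measure.prod_prod,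
    Measure.volume_eq_prod, Measure.prod_prod, vY, ← ENNReal.ofReal_mul (by norm_num),
    ← ENNReal.ofReal_mul (by norm_num)]
  norm_num

theorem μH_univ : μH univ = ENNReal.ofReal 128 := by
  rw [Measure.restrict_apply_univ, vH]

theorem vol_EE {R : Set ℂ} {Ea Eb : Set (ℂ × ℂ)} (hR : MeasurableSet R)
    (ha : MeasurableSet Ea) (hb : MeasurableSet Eb)
    (ha1 : ∀ p ∈ Ea, p.1 ∈ sq 0 1 ∧ p.2 ∈ sq 0 1 ∧ p.1 ≠ p.2)
    (hb1 : ∀ p ∈ Eb, p.1 ∈ sq 0 1 ∧ p.2 ∈ sq 0 1 ∧ p.1 ≠ p.2) :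
    ENNReal.ofReal 16 * volume (CH R Ea Eb) ≤ μH.prod νY (EE R Ea Eb) := by
  rw [Measure.prod_apply (mEE hR ha hb)]
  set H0 : Set (ℝ × ℂ) := Icc (1 / 2 : ℝ) 1 ×ˢ sq (-3 - 3 * Complex.I) 6 with hH0
  have mH0 : MeasurableSet H0 := measurableSet_Icc.prod (measurableSet_sq _ _)
  have hsub : sq (-3 - 3 * Complex.I) 6 ⊆ Y := by
    intro z hz
    simp only [sq, mem_ofPred_eq, Complex.sub_re, Complex.sub_im,
      Complex.neg_re, Complex.neg_im, Complex.I_re, Complex.I_im, Complex.re_ofNat,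
      Complex.im_ofNat, mul_zero, mul_one, Complex.mul_re,
      Complex.mul_im, sub_zero, add_zero] at hz ⊢
    obtain ⟨b1, b2, b3, b4⟩ := hz
    refine ⟨?_, ?_, ?_, ?_⟩ <;> linarith
  have hsub2 : H0 ⊆ H := prod_mono subset_rfl hsub
  have hv : volume H0 = ENNReal.ofReal 18 := by
    rw [Measure.volume_eq_prod, Measure.prod_prod, volume_sq _ (by norm_num), Real.volume_Icc,
      ← ENNReal.ofReal_mul (by norm_num)]
    norm_num
  calc ENNReal.ofReal 16 * volume (CH R Ea Eb)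
      ≤ volume (CH R Ea Eb) * volume H0 := by
        rw [hv, mul_comm]; gcongr; norm_num
    _ = ∫⁻ h in H0, volume (CH R Ea Eb) := by rw [setLIntegral_const]
    _ ≤ ∫⁻ h in H0, νY (Prod.mk h ⁻¹' (EE R Ea Eb)) := by
        refine setLIntegral_mono' mH0 fun h hh => ?_
        obtain ⟨⟨t0, t1⟩, hc⟩ := hh
        refine (vol_preimage h (by linarith) t1 _).trans ?_
        rw [Measure.restrict_apply' mYYY]
        refine measure_mono ?_
        intro q hq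
        refine ⟨hq, ?_, ?_, ?_⟩
        · exact inv_mem t0 hc (ha1 _ hq.2.1).1
        · exact inv_mem t0 hc (ha1 _ hq.2.1).2.1
        · exact inv_mem t0 hc (hb1 _ hq.2.2).2.1
    _ ≤ ∫⁻ h, νY (Prod.mk h ⁻¹' (EE R Ea Eb)) ∂μH := lintegral_mono_set hsub2

/-- The measure of the common cherries of two homotheties. -/
noncomputable def WW (R : Set ℂ) (Ea Eb : Set (ℂ × ℂ)) (p : (ℝ × ℂ) × (ℝ × ℂ)) : ℝ≥0∞ :=
  νY {q | (p.1, q) ∈ EE R Ea Eb ∧ (p.2, q) ∈ EE R Ea Eb}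

theorem mWset {R : Set ℂ} {Ea Eb : Set (ℂ × ℂ)} (hR : MeasurableSet R)
    (ha : MeasurableSet Ea) (hb : MeasurableSet Eb) :
    MeasurableSet {q : ((ℝ × ℂ) × (ℝ × ℂ)) × (ℂ × ℂ × ℂ) |
      (q.1.1, q.2) ∈ EE R Ea Eb ∧ (q.1.2, q.2) ∈ EE R Ea Eb} := by
  apply MeasurableSet.inter
  · exact (measurable_fst.fst.prodMk measurable_snd) (mEE hR ha hb)
  · exact (measurable_fst.snd.prodMk measurable_snd) (mEE hR ha hb)

theorem mWW {R : Set ℂ} {Ea Eb : Set (ℂ × ℂ)} (hR : MeasurableSet R)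
    (ha : MeasurableSet Ea) (hb : MeasurableSet Eb) : Measurable (WW R Ea Eb) :=
  measurable_measure_prodMk_left (mWset hR ha hb)

/-- The good pairs of homotheties. -/
theorem vol_good {R : Set ℂ} {Ea Eb : Set (ℂ × ℂ)} {η : ℝ} (h0 : 0 < η) (hη : η ≤ 1 / 2)
    (hR : MeasurableSet R)
    (ha : MeasurableSet Ea) (hb : MeasurableSet Eb)
    (ha1 : ∀ p ∈ Ea, p.1 ∈ sq 0 1 ∧ p.2 ∈ sq 0 1 ∧ p.1 ≠ p.2)
    (hb1 : ∀ p ∈ Eb, p.1 ∈ sq 0 1 ∧ p.2 ∈ sq 0 1 ∧ p.1 ≠ p.2)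
    (h1 : ∀ z ∈ R, ENNReal.ofReal η ≤ volume {z' | (z, z') ∈ Ea})
    (h2 : ∀ z ∈ R, ENNReal.ofReal η ≤ volume {z' | (z, z') ∈ Eb})
    (h3 : ENNReal.ofReal η ≤ volume R) :
    ENNReal.ofReal (η ^ 48) ≤
      volume ((H ×ˢ H) ∩ {p | ENNReal.ofReal (η ^ 37) ≤ WW R Ea Eb p}) := by
  have hc := PoolH38PT.cherries μH νY (EE R Ea Eb) (mEE hR ha hb)
  rw [νY_univ] at hc
  have hv := vol_EE hR ha hb ha1 hb1
  have hv2 := vol_CH_ge h0.le hR ha hb h1 h2 h3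
  have hE : ENNReal.ofReal (16 * η ^ 3) ≤ μH.prod νY (EE R Ea Eb) := by
    rw [ENNReal.ofReal_mul (by norm_num)]
    exact (mul_le_mul' le_rfl hv2).trans hv
  have hE2 : ENNReal.ofReal (256 * η ^ 6) ≤
      ENNReal.ofReal (2 ^ 24) * ∫⁻ p, WW R Ea Eb p ∂(μH.prod μH) := by
    refine le_trans ?_ hc
    calc ENNReal.ofReal (256 * η ^ 6) = ENNReal.ofReal (16 * η ^ 3) ^ 2 := by
          rw [← ENNReal.ofReal_pow (by positivity)]; ring_nf
      _ ≤ _ := by gcongr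
  set I := ∫⁻ p, WW R Ea Eb p ∂(μH.prod μH) with hI
  set good := {p | ENNReal.ofReal (η ^ 37) ≤ WW R Ea Eb p} with hgood
  have mgood : MeasurableSet good := measurableSet_le measurable_const (mWW hR ha hb)
  have hI2 : I ≤ ENNReal.ofReal (2 ^ 24) * (μH.prod μH) good +
      ENNReal.ofReal (η ^ 37) * ENNReal.ofReal (2 ^ 14) := by
    rw [hI, ← lintegral_add_compl _ mgood]
    gcongr
    · calc ∫⁻ p in good, WW R Ea Eb p ∂(μH.prod μH)
          ≤ ∫⁻ p in good, ENNReal.ofReal (2 ^ 24) ∂(μH.prod μH) := by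
            refine lintegral_mono fun p => ?_
            rw [← νY_univ]
            exact measure_mono (subset_univ _)
        _ = _ := by rw [setLIntegral_const]
    · calc ∫⁻ p in goodᶜ, WW R Ea Eb p ∂(μH.prod μH)
          ≤ ∫⁻ p in goodᶜ, ENNReal.ofReal (η ^ 37) ∂(μH.prod μH) :=
            setLIntegral_mono' mgood.compl fun p hp => le_of_lt (not_le.1 (show ¬ _ ≤ _ from hp))
        _ ≤ ∫⁻ p, ENNReal.ofReal (η ^ 37) ∂(μH.prod μH) := setLIntegral_le_lintegral _ _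
        _ = ENNReal.ofReal (η ^ 37) * ENNReal.ofReal (2 ^ 14) := by
            rw [lintegral_const, ← univ_prod_univ, Measure.prod_prod, μH_univ,
              ← ENNReal.ofReal_mul (by norm_num)]
            norm_num
  have hmu : (μH.prod μH) good = volume ((H ×ˢ H) ∩ good) := by
    rw [Measure.prod_restrict, Measure.restrict_apply mgood, inter_comm]
    rfl
  rw [← hmu]
  by_contra hcon
  push Not at hcon
  have hlt : (μH.prod μH) good ≤ ENNReal.ofReal (η ^ 48) := hcon.le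
  have e1 : ENNReal.ofReal (256 * η ^ 6) ≤ ENNReal.ofReal
      (2 ^ 24 * (2 ^ 24 * η ^ 48 + η ^ 37 * 2 ^ 14)) := by
    refine hE2.trans ?_
    rw [ENNReal.ofReal_mul (by positivity), ENNReal.ofReal_add (by positivity) (by positivity),
      ENNReal.ofReal_mul (by positivity), ENNReal.ofReal_mul (by positivity)]
    refine mul_le_mul' le_rfl (hI2.trans ?_)
    gcongr
  rw [ENNReal.ofReal_le_ofReal_iff (by positivity)] at e1
  have p6 : 0 < η ^ 6 := by positivity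
  have p31 : η ^ 31 ≤ (1 / 2) ^ 31 := by gcongr
  have p41 : η ^ 42 ≤ (1 / 2) ^ 42 := by gcongr
  have e2 : 2 ^ 24 * (2 ^ 24 * η ^ 48 + η ^ 37 * 2 ^ 14) =
      η ^ 6 * (2 ^ 48 * η ^ 42 + 2 ^ 38 * η ^ 31) := by ring
  rw [e2] at e1
  have e3 : (2 : ℝ) ^ 48 * η ^ 42 + 2 ^ 38 * η ^ 31 ≤ 2 ^ 48 * (1 / 2) ^ 42 + 2 ^ 38 * (1 / 2) ^ 31 := by
    gcongr
  have e4 : (2 : ℝ) ^ 48 * (1 / 2) ^ 42 + 2 ^ 38 * (1 / 2) ^ 31 = 192 := by norm_num
  have e5 : η ^ 6 * (2 ^ 48 * η ^ 42 + 2 ^ 38 * η ^ 31) ≤ η ^ 6 * 192 := by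
    rw [← e4]; gcongr
  nlinarith

/-- The pull-back of a set of pairs by two homotheties. -/
def Es (E : Set (ℂ × ℂ)) (h h' : ℝ × ℂ) : Set (ℂ × ℂ) :=
  {q | q.1 ∈ Y ∧ q.2 ∈ Y ∧ (hmap h q.1, hmap h q.2) ∈ E ∧ (hmap h' q.1, hmap h' q.2) ∈ E}

theorem mEs {E : Set (ℂ × ℂ)} (hE : MeasurableSet E) (h h' : ℝ × ℂ) :
    MeasurableSet (Es E h h') := by
  have e1 : Measurable (fun q : ℂ × ℂ => (hmap h q.1, hmap h q.2)) := by
    unfold hmap; fun_prop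
  have e2 : Measurable (fun q : ℂ × ℂ => (hmap h' q.1, hmap h' q.2)) := by
    unfold hmap; fun_prop
  exact (measurable_fst mY).inter ((measurable_snd mY).inter ((e1 hE).inter (e2 hE)))

theorem vol_Es_le (E : Set (ℂ × ℂ)) (h h' : ℝ × ℂ) (y : ℂ) :
    volume {y' | (y, y') ∈ Es E h h'} ≤ ENNReal.ofReal 256 := by
  rw [← vY]
  exact measure_mono fun y' hy => hy.2.1

/-- The pull-back of the set of centres. -/
def R0 (R : Set ℂ) (h h' : ℝ × ℂ) : Set ℂ := {y | y ∈ Y ∧ hmap h y ∈ R ∧ hmap h' y ∈ R}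

theorem mR0 {R : Set ℂ} (hR : MeasurableSet R) (h h' : ℝ × ℂ) : MeasurableSet (R0 R h h') := by
  have e1 : Measurable (fun y : ℂ => hmap h y) := by unfold hmap; fun_prop
  have e2 : Measurable (fun y : ℂ => hmap h' y) := by unfold hmap; fun_prop
  exact mY.inter ((e1 hR).inter (e2 hR))

theorem WW_le (R : Set ℂ) (Ea Eb : Set (ℂ × ℂ)) (h h' : ℝ × ℂ) :
    WW R Ea Eb (h, h') ≤ volume (CH (R0 R h h') (Es Ea h h') (Es Eb h h')) := by
  unfold WW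
  rw [Measure.restrict_apply' mYYY]
  refine measure_mono ?_
  rintro ⟨y, y', y''⟩ ⟨⟨h1, h2⟩, h3, h4, h5⟩
  obtain ⟨a1, a2, a3⟩ := h1
  obtain ⟨b1, b2, b3⟩ := h2
  exact ⟨⟨h3, a1, b1⟩, ⟨h3, h4, a2, b2⟩, ⟨h3, h5, a3, b3⟩⟩

/-- The relation on a homothetic copy. -/
theorem rel_homothety (ζ : ℂ) (U : ℂ → ℂ) (E : Set (ℂ × ℂ)) (Ψ : ℂ → ℝ) (κ : ℝ)
    (hE : ∀ p ∈ E, |(ζ * (U p.2 - U p.1) * conj (p.2 - p.1)).re
      - ‖p.2 - p.1‖ ^ 2 * Ψ ((p.2 - p.1) / ‖p.2 - p.1‖)| ≤ κ)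
    (h : ℝ × ℂ) (h0 : 1 / 2 ≤ h.1) (y y' : ℂ) (hy : (hmap h y, hmap h y') ∈ E) :
    |(ζ * (U (hmap h y') / h.1 - U (hmap h y) / h.1) * conj (y' - y)).re
      - ‖y' - y‖ ^ 2 * Ψ ((y' - y) / ‖y' - y‖)| ≤ 4 * κ := by
  have h1 := hE _ hy
  obtain ⟨t, c⟩ := h
  simp only at h0
  have t0 : 0 < t := by linarith
  have e0 : hmap (t, c) y' - hmap (t, c) y = t * (y' - y) := by
    simp only [hmap]; ring
  simp only [] at h1
  rw [e0] at h1
  have e1 : ‖(t : ℂ) * (y' - y)‖ = t * ‖y' - y‖ := by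
    rw [norm_mul, Complex.norm_real, Real.norm_of_nonneg t0.le]
  have e2 : (t : ℂ) * (y' - y) / ((t * ‖y' - y‖ : ℝ) : ℂ) = (y' - y) / ‖y' - y‖ := by
    push_cast
    rw [mul_div_mul_left]
    exact_mod_cast t0.ne'
  rw [e1, e2] at h1
  have tc : (t : ℂ) ≠ 0 := by exact_mod_cast t0.ne'
  have e3 : ζ * (U (hmap (t, c) y') - U (hmap (t, c) y)) * conj (↑t * (y' - y)) =
      ((t ^ 2 : ℝ) : ℂ) * (ζ * (U (hmap (t, c) y') / t - U (hmap (t, c) y) / t)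
        * conj (y' - y)) := by
    rw [map_mul, Complex.conj_ofReal]
    push_cast
    field_simp
  rw [e3, Complex.re_ofReal_mul, mul_pow, mul_assoc (t ^ 2) (‖y' - y‖ ^ 2), ← mul_sub, abs_mul,
    abs_of_pos (by positivity)] at h1
  simp only []
  set A := |(ζ * (U (hmap (t, c) y') / t - U (hmap (t, c) y) / t) * conj (y' - y)).re
      - ‖y' - y‖ ^ 2 * Ψ ((y' - y) / ‖y' - y‖)|
  have hA : 0 ≤ A := abs_nonneg _
  have : 1 / 4 ≤ t ^ 2 := by nlinarith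
  nlinarith

/-- The difference of two homothetic copies. -/
noncomputable def Us (U : ℂ → ℂ) (h h' : ℝ × ℂ) (y : ℂ) : ℂ :=
  U (hmap h y) / h.1 - U (hmap h' y) / h'.1

theorem mUs {U : ℂ → ℂ} (hU : Measurable U) (h h' : ℝ × ℂ) : Measurable (Us U h h') := by
  have e1 : Measurable (fun y : ℂ => hmap h y) := by unfold hmap; fun_prop
  have e2 : Measurable (fun y : ℂ => hmap h' y) := by unfold hmap; fun_prop
  exact ((hU.comp e1).div_const _).sub ((hU.comp e2).div_const _)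

theorem rel_Us (ζ : ℂ) (U : ℂ → ℂ) (E : Set (ℂ × ℂ)) (Ψ : ℂ → ℝ) (κ : ℝ)
    (hE : ∀ p ∈ E, |(ζ * (U p.2 - U p.1) * conj (p.2 - p.1)).re
      - ‖p.2 - p.1‖ ^ 2 * Ψ ((p.2 - p.1) / ‖p.2 - p.1‖)| ≤ κ)
    (h h' : ℝ × ℂ) (h0 : 1 / 2 ≤ h.1) (h0' : 1 / 2 ≤ h'.1) (p : ℂ × ℂ)
    (hp : p ∈ Es E h h') :
    |(ζ * (Us U h h' p.2 - Us U h h' p.1) * conj (p.2 - p.1)).re| ≤ κ / 2 * 16 := by
  obtain ⟨y, y'⟩ := p
  have a1 := rel_homothety ζ U E Ψ κ hE h h0 y y' hp.2.2.1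
  have a2 := rel_homothety ζ U E Ψ κ hE h' h0' y y' hp.2.2.2
  have e : (ζ * (Us U h h' y' - Us U h h' y) * conj (y' - y)).re =
      (ζ * (U (hmap h y') / h.1 - U (hmap h y) / h.1) * conj (y' - y)).re
      - (ζ * (U (hmap h' y') / h'.1 - U (hmap h' y) / h'.1) * conj (y' - y)).re := by
    rw [← Complex.sub_re]
    congr 1
    unfold Us
    ring
  simp only []
  rw [e]
  rw [abs_le] at a1 a2 ⊢
  constructor <;> linarith [a1.1, a1.2, a2.1, a2.2]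

/-- The slice of `hset` at a good pair of homotheties. -/
theorem slice_big {ζ : ℂ} {C : ℕ} (hC : ∀ (η L κ : ℝ) (z₀ : ℂ) (U : ℂ → ℂ) (R : Set ℂ)
    (Ea Eb : Set (ℂ × ℂ)),
  0 < η → η ≤ 1 / 2 → 0 < L → 0 ≤ κ → Measurable U → MeasurableSet R → MeasurableSet Ea →
  MeasurableSet Eb → R ⊆ sq z₀ L →
  (∀ p ∈ Ea, p.1 ∈ sq z₀ L ∧ p.2 ∈ sq z₀ L) → (∀ p ∈ Eb, p.1 ∈ sq z₀ L ∧ p.2 ∈ sq z₀ L) →
  (∀ p ∈ Ea, |(ζ * (U p.2 - U p.1) * conj (p.2 - p.1)).re| ≤ κ * L) →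
  (∀ p ∈ Eb, |(conj ζ * (U p.2 - U p.1) * conj (p.2 - p.1)).re| ≤ κ * L) →
  (∀ z ∈ R, ENNReal.ofReal (η * L ^ 2) ≤ volume {z' | (z, z') ∈ Ea}) →
  (∀ z ∈ R, ENNReal.ofReal (η * L ^ 2) ≤ volume {z' | (z, z') ∈ Eb}) →
  ENNReal.ofReal (η * L ^ 2) ≤ volume R →
  ∃ (P : Set ℂ) (u₀ : ℂ), MeasurableSet P ∧ P ⊆ R ∧
    ENNReal.ofReal (η ^ C * L ^ 2) ≤ volume P ∧ ∀ z ∈ P, ‖U z - u₀‖ ≤ κ / η ^ C)
    {η κ : ℝ} {U : ℂ → ℂ} {R : Set ℂ} {Ea Eb : Set (ℂ × ℂ)} {Ψa Ψb : ℂ → ℝ}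
    (h0 : 0 < η) (hη : η ≤ 1 / 2) (hκ : 0 ≤ κ) (hU : Measurable U) (hR : MeasurableSet R)
    (ha : MeasurableSet Ea) (hb : MeasurableSet Eb)
    (hEa : ∀ p ∈ Ea, |(ζ * (U p.2 - U p.1) * conj (p.2 - p.1)).re
      - ‖p.2 - p.1‖ ^ 2 * Ψa ((p.2 - p.1) / ‖p.2 - p.1‖)| ≤ κ)
    (hEb : ∀ p ∈ Eb, |(conj ζ * (U p.2 - U p.1) * conj (p.2 - p.1)).re
      - ‖p.2 - p.1‖ ^ 2 * Ψb ((p.2 - p.1) / ‖p.2 - p.1‖)| ≤ κ)
    (h h' : ℝ × ℂ) (hh : h ∈ H) (hh' : h' ∈ H)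
    (hW : ENNReal.ofReal (η ^ 37) ≤ WW R Ea Eb (h, h')) :
    ENNReal.ofReal ((η ^ (62 * C)) ^ 2) ≤
      volume {y : ℂ × ℂ | ((h, h'), y) ∈ hset (κ / η ^ (62 * C)) U R} := by
  have n0 : 0 < η ^ 62 := by positivity
  have n1 : η ^ 62 ≤ 1 / 2 := by
    calc η ^ 62 ≤ η ^ 1 := pow_le_pow_of_le_one h0.le (by linarith) (by norm_num)
      _ ≤ 1 / 2 := by rw [pow_one]; exact hη
  set Rs : Set ℂ := R0 R h h' ∩
    ({y | ENNReal.ofReal (η ^ 62 * 16 ^ 2) ≤ volume {y' | (y, y') ∈ Es Ea h h'}} ∩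
    {y | ENNReal.ofReal (η ^ 62 * 16 ^ 2) ≤ volume {y' | (y, y') ∈ Es Eb h h'}}) with hRs
  have mRs : MeasurableSet Rs := by
    refine (mR0 hR h h').inter ((measurableSet_le measurable_const ?_).inter
      (measurableSet_le measurable_const ?_))
    · exact measurable_measure_prodMk_left (mEs ha h h')
    · exact measurable_measure_prodMk_left (mEs hb h h')
  have hvol : ENNReal.ofReal (η ^ 62 * 16 ^ 2) ≤ volume Rs := by
    by_contra hcon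
    push Not at hcon
    have hle := vol_CH_le (M := ENNReal.ofReal 256) (τ := ENNReal.ofReal (η ^ 62 * 16 ^ 2))
      (mR0 hR h h') mRs (mEs ha h h') (mEs hb h h')
      (fun z _ => vol_Es_le _ _ _ _) (fun z _ => vol_Es_le _ _ _ _) (by
        intro z hz hz'
        by_contra hcc
        push Not at hcc
        exact hz' ⟨hz, hcc.1.le, hcc.2.le⟩)
    have hR0 : volume (R0 R h h') ≤ ENNReal.ofReal 256 := by
      rw [← vY]; exact measure_mono fun y hy => hy.1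
    have h5 : ENNReal.ofReal (η ^ 37) ≤ ENNReal.ofReal
        (256 * 256 * (η ^ 62 * 16 ^ 2) + 256 * (η ^ 62 * 16 ^ 2) * 256) := by
      refine hW.trans ((WW_le R Ea Eb h h').trans (hle.trans ?_))
      rw [ENNReal.ofReal_add (by positivity) (by positivity),
        ENNReal.ofReal_mul (p := 256 * 256) (by positivity),
        ENNReal.ofReal_mul (p := 256) (q := 256) (by positivity),
        ENNReal.ofReal_mul (p := 256 * (η ^ 62 * 16 ^ 2)) (by positivity),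
        ENNReal.ofReal_mul (p := 256) (by positivity)]
      gcongr
    rw [ENNReal.ofReal_le_ofReal_iff (by positivity)] at h5
    have e1 : 256 * 256 * (η ^ 62 * 16 ^ 2) + 256 * (η ^ 62 * 16 ^ 2) * 256 =
      η ^ 37 * (2 ^ 25 * η ^ 25) := by ring
    have e2 : (2 : ℝ) ^ 25 * η ^ 25 ≤ 1 := by
      rw [← mul_pow]
      exact pow_le_one₀ (by positivity) (by linarith)
    -- equality is excluded by the strictness of `hcon`
    have h6 : ENNReal.ofReal (η ^ 37) < ENNReal.ofReal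
        (256 * 256 * (η ^ 62 * 16 ^ 2) + 256 * (η ^ 62 * 16 ^ 2) * 256) := by
      refine lt_of_le_of_lt (hW.trans ((WW_le R Ea Eb h h').trans hle)) ?_
      rw [ENNReal.ofReal_add (by positivity) (by positivity),
        ENNReal.ofReal_mul (p := 256 * 256) (by positivity),
        ENNReal.ofReal_mul (p := 256) (q := 256) (by positivity),
        ENNReal.ofReal_mul (p := 256 * (η ^ 62 * 16 ^ 2)) (by positivity),
        ENNReal.ofReal_mul (p := 256) (by positivity)]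
      refine ENNReal.add_lt_add_of_lt_of_le ?_ ?_ ?_
      · exact ENNReal.mul_ne_top (ENNReal.mul_ne_top ENNReal.ofReal_ne_top
          ENNReal.ofReal_ne_top) (hR0.trans_lt ENNReal.ofReal_lt_top).ne
      · refine (ENNReal.mul_lt_mul_iff_right ?_ ?_).2 hcon
        · simp
        · exact ENNReal.mul_ne_top ENNReal.ofReal_ne_top ENNReal.ofReal_ne_top
      · gcongr
    rw [ENNReal.ofReal_lt_ofReal_iff (by positivity), e1] at h6
    have : η ^ 37 * (2 ^ 25 * η ^ 25) ≤ η ^ 37 * 1 := by gcongr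
    linarith
  obtain ⟨P, u₀, mP, hP, hvP, hP2⟩ := hC (η ^ 62) 16 (κ / 2) (-8 - 8 * Complex.I) (Us U h h') Rs
    (Es Ea h h') (Es Eb h h') n0 n1 (by norm_num) (by positivity) (mUs hU h h') mRs
    (mEs ha h h') (mEs hb h h') (fun y hy => hy.1.1) (fun p hp => ⟨hp.1, hp.2.1⟩)
    (fun p hp => ⟨hp.1, hp.2.1⟩)
    (fun p hp => rel_Us ζ U Ea Ψa κ hEa h h' hh.1.1 hh'.1.1 p hp)
    (fun p hp => rel_Us (conj ζ) U Eb Ψb κ hEb h h' hh.1.1 hh'.1.1 p hp)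
    (fun z hz => hz.2.1) (fun z hz => hz.2.2) hvol
  rw [← pow_mul] at hvP hP2
  have hsub : P ×ˢ P ⊆ {y : ℂ × ℂ | ((h, h'), y) ∈ hset (κ / η ^ (62 * C)) U R} := by
    rintro ⟨y, y'⟩ ⟨hy, hy'⟩
    have hy1 := hP hy
    have hy1' := hP hy'
    refine ⟨⟨hh.1, hh'.1, hh.2, hh'.2, hy1.1.1, hy1'.1.1⟩, hy1.1.2.1, hy1'.1.2.1, hy1.1.2.2,
      hy1'.1.2.2, ?_⟩
    simp only []
    have e : (U (hmap h y) - U (hmap h y')) / h.1 - (U (hmap h' y) - U (hmap h' y')) / h'.1 =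
        (Us U h h' y - u₀) - (Us U h h' y' - u₀) := by
      unfold Us; ring
    rw [e]
    refine (norm_sub_le _ _).trans ?_
    have a1 := hP2 y hy
    have a2 := hP2 y' hy'
    have : κ / η ^ (62 * C) = κ / 2 / η ^ (62 * C) + κ / 2 / η ^ (62 * C) := by ring
    rw [this]
    linarith
  refine le_trans ?_ (measure_mono hsub)
  rw [Measure.volume_eq_prod, Measure.prod_prod, pow_two, ENNReal.ofReal_mul (by positivity)]
  have : ENNReal.ofReal (η ^ (62 * C)) ≤ volume P := by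
    refine le_trans (ENNReal.ofReal_le_ofReal ?_) hvP
    have : 0 < η ^ (62 * C) := by positivity
    nlinarith
  exact mul_le_mul' this this

theorem hset_mono {κ κ' : ℝ} (h : κ ≤ κ') (U : ℂ → ℂ) (R : Set ℂ) :
    hset κ U R ⊆ hset κ' U R := by
  rintro q ⟨h1, h2, h3, h4, h5, h6⟩
  exact ⟨h1, h2, h3, h4, h5, h6.trans h⟩

theorem mhset {κ : ℝ} {U : ℂ → ℂ} {R : Set ℂ} (hU : Measurable U) (hR : MeasurableSet R) :
    MeasurableSet (hset κ U R) := by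
  have e11 : Measurable (fun q : ((ℝ × ℂ) × (ℝ × ℂ)) × (ℂ × ℂ) => hmap q.1.1 q.2.1) := by
    unfold hmap; fun_prop
  have e12 : Measurable (fun q : ((ℝ × ℂ) × (ℝ × ℂ)) × (ℂ × ℂ) => hmap q.1.1 q.2.2) := by
    unfold hmap; fun_prop
  have e21 : Measurable (fun q : ((ℝ × ℂ) × (ℝ × ℂ)) × (ℂ × ℂ) => hmap q.1.2 q.2.1) := by
    unfold hmap; fun_prop
  have e22 : Measurable (fun q : ((ℝ × ℂ) × (ℝ × ℂ)) × (ℂ × ℂ) => hmap q.1.2 q.2.2) := by
    unfold hmap; fun_prop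
  have t1 : Measurable (fun q : ((ℝ × ℂ) × (ℝ × ℂ)) × (ℂ × ℂ) => q.1.1.1) := by fun_prop
  have t2 : Measurable (fun q : ((ℝ × ℂ) × (ℝ × ℂ)) × (ℂ × ℂ) => q.1.2.1) := by fun_prop
  have c1 : Measurable (fun q : ((ℝ × ℂ) × (ℝ × ℂ)) × (ℂ × ℂ) => q.1.1.2) := by fun_prop
  have c2 : Measurable (fun q : ((ℝ × ℂ) × (ℝ × ℂ)) × (ℂ × ℂ) => q.1.2.2) := by fun_prop
  have y1 : Measurable (fun q : ((ℝ × ℂ) × (ℝ × ℂ)) × (ℂ × ℂ) => q.2.1) := by fun_prop
  have y2 : Measurable (fun q : ((ℝ × ℂ) × (ℝ × ℂ)) × (ℂ × ℂ) => q.2.2) := by fun_prop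
  have t1c : Measurable (fun q : ((ℝ × ℂ) × (ℝ × ℂ)) × (ℂ × ℂ) => (q.1.1.1 : ℂ)) := by fun_prop
  have t2c : Measurable (fun q : ((ℝ × ℂ) × (ℝ × ℂ)) × (ℂ × ℂ) => (q.1.2.1 : ℂ)) := by fun_prop
  have hd : MeasurableSet hdom :=
    (t1 measurableSet_Icc).inter ((t2 measurableSet_Icc).inter ((c1 mY).inter ((c2 mY).inter
      ((y1 mY).inter (y2 mY)))))
  have hn : Measurable (fun q : ((ℝ × ℂ) × (ℝ × ℂ)) × (ℂ × ℂ) =>
      ‖(U (hmap q.1.1 q.2.1) - U (hmap q.1.1 q.2.2)) / q.1.1.1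
      - (U (hmap q.1.2 q.2.1) - U (hmap q.1.2 q.2.2)) / q.1.2.1‖) :=
    ((((hU.comp e11).sub (hU.comp e12)).div t1c).sub
      (((hU.comp e21).sub (hU.comp e22)).div t2c)).norm
  exact hd.inter ((e11 hR).inter ((e12 hR).inter ((e21 hR).inter ((e22 hR).inter
    (measurableSet_le hn measurable_const)))))

end AffAaux

open AffAaux in
/-- First half of `Aff`. -/
theorem affA {ζ : ℂ} (h : R1 ζ) : AffA ζ := by
  obtain ⟨C, hC⟩ := h
  refine ⟨48 + 62 * C * 2, ?_⟩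
  intro η κ U R Ea Eb Ψa Ψb h0 hη hκ hU hR ha hb _ ha1 hb1 hEa hEb h1 h2 h3
  have hg := vol_good h0 hη hR ha hb ha1 hb1 h1 h2 h3
  set good := {p | ENNReal.ofReal (η ^ 37) ≤ WW R Ea Eb p} with hgood
  have mgood : MeasurableSet good := measurableSet_le measurable_const (mWW hR ha hb)
  have mHg : MeasurableSet ((H ×ˢ H) ∩ good) := (mH.prod mH).inter mgood
  have hk : κ / η ^ (62 * C) ≤ κ / η ^ (48 + 62 * C * 2) := by
    apply div_le_div_of_nonneg_left hκ (by positivity)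
    exact pow_le_pow_of_le_one h0.le (by linarith) (by omega)
  refine le_trans ?_ (measure_mono (hset_mono hk U R))
  rw [Measure.volume_eq_prod, Measure.prod_apply (mhset hU hR)]
  calc ENNReal.ofReal (η ^ (48 + 62 * C * 2))
      = ENNReal.ofReal ((η ^ (62 * C)) ^ 2) * ENNReal.ofReal (η ^ 48) := by
        rw [← ENNReal.ofReal_mul (by positivity), ← pow_mul, ← pow_add]
        ring_nf
    _ ≤ ENNReal.ofReal ((η ^ (62 * C)) ^ 2) * volume ((H ×ˢ H) ∩ good) := by gcongr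
    _ = ∫⁻ p in (H ×ˢ H) ∩ good, ENNReal.ofReal ((η ^ (62 * C)) ^ 2) := by
        rw [setLIntegral_const]
    _ ≤ ∫⁻ p in (H ×ˢ H) ∩ good, volume (Prod.mk p ⁻¹' (hset (κ / η ^ (62 * C)) U R)) := by
        refine setLIntegral_mono' mHg fun p hp => ?_
        obtain ⟨p1, p2⟩ := p
        exact slice_big hC h0 hη hκ hU hR ha hb hEa hEb p1 p2 hp.1.1 hp.1.2 hp.2
    _ ≤ _ := setLIntegral_le_lintegral _ _

end Pool.Agent.H2.T2
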