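import Pool.Agent.H2.T2.Defs
import Pool.Agent.H2.T2.Cell
import Pool.Agent.H2.T2.AffA
import Pool.Agent.H38.PT.Cherry

/-!
# From equal increments of homothetic copies to an affine map: second half of `Aff`
-/

open MeasureTheory Set
open scoped ComplexConjugate Real ENNReal

namespace Pool.Agent.H2.T2

namespace AffBaux

open AffAaux (Y H mY mH vY vH mhset)

/-- Pigeonhole for a function supported on a set of finite measure. -/
theorem pigeon {α : Type*} [MeasurableSpace α] (μ : Measure α) (S : Set α) (f : α → ℝ≥0∞)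
    (a : ℝ≥0∞) (h0 : ∀ x, x ∉ S → f x = 0) (h : a * μ S < ∫⁻ x, f x ∂μ) :
    ∃ x ∈ S, a < f x := by
  by_contra hcon
  push Not at hcon
  have : ∫⁻ x, f x ∂μ ≤ a * μ S := by
    calc ∫⁻ x, f x ∂μ ≤ ∫⁻ x, S.indicator (fun _ => a) x ∂μ := by
          refine lintegral_mono fun x => ?_
          by_cases hx : x ∈ S
          · rw [indicator_of_mem hx]; exact hcon x hx
          · rw [h0 x hx]; exact zero_le
      _ ≤ _ := lintegral_indicator_const_le _ _
  exact absurd h (not_lt.2 this)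

theorem step1 {η κ : ℝ} {U : ℂ → ℂ} {R : Set ℂ} (h0 : 0 < η) (hU : Measurable U)
    (hR : MeasurableSet R) (hv : ENNReal.ofReal η ≤ volume (hset κ U R)) :
    ∃ h' ∈ H, ∃ y0 ∈ Y, ENNReal.ofReal (η / 2 ^ 17) <
      ∫⁻ y, volume {h : ℝ × ℂ | ((h, h'), (y, y0)) ∈ hset κ U R} := by
  have mS := mhset (κ := κ) hU hR
  have e1 : volume (hset κ U R) = ∫⁻ h', ∫⁻ h, volume (Prod.mk (h, h') ⁻¹' (hset κ U R)) := by
    rw [Measure.volume_eq_prod, Measure.prod_apply mS, Measure.volume_eq_prod,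
      lintegral_prod_symm' _ (measurable_measure_prodMk_left mS)]
  have hlt : ENNReal.ofReal (η / 2 ^ 8) * volume H < volume (hset κ U R) := by
    refine lt_of_lt_of_le ?_ hv
    rw [vH, ← ENNReal.ofReal_mul (by positivity)]
    refine (ENNReal.ofReal_lt_ofReal_iff h0).2 ?_
    linarith
  rw [e1] at hlt
  obtain ⟨h', hh', hlt'⟩ := pigeon _ _ _ _ (by
    intro h' hh'
    have : ∀ h, Prod.mk (h, h') ⁻¹' (hset κ U R) = ∅ := by
      intro h
      ext q
      simp only [mem_preimage, mem_empty_iff_false, iff_false]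
      intro hq
      exact hh' ⟨hq.1.2.1, hq.1.2.2.2.1⟩
    simp [this]) hlt
  refine ⟨h', hh', ?_⟩
  have mS1 : MeasurableSet {p : (ℝ × ℂ) × (ℂ × ℂ) | ((p.1, h'), p.2) ∈ hset κ U R} :=
    ((measurable_fst.prodMk measurable_const).prodMk measurable_snd) mS
  have e2 : ∫⁻ h, volume (Prod.mk (h, h') ⁻¹' (hset κ U R)) =
      ∫⁻ y0, ∫⁻ y, volume {h : ℝ × ℂ | ((h, h'), (y, y0)) ∈ hset κ U R} := by
    calc ∫⁻ h, volume (Prod.mk (h, h') ⁻¹' (hset κ U R))
        = (volume.prod volume) {p : (ℝ × ℂ) × (ℂ × ℂ) | ((p.1, h'), p.2) ∈ hset κ U R} := by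
          rw [Measure.prod_apply mS1]; rfl
      _ = ∫⁻ q : ℂ × ℂ, volume {h : ℝ × ℂ | ((h, h'), q) ∈ hset κ U R} := by
          rw [Measure.prod_apply_symm mS1]; rfl
      _ = _ := lintegral_prod_symm' (μ := volume) (ν := volume)
          (fun q : ℂ × ℂ => volume {h : ℝ × ℂ | ((h, h'), q) ∈ hset κ U R})
          (measurable_measure_prodMk_right mS1)
  rw [e2] at hlt'
  have hlt2 : ENNReal.ofReal (η / 2 ^ 17) * volume Y <
      ∫⁻ y0, ∫⁻ y, volume {h : ℝ × ℂ | ((h, h'), (y, y0)) ∈ hset κ U R} := by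
    refine lt_of_le_of_lt ?_ hlt'
    rw [vY, ← ENNReal.ofReal_mul (by positivity)]
    refine ENNReal.ofReal_le_ofReal ?_
    linarith
  obtain ⟨y0, hy0, h3⟩ := pigeon _ _ _ _ (by
    intro y0 hy0
    have : ∀ y, {h : ℝ × ℂ | ((h, h'), (y, y0)) ∈ hset κ U R} = ∅ := by
      intro y
      ext h
      simp only [mem_ofPred_eq, mem_empty_iff_false, iff_false]
      intro hq
      exact hy0 hq.1.2.2.2.2.2
    simp [this]) hlt2
  exact ⟨y0, hy0, h3⟩

/-- The relation between a point and its neighbour in direction `y - y0`. -/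
def Rl (U A : ℂ → ℂ) (R : Set ℂ) (κ : ℝ) (y0 y : ℂ) (t : ℝ) (z : ℂ) : Prop :=
  t ∈ Icc (1 / 2 : ℝ) 1 ∧ z ∈ R ∧ z - t * (y - y0) ∈ R ∧
    ‖U z - U (z - t * (y - y0)) - t * A y‖ ≤ κ

theorem mRl {U A : ℂ → ℂ} {R : Set ℂ} (κ : ℝ) (y0 : ℂ) (hU : Measurable U) (hA : Measurable A)
    (hR : MeasurableSet R) :
    MeasurableSet {p : (ℂ × ℂ) × ℝ | Rl U A R κ y0 p.1.1 p.2 p.1.2} := by
  have t1 : Measurable (fun p : (ℂ × ℂ) × ℝ => p.2) := by fun_prop
  have tc : Measurable (fun p : (ℂ × ℂ) × ℝ => (p.2 : ℂ)) := by fun_prop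
  have z1 : Measurable (fun p : (ℂ × ℂ) × ℝ => p.1.2) := by fun_prop
  have z2 : Measurable (fun p : (ℂ × ℂ) × ℝ => p.1.2 - p.2 * (p.1.1 - y0)) := by fun_prop
  have yy : Measurable (fun p : (ℂ × ℂ) × ℝ => p.1.1) := by fun_prop
  have hn : Measurable (fun p : (ℂ × ℂ) × ℝ =>
      ‖U p.1.2 - U (p.1.2 - p.2 * (p.1.1 - y0)) - p.2 * A p.1.1‖) :=
    (((hU.comp z1).sub (hU.comp z2)).sub (tc.mul (hA.comp yy))).norm
  exact (t1 measurableSet_Icc).inter ((z1 hR).inter ((z2 hR).inter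
    (measurableSet_le hn measurable_const)))

/-- The measure of the set of good scales. -/
noncomputable def dg (U A : ℂ → ℂ) (R : Set ℂ) (κ : ℝ) (y0 y z : ℂ) : ℝ≥0∞ :=
  volume {t : ℝ | Rl U A R κ y0 y t z}

theorem mdg {U A : ℂ → ℂ} {R : Set ℂ} (κ : ℝ) (y0 : ℂ) (hU : Measurable U) (hA : Measurable A)
    (hR : MeasurableSet R) : Measurable (fun p : ℂ × ℂ => dg U A R κ y0 p.1 p.2) :=
  measurable_measure_prodMk_left (mRl κ y0 hU hA hR)

theorem dg_le (U A : ℂ → ℂ) (R : Set ℂ) (κ : ℝ) (y0 y z : ℂ) : dg U A R κ y0 y z ≤ 1 := by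
  have : dg U A R κ y0 y z ≤ volume (Icc (1 / 2 : ℝ) 1) := measure_mono fun t ht => ht.1
  refine this.trans ?_
  rw [Real.volume_Icc, ENNReal.ofReal_le_one]
  norm_num

theorem dg_zero {U A : ℂ → ℂ} {R : Set ℂ} {κ : ℝ} {y0 y z : ℂ} (h : z ∉ R) :
    dg U A R κ y0 y z = 0 := by
  have : {t : ℝ | Rl U A R κ y0 y t z} = ∅ := by
    ext t
    simp only [mem_ofPred_eq, mem_empty_iff_false, iff_false]
    intro ht
    exact h ht.2.1
  simp [dg, this]

/-- The increments of the fixed copy. -/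
noncomputable def AA (U : ℂ → ℂ) (h' : ℝ × ℂ) (y0 y : ℂ) : ℂ :=
  (U (hmap h' y) - U (hmap h' y0)) / h'.1

theorem mAA {U : ℂ → ℂ} (hU : Measurable U) (h' : ℝ × ℂ) (y0 : ℂ) : Measurable (AA U h' y0) := by
  have e1 : Measurable (fun y : ℂ => hmap h' y) := by unfold hmap; fun_prop
  exact ((hU.comp e1).sub measurable_const).div_const _

theorem nAA {U : ℂ → ℂ} {η : ℝ} (hb : ∀ z, ‖U z‖ ≤ 1 / η) {h' : ℝ × ℂ}
    (hh : 1 / 2 ≤ h'.1) (y0 y : ℂ) : ‖AA U h' y0 y‖ ≤ 4 * (1 / η) := by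
  unfold AA
  rw [norm_div, Complex.norm_real, Real.norm_of_nonneg (by linarith), div_le_iff₀ (by linarith)]
  have := norm_sub_le (U (hmap h' y)) (U (hmap h' y0))
  have h1 := hb (hmap h' y)
  have h2 := hb (hmap h' y0)
  have h3 := norm_nonneg (U (hmap h' y))
  nlinarith

theorem step2 {η κ : ℝ} {U : ℂ → ℂ} {R : Set ℂ} (hU : Measurable U)
    (hR : MeasurableSet R) (hR1 : R ⊆ sq 0 1) (h' : ℝ × ℂ) (y0 : ℂ)
    (hv : ENNReal.ofReal (η / 2 ^ 17) <
      ∫⁻ y, volume {h : ℝ × ℂ | ((h, h'), (y, y0)) ∈ hset κ U R}) :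
    ENNReal.ofReal (η / 2 ^ 17) <
      ∫⁻ y in Y, ∫⁻ z in sq 0 1, dg U (AA U h' y0) R κ y0 y z := by
  refine lt_of_lt_of_le hv ?_
  rw [← lintegral_indicator mY]
  refine lintegral_mono fun y => ?_
  by_cases hy : y ∈ Y
  · rw [indicator_of_mem hy]
    have mS := mhset (κ := κ) hU hR
    have mS1 : MeasurableSet {h : ℝ × ℂ | ((h, h'), (y, y0)) ∈ hset κ U R} :=
      (((measurable_id.prodMk measurable_const).prodMk measurable_const) mS)
    have mR := mRl κ y0 hU (mAA hU h' y0) hR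
    have mR2 : MeasurableSet {p : ℂ × ℝ | Rl U (AA U h' y0) R κ y0 y p.2 p.1} :=
      (((measurable_const (a := y)).prodMk measurable_fst).prodMk measurable_snd) mR
    calc volume {h : ℝ × ℂ | ((h, h'), (y, y0)) ∈ hset κ U R}
        = ∫⁻ t : ℝ, volume {c : ℂ | (((t, c), h'), (y, y0)) ∈ hset κ U R} := by
          rw [Measure.volume_eq_prod, Measure.prod_apply mS1]; rfl
      _ ≤ ∫⁻ t : ℝ, volume {z : ℂ | Rl U (AA U h' y0) R κ y0 y t z} := by
          refine lintegral_mono fun t => ?_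
          have e : volume {c : ℂ | Rl U (AA U h' y0) R κ y0 y t (t * y + c)} =
              volume {z : ℂ | Rl U (AA U h' y0) R κ y0 y t z} :=
            measure_preimage_add volume ((t : ℂ) * y) {z : ℂ | Rl U (AA U h' y0) R κ y0 y t z}
          rw [← e]
          refine measure_mono ?_
          rintro c ⟨hd, h1, h2, h3, h4, h5⟩
          have e3 : (t : ℂ) * y + c - t * (y - y0) = t * y0 + c := by ring
          have ht := hd.1
          refine ⟨ht, h1, ?_, ?_⟩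
          · rw [e3]; exact h2
          · rw [e3]
            simp only [hmap] at h5
            have t0 : (0 : ℝ) < t := by have := ht.1; simp only [] at this; linarith
            have tc : (t : ℂ) ≠ 0 := by exact_mod_cast t0.ne'
            have e4 : U (t * y + c) - U (t * y0 + c) - t * AA U h' y0 y =
                t * ((U (t * y + c) - U (t * y0 + c)) / t -
                  (U (h'.1 * y + h'.2) - U (h'.1 * y0 + h'.2)) / h'.1) := by
              simp only [AA, hmap]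
              field_simp
            rw [e4, norm_mul, Complex.norm_real, Real.norm_of_nonneg t0.le]
            have t1 : t ≤ 1 := ht.2
            calc t * _ ≤ 1 * κ := mul_le_mul t1 h5 (norm_nonneg _) zero_le_one
              _ = κ := one_mul _
      _ = (volume.prod volume) {p : ℂ × ℝ | Rl U (AA U h' y0) R κ y0 y p.2 p.1} := by
          rw [Measure.prod_apply_symm mR2]; rfl
      _ = ∫⁻ z, dg U (AA U h' y0) R κ y0 y z := by
          rw [Measure.prod_apply mR2]; rfl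
      _ = ∫⁻ z in sq 0 1, dg U (AA U h' y0) R κ y0 y z := by
          rw [← lintegral_indicator (measurableSet_sq _ _)]
          refine lintegral_congr fun z => ?_
          by_cases hz : z ∈ sq 0 1
          · rw [indicator_of_mem hz]
          · rw [indicator_of_notMem hz]
            exact dg_zero fun h => hz (hR1 h)
  · have : {h : ℝ × ℂ | ((h, h'), (y, y0)) ∈ hset κ U R} = ∅ := by
      ext h
      simp only [mem_ofPred_eq, mem_empty_iff_false, iff_false]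
      intro hq
      exact hy hq.1.2.2.2.2.1
    simp [this]

theorem vsq : volume (sq 0 1) = 1 := by
  rw [volume_sq _ (by norm_num)]; norm_num

theorem step3 (d : ℂ → ℂ → ℝ≥0∞) (hd : Measurable (fun p : ℂ × ℂ => d p.1 p.2)) :
    (∫⁻ y in Y, ∫⁻ z in sq 0 1, d y z) ^ 2 ≤
      ∫⁻ y1 in Y, ∫⁻ y2 in Y, ∫⁻ z in sq 0 1, d y1 z * d y2 z := by
  have e1 : ∫⁻ y in Y, ∫⁻ z in sq 0 1, d y z = ∫⁻ z in sq 0 1, ∫⁻ y in Y, d y z :=
    lintegral_lintegral_swap hd.aemeasurable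
  have mg : Measurable (fun z => ∫⁻ y in Y, d y z) := by
    have : Measurable (fun p : ℂ × ℂ => d p.2 p.1) := hd.comp measurable_swap
    exact this.lintegral_prod_right'
  have h1 := PoolH38PT.lintegral_pow_le (volume.restrict (sq 0 1)) 1 _ mg.aemeasurable
  rw [Measure.restrict_apply_univ, vsq, one_pow, one_mul] at h1
  rw [e1]
  refine h1.trans (le_of_eq ?_)
  have hy : ∀ z, Measurable (fun y => d y z) := fun z =>
    hd.comp (measurable_id.prodMk measurable_const)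
  have e2 : ∀ z, (∫⁻ y in Y, d y z) ^ (1 + 1) = ∫⁻ y1 in Y, ∫⁻ y2 in Y, d y1 z * d y2 z := by
    intro z
    rw [pow_succ, pow_one, ← lintegral_mul_const _ (hy z)]
    refine lintegral_congr fun y1 => ?_
    rw [lintegral_const_mul _ (hy z)]
  rw [lintegral_congr e2]
  have m3 : Measurable (fun p : (ℂ × ℂ) × ℂ => d p.1.2 p.1.1 * d p.2 p.1.1) := by
    refine Measurable.mul ?_ ?_
    · exact hd.comp (measurable_fst.snd.prodMk measurable_fst.fst)
    · exact hd.comp (measurable_snd.prodMk measurable_fst.fst)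
  have m4 : Measurable (fun p : ℂ × ℂ => ∫⁻ y2 in Y, d p.2 p.1 * d y2 p.1) :=
    m3.lintegral_prod_right'
  rw [lintegral_lintegral_swap (f := fun z y1 => ∫⁻ y2 in Y, d y1 z * d y2 z)
    m4.aemeasurable]
  refine lintegral_congr fun y1 => ?_
  refine lintegral_lintegral_swap ?_
  have : Measurable (fun p : ℂ × ℂ => d y1 p.1 * d p.2 p.1) := by
    refine Measurable.mul ?_ ?_
    · exact hd.comp (measurable_const.prodMk measurable_fst)
    · exact hd.comp (measurable_snd.prodMk measurable_fst)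
  exact this.aemeasurable

theorem mem_Y {y : ℂ} (h : y ∈ Y) : -8 ≤ y.re ∧ y.re < 8 ∧ -8 ≤ y.im ∧ y.im < 8 := by
  simp only [sq, mem_ofPred_eq, Complex.sub_re, Complex.sub_im,
    Complex.neg_re, Complex.neg_im, Complex.I_re, Complex.I_im, Complex.re_ofNat,
    Complex.im_ofNat, mul_zero, mul_one, Complex.mul_re,
    Complex.mul_im, sub_zero, add_zero] at h
  obtain ⟨b1, b2, b3, b4⟩ := h
  refine ⟨by linarith, by linarith, by linarith, by linarith⟩

theorem strip1 (c : ℝ) {δ : ℝ} (hδ : 0 < δ) :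
    volume ({y : ℂ | |y.re - c| < δ} ∩ Y) ≤ ENNReal.ofReal (32 * δ) := by
  have h : {y : ℂ | |y.re - c| < δ} ∩ Y ⊆ Complex.measurableEquivRealProd ⁻¹'
      (Ioo (c - δ) (c + δ) ×ˢ Ico (-8 : ℝ) 8) := by
    rintro y ⟨h1, h2⟩
    have h3 := mem_Y h2
    rw [mem_ofPred_eq, abs_lt] at h1
    simp only [mem_preimage, Complex.measurableEquivRealProd_apply, mem_prod, mem_Ioo, mem_Ico]
    refine ⟨⟨by linarith [h1.1], by linarith [h1.2]⟩, h3.2.2.1, h3.2.2.2⟩
  refine (measure_mono h).trans ?_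
  rw [Complex.volume_preserving_equiv_real_prod.measure_preimage
    ((measurableSet_Ioo.prod measurableSet_Ico).nullMeasurableSet), Measure.volume_eq_prod,
    Measure.prod_prod, Real.volume_Ioo, Real.volume_Ico, ← ENNReal.ofReal_mul (by linarith)]
  refine ENNReal.ofReal_le_ofReal ?_
  linarith

theorem strip2 (a b c : ℝ) {δ ε : ℝ} (hδ : 0 < δ) (hε : 0 < ε) (ha : δ ≤ |a|) :
    volume ({y : ℂ | |a * y.im + b * y.re - c| < ε} ∩ Y) ≤ ENNReal.ofReal (32 * (ε / δ)) := by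
  set S : Set (ℝ × ℝ) := {p | |a * p.2 + b * p.1 - c| < ε ∧ p.1 ∈ Ico (-8 : ℝ) 8} with hS
  have mS : MeasurableSet S := by
    have e1 : Measurable (fun p : ℝ × ℝ => |a * p.2 + b * p.1 - c|) := by fun_prop
    exact (measurableSet_lt e1 measurable_const).inter (measurable_fst measurableSet_Ico)
  have h : {y : ℂ | |a * y.im + b * y.re - c| < ε} ∩ Y ⊆
      Complex.measurableEquivRealProd ⁻¹' S := by
    rintro y ⟨h1, h2⟩
    have h3 := mem_Y h2
    exact ⟨h1, h3.1, h3.2.1⟩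
  refine (measure_mono h).trans ?_
  rw [Complex.volume_preserving_equiv_real_prod.measure_preimage mS.nullMeasurableSet,
    Measure.volume_eq_prod, Measure.prod_apply mS]
  have a0 : 0 < |a| := lt_of_lt_of_le hδ ha
  calc ∫⁻ x, volume (Prod.mk x ⁻¹' S)
      ≤ ∫⁻ x, (Ico (-8 : ℝ) 8).indicator (fun _ => ENNReal.ofReal (2 * (ε / δ))) x := by
        refine lintegral_mono fun x => ?_
        by_cases hx : x ∈ Ico (-8 : ℝ) 8
        · rw [indicator_of_mem hx, ← Real.volume_ball ((c - b * x) / a) (ε / δ)]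
          refine measure_mono ?_
          intro y hy
          have h1 : |a * y + b * x - c| < ε := hy.1
          rw [Metric.mem_ball, Real.dist_eq]
          have e : y - (c - b * x) / a = (a * y + b * x - c) / a := by
            have : a ≠ 0 := abs_pos.1 a0
            field_simp
            ring
          rw [e, abs_div, div_lt_div_iff₀ a0 hδ]
          have h4 := abs_nonneg (a * y + b * x - c)
          nlinarith
        · have : Prod.mk x ⁻¹' S = ∅ := by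
            ext y
            simp only [mem_preimage, mem_empty_iff_false, iff_false]
            intro hy
            exact hx hy.2
          simp [this]
    _ = ENNReal.ofReal (2 * (ε / δ)) * volume (Ico (-8 : ℝ) 8) :=
        lintegral_indicator_const measurableSet_Ico _
    _ ≤ _ := by
        rw [Real.volume_Ico, ← ENNReal.ofReal_mul (by positivity)]
        refine ENNReal.ofReal_le_ofReal ?_
        linarith

theorem step4 {η : ℝ} (h0 : 0 < η) (d : ℂ → ℂ → ℝ≥0∞)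
    (h1 : ∀ y z, d y z ≤ 1) (y0 : ℂ)
    (hv : ENNReal.ofReal ((η / 2 ^ 17) ^ 2) ≤
      ∫⁻ y1 in Y, ∫⁻ y2 in Y, ∫⁻ z in sq 0 1, d y1 z * d y2 z) :
    ∃ y1 ∈ Y, ∃ y2 ∈ Y, η ^ 4 / 2 ^ 99 ≤ |(conj (y1 - y0) * (y2 - y0)).im| ∧
      ENNReal.ofReal (η ^ 2 / 2 ^ 54) < ∫⁻ z in sq 0 1, d y1 z * d y2 z := by
  have hin : ∀ y1 y2, ∫⁻ z in sq 0 1, d y1 z * d y2 z ≤ 1 := by
    intro y1 y2
    calc ∫⁻ z in sq 0 1, d y1 z * d y2 z ≤ ∫⁻ z in sq 0 1, 1 :=
          lintegral_mono fun z => by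
            calc d y1 z * d y2 z ≤ 1 * 1 := mul_le_mul' (h1 _ _) (h1 _ _)
              _ = 1 := one_mul 1
      _ = 1 := by rw [setLIntegral_one, vsq]
  set δ := η ^ 2 / 2 ^ 48 with hδ
  have δ0 : 0 < δ := by positivity
  set B1 : Set ℂ := Yᶜ ∪ {y : ℂ | |y.re - y0.re| < δ} with hB1
  have mB1 : (volume.restrict Y) B1 ≤ ENNReal.ofReal (32 * δ) := by
    rw [Measure.restrict_apply' mY]
    refine le_trans (measure_mono ?_) (strip1 y0.re δ0)
    rintro y ⟨h2 | h2, h3⟩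
    · exact absurd h3 h2
    · exact ⟨h2, h3⟩
  obtain ⟨y1, hy1, hy1'⟩ := PoolH38PT.exists_good (volume.restrict Y)
    (fun y1 => ∫⁻ y2 in Y, ∫⁻ z in sq 0 1, d y1 z * d y2 z) B1
    (ENNReal.ofReal 256) (ENNReal.ofReal (η ^ 2 / 2 ^ 36)) (ENNReal.ofReal (η ^ 2 / 2 ^ 44))
    (ENNReal.ofReal (32 * δ)) (by
      intro y1
      calc ∫⁻ y2 in Y, ∫⁻ z in sq 0 1, d y1 z * d y2 z ≤ ∫⁻ y2 in Y, 1 :=
            lintegral_mono fun y2 => hin y1 y2
        _ = ENNReal.ofReal 256 := by rw [setLIntegral_one, vY]) mB1 (by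
      refine lt_of_lt_of_le ?_ hv
      rw [← ENNReal.ofReal_mul (by norm_num), ← ENNReal.ofReal_add (by positivity) (by positivity)]
      refine (ENNReal.ofReal_lt_ofReal_iff (by positivity)).2 ?_
      rw [hδ]
      have : 0 < η ^ 2 := by positivity
      linarith) (by
      rw [Measure.restrict_apply_univ, vY, ← ENNReal.ofReal_mul (by positivity)]
      refine ENNReal.ofReal_le_ofReal ?_
      linarith)
  simp only [hB1, mem_union, mem_compl_iff, mem_ofPred_eq, not_or, not_not, not_lt] at hy1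
  set v := y1 - y0 with hv1
  have hvre : δ ≤ |v.re| := by rw [hv1, Complex.sub_re]; exact hy1.2
  set ε := δ * η ^ 2 / 2 ^ 51 with hε
  have ε0 : 0 < ε := by positivity
  set c := v.re * y0.im - v.im * y0.re with hc
  set B2 : Set ℂ := Yᶜ ∪ {y : ℂ | |v.re * y.im + (-v.im) * y.re - c| < ε} with hB2
  have mB2 : (volume.restrict Y) B2 ≤ ENNReal.ofReal (32 * (ε / δ)) := by
    rw [Measure.restrict_apply' mY]
    refine le_trans (measure_mono ?_) (strip2 v.re (-v.im) c δ0 ε0 hvre)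
    rintro y ⟨h2 | h2, h3⟩
    · exact absurd h3 h2
    · exact ⟨h2, h3⟩
  have hed : ε / δ = η ^ 2 / 2 ^ 51 := by
    rw [hε]; field_simp
  obtain ⟨y2, hy2, hy2'⟩ := PoolH38PT.exists_good (volume.restrict Y)
    (fun y2 => ∫⁻ z in sq 0 1, d y1 z * d y2 z) B2
    1 (ENNReal.ofReal (η ^ 2 / 2 ^ 46)) (ENNReal.ofReal (η ^ 2 / 2 ^ 54))
    (ENNReal.ofReal (32 * (ε / δ))) (fun y2 => hin y1 y2) mB2 (by
      refine lt_trans ?_ hy1'
      rw [one_mul, ← ENNReal.ofReal_add (by positivity) (by positivity)]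
      refine (ENNReal.ofReal_lt_ofReal_iff (by positivity)).2 ?_
      rw [hed]
      have : 0 < η ^ 2 := by positivity
      linarith) (by
      rw [Measure.restrict_apply_univ, vY, ← ENNReal.ofReal_mul (by positivity)]
      refine ENNReal.ofReal_le_ofReal ?_
      linarith)
  simp only [hB2, mem_union, mem_compl_iff, mem_ofPred_eq, not_or, not_not, not_lt] at hy2
  refine ⟨y1, hy1.1, y2, hy2.1, ?_, hy2'⟩
  have e1 : (conj v * (y2 - y0)).im = v.re * y2.im + (-v.im) * y2.re - c := by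
    rw [hc]
    simp only [Complex.mul_im, Complex.conj_re, Complex.conj_im, Complex.sub_re, Complex.sub_im]
    ring
  have e2 : η ^ 4 / 2 ^ 99 = ε := by
    rw [hε, hδ]; ring
  rw [e2, e1]
  exact hy2.2

theorem step5 {κ : ℝ} {U A : ℂ → ℂ} {R : Set ℂ} (hU : Measurable U) (hA : Measurable A)
    (hR : MeasurableSet R) (hR1 : R ⊆ sq 0 1) (y0 y1 y2 : ℂ) (a : ℝ≥0∞)
    (hv : a < ∫⁻ z in sq 0 1, dg U A R κ y0 y1 z * dg U A R κ y0 y2 z) :
    ∃ z0, a < volume {t : ℝ × ℝ | Rl U A R κ y0 y1 t.1 (t.1 * (y1 - y0) + z0) ∧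
      Rl U A R κ y0 y2 t.2 (t.1 * (y1 - y0) + z0)} := by
  have mR := mRl κ y0 hU hA hR
  have q1 : Measurable (fun p : ℂ × (ℝ × ℝ) => ((y1, p.1), p.2.1)) := by fun_prop
  have q2 : Measurable (fun p : ℂ × (ℝ × ℝ) => ((y2, p.1), p.2.2)) := by fun_prop
  have mS : MeasurableSet {p : ℂ × (ℝ × ℝ) | Rl U A R κ y0 y1 p.2.1 p.1 ∧
      Rl U A R κ y0 y2 p.2.2 p.1} := (q1 mR).inter (q2 mR)
  have q3 : Measurable (fun p : ℂ × (ℝ × ℝ) => ((p.2.1 : ℂ) * (y1 - y0) + p.1, p.2)) := by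
    fun_prop
  have mS' : MeasurableSet {p : ℂ × (ℝ × ℝ) |
      Rl U A R κ y0 y1 p.2.1 (p.2.1 * (y1 - y0) + p.1) ∧
      Rl U A R κ y0 y2 p.2.2 (p.2.1 * (y1 - y0) + p.1)} := q3 mS
  have e : ∫⁻ z, dg U A R κ y0 y1 z * dg U A R κ y0 y2 z =
      ∫⁻ z0, volume {t : ℝ × ℝ | Rl U A R κ y0 y1 t.1 (t.1 * (y1 - y0) + z0) ∧
        Rl U A R κ y0 y2 t.2 (t.1 * (y1 - y0) + z0)} := by
    calc ∫⁻ z, dg U A R κ y0 y1 z * dg U A R κ y0 y2 z
        = ∫⁻ z, volume {t : ℝ × ℝ | Rl U A R κ y0 y1 t.1 z ∧ Rl U A R κ y0 y2 t.2 z} := by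
          refine lintegral_congr fun z => ?_
          have : {t : ℝ × ℝ | Rl U A R κ y0 y1 t.1 z ∧ Rl U A R κ y0 y2 t.2 z} =
              {t : ℝ | Rl U A R κ y0 y1 t z} ×ˢ {t : ℝ | Rl U A R κ y0 y2 t z} := by
            ext t; simp
          rw [this, Measure.volume_eq_prod, Measure.prod_prod]
          rfl
      _ = (volume.prod volume) {p : ℂ × (ℝ × ℝ) | Rl U A R κ y0 y1 p.2.1 p.1 ∧
            Rl U A R κ y0 y2 p.2.2 p.1} := by
          rw [Measure.prod_apply mS]; rfl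
      _ = ∫⁻ t : ℝ × ℝ, volume {z | Rl U A R κ y0 y1 t.1 z ∧ Rl U A R κ y0 y2 t.2 z} := by
          rw [Measure.prod_apply_symm mS]; rfl
      _ = ∫⁻ t : ℝ × ℝ, volume {z0 | Rl U A R κ y0 y1 t.1 (t.1 * (y1 - y0) + z0) ∧
            Rl U A R κ y0 y2 t.2 (t.1 * (y1 - y0) + z0)} := by
          refine lintegral_congr fun t => ?_
          exact (measure_preimage_add volume ((t.1 : ℂ) * (y1 - y0))
            {z | Rl U A R κ y0 y1 t.1 z ∧ Rl U A R κ y0 y2 t.2 z}).symm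
      _ = (volume.prod volume) {p : ℂ × (ℝ × ℝ) |
            Rl U A R κ y0 y1 p.2.1 (p.2.1 * (y1 - y0) + p.1) ∧
            Rl U A R κ y0 y2 p.2.2 (p.2.1 * (y1 - y0) + p.1)} := by
          rw [Measure.prod_apply_symm mS']; rfl
      _ = _ := by
          rw [Measure.prod_apply mS']; rfl
  have hlt : a * volume (sq 0 1) < ∫⁻ z0, volume {t : ℝ × ℝ |
      Rl U A R κ y0 y1 t.1 (t.1 * (y1 - y0) + z0) ∧
        Rl U A R κ y0 y2 t.2 (t.1 * (y1 - y0) + z0)} := by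
    rw [vsq, mul_one, ← e]
    exact lt_of_lt_of_le hv (setLIntegral_le_lintegral _ _)
  obtain ⟨z0, -, h3⟩ := pigeon _ _ _ _ (by
    intro z0 hz0
    have : {t : ℝ × ℝ | Rl U A R κ y0 y1 t.1 (t.1 * (y1 - y0) + z0) ∧
        Rl U A R κ y0 y2 t.2 (t.1 * (y1 - y0) + z0)} = ∅ := by
      ext t
      simp only [mem_ofPred_eq, mem_empty_iff_false, iff_false]
      rintro ⟨⟨-, -, h, -⟩, -⟩
      rw [add_sub_cancel_left] at h
      exact hz0 (hR1 h)
    rw [this, measure_empty]) hlt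
  exact ⟨z0, h3⟩

/-- The volume of a preimage under an affine parametrisation of the plane. -/
theorem vol_affine (v1 v2 z0 : ℂ) (hD : (conj v1 * v2).im ≠ 0) (P : Set ℂ)
    (mP : MeasurableSet P) :
    volume {t : ℝ × ℝ | (t.1 * v1 + z0 - t.2 * v2 : ℂ) ∈ P} =
      ENNReal.ofReal |(conj v1 * v2).im|⁻¹ * volume P := by
  set f : ℝ × ℝ →ₗ[ℝ] ℝ × ℝ := Matrix.toLin (Module.Basis.finTwoProd ℝ)
    (Module.Basis.finTwoProd ℝ) !![v1.re, -v2.re; v1.im, -v2.im] with hf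
  have hdet : LinearMap.det f = -(conj v1 * v2).im := by
    rw [hf, LinearMap.det_toLin, Matrix.det_fin_two_of]
    simp only [Complex.mul_im, Complex.conj_re, Complex.conj_im]
    ring
  have hdet0 : LinearMap.det f ≠ 0 := by rw [hdet]; exact neg_ne_zero.2 hD
  have e : {t : ℝ × ℝ | (t.1 * v1 + z0 - t.2 * v2 : ℂ) ∈ P} =
      f ⁻¹' ((fun p => p + (z0.re, z0.im)) ⁻¹' (Complex.measurableEquivRealProd.symm ⁻¹' P)) := by
    ext t
    simp only [mem_ofPred_eq, mem_preimage]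
    have : (t.1 * v1 + z0 - t.2 * v2 : ℂ) =
        Complex.measurableEquivRealProd.symm (f t + (z0.re, z0.im)) := by
      rw [hf, Matrix.toLin_finTwoProd_apply]
      apply Complex.ext
      · simp [Complex.measurableEquivRealProd]
        ring
      · simp [Complex.measurableEquivRealProd]
        ring
    rw [this]
  rw [e, Measure.addHaar_preimage_linearMap _ hdet0, measure_preimage_add_right,
    Complex.volume_preserving_equiv_real_prod.symm.measure_preimage mP.nullMeasurableSet, hdet,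
    abs_inv, abs_neg]

/-- The slopes of the real linear map with `v1 ↦ A1`, `v2 ↦ A2`. -/
noncomputable def sm (v1 v2 A1 A2 : ℂ) : ℂ :=
  (A2 * conj v1 - A1 * conj v2) / (2 * Complex.I * ((conj v1 * v2).im : ℂ))

noncomputable def sm' (v1 v2 A1 A2 : ℂ) : ℂ :=
  (A1 * v2 - A2 * v1) / (2 * Complex.I * ((conj v1 * v2).im : ℂ))

theorem sm_spec (v1 v2 A1 A2 : ℂ) (hD : (conj v1 * v2).im ≠ 0) (t1 t2 : ℝ) :
    sm v1 v2 A1 A2 * (t1 * v1 - t2 * v2) + sm' v1 v2 A1 A2 * conj (t1 * v1 - t2 * v2) =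
      t1 * A1 - t2 * A2 := by
  have hD' : ((conj v1 * v2).im : ℂ) ≠ 0 := by exact_mod_cast hD
  have e : 2 * Complex.I * ((conj v1 * v2).im : ℂ) = conj v1 * v2 - v1 * conj v2 := by
    have h1 := Complex.sub_conj (conj v1 * v2)
    rw [map_mul, Complex.conj_conj] at h1
    rw [h1]
    push_cast
    ring
  have hne : conj v1 * v2 - v1 * conj v2 ≠ 0 := by
    rw [← e]
    exact mul_ne_zero (mul_ne_zero two_ne_zero Complex.I_ne_zero) hD'
  unfold sm sm'
  rw [e, map_sub, map_mul, map_mul, Complex.conj_ofReal, Complex.conj_ofReal]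
  rw [div_mul_eq_mul_div, div_mul_eq_mul_div, ← add_div, div_eq_iff hne]
  ring

theorem norm_den (x : ℝ) : ‖(2 * Complex.I * (x : ℂ))‖ = 2 * |x| := by
  rw [norm_mul, norm_mul, Complex.norm_I, Complex.norm_real, Real.norm_eq_abs]
  norm_num

theorem sm_le {v1 v2 A1 A2 : ℂ} {a ε : ℝ} (h1 : ‖v1‖ ≤ 32) (h2 : ‖v2‖ ≤ 32) (h3 : ‖A1‖ ≤ a)
    (h4 : ‖A2‖ ≤ a) (hε : 0 < ε) (hD : ε ≤ |(conj v1 * v2).im|) :
    ‖sm v1 v2 A1 A2‖ ≤ 32 * a / ε := by
  have a0 : 0 ≤ a := (norm_nonneg _).trans h3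
  unfold sm
  rw [norm_div, norm_den]
  have hn : ‖A2 * conj v1 - A1 * conj v2‖ ≤ 64 * a := by
    refine (norm_sub_le _ _).trans ?_
    rw [norm_mul, norm_mul, RCLike.norm_conj, RCLike.norm_conj]
    nlinarith [norm_nonneg v1, norm_nonneg v2, norm_nonneg A1, norm_nonneg A2,
      mul_le_mul h4 h1 (norm_nonneg _) a0, mul_le_mul h3 h2 (norm_nonneg _) a0]
  calc ‖A2 * conj v1 - A1 * conj v2‖ / (2 * |(conj v1 * v2).im|) ≤ 64 * a / (2 * ε) := by
        gcongr
    _ = 32 * a / ε := by field_simp; ring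

theorem sm'_le {v1 v2 A1 A2 : ℂ} {a ε : ℝ} (h1 : ‖v1‖ ≤ 32) (h2 : ‖v2‖ ≤ 32) (h3 : ‖A1‖ ≤ a)
    (h4 : ‖A2‖ ≤ a) (hε : 0 < ε) (hD : ε ≤ |(conj v1 * v2).im|) :
    ‖sm' v1 v2 A1 A2‖ ≤ 32 * a / ε := by
  have a0 : 0 ≤ a := (norm_nonneg _).trans h3
  unfold sm'
  rw [norm_div, norm_den]
  have hn : ‖A1 * v2 - A2 * v1‖ ≤ 64 * a := by
    refine (norm_sub_le _ _).trans ?_
    rw [norm_mul, norm_mul]
    nlinarith [norm_nonneg v1, norm_nonneg v2, norm_nonneg A1, norm_nonneg A2,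
      mul_le_mul h4 h1 (norm_nonneg _) a0, mul_le_mul h3 h2 (norm_nonneg _) a0]
  calc ‖A1 * v2 - A2 * v1‖ / (2 * |(conj v1 * v2).im|) ≤ 64 * a / (2 * ε) := by
        gcongr
    _ = 32 * a / ε := by field_simp; ring

end AffBaux

open AffBaux in
/-- Second half of `Aff`. -/
theorem affB : AffB := by
  refine ⟨160, ?_⟩
  intro η κ U R h0 hη hκ hU hb hR hR1 hv
  obtain ⟨h', hh', y0, hy0, hv1⟩ := step1 h0 hU hR hv
  have hv2 := step2 hU hR hR1 h' y0 hv1
  set A := AA U h' y0 with hA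
  have mA : Measurable A := mAA hU h' y0
  have hv3 := step3 (dg U A R κ y0) (mdg κ y0 hU mA hR)
  have hv4 : ENNReal.ofReal ((η / 2 ^ 17) ^ 2) ≤
      ∫⁻ y1 in AffAaux.Y, ∫⁻ y2 in AffAaux.Y, ∫⁻ z in sq 0 1,
        dg U A R κ y0 y1 z * dg U A R κ y0 y2 z := by
    refine le_trans ?_ hv3
    rw [ENNReal.ofReal_pow (by positivity)]
    gcongr
  obtain ⟨y1, hy1, y2, hy2, hD, hv5⟩ := step4 h0 (dg U A R κ y0)
    (fun y z => dg_le U A R κ y0 y z) y0 hv4
  obtain ⟨z0, hv6⟩ := step5 hU mA hR hR1 y0 y1 y2 _ hv5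
  set v1 := y1 - y0 with hv1'
  set v2 := y2 - y0 with hv2'
  have ε0 : 0 < η ^ 4 / 2 ^ 99 := by positivity
  have hD0 : (conj v1 * v2).im ≠ 0 := abs_pos.1 (lt_of_lt_of_le ε0 hD)
  set m := sm v1 v2 (A y1) (A y2) with hm
  set m' := sm' v1 v2 (A y1) (A y2) with hm'
  set u₀ := U z0 - m * z0 - m' * conj z0 with hu
  set P : Set ℂ := {z | z ∈ R ∧ ‖U z - u₀ - m * z - m' * conj z‖ ≤ 2 * κ} with hP
  have mP : MeasurableSet P := by
    have e1 : Measurable (fun z : ℂ => ‖U z - u₀ - m * z - m' * conj z‖) := by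
      have : Measurable (fun z : ℂ => conj z) := Complex.continuous_conj.measurable
      fun_prop
    exact hR.inter (measurableSet_le e1 measurable_const)
  have hT : {t : ℝ × ℝ | Rl U A R κ y0 y1 t.1 (t.1 * v1 + z0) ∧
      Rl U A R κ y0 y2 t.2 (t.1 * v1 + z0)} ⊆
      {t : ℝ × ℝ | (t.1 * v1 + z0 - t.2 * v2 : ℂ) ∈ P} := by
    rintro ⟨t1, t2⟩ ⟨⟨-, -, h3, h4⟩, ⟨-, -, h5, h6⟩⟩
    refine ⟨h5, ?_⟩
    simp only [] at h3 h4 h5 h6 ⊢
    rw [← hv1', add_sub_cancel_left] at h4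
    rw [← hv2'] at h6
    have hs := sm_spec v1 v2 (A y1) (A y2) hD0 t1 t2
    rw [← hm, ← hm'] at hs
    have e : U (t1 * v1 + z0 - t2 * v2) - u₀ - m * (t1 * v1 + z0 - t2 * v2)
        - m' * conj (t1 * v1 + z0 - t2 * v2) =
        (U (t1 * v1 + z0) - U z0 - t1 * A y1) -
        (U (t1 * v1 + z0) - U (t1 * v1 + z0 - t2 * v2) - t2 * A y2) := by
      have e2 : (t1 * v1 + z0 - t2 * v2 : ℂ) = (t1 * v1 - t2 * v2) + z0 := by ring
      have e3 : m * (t1 * v1 + z0 - t2 * v2) + m' * conj (t1 * v1 + z0 - t2 * v2) =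
          (t1 * A y1 - t2 * A y2) + (m * z0 + m' * conj z0) := by
        rw [e2, map_add, ← hs]; ring
      rw [hu]
      linear_combination -e3
    rw [e]
    refine (norm_sub_le _ _).trans ?_
    linarith
  have hvP : ENNReal.ofReal (η ^ 160) ≤ volume P := by
    have h7 : ENNReal.ofReal (η ^ 2 / 2 ^ 54) ≤
        ENNReal.ofReal |(conj v1 * v2).im|⁻¹ * volume P := by
      rw [← vol_affine v1 v2 z0 hD0 P mP]
      exact hv6.le.trans (measure_mono hT)
    have h8 : ENNReal.ofReal |(conj v1 * v2).im| * ENNReal.ofReal (η ^ 2 / 2 ^ 54) ≤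
        volume P := by
      calc ENNReal.ofReal |(conj v1 * v2).im| * ENNReal.ofReal (η ^ 2 / 2 ^ 54)
          ≤ ENNReal.ofReal |(conj v1 * v2).im| *
            (ENNReal.ofReal |(conj v1 * v2).im|⁻¹ * volume P) := by gcongr
        _ = volume P := by
            rw [← mul_assoc, ← ENNReal.ofReal_mul (abs_nonneg _),
              mul_inv_cancel₀ (abs_ne_zero.2 hD0), ENNReal.ofReal_one, one_mul]
    refine le_trans ?_ h8
    rw [← ENNReal.ofReal_mul (abs_nonneg _)]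
    refine ENNReal.ofReal_le_ofReal ?_
    have h9 : η ^ 154 ≤ (1 / 2) ^ 154 := by gcongr
    have h10 : (1 / 2 : ℝ) ^ 154 ≤ 1 / 2 ^ 153 := by norm_num
    calc η ^ 160 = η ^ 6 * η ^ 154 := by ring
      _ ≤ η ^ 6 * (1 / 2 ^ 153) := by gcongr; exact h9.trans h10
      _ = η ^ 4 / 2 ^ 99 * (η ^ 2 / 2 ^ 54) := by ring
      _ ≤ |(conj v1 * v2).im| * (η ^ 2 / 2 ^ 54) := by gcongr
  have hv1n : ‖v1‖ ≤ 32 := (norm_sub_le_of_mem_sq hy1 hy0).trans (by norm_num)
  have hv2n : ‖v2‖ ≤ 32 := (norm_sub_le_of_mem_sq hy2 hy0).trans (by norm_num)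
  have hA1 := nAA hb hh'.1.1 y0 y1
  have hA2 := nAA hb hh'.1.1 y0 y2
  have hsl : 32 * (4 * (1 / η)) / (η ^ 4 / 2 ^ 99) ≤ 1 / η ^ 160 := by
    have h9 : η ^ 155 ≤ (1 / 2) ^ 155 := by gcongr
    have h10 : (1 / 2 : ℝ) ^ 155 ≤ 1 / 2 ^ 106 := by norm_num
    have e : 32 * (4 * (1 / η)) / (η ^ 4 / 2 ^ 99) = 2 ^ 106 / η ^ 5 := by
      field_simp; norm_num
    rw [e, div_le_div_iff₀ (by positivity) (by positivity)]
    calc (2 : ℝ) ^ 106 * η ^ 160 = η ^ 5 * (2 ^ 106 * η ^ 155) := by ring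
      _ ≤ η ^ 5 * (2 ^ 106 * (1 / 2 ^ 106)) := by gcongr; exact h9.trans h10
      _ = 1 * η ^ 5 := by norm_num
  refine ⟨P, u₀, m, m', mP, fun z hz => hz.1, hvP,
    (sm_le hv1n hv2n hA1 hA2 ε0 hD).trans hsl, (sm'_le hv1n hv2n hA1 hA2 ε0 hD).trans hsl, ?_⟩
  intro z hz
  refine hz.2.trans ?_
  rw [le_div_iff₀ (by positivity)]
  have h11 : η ^ 160 ≤ 1 / 2 := by
    calc η ^ 160 ≤ η ^ 1 := pow_le_pow_of_le_one h0.le (by linarith) (by norm_num)
      _ ≤ 1 / 2 := by rw [pow_one]; exact hη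
  have h12 : 0 < η ^ 160 := by positivity
  nlinarith

end Pool.Agent.H2.T2
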