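import Pool.Agent.H2.T2.Defs
import Pool.Agent.H67.Pl.Basic

/-!
# Field rigidity in the form used by the smoothing inequality
-/

open MeasureTheory Set
open scoped ComplexConjugate Real

namespace Pool.Agent.H2.T2

theorem bridge {a₁ a₂ : ℂ} (h : FRx a₁ a₂) : Pool.Agent.H67.Pl.FRx a₁ a₂ := by
  obtain ⟨C, h⟩ := h
  refine ⟨2 * C, ?_⟩
  intro η δ u₀ u₁ u₂ G hη hη2 hδ hδη m0 m1 m2 mG hG hall
  have h4 : η ^ 2 ≤ 1 / 4 := by nlinarith
  have h0 : (0 : ℝ) < η ^ 2 := by positivity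
  have hle : η ^ 2 ≤ η := by nlinarith
  have hinv : 1 / η ≤ 1 / η ^ 2 := one_div_le_one_div_of_le h0 hle
  have h4' : 4 ≤ 1 / η ^ 2 := by
    rw [le_div_iff₀ h0]
    linarith
  refine h (η ^ 2) δ u₀ u₁ u₂ G h0 (by linarith) hδ (by rw [← pow_mul]; exact hδη) m0 m1 m2 mG
    (fun x hx => ⟨(hall x hx).2.1, (hall x hx).2.2.1⟩) (fun x hx => ?_)
    (fun x hx => (hall x hx).2.2.2.1) (fun x hx => (hall x hx).2.2.2.2.1)
    (fun x hx => hle.trans (hall x hx).2.2.2.2.2.1)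
    (fun x hx => (hall x hx).2.2.2.2.2.2.trans hinv) ?_
  · obtain ⟨⟨a, b, c, d⟩, -⟩ := hall x hx
    simp only [Complex.sub_re, Complex.neg_re, Complex.one_re, Complex.I_re, Complex.sub_im,
      Complex.neg_im, Complex.one_im, Complex.I_im] at a b c d
    refine le_trans ?_ h4'
    refine (Complex.norm_le_abs_re_add_abs_im _).trans ?_
    have e1 : |x.1.re| ≤ 2 := abs_le.2 ⟨by linarith, by linarith⟩
    have e2 : |x.1.im| ≤ 2 := abs_le.2 ⟨by linarith, by linarith⟩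
    linarith
  · have hfin : volume G ≠ ⊤ := by
      intro htop
      have : volume.real G = 0 := by simp [Measure.real, htop]
      linarith
    rw [← ENNReal.ofReal_toReal hfin]
    exact ENNReal.ofReal_le_ofReal (hle.trans hG)

/-- The angle conditions. -/
theorem angle_conv {a₁ a₂ : ℂ} (h1 : a₁ ≠ 0) (h2 : a₂ ≠ 0) (him : ((a₁ - a₂) / a₁).im ≠ 0)
    (hre : ((a₁ - a₂) / a₁).re ≠ 0) (hre' : ((a₂ - a₁) / a₂).re ≠ 0) :
    (a₁ * conj a₂).im ≠ 0 ∧ (a₁ * conj (a₁ - a₂)).re ≠ 0 ∧ (a₂ * conj (a₂ - a₁)).re ≠ 0 := by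
  have key : ∀ z w : ℂ, w ≠ 0 → z / w = (z * conj w) / ((Complex.normSq w : ℝ) : ℂ) := by
    intro z w hw
    have hn : ((Complex.normSq w : ℝ) : ℂ) ≠ 0 := by
      exact_mod_cast (Complex.normSq_pos.2 hw).ne'
    rw [eq_div_iff hn, ← Complex.mul_conj]
    field_simp
  have n1 : Complex.normSq a₁ ≠ 0 := (Complex.normSq_pos.2 h1).ne'
  have n2 : Complex.normSq a₂ ≠ 0 := (Complex.normSq_pos.2 h2).ne'
  rw [key _ _ h1, Complex.div_ofReal_im] at him
  rw [key _ _ h1, Complex.div_ofReal_re] at hre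
  rw [key _ _ h2, Complex.div_ofReal_re] at hre'
  refine ⟨fun h => him ?_, fun h => hre ?_, fun h => hre' ?_⟩
  · rw [div_eq_zero_iff]
    left
    simp only [Complex.mul_im, Complex.conj_re, Complex.conj_im, Complex.sub_re,
      Complex.sub_im] at h ⊢
    linarith
  · rw [div_eq_zero_iff]
    left
    simp only [Complex.mul_re, Complex.conj_re, Complex.conj_im, Complex.sub_re,
      Complex.sub_im] at h ⊢
    linarith
  · rw [div_eq_zero_iff]
    left
    simp only [Complex.mul_re, Complex.conj_re, Complex.conj_im, Complex.sub_re,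
      Complex.sub_im] at h ⊢
    linarith

end Pool.Agent.H2.T2
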