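import Pool.Agent.H2.T2.Cell

/-!
# The cell union principle
-/

open MeasureTheory Set
open scoped ComplexConjugate Real

namespace Pool.Agent.H2.T2

namespace CUaux

/-- The part of `G` over the cell `k`. -/
def piece (s : ℝ) (G : Set (ℂ × ℝ)) (k : ℤ × ℤ) : Set (ℂ × ℝ) := G ∩ {x | cellOf s x.1 = k}

theorem measurableSet_piece {s : ℝ} {G : Set (ℂ × ℝ)} (hG : MeasurableSet G) (k : ℤ × ℤ) :
    MeasurableSet (piece s G k) :=
  hG.inter (((measurable_cellOf s).comp measurable_fst) (measurableSet_singleton k))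

theorem piece_disjoint (s : ℝ) (G : Set (ℂ × ℝ)) :
    Pairwise (Function.onFun Disjoint (piece s G)) := by
  intro a b hab
  rw [Function.onFun, Set.disjoint_left]
  intro x hx hx'
  exact hab (hx.2.symm.trans hx'.2)

theorem iUnion_piece (s : ℝ) (G : Set (ℂ × ℝ)) : ⋃ k, piece s G k = G := by
  ext x
  simp only [mem_iUnion, piece, mem_inter_iff, mem_ofPred_eq]
  exact ⟨fun ⟨_, h, _⟩ => h, fun h => ⟨_, h, rfl⟩⟩

theorem volume_eq_tsum {s : ℝ} {G : Set (ℂ × ℝ)} (hG : MeasurableSet G) :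
    volume G = ∑' k, volume (piece s G k) := by
  conv_lhs => rw [← iUnion_piece s G]
  exact measure_iUnion (piece_disjoint s G) (fun k => measurableSet_piece hG k)

/-- One cell carries at most `2 π s ^ 2`. -/
theorem volume_piece_le {s : ℝ} (hs : 0 < s) {G : Set (ℂ × ℝ)}
    (h : ∀ x ∈ G, 0 ≤ x.2 ∧ x.2 < 2 * π) (k : ℤ × ℤ) :
    volume (piece s G k) ≤ ENNReal.ofReal (2 * π * s ^ 2) := by
  have hsub : piece s G k ⊆ sq (corner s k) s ×ˢ Ico 0 (2 * π) := by
    rintro x ⟨hx, hk⟩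
    refine ⟨?_, (h x hx).1, (h x hx).2⟩
    rw [← cell_eq_sq hs]
    exact hk
  refine (measure_mono hsub).trans ?_
  rw [Measure.volume_eq_prod, Measure.prod_prod, volume_sq _ hs.le, Real.volume_Ico,
    ← ENNReal.ofReal_mul (by positivity)]
  apply ENNReal.ofReal_le_ofReal
  nlinarith [Real.pi_pos]

/-- The cells that meet the disc. -/
noncomputable def box (n : ℕ) : Finset (ℤ × ℤ) := Finset.Icc (-(n : ℤ)) n ×ˢ Finset.Icc (-(n : ℤ)) n

theorem card_box (n : ℕ) : ((box n).card : ℝ) = (2 * n + 1) ^ 2 := by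
  rw [box, Finset.card_product, Int.card_Icc]
  have : (((n : ℤ) + 1 - -(n : ℤ)).toNat : ℝ) = 2 * n + 1 := by
    have h : ((n : ℤ) + 1 - -(n : ℤ)).toNat = 2 * n + 1 := by omega
    rw [h]; push_cast; ring
  rw [Nat.cast_mul, this]
  ring

theorem cellOf_mem_box {s r : ℝ} (hs : 0 < s) {z : ℂ} (hz : ‖z‖ ≤ r) {n : ℕ} (hn : r / s + 1 ≤ n) :
    cellOf s z ∈ box n := by
  have h1 : |z.re / s| ≤ r / s := by
    rw [abs_div, abs_of_pos hs]
    exact div_le_div_of_nonneg_right ((Complex.abs_re_le_norm z).trans hz) hs.le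
  have h2 : |z.im / s| ≤ r / s := by
    rw [abs_div, abs_of_pos hs]
    exact div_le_div_of_nonneg_right ((Complex.abs_im_le_norm z).trans hz) hs.le
  have key : ∀ x : ℝ, |x| ≤ r / s → -(n : ℤ) ≤ ⌊x⌋ ∧ ⌊x⌋ ≤ n := by
    intro x hx
    rw [abs_le] at hx
    constructor
    · rw [Int.le_floor]; push_cast; linarith
    · have h3 : (⌊x⌋ : ℝ) ≤ n := (Int.floor_le x).trans (by linarith)
      exact_mod_cast h3
  simp only [box, cellOf, Finset.mem_product, Finset.mem_Icc]
  exact ⟨key _ h1, key _ h2⟩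

end CUaux

open CUaux

theorem cu : CU := by
  refine ⟨9, ?_⟩
  intro η s η' G G' hη hη2 hs hs1 hη' hG hGb hvol hG' hdense
  classical
  -- the number of cells
  obtain ⟨n, hn1, hn2⟩ : ∃ n : ℕ, (1 / η) / s + 1 ≤ n ∧ (n : ℝ) ≤ (1 / η) / s + 2 := by
    refine ⟨⌈(1 / η) / s + 1⌉₊, Nat.le_ceil _, ?_⟩
    have := Nat.ceil_lt_add_one (a := (1 / η) / s + 1) (by positivity)
    linarith
  have hηs : 2 ≤ 1 / (η * s) := by
    rw [le_div_iff₀ (by positivity)]
    nlinarith
  have hcard : ((box n).card : ℝ) * s ^ 2 ≤ 25 / η ^ 2 := by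
    rw [card_box]
    have h1 : (2 * (n : ℝ) + 1) ≤ 5 / (η * s) := by
      have h2 : (1 / η) / s = 1 / (η * s) := by rw [div_div]
      rw [h2] at hn2
      have h3 : 5 / (η * s) = 5 * (1 / (η * s)) := by ring
      rw [h3]
      linarith
    have h4 : (2 * (n : ℝ) + 1) ^ 2 ≤ (5 / (η * s)) ^ 2 :=
      pow_le_pow_left₀ (by positivity) h1 2
    calc (2 * (n : ℝ) + 1) ^ 2 * s ^ 2 ≤ (5 / (η * s)) ^ 2 * s ^ 2 :=
          mul_le_mul_of_nonneg_right h4 (by positivity)
      _ = 25 / η ^ 2 := by field_simp; norm_num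
  -- the good cells
  set good : ℤ × ℤ → Prop := fun k => ENNReal.ofReal (η ^ 9 * s ^ 2) ≤ volume (piece s G k)
    with hgood
  have hbad : ∀ k, ¬ good k → volume (piece s G k) ≤
      if k ∈ box n then ENNReal.ofReal (η ^ 9 * s ^ 2) else 0 := by
    intro k hk
    split_ifs with hkb
    · exact (not_le.1 hk).le
    · have : piece s G k = ∅ := by
        rw [Set.eq_empty_iff_forall_notMem]
        rintro x ⟨hx, hxk⟩
        apply hkb
        have hxk' : cellOf s x.1 = k := hxk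
        rw [← hxk']
        exact cellOf_mem_box hs (hGb x hx).1 hn1
      rw [this, measure_empty]
  have hgd : ∀ k, good k → ENNReal.ofReal η' * volume (piece s G k) ≤
      ENNReal.ofReal (2 * π) * volume (G' k) := by
    intro k hk
    calc ENNReal.ofReal η' * volume (piece s G k)
        ≤ ENNReal.ofReal η' * ENNReal.ofReal (2 * π * s ^ 2) :=
          mul_le_mul_right (volume_piece_le hs (fun x hx => (hGb x hx).2) k) _
      _ = ENNReal.ofReal (2 * π) * ENNReal.ofReal (η' * s ^ 2) := by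
          rw [← ENNReal.ofReal_mul hη', ← ENNReal.ofReal_mul (by positivity)]
          congr 1
          ring
      _ ≤ ENNReal.ofReal (2 * π) * volume (G' k) := mul_le_mul_right (hdense k hk) _
  have hdisj : Pairwise (Function.onFun Disjoint G') := by
    intro a b hab
    exact (piece_disjoint s G hab).mono (hG' a).2 (hG' b).2
  have hU : volume (⋃ k, G' k) = ∑' k, volume (G' k) :=
    measure_iUnion hdisj (fun k => (hG' k).1)
  have hterm : ∀ k, ENNReal.ofReal η' * volume (piece s G k) ≤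
      ENNReal.ofReal (2 * π) * volume (G' k) +
      ENNReal.ofReal η' * (if k ∈ box n then ENNReal.ofReal (η ^ 9 * s ^ 2) else 0) := by
    intro k
    by_cases hk : good k
    · exact (hgd k hk).trans le_self_add
    · exact (mul_le_mul_right (hbad k hk) _).trans le_add_self
  have hsum : ENNReal.ofReal η' * volume G ≤
      ENNReal.ofReal (2 * π) * volume (⋃ k, G' k) +
      ENNReal.ofReal η' * ENNReal.ofReal (η / 2) := by
    have h1 : (∑' k : ℤ × ℤ, if k ∈ box n then ENNReal.ofReal (η ^ 9 * s ^ 2) else 0) ≤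
        ENNReal.ofReal (η / 2) := by
      rw [tsum_eq_sum (s := box n) (fun k hk => if_neg hk),
        Finset.sum_congr rfl (fun k hk => if_pos hk), Finset.sum_const, nsmul_eq_mul,
        ← ENNReal.ofReal_natCast, ← ENNReal.ofReal_mul (by positivity)]
      apply ENNReal.ofReal_le_ofReal
      have h2 : ((box n).card : ℝ) * (η ^ 9 * s ^ 2) ≤ 25 / η ^ 2 * η ^ 9 := by
        have := mul_le_mul_of_nonneg_right hcard (show (0 : ℝ) ≤ η ^ 9 by positivity)
        linarith
      have h3 : 25 / η ^ 2 * η ^ 9 = 25 * η ^ 6 * η := by field_simp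
      have h5 : η ^ 6 ≤ (1 / 2) ^ 6 := pow_le_pow_left₀ hη.le hη2 6
      rw [h3] at h2
      have h6 : 25 * η ^ 6 * η ≤ 25 * (1 / 2) ^ 6 * η := by
        have := mul_le_mul_of_nonneg_right h5 hη.le
        linarith
      linarith
    rw [volume_eq_tsum (s := s) hG, ← ENNReal.tsum_mul_left, hU, ← ENNReal.tsum_mul_left]
    refine (ENNReal.tsum_le_tsum hterm).trans ?_
    rw [ENNReal.tsum_add, ENNReal.tsum_mul_left (a := ENNReal.ofReal η')]
    exact add_le_add le_rfl (mul_le_mul_right h1 _)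
  -- the conclusion
  have hfin : ENNReal.ofReal (η' * (η / 2)) ≤ ENNReal.ofReal (2 * π) * volume (⋃ k, G' k) := by
    have h1 : ENNReal.ofReal η' * ENNReal.ofReal η ≤ ENNReal.ofReal η' * volume G :=
      mul_le_mul_right hvol _
    have h2 : ENNReal.ofReal η' * ENNReal.ofReal η = ENNReal.ofReal (η' * (η / 2)) +
        ENNReal.ofReal (η' * (η / 2)) := by
      rw [← ENNReal.ofReal_mul hη', ← ENNReal.ofReal_add (by positivity) (by positivity)]
      congr 1
      ring
    have h3 : ENNReal.ofReal η' * ENNReal.ofReal (η / 2) = ENNReal.ofReal (η' * (η / 2)) := by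
      rw [← ENNReal.ofReal_mul hη']
    have h4 := h1.trans hsum
    rw [h2, h3] at h4
    exact (ENNReal.add_le_add_iff_right ENNReal.ofReal_ne_top).1 h4
  by_cases htop : volume (⋃ k, G' k) = ⊤
  · rw [htop]; exact le_top
  obtain ⟨v, hv0, hv⟩ : ∃ v : ℝ, 0 ≤ v ∧ volume (⋃ k, G' k) = ENNReal.ofReal v :=
    ⟨(volume (⋃ k, G' k)).toReal, ENNReal.toReal_nonneg, (ENNReal.ofReal_toReal htop).symm⟩
  rw [hv] at hfin ⊢
  rw [← ENNReal.ofReal_mul (by positivity)] at hfin
  have h5 : η' * (η / 2) ≤ 2 * π * v := (ENNReal.ofReal_le_ofReal_iff (by positivity)).1 hfin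
  apply ENNReal.ofReal_le_ofReal
  have h6 : η ^ 9 ≤ η / 16 := by
    have h7 : η ^ 8 ≤ (1 / 2) ^ 8 := pow_le_pow_left₀ hη.le hη2 8
    have h8 : η ^ 9 = η ^ 8 * η := by ring
    rw [h8]
    have := mul_le_mul_of_nonneg_right h7 hη.le
    linarith
  have h7 : π ≤ 4 := Real.pi_le_four
  have h8 : η' * η ^ 9 ≤ η' * (η / 16) := mul_le_mul_of_nonneg_left h6 hη'
  nlinarith [mul_le_mul_of_nonneg_right h7 hv0]

end Pool.Agent.H2.T2
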