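import Pool.Agent.H2.T2.Cell

/-!
# The hinge relations
-/

open MeasureTheory Set
open scoped ComplexConjugate Real

namespace Pool.Agent.H2.T2

theorem ha_core {a b θ θ' w1 w2 g1 g2 e1 e2 m1 m2 z1 z2 : ℂ} {δ : ℝ} (hθ : ‖θ‖ = 1)
    (hθ' : ‖θ'‖ = 1) (hg : conj b * (g2 - g1) = θ' * m2 - θ * m1)
    (hw : w2 - w1 = -(g2 - g1) + (e2 - e1)) (hz : z2 - z1 = -a * (θ' - θ))
    (he1 : ‖e1‖ ≤ δ) (he2 : ‖e2‖ ≤ δ) (h1 : |m1.im| ≤ δ) (h2 : |m2.im| ≤ δ) :
    |(a * conj b * (w2 - w1) * conj (z2 - z1)).re - ‖z2 - z1‖ ^ 2 * ((m1.re + m2.re) / 2)|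
      ≤ (2 * ‖a‖ * ‖b‖ + 2 * ‖a‖) * δ * ‖z2 - z1‖ := by
  have hδ : 0 ≤ δ := (norm_nonneg _).trans he1
  -- the first identity
  have e0 : a * conj b * (w2 - w1) * conj (z2 - z1) =
      (a * conj a) * ((θ' * m2 - θ * m1) * conj (θ' - θ)) +
        a * conj b * (e2 - e1) * conj (z2 - z1) := by
    rw [hw, ← hg, hz]
    simp only [map_mul, map_neg, map_sub]
    ring
  have n1 : θ.re * θ.re + θ.im * θ.im = 1 := by
    have := Complex.sq_norm θ
    rw [hθ, Complex.normSq_apply] at this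
    linarith
  have n2 : θ'.re * θ'.re + θ'.im * θ'.im = 1 := by
    have := Complex.sq_norm θ'
    rw [hθ', Complex.normSq_apply] at this
    linarith
  set u : ℝ := θ'.re * θ.re + θ'.im * θ.im with hu
  set v : ℝ := θ'.im * θ.re - θ'.re * θ.im with hv
  have huv : u * u + v * v = 1 := by
    have : u * u + v * v = (θ.re * θ.re + θ.im * θ.im) * (θ'.re * θ'.re + θ'.im * θ'.im) := by
      rw [hu, hv]; ring
    rw [this, n1, n2, one_mul]
  have hDθ : ‖θ' - θ‖ ^ 2 = 2 - 2 * u := by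
    rw [Complex.sq_norm, Complex.normSq_apply, Complex.sub_re, Complex.sub_im]
    have : (θ'.re - θ.re) * (θ'.re - θ.re) + (θ'.im - θ.im) * (θ'.im - θ.im) =
        (θ.re * θ.re + θ.im * θ.im) + (θ'.re * θ'.re + θ'.im * θ'.im) - 2 * u := by
      rw [hu]; ring
    rw [this, n1, n2]; ring
  have hDz : ‖z2 - z1‖ = ‖a‖ * ‖θ' - θ‖ := by
    rw [hz, norm_mul, norm_neg]
  have hvle : |v| ≤ ‖θ' - θ‖ := by
    apply abs_le_of_sq_le_sq _ (norm_nonneg _)
    rw [hDθ]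
    have hu1 : u ≤ 1 := by nlinarith [mul_self_nonneg v]
    nlinarith [mul_self_nonneg (1 - u)]
  have hre : ((θ' * m2 - θ * m1) * conj (θ' - θ)).re =
      (m1.re + m2.re) * (1 - u) + (m2.im - m1.im) * v := by
    simp only [Complex.mul_re, Complex.sub_re, Complex.sub_im, Complex.mul_im, Complex.conj_re,
      Complex.conj_im]
    have e1 : (m1.re + m2.re) * (1 - u) = m1.re * ((θ.re * θ.re + θ.im * θ.im) - u) +
        m2.re * ((θ'.re * θ'.re + θ'.im * θ'.im) - u) := by rw [n1, n2]; ring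
    rw [e1, hu, hv]
    ring
  have haa : ((a * conj a) * ((θ' * m2 - θ * m1) * conj (θ' - θ))).re =
      ‖a‖ ^ 2 * ((m1.re + m2.re) * (1 - u) + (m2.im - m1.im) * v) := by
    have : a * conj a = ((‖a‖ ^ 2 : ℝ) : ℂ) := by
      rw [Complex.mul_conj, Complex.sq_norm]
    rw [this, Complex.re_ofReal_mul, hre]
  have herr : |(a * conj b * (e2 - e1) * conj (z2 - z1)).re| ≤
      2 * ‖a‖ * ‖b‖ * δ * ‖z2 - z1‖ := by
    refine (Complex.abs_re_le_norm _).trans ?_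
    rw [norm_mul, norm_mul, norm_mul, Complex.norm_conj, Complex.norm_conj]
    have h3 : ‖e2 - e1‖ ≤ 2 * δ := (norm_sub_le _ _).trans (by linarith)
    calc ‖a‖ * ‖b‖ * ‖e2 - e1‖ * ‖z2 - z1‖ ≤ ‖a‖ * ‖b‖ * (2 * δ) * ‖z2 - z1‖ := by gcongr
      _ = 2 * ‖a‖ * ‖b‖ * δ * ‖z2 - z1‖ := by ring
  have hmain : (a * conj b * (w2 - w1) * conj (z2 - z1)).re -
      ‖z2 - z1‖ ^ 2 * ((m1.re + m2.re) / 2) =
      ‖a‖ ^ 2 * ((m2.im - m1.im) * v) + (a * conj b * (e2 - e1) * conj (z2 - z1)).re := by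
    rw [e0, Complex.add_re, haa, hDz, mul_pow, hDθ]
    ring
  rw [hmain]
  refine (abs_add_le _ _).trans ?_
  have h4 : |‖a‖ ^ 2 * ((m2.im - m1.im) * v)| ≤ 2 * ‖a‖ * δ * ‖z2 - z1‖ := by
    rw [abs_mul, abs_mul, abs_of_nonneg (by positivity : (0:ℝ) ≤ ‖a‖ ^ 2), hDz]
    have h5 : |m2.im - m1.im| ≤ 2 * δ := (abs_sub _ _).trans (by linarith)
    calc ‖a‖ ^ 2 * (|m2.im - m1.im| * |v|) ≤ ‖a‖ ^ 2 * (2 * δ * ‖θ' - θ‖) := by gcongr
      _ = 2 * ‖a‖ * δ * (‖a‖ * ‖θ' - θ‖) := by ring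
  linarith

theorem ha (α β : ℂ) : HA α β := by
  refine ⟨2 * ‖α‖ * ‖β‖ + 2 * ‖α‖ + 2 * ‖β‖, by positivity, ?_⟩
  intro η s δ w f g G x y hδ hS
  have mo_mul : ∀ p : ℂ × ℝ, ec p.2 * mo α β f g p =
      conj α * f (p.1 + α * ec p.2) + conj β * g (p.1 + β * ec p.2) := by
    intro p
    unfold mo
    rw [← mul_assoc, ec_mul_conj, one_mul]
  constructor
  · rintro ⟨hx, hy, -, -, hh⟩
    have h1 := ha_core (a := α) (b := β) (θ := ec x.2) (θ' := ec y.2) (w1 := w x.1) (w2 := w y.1)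
      (g1 := g (x.1 + β * ec x.2)) (g2 := g (y.1 + β * ec y.2))
      (e1 := w x.1 + f (x.1 + α * ec x.2) + g (x.1 + β * ec x.2))
      (e2 := w y.1 + f (y.1 + α * ec y.2) + g (y.1 + β * ec y.2))
      (m1 := mo α β f g x) (m2 := mo α β f g y) (z1 := x.1) (z2 := y.1) (δ := δ)
      (norm_ec _) (norm_ec _)
      (by rw [mo_mul, mo_mul, hh]; ring) (by rw [hh]; ring)
      (by linear_combination -hh)
      (hS.force x hx) (hS.force y hy) (hS.im x hx) (hS.im y hy)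
    refine h1.trans (mul_le_mul_of_nonneg_right (mul_le_mul_of_nonneg_right ?_ hδ)
      (norm_nonneg _))
    linarith [norm_nonneg β]
  · rintro ⟨hx, hy, -, -, hh⟩
    have h1 := ha_core (a := β) (b := α) (θ := ec x.2) (θ' := ec y.2) (w1 := w x.1) (w2 := w y.1)
      (g1 := f (x.1 + α * ec x.2)) (g2 := f (y.1 + α * ec y.2))
      (e1 := w x.1 + f (x.1 + α * ec x.2) + g (x.1 + β * ec x.2))
      (e2 := w y.1 + f (y.1 + α * ec y.2) + g (y.1 + β * ec y.2))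
      (m1 := mo α β f g x) (m2 := mo α β f g y) (z1 := x.1) (z2 := y.1) (δ := δ)
      (norm_ec _) (norm_ec _)
      (by rw [mo_mul, mo_mul, hh]; ring) (by rw [hh]; ring)
      (by linear_combination -hh)
      (hS.force x hx) (hS.force y hy) (hS.im x hx) (hS.im y hy)
    have h2 : conj (α * conj β) = β * conj α := by
      rw [map_mul, Complex.conj_conj, mul_comm]
    rw [h2]
    refine h1.trans (mul_le_mul_of_nonneg_right (mul_le_mul_of_nonneg_right ?_ hδ)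
      (norm_nonneg _))
    linarith [norm_nonneg α]

end Pool.Agent.H2.T2
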