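import Pool.Agent.H2.T2.Prune

/-!
# Dense sets of hinges
-/

open MeasureTheory Set
open scoped ComplexConjugate Real

namespace Pool.Agent.H2.T2

theorem hd_turn (α : ℂ) (z : ℂ) (t t' : ℝ) : turn α (z, t) t' = (z + α * (ec t - ec t'), t') := rfl

/-- The common pruned set. -/
theorem hd_prune {η s : ℝ} {G G₁ G₂ : Set (ℂ × ℝ)} (hη : 0 < η) (hs : 0 < s)
    (v₁ : volume (G \ G₁) ≤ ENNReal.ofReal (η / 4 * s ^ 2))
    (v₂ : volume (G \ G₂) ≤ ENNReal.ofReal (η / 4 * s ^ 2))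
    (hv : ENNReal.ofReal (η * s ^ 2) ≤ volume G) :
    ENNReal.ofReal (η / 2 * s ^ 2) ≤ volume (G₁ ∩ G₂) := by
  have h1 : G ⊆ (G₁ ∩ G₂) ∪ ((G \ G₁) ∪ (G \ G₂)) := by
    intro x hx
    by_cases h : x ∈ G₁
    · by_cases h' : x ∈ G₂
      · exact Or.inl ⟨h, h'⟩
      · exact Or.inr (Or.inr ⟨hx, h'⟩)
    · exact Or.inr (Or.inl ⟨hx, h⟩)
  have h2 : volume G ≤ volume (G₁ ∩ G₂) + (ENNReal.ofReal (η / 4 * s ^ 2)
      + ENNReal.ofReal (η / 4 * s ^ 2)) :=
    (measure_mono h1).trans ((measure_union_le _ _).trans (add_le_add le_rfl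
      ((measure_union_le _ _).trans (add_le_add v₁ v₂))))
  rw [← ENNReal.ofReal_add (by positivity) (by positivity)] at h2
  have h3 := hv.trans h2
  have h4 : ENNReal.ofReal (η * s ^ 2)
      = ENNReal.ofReal (η / 2 * s ^ 2) + ENNReal.ofReal (η / 4 * s ^ 2 + η / 4 * s ^ 2) := by
    rw [← ENNReal.ofReal_add (by positivity) (by positivity)]
    congr 1
    ring
  rw [h4] at h3
  exact (ENNReal.add_le_add_iff_right ENNReal.ofReal_ne_top).mp h3

/-- A partner at a large angle. -/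
theorem hd_partner {α : ℂ} {s r r' : ℝ} (h : r' < r) {G : Set (ℂ × ℝ)} {x : ℂ × ℝ}
    (hr' : 0 ≤ r')
    (hx : ENNReal.ofReal r ≤ volume {t | Hinge α s G x (turn α x t)}) :
    ∃ y, Hinge α s G x y ∧ r' ≤ y.2 - x.2 := by
  by_contra hc
  push Not at hc
  have hsub : {t | Hinge α s G x (turn α x t)} ⊆ Ico x.2 (x.2 + r') := by
    intro t ht
    have h1 := hc _ ht
    have h2 : x.2 < t := ht.2.2.1
    have h3 : (turn α x t).2 = t := rfl
    rw [h3] at h1
    exact ⟨h2.le, by linarith⟩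
  have h4 := hx.trans (measure_mono hsub)
  rw [Real.volume_Ico, add_sub_cancel_left] at h4
  exact absurd ((ENNReal.ofReal_le_ofReal_iff hr').mp h4) (not_le.mpr h)

theorem part_of {α β : ℂ} (h1 : Prune α) (h2 : Prune β) : Part α β := by
  obtain ⟨C₁, h1⟩ := h1
  obtain ⟨C₂, h2⟩ := h2
  refine ⟨C₁ + C₂ + 1, fun η s z₀ G hη hη2 hs hsC hG hGs hv => ?_⟩
  have hη1 : η ≤ 1 := by linarith
  have hs1 : s ≤ 1 := hsC.trans (pow_le_one₀ hη.le hη1)
  obtain ⟨G₁, m₁, s₁, v₁, p₁⟩ := h1 η s z₀ G hη hη2 hs hs1 hG hGs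
  obtain ⟨G₂, m₂, s₂, v₂, p₂⟩ := h2 η s z₀ G hη hη2 hs hs1 hG hGs
  have key : ∀ C : ℕ, C ≤ C₁ + C₂ → η ^ (C₁ + C₂ + 1) * s < η ^ C * s := by
    intro C hC
    apply mul_lt_mul_of_pos_right _ hs
    calc η ^ (C₁ + C₂ + 1) ≤ η ^ (C + 1) :=
          pow_le_pow_of_le_one hη.le hη1 (by omega)
      _ = η ^ C * η := pow_succ _ _
      _ < η ^ C := by
          have := pow_pos hη C
          nlinarith
  refine ⟨G₁ ∩ G₂, m₁.inter m₂, inter_subset_left.trans s₁,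
    hd_prune hη hs v₁ v₂ hv, ?_⟩
  rintro x ⟨hx1, hx2⟩
  exact ⟨hd_partner (key C₁ (by omega)) (by positivity) (p₁ x hx1).1,
    hd_partner (key C₂ (by omega)) (by positivity) (p₂ x hx2).1⟩

/-! ### The pairs of centres -/

theorem hd_ec_sub (t t' : ℝ) :
    ec t - ec t' = -(2 * Real.sin ((t' - t) / 2) : ℝ) * Complex.I * ec ((t + t') / 2) := by
  have h1 : ec t = ec ((t + t') / 2) * ec (-((t' - t) / 2)) := by
    rw [← ec_add]
    congr 1
    ring
  have h2 : ec t' = ec ((t + t') / 2) * ec ((t' - t) / 2) := by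
    rw [← ec_add]
    congr 1
    ring
  have h3 : ec (-((t' - t) / 2)) - ec ((t' - t) / 2)
      = -(2 * Real.sin ((t' - t) / 2) : ℝ) * Complex.I := by
    unfold ec
    rw [Complex.exp_mul_I, Complex.exp_mul_I]
    push_cast
    rw [Complex.cos_neg, Complex.sin_neg]
    ring
  rw [h1, h2, ← mul_sub, h3]
  ring

theorem hd_ec_inj {m n : ℝ} (h : ec m = ec n) (h1 : 0 ≤ m) (h2 : m < 2 * π) (h3 : 0 ≤ n)
    (h4 : n < 2 * π) : m = n := by
  unfold ec at h
  rw [Complex.exp_eq_exp_iff_exists_int] at h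
  obtain ⟨k, hk⟩ := h
  have hk' : m = n + k * (2 * π) := by
    have h5 := congrArg Complex.im hk
    simpa using h5
  have hk0 : k = 0 := by
    have hp := Real.pi_pos
    have a1 : (k : ℝ) < 1 := by
      by_contra hc
      push Not at hc
      nlinarith
    have a2 : (-1 : ℝ) < k := by
      by_contra hc
      push Not at hc
      nlinarith
    have b1 : k < 1 := by exact_mod_cast a1
    have b2 : -1 < k := by exact_mod_cast a2
    omega
  rw [hk0] at hk'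
  simpa using hk'

theorem hd_inj {α : ℂ} (hα : α ≠ 0) {t t' u u' : ℝ} (ht0 : 0 ≤ t) (htt : t < t')
    (ht : t' < 2 * π) (ht1 : t' - t ≤ 1) (hu0 : 0 ≤ u) (huu : u < u') (hu : u' < 2 * π)
    (hu1 : u' - u ≤ 1) (h : α * (ec t - ec t') = α * (ec u - ec u')) : t = u ∧ t' = u' := by
  have h0 := mul_left_cancel₀ hα h
  rw [hd_ec_sub, hd_ec_sub] at h0
  have hpi := Real.pi_gt_three
  have s1 : 0 < Real.sin ((t' - t) / 2) :=
    Real.sin_pos_of_pos_of_lt_pi (by linarith) (by linarith)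
  have s2 : 0 < Real.sin ((u' - u) / 2) :=
    Real.sin_pos_of_pos_of_lt_pi (by linarith) (by linarith)
  have h1 := congrArg norm h0
  simp only [norm_mul, norm_neg, Complex.norm_real, Complex.norm_I, norm_ec, mul_one,
    Real.norm_eq_abs] at h1
  rw [abs_of_pos s1, abs_of_pos s2, abs_of_pos (two_pos : (0 : ℝ) < 2)] at h1
  have h2 : (t' - t) / 2 = (u' - u) / 2 :=
    Real.injOn_sin ⟨by linarith, by linarith⟩ ⟨by linarith, by linarith⟩ (by linarith)
  rw [h2] at h0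
  have h3 : (-(2 * Real.sin ((u' - u) / 2) : ℝ) : ℂ) * Complex.I ≠ 0 := by
    apply mul_ne_zero _ Complex.I_ne_zero
    rw [neg_ne_zero]
    exact_mod_cast (by linarith : (2 * Real.sin ((u' - u) / 2)) ≠ 0)
  have h4 := mul_left_cancel₀ h3 h0
  have h5 := hd_ec_inj h4 (by linarith) (by linarith) (by linarith) (by linarith)
  constructor <;> linarith

theorem hd_arc {s : ℝ} (hs : 0 < s) {t t' : ℝ} (h : ⌊t / s⌋ = ⌊t' / s⌋) : t' - t ≤ s := by
  have h1 := Int.floor_le (t / s)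
  have h2 := Int.lt_floor_add_one (t' / s)
  rw [← h] at h2
  rw [le_div_iff₀ hs] at h1
  rw [div_lt_iff₀ hs] at h2
  nlinarith

theorem hd_EH_eq (α : ℂ) (s : ℝ) (G : Set (ℂ × ℝ)) : EH α s G =
    (fun p : (ℂ × ℝ) × ℝ => (p.1.1, p.1.1 + α * (ec p.1.2 - ec p.2))) ''
      {p | Hinge α s G p.1 (turn α p.1 p.2)} := by
  ext ⟨z, z'⟩
  simp only [EH, mem_ofPred_eq, mem_image, Prod.exists, Prod.mk.injEq]
  constructor
  · rintro ⟨t, t', h⟩
    have h5 := h.2.2.2.2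
    simp only at h5
    have h6 : z' = z + α * (ec t - ec t') := by
      have : z' = z + α * ec t - α * ec t' := by rw [h5]; ring
      rw [this]
      ring
    refine ⟨z, t, t', ?_, rfl, h6.symm⟩
    rw [hd_turn, ← h6]
    exact h
  · rintro ⟨w, t, t', h, rfl, h2⟩
    refine ⟨t, t', ?_⟩
    rw [hd_turn, h2] at h
    exact h

theorem hd_measurable_EH {α : ℂ} (hα : α ≠ 0) {s : ℝ} (hs : 0 < s) (hs1 : s ≤ 1)
    {G : Set (ℂ × ℝ)} (hG : MeasurableSet G) (hGs : ∀ x ∈ G, 0 ≤ x.2 ∧ x.2 < 2 * π) :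
    MeasurableSet (EH α s G) := by
  rw [hd_EH_eq]
  refine MeasurableSet.image_of_measurable_injOn
    ((measurable_fst.prodMk (prune_measurable_turn α)) (prune_measurableSet_hinge α s hG))
    ?_ ?_
  · exact (measurable_fst.comp measurable_fst).prodMk ((measurable_fst.comp measurable_fst).add
      (measurable_const.mul ((measurable_ec.comp (measurable_snd.comp measurable_fst)).sub
        (measurable_ec.comp measurable_snd))))
  · rintro ⟨⟨z, t⟩, t'⟩ hp ⟨⟨w, u⟩, u'⟩ hq heq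
    simp only [Prod.mk.injEq] at heq
    obtain ⟨rfl, h2⟩ := heq
    have h3 := add_left_cancel h2
    obtain ⟨p1, p2, p3, p4, -⟩ := hp
    obtain ⟨q1, q2, q3, q4, -⟩ := hq
    simp only [turn] at p1 p2 p3 p4 q1 q2 q3 q4
    obtain ⟨rfl, rfl⟩ := hd_inj hα (hGs _ p1).1 p3 (hGs _ p2).2 ((hd_arc hs p4).trans hs1)
      (hGs _ q1).1 q3 (hGs _ q2).2 ((hd_arc hs q4).trans hs1) h3
    rfl

/-- Many second centres. -/
theorem hd_out {α : ℂ} {C : ℕ} {η s k : ℝ} {z : ℂ} {G G₀ : Set (ℂ × ℝ)}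
    (hs : 0 < s) (hk : 0 ≤ k) {c : ℝ} (hck : η ≤ c * k)
    (hP : ∀ (S : Set (ℝ × ℝ)), MeasurableSet S →
      (∀ p ∈ S, 0 ≤ p.1 ∧ p.1 < p.2 ∧ p.2 < 2 * π ∧ p.2 - p.1 ≤ s) →
      ENNReal.ofReal (η * s) ≤ volume S →
      ENNReal.ofReal (η ^ C * s ^ 2) ≤
        volume ((fun p : ℝ × ℝ => z + α * (ec p.1 - ec p.2)) '' S))
    (hG : MeasurableSet G) (hGs : ∀ x ∈ G, 0 ≤ x.2 ∧ x.2 < 2 * π)
    (hm₀ : MeasurableSet G₀)
    (h₀ : ∀ x ∈ G₀, ENNReal.ofReal (k * s) ≤ volume {t | Hinge α s G x (turn α x t)})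
    (hz : ENNReal.ofReal c ≤ volume {t | (z, t) ∈ G₀}) :
    ENNReal.ofReal (η ^ C * s ^ 2) ≤ volume {z' | (z, z') ∈ EH α s G} := by
  set S : Set (ℝ × ℝ) := {p | Hinge α s G (z, p.1) (turn α (z, p.1) p.2)} with hS
  have hSm : MeasurableSet S := by
    have h1 : Measurable fun p : ℝ × ℝ => ((z, p.1), turn α (z, p.1) p.2) := by
      refine (measurable_const.prodMk measurable_fst).prodMk ?_
      exact (prune_measurable_turn α).comp
        ((measurable_const.prodMk measurable_fst).prodMk measurable_snd)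
    exact h1 (prune_measurableSet_hinge α s hG)
  have hSv : ENNReal.ofReal (η * s) ≤ volume S := by
    have hGz : MeasurableSet {t : ℝ | (z, t) ∈ G₀} := measurable_prodMk_left hm₀
    calc ENNReal.ofReal (η * s) ≤ ENNReal.ofReal (k * s * c) := by
          apply ENNReal.ofReal_le_ofReal
          nlinarith
      _ = ENNReal.ofReal (k * s) * ENNReal.ofReal c := ENNReal.ofReal_mul (by positivity)
      _ ≤ ENNReal.ofReal (k * s) * volume {t | (z, t) ∈ G₀} := by gcongr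
      _ = ∫⁻ t : ℝ, ({t : ℝ | (z, t) ∈ G₀}).indicator (fun _ => ENNReal.ofReal (k * s)) t := by
          rw [lintegral_indicator hGz, setLIntegral_const]
      _ ≤ ∫⁻ t : ℝ, volume (Prod.mk t ⁻¹' S) := by
          refine lintegral_mono fun t => ?_
          by_cases ht : t ∈ {t : ℝ | (z, t) ∈ G₀}
          · rw [indicator_of_mem ht]
            exact h₀ _ ht
          · rw [indicator_of_notMem ht]
            exact bot_le
      _ = volume S := by
          rw [Measure.volume_eq_prod, Measure.prod_apply hSm]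
  refine (hP S hSm ?_ hSv).trans (measure_mono ?_)
  · rintro ⟨t, t'⟩ ⟨p1, p2, p3, p4, -⟩
    exact ⟨(hGs _ p1).1, p3, (hGs _ p2).2, hd_arc hs p4⟩
  · rintro w ⟨⟨t, t'⟩, ht, rfl⟩
    exact ⟨t, t', ht⟩

/-- Many first centres. -/
theorem hd_in {α : ℂ} {C : ℕ} {η s k : ℝ} {z : ℂ} {G G₀ : Set (ℂ × ℝ)}
    (hs : 0 < s) (hk : 0 ≤ k) {c : ℝ} (hck : η ≤ c * k)
    (hP : ∀ (S : Set (ℝ × ℝ)), MeasurableSet S →
      (∀ p ∈ S, 0 ≤ p.1 ∧ p.1 < p.2 ∧ p.2 < 2 * π ∧ p.2 - p.1 ≤ s) →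
      ENNReal.ofReal (η * s) ≤ volume S →
      ENNReal.ofReal (η ^ C * s ^ 2) ≤
        volume ((fun p : ℝ × ℝ => z + (-α) * (ec p.1 - ec p.2)) '' S))
    (hG : MeasurableSet G) (hGs : ∀ x ∈ G, 0 ≤ x.2 ∧ x.2 < 2 * π)
    (hm₀ : MeasurableSet G₀)
    (h₀ : ∀ x ∈ G₀, ENNReal.ofReal (k * s) ≤ volume {t | Hinge α s G (turn α x t) x})
    (hz : ENNReal.ofReal c ≤ volume {t | (z, t) ∈ G₀}) :
    ENNReal.ofReal (η ^ C * s ^ 2) ≤ volume {z' | (z', z) ∈ EH α s G} := by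
  set S : Set (ℝ × ℝ) := {p | Hinge α s G (turn α (z, p.2) p.1) (z, p.2)} with hS
  have hSm : MeasurableSet S := by
    have h1 : Measurable fun p : ℝ × ℝ => (turn α (z, p.2) p.1, (z, p.2)) := by
      refine Measurable.prodMk ?_ (measurable_const.prodMk measurable_snd)
      exact (prune_measurable_turn α).comp
        ((measurable_const.prodMk measurable_snd).prodMk measurable_fst)
    exact h1 (prune_measurableSet_hinge α s hG)
  have hSv : ENNReal.ofReal (η * s) ≤ volume S := by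
    have hGz : MeasurableSet {t : ℝ | (z, t) ∈ G₀} := measurable_prodMk_left hm₀
    calc ENNReal.ofReal (η * s) ≤ ENNReal.ofReal (k * s * c) := by
          apply ENNReal.ofReal_le_ofReal
          nlinarith
      _ = ENNReal.ofReal (k * s) * ENNReal.ofReal c := ENNReal.ofReal_mul (by positivity)
      _ ≤ ENNReal.ofReal (k * s) * volume {t | (z, t) ∈ G₀} := by gcongr
      _ = ∫⁻ t : ℝ, ({t : ℝ | (z, t) ∈ G₀}).indicator (fun _ => ENNReal.ofReal (k * s)) t := by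
          rw [lintegral_indicator hGz, setLIntegral_const]
      _ ≤ ∫⁻ t : ℝ, volume ((fun u : ℝ => (u, t)) ⁻¹' S) := by
          refine lintegral_mono fun t => ?_
          by_cases ht : t ∈ {t : ℝ | (z, t) ∈ G₀}
          · rw [indicator_of_mem ht]
            exact h₀ _ ht
          · rw [indicator_of_notMem ht]
            exact bot_le
      _ = volume S := by
          rw [Measure.volume_eq_prod, Measure.prod_apply_symm hSm]
  refine (hP S hSm ?_ hSv).trans (measure_mono ?_)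
  · rintro ⟨t, t'⟩ ⟨p1, p2, p3, p4, -⟩
    exact ⟨(hGs _ p1).1, p3, (hGs _ p2).2, hd_arc hs p4⟩
  · rintro w ⟨⟨t, t'⟩, ht, rfl⟩
    refine ⟨t, t', ?_⟩
    have h1 : z + (-α) * (ec t - ec t') = z + α * (ec t' - ec t) := by ring
    have h2 : Hinge α s G (turn α (z, t') t) (z, t') := ht
    rw [hd_turn] at h2
    simp only
    rw [h1]
    exact h2

/-- The dense set of centres. -/
theorem hd_R {η s : ℝ} {z₀ : ℂ} {G₀ : Set (ℂ × ℝ)} (hη : 0 < η) (hs : 0 < s)
    (hm : MeasurableSet G₀) (hGs : ∀ x ∈ G₀, x.1 ∈ sq z₀ s ∧ 0 ≤ x.2 ∧ x.2 < 2 * π)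
    (hv : ENNReal.ofReal (η / 2 * s ^ 2) ≤ volume G₀) :
    ENNReal.ofReal (η / 16 * s ^ 2)
      ≤ volume {z : ℂ | ENNReal.ofReal (η / 16) ≤ volume {t | (z, t) ∈ G₀}} := by
  by_contra hc
  rw [not_le] at hc
  set R : Set ℂ := {z : ℂ | ENNReal.ofReal (η / 16) ≤ volume {t | (z, t) ∈ G₀}} with hR
  have hRm : MeasurableSet R :=
    measurableSet_le measurable_const (measurable_measure_prodMk_left hm)
  have h1 : ∀ z : ℂ, volume {t | (z, t) ∈ G₀} ≤ R.indicator (fun _ => ENNReal.ofReal (2 * π)) z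
      + (sq z₀ s).indicator (fun _ => ENNReal.ofReal (η / 16)) z := by
    intro z
    by_cases hz : z ∈ R
    · rw [indicator_of_mem hz]
      refine le_trans ?_ le_self_add
      calc volume {t | (z, t) ∈ G₀} ≤ volume (Ico (0 : ℝ) (2 * π)) :=
            measure_mono (fun t ht => ⟨(hGs _ ht).2.1, (hGs _ ht).2.2⟩)
        _ = ENNReal.ofReal (2 * π) := by rw [Real.volume_Ico, sub_zero]
    · rw [indicator_of_notMem hz, zero_add]
      by_cases hz' : z ∈ sq z₀ s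
      · rw [indicator_of_mem hz']
        exact (not_le.mp hz).le
      · have h2 : {t | (z, t) ∈ G₀} = ∅ :=
          eq_empty_of_forall_notMem (fun t ht => hz' (hGs _ ht).1)
        rw [h2, measure_empty]
        exact bot_le
  have h2 : volume G₀ ≤ ENNReal.ofReal (2 * π) * volume R
      + ENNReal.ofReal (η / 16) * ENNReal.ofReal (s ^ 2) := by
    calc volume G₀ = ∫⁻ z : ℂ, volume {t | (z, t) ∈ G₀} := by
          rw [Measure.volume_eq_prod, Measure.prod_apply hm]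
          rfl
      _ ≤ ∫⁻ z : ℂ, (R.indicator (fun _ => ENNReal.ofReal (2 * π)) z
          + (sq z₀ s).indicator (fun _ => ENNReal.ofReal (η / 16)) z) := lintegral_mono h1
      _ = _ := by
          rw [lintegral_add_left (measurable_const.indicator hRm), lintegral_indicator hRm,
            setLIntegral_const, lintegral_indicator (measurableSet_sq _ _), setLIntegral_const,
            volume_sq _ hs.le]
  have h3 : volume G₀ ≤ ENNReal.ofReal (2 * π) * ENNReal.ofReal (η / 16 * s ^ 2)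
      + ENNReal.ofReal (η / 16) * ENNReal.ofReal (s ^ 2) := by
    refine h2.trans ?_
    gcongr
  rw [← ENNReal.ofReal_mul (by positivity), ← ENNReal.ofReal_mul (by positivity),
    ← ENNReal.ofReal_add (by positivity) (by positivity)] at h3
  have h4 := hv.trans h3
  have h5 : 0 < η * s ^ 2 := by positivity
  rw [ENNReal.ofReal_le_ofReal_iff (by positivity)] at h4
  nlinarith [Real.pi_lt_d2]

theorem hd_of {α β : ℂ} (h1 : Prune α) (h2 : Prune β) (h3 : PolarS α) (h4 : PolarS (-α))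
    (h5 : PolarS β) (h6 : PolarS (-β)) (ha : α ≠ 0) (hb : β ≠ 0) : HD α β := by
  obtain ⟨C₁, h1⟩ := h1
  obtain ⟨C₂, h2⟩ := h2
  obtain ⟨C₃, h3⟩ := h3
  obtain ⟨C₄, h4⟩ := h4
  obtain ⟨C₅, h5⟩ := h5
  obtain ⟨C₆, h6⟩ := h6
  refine ⟨(5 + C₁) * (C₃ + C₄) + (5 + C₂) * (C₅ + C₆) + 5,
    fun η s z₀ G hη hη2 hs hsC hG hGs hv => ?_⟩
  set C : ℕ := (5 + C₁) * (C₃ + C₄) + (5 + C₂) * (C₅ + C₆) + 5 with hC
  have hη1 : η ≤ 1 := by linarith
  have hs1 : s ≤ 1 := hsC.trans (pow_le_one₀ hη.le hη1)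
  have hGs' : ∀ x ∈ G, 0 ≤ x.2 ∧ x.2 < 2 * π := fun x hx => (hGs x hx).2
  obtain ⟨G₁, m₁, s₁, v₁, p₁⟩ := h1 η s z₀ G hη hη2 hs hs1 hG hGs
  obtain ⟨G₂, m₂, s₂, v₂, p₂⟩ := h2 η s z₀ G hη hη2 hs hs1 hG hGs
  have hv₀ := hd_prune hη hs v₁ v₂ hv
  have m₀ : MeasurableSet (G₁ ∩ G₂) := m₁.inter m₂
  have s₀ : G₁ ∩ G₂ ⊆ G := inter_subset_left.trans s₁
  set R : Set ℂ := {z : ℂ | ENNReal.ofReal (η / 16) ≤ volume {t | (z, t) ∈ G₁ ∩ G₂}} with hR
  have h16 : η ^ 5 ≤ η / 16 := by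
    have e1 : η ^ 4 ≤ (1 / 2) ^ 4 := pow_le_pow_left₀ hη.le hη2 4
    have e2 : η ^ 5 = η * η ^ 4 := by ring
    rw [e2]
    nlinarith
  have hCp : η ^ C ≤ η / 16 :=
    (pow_le_pow_of_le_one hη.le hη1 (by omega)).trans h16
  have hsmall : ∀ D : ℕ, 0 < η ^ (5 + D) ∧ η ^ (5 + D) ≤ 1 / 2 ∧
      η ^ (5 + D) ≤ η / 16 * η ^ D := by
    intro D
    refine ⟨by positivity, ?_, ?_⟩
    · calc η ^ (5 + D) ≤ η ^ 1 := pow_le_pow_of_le_one hη.le hη1 (by omega)
        _ ≤ 1 / 2 := by simpa using hη2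
    · rw [pow_add]
      exact mul_le_mul_of_nonneg_right h16 (by positivity)
  have hexp : ∀ D E : ℕ, (5 + D) * E ≤ C →
      ENNReal.ofReal (η ^ C * s ^ 2) ≤ ENNReal.ofReal ((η ^ (5 + D)) ^ E * s ^ 2) := by
    intro D E hDE
    apply ENNReal.ofReal_le_ofReal
    apply mul_le_mul_of_nonneg_right _ (by positivity)
    rw [← pow_mul]
    exact pow_le_pow_of_le_one hη.le hη1 hDE
  have c3 : (5 + C₁) * C₃ ≤ C := by rw [hC]; nlinarith
  have c4 : (5 + C₁) * C₄ ≤ C := by rw [hC]; nlinarith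
  have c5 : (5 + C₂) * C₅ ≤ C := by rw [hC]; nlinarith
  have c6 : (5 + C₂) * C₆ ≤ C := by rw [hC]; nlinarith
  obtain ⟨a1, a2, a3⟩ := hsmall C₁
  obtain ⟨b1, b2, b3⟩ := hsmall C₂
  refine ⟨R, EH α s G, EH β s G,
    measurableSet_le measurable_const (measurable_measure_prodMk_left m₀),
    hd_measurable_EH ha hs hs1 hG hGs', hd_measurable_EH hb hs hs1 hG hGs', ?_, Subset.rfl,
    Subset.rfl, ?_, ?_, ?_, ?_, ?_, ?_⟩
  · intro z hz
    by_contra hc
    have e1 : {t | (z, t) ∈ G₁ ∩ G₂} = ∅ :=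
      eq_empty_of_forall_notMem (fun t ht => hc (hGs _ (s₀ ht)).1)
    have e2 : ENNReal.ofReal (η / 16) ≤ volume {t | (z, t) ∈ G₁ ∩ G₂} := hz
    rw [e1, measure_empty, nonpos_iff_eq_zero, ENNReal.ofReal_eq_zero] at e2
    linarith
  · intro z hz
    exact (hexp C₁ C₃ c3).trans (hd_out hs (by positivity) a3
      (fun S => h3 (η ^ (5 + C₁)) s z S a1 a2 hs hs1) hG hGs' m₀
      (fun x hx => (p₁ x hx.1).1) hz)
  · intro z hz
    exact (hexp C₂ C₅ c5).trans (hd_out hs (by positivity) b3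
      (fun S => h5 (η ^ (5 + C₂)) s z S b1 b2 hs hs1) hG hGs' m₀
      (fun x hx => (p₂ x hx.2).1) hz)
  · intro z hz
    exact (hexp C₁ C₄ c4).trans (hd_in hs (by positivity) a3
      (fun S => h4 (η ^ (5 + C₁)) s z S a1 a2 hs hs1) hG hGs' m₀
      (fun x hx => (p₁ x hx.1).2) hz)
  · intro z hz
    exact (hexp C₂ C₆ c6).trans (hd_in hs (by positivity) b3
      (fun S => h6 (η ^ (5 + C₂)) s z S b1 b2 hs hs1) hG hGs' m₀
      (fun x hx => (p₂ x hx.2).2) hz)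
  · intro z hz
    exact (ENNReal.ofReal_le_ofReal hCp).trans (le_trans hz (measure_mono fun t ht => s₀ ht))
  · refine le_trans (ENNReal.ofReal_le_ofReal ?_)
      (hd_R hη hs m₀ (fun x hx => hGs x (s₀ hx)) hv₀)
    exact mul_le_mul_of_nonneg_right hCp (by positivity)

end Pool.Agent.H2.T2
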