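import Pool.Agent.H2.T2.Cell

/-!
# Three common neighbours (module `k3`)
-/

open MeasureTheory Set
open scoped ComplexConjugate Real

namespace Pool.Agent.H2.T2

/-- averaging: a point outside the bad set `D` with many neighbours in `R` -/
theorem k3_pick {η r : ℝ} (hη : 0 < η) (hr : 0 < r) {R D : Set ℂ} {E : Set (ℂ × ℂ)}
    (mR : MeasurableSet R) (mD : MeasurableSet D) (mE : MeasurableSet E)
    (hE : ∀ p ∈ E, p.2 ∈ sq 0 1)
    (hv : ∀ z ∈ R, ENNReal.ofReal η ≤ volume {z' | (z, z') ∈ E})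
    (hD : volume D ≤ ENNReal.ofReal (η / 2)) (hR : ENNReal.ofReal r ≤ volume R) :
    ∃ z' ∈ sq 0 1, z' ∉ D ∧ ENNReal.ofReal (η / 4 * r) ≤ volume (R ∩ {z | (z, z') ∈ E}) := by
  by_contra hc
  push Not at hc
  set S : Set (ℂ × ℂ) := E ∩ (R ×ˢ Dᶜ) with hS
  have mS : MeasurableSet S := mE.inter (mR.prod mD.compl)
  have h1 : ENNReal.ofReal (η / 2 * r) ≤ (volume.prod volume) S := by
    rw [Measure.prod_apply mS]
    calc ENNReal.ofReal (η / 2 * r) = ENNReal.ofReal (η / 2) * ENNReal.ofReal r :=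
          ENNReal.ofReal_mul (by positivity)
      _ ≤ ENNReal.ofReal (η / 2) * volume R := by gcongr
      _ = ∫⁻ _ in R, ENNReal.ofReal (η / 2) := by rw [setLIntegral_const]
      _ ≤ ∫⁻ z in R, volume (Prod.mk z ⁻¹' S) := by
          apply setLIntegral_mono' mR
          intro z hz
          have h2 : {z' | (z, z') ∈ E} ⊆ (Prod.mk z ⁻¹' S) ∪ D := by
            intro z' hz'
            by_cases hd : z' ∈ D
            · exact Or.inr hd
            · exact Or.inl ⟨hz', hz, hd⟩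
          have h3 : ENNReal.ofReal η ≤ volume (Prod.mk z ⁻¹' S) + ENNReal.ofReal (η / 2) :=
            (hv z hz).trans ((measure_mono h2).trans ((measure_union_le _ _).trans (by gcongr)))
          have h4 : ENNReal.ofReal η = ENNReal.ofReal (η / 2) + ENNReal.ofReal (η / 2) := by
            rw [← ENNReal.ofReal_add (by positivity) (by positivity), add_halves]
          rw [h4] at h3
          exact (ENNReal.add_le_add_iff_right ENNReal.ofReal_ne_top).1 h3
      _ ≤ ∫⁻ z, volume (Prod.mk z ⁻¹' S) := setLIntegral_le_lintegral _ _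
  have h5 : (volume.prod volume) S ≤ ENNReal.ofReal (η / 4 * r) := by
    rw [Measure.prod_apply_symm mS]
    calc ∫⁻ z', volume ((fun z => (z, z')) ⁻¹' S)
        ≤ ∫⁻ z', (sq 0 1).indicator (fun _ => ENNReal.ofReal (η / 4 * r)) z' := by
          apply lintegral_mono
          intro z'
          by_cases hs : z' ∈ sq 0 1 \ D
          · rw [indicator_of_mem hs.1]
            refine le_trans (measure_mono ?_) (hc z' hs.1 hs.2).le
            intro z hz
            exact ⟨hz.2.1, hz.1⟩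
          · have h6 : (fun z => (z, z')) ⁻¹' S = ∅ := by
              ext z
              simp only [mem_preimage, mem_empty_iff_false, iff_false]
              intro hz
              exact hs ⟨hE _ hz.1, hz.2.2⟩
            change volume ((fun z => (z, z')) ⁻¹' S) ≤ _
            rw [h6, measure_empty]
            exact bot_le
      _ = ENNReal.ofReal (η / 4 * r) := by
          rw [lintegral_indicator (measurableSet_sq 0 1), setLIntegral_const,
            volume_sq 0 zero_le_one]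
          norm_num
  have h7 := h1.trans h5
  rw [ENNReal.ofReal_le_ofReal_iff (by positivity)] at h7
  nlinarith [mul_pos hη hr]

/-- the strip defined by a linear form with a large coefficient is small -/
theorem k3_strip {C : ℕ} (hC : ∀ (η ε : ℝ) (P : Set ℂ) (a : Fin 6 → ℝ),
    0 < η → η ≤ 1 / 2 → 0 ≤ ε → MeasurableSet P → P ⊆ sq 0 1 → ENNReal.ofReal η ≤ volume P →
    (∀ z ∈ P, |a 0 + a 1 * z.re + a 2 * z.im + a 3 * z.re ^ 2 + a 4 * (z.re * z.im)
      + a 5 * z.im ^ 2| ≤ ε) → ∀ i, |a i| ≤ ε / η ^ C)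
    {η ε : ℝ} (h0 : 0 < η) (h1 : η ≤ 1 / 2) (hε : 0 ≤ ε) (a b c : ℝ)
    (hb : ε / η ^ (2 * C) < |b| ∨ ε / η ^ (2 * C) < |c|) :
    MeasurableSet {z ∈ sq 0 1 | |a + b * z.re + c * z.im| ≤ ε} ∧
    volume {z ∈ sq 0 1 | |a + b * z.re + c * z.im| ≤ ε} ≤ ENNReal.ofReal (η / 2) := by
  have m : MeasurableSet {z ∈ sq 0 1 | |a + b * z.re + c * z.im| ≤ ε} := by
    apply (measurableSet_sq 0 1).inter
    have h2 := Complex.measurable_re
    have h3 := Complex.measurable_im
    have h4 : Measurable fun z : ℂ => |a + b * z.re + c * z.im| := by fun_prop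
    exact measurableSet_le h4 measurable_const
  refine ⟨m, ?_⟩
  by_contra hv
  rw [not_le] at hv
  have key := hC (η / 2) ε _ ![a, b, c, 0, 0, 0] (by positivity) (by linarith) hε m
    (fun z hz => hz.1) hv.le (by
      intro z hz
      have := hz.2
      simp only [Matrix.cons_val]
      simpa using this)
  have h4 : ε / (η / 2) ^ C ≤ ε / η ^ (2 * C) := by
    apply div_le_div_of_nonneg_left hε (by positivity)
    rw [pow_mul]
    apply pow_le_pow_left₀ (by positivity)
    nlinarith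
  rcases hb with hb | hb
  · have := (key 1).trans h4
    simp only [Matrix.cons_val] at this
    linarith
  · have := (key 2).trans h4
    simp only [Matrix.cons_val] at this
    linarith

/-- the algebra: solving the two linear equations -/
theorem k3_solve {κ ε u1 u2 a1 b1 a2 b2 l1 l2 : ℝ} (hε : 0 < ε)
    (hd : ε < |a1 * b2 - b1 * a2|) (ha1 : |a1| ≤ 1) (hb1 : |b1| ≤ 1) (ha2 : |a2| ≤ 1)
    (hb2 : |b2| ≤ 1) (h1 : |u1 * a1 + u2 * b1 - l1| ≤ 2 * κ)
    (h2 : |u1 * a2 + u2 * b2 - l2| ≤ 2 * κ) :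
    |u1 - (l1 * b2 - l2 * b1) / (a1 * b2 - b1 * a2)| ≤ 4 * κ / ε ∧
    |u2 - (l2 * a1 - l1 * a2) / (a1 * b2 - b1 * a2)| ≤ 4 * κ / ε := by
  have hD : a1 * b2 - b1 * a2 ≠ 0 := by
    intro h0
    rw [h0, abs_zero] at hd
    linarith
  have hκ : 0 ≤ κ := by
    have := (abs_nonneg _).trans h1
    linarith
  have gen : ∀ x y : ℝ, |x| ≤ 4 * κ → x = y * (a1 * b2 - b1 * a2) → |y| ≤ 4 * κ / ε := by
    intro x y hx hxy
    rw [le_div_iff₀ hε]
    have h3 : |x| = |y| * |a1 * b2 - b1 * a2| := by rw [hxy, abs_mul]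
    have h4 : |y| * ε ≤ |y| * |a1 * b2 - b1 * a2| :=
      mul_le_mul_of_nonneg_left hd.le (abs_nonneg y)
    linarith
  have bd : ∀ p q s t : ℝ, |p| ≤ 2 * κ → |q| ≤ 2 * κ → |s| ≤ 1 → |t| ≤ 1 →
      |p * s - q * t| ≤ 4 * κ := by
    intro p q s t hp hq hs ht
    have h3 : |p * s| ≤ 2 * κ * 1 := by
      rw [abs_mul]
      exact mul_le_mul hp hs (abs_nonneg _) (by linarith)
    have h4 : |q * t| ≤ 2 * κ * 1 := by
      rw [abs_mul]
      exact mul_le_mul hq ht (abs_nonneg _) (by linarith)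
    have h5 := abs_sub (p * s) (q * t)
    linarith
  constructor
  · refine gen _ _ (bd _ _ b2 b1 h1 h2 hb2 hb1) ?_
    linear_combination div_mul_cancel₀ (l1 * b2 - l2 * b1) hD
  · refine gen _ _ (bd _ _ a1 a2 h2 h1 ha1 ha2) ?_
    linear_combination div_mul_cancel₀ (l2 * a1 - l1 * a2) hD

theorem k3 (h : Remez2) : K3 := by
  obtain ⟨C, hC⟩ := h
  refine ⟨14 * C + 10, ?_⟩
  intro η κ U R E h0 h1 hκ mU mR mE hR hE hUE hv hvR
  have hη1 : η ≤ 1 := by linarith
  have hE2 : ∀ p ∈ E, p.2 ∈ sq 0 1 := fun p hp => (hE p hp).2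
  -- the three points
  obtain ⟨z₁, s1, -, v1⟩ := k3_pick (D := ∅) h0 h0 mR MeasurableSet.empty mE hE2 hv
    (by rw [measure_empty]; exact bot_le) hvR
  set R1 := R ∩ {z | (z, z₁) ∈ E} with hR1
  have mR1 : MeasurableSet R1 := mR.inter (measurable_prodMk_right mE)
  set e2 : ℝ := η ^ (2 * C + 1) with he2
  have e20 : 0 < e2 := by positivity
  have strip2 := k3_strip hC h0 h1 e20.le (-z₁.re) 1 0 (Or.inl (by
    rw [he2, pow_succ, mul_comm, mul_div_assoc, div_self (by positivity), abs_one]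
    linarith))
  obtain ⟨z₂, s2, d2, v2⟩ := k3_pick h0 (by positivity) mR1 strip2.1 mE hE2
    (fun z hz => hv z hz.1) strip2.2 v1
  set R2 := R1 ∩ {z | (z, z₂) ∈ E} with hR2
  have mR2 : MeasurableSet R2 := mR1.inter (measurable_prodMk_right mE)
  have d2' : e2 < |z₂.re - z₁.re| := by
    by_contra hc
    apply d2
    refine ⟨s2, ?_⟩
    have : -z₁.re + 1 * z₂.re + 0 * z₂.im = z₂.re - z₁.re := by ring
    rw [this]
    linarith
  set e3 : ℝ := η ^ (4 * C + 1) with he3
  have e30 : 0 < e3 := by positivity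
  have strip3 := k3_strip hC h0 h1 e30.le
    (-((z₂.re - z₁.re) * z₁.im - (z₂.im - z₁.im) * z₁.re)) (-(z₂.im - z₁.im)) (z₂.re - z₁.re)
    (Or.inr (by
      have : e3 / η ^ (2 * C) = e2 := by
        rw [he3, he2, div_eq_iff (by positivity), ← pow_add]
        congr 1
        ring
      rw [this]
      exact d2'))
  obtain ⟨z₃, s3, d3, v3⟩ := k3_pick h0 (by positivity) mR2 strip3.1 mE hE2
    (fun z hz => hv z hz.1.1) strip3.2 v2
  set P := R2 ∩ {z | (z, z₃) ∈ E} with hP
  have mP : MeasurableSet P := mR2.inter (measurable_prodMk_right mE)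
  have d3' : e3 < |(z₂.re - z₁.re) * (z₃.im - z₁.im) - (z₂.im - z₁.im) * (z₃.re - z₁.re)| := by
    by_contra hc
    apply d3
    refine ⟨s3, ?_⟩
    have : -((z₂.re - z₁.re) * z₁.im - (z₂.im - z₁.im) * z₁.re) + -(z₂.im - z₁.im) * z₃.re +
        (z₂.re - z₁.re) * z₃.im =
        (z₂.re - z₁.re) * (z₃.im - z₁.im) - (z₂.im - z₁.im) * (z₃.re - z₁.re) := by ring
    rw [this]
    linarith
  have hPR : P ⊆ R := fun z hz => hz.1.1.1
  have hvP : ENNReal.ofReal (η ^ 10) ≤ volume P := by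
    refine le_trans (ENNReal.ofReal_le_ofReal ?_) v3
    have h2 : η ^ 2 ≤ 1 / 4 := by nlinarith
    have h3 : η ^ 6 ≤ 1 / 64 := by
      calc η ^ 6 = (η ^ 2) ^ 3 := by ring
        _ ≤ (1 / 4) ^ 3 := by gcongr
        _ = 1 / 64 := by norm_num
    calc η ^ 10 = η ^ 6 * η ^ 4 := by ring
      _ ≤ 1 / 64 * η ^ 4 := by gcongr
      _ = _ := by ring
  -- the linear equations
  set W := U z₁ with hW
  set a1 := z₂.re - z₁.re with ha1
  set b1 := z₂.im - z₁.im with hb1
  set a2 := z₃.re - z₁.re with ha2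
  set b2 := z₃.im - z₁.im with hb2
  set D := a1 * b2 - b1 * a2 with hD
  set A2 : ℝ := (U z₂).re * z₂.re + (U z₂).im * z₂.im - (W.re * z₁.re + W.im * z₁.im) with hA2
  set A3 : ℝ := (U z₃).re * z₃.re + (U z₃).im * z₃.im - (W.re * z₁.re + W.im * z₁.im) with hA3
  set p0 := (A2 * b2 - A3 * b1) / D with hp0
  set p1 := -(((U z₂).re - W.re) * b2 - ((U z₃).re - W.re) * b1) / D with hp1
  set p2 := -(((U z₂).im - W.im) * b2 - ((U z₃).im - W.im) * b1) / D with hp2
  set r0 := (A3 * a1 - A2 * a2) / D with hr0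
  set r1 := -(((U z₃).re - W.re) * a1 - ((U z₂).re - W.re) * a2) / D with hr1
  set r2 := -(((U z₃).im - W.im) * a1 - ((U z₂).im - W.im) * a2) / D with hr2
  have sqre : ∀ {z z' : ℂ}, z ∈ sq 0 1 → z' ∈ sq 0 1 → |z.re - z'.re| ≤ 1 ∧ |z.im - z'.im| ≤ 1 := by
    intro z z' hz hz'
    obtain ⟨q1, q2, q3, q4⟩ := hz
    obtain ⟨q1', q2', q3', q4'⟩ := hz'
    simp only [Complex.zero_re, Complex.zero_im, zero_add] at *
    constructor <;> rw [abs_le] <;> constructor <;> linarith
  have eqn : ∀ {z z' : ℂ}, (z, z') ∈ E →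
      |((U z').re - (U z).re) * (z'.re - z.re) + ((U z').im - (U z).im) * (z'.im - z.im)| ≤ κ := by
    intro z z' hz
    have h2 := hUE _ hz
    rw [Complex.mul_re, Complex.conj_re, Complex.conj_im] at h2
    simp only [Complex.sub_re, Complex.sub_im] at h2
    have h3 : ((U z').re - (U z).re) * (z'.re - z.re) + ((U z').im - (U z).im) * (z'.im - z.im) =
      ((U z').re - (U z).re) * (z'.re - z.re) - ((U z').im - (U z).im) * -(z'.im - z.im) := by
      ring
    rw [h3]
    exact h2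
  have main : ∀ z ∈ P, |(U z).re - (p0 + p1 * z.re + p2 * z.im)| ≤ 4 * κ / e3 ∧
      |(U z).im - (r0 + r1 * z.re + r2 * z.im)| ≤ 4 * κ / e3 := by
    intro z hz
    have q1 := eqn hz.1.1.2
    have q2 := eqn hz.1.2
    have q3 := eqn hz.2
    set l1 := A2 - (((U z₂).re - W.re) * z.re + ((U z₂).im - W.im) * z.im) with hl1
    set l2 := A3 - (((U z₃).re - W.re) * z.re + ((U z₃).im - W.im) * z.im) with hl2
    have g1 : |(U z).re * a1 + (U z).im * b1 - l1| ≤ 2 * κ := by
      have h3 := abs_sub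
        (((U z₁).re - (U z).re) * (z₁.re - z.re) + ((U z₁).im - (U z).im) * (z₁.im - z.im))
        (((U z₂).re - (U z).re) * (z₂.re - z.re) + ((U z₂).im - (U z).im) * (z₂.im - z.im))
      have h4 : (U z).re * a1 + (U z).im * b1 - l1 =
        ((U z₁).re - (U z).re) * (z₁.re - z.re) + ((U z₁).im - (U z).im) * (z₁.im - z.im) -
        (((U z₂).re - (U z).re) * (z₂.re - z.re) + ((U z₂).im - (U z).im) * (z₂.im - z.im)) := by
        rw [hl1, hA2, ha1, hb1, hW]
        ring
      rw [h4]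
      linarith
    have g2 : |(U z).re * a2 + (U z).im * b2 - l2| ≤ 2 * κ := by
      have h3 := abs_sub
        (((U z₁).re - (U z).re) * (z₁.re - z.re) + ((U z₁).im - (U z).im) * (z₁.im - z.im))
        (((U z₃).re - (U z).re) * (z₃.re - z.re) + ((U z₃).im - (U z).im) * (z₃.im - z.im))
      have h4 : (U z).re * a2 + (U z).im * b2 - l2 =
        ((U z₁).re - (U z).re) * (z₁.re - z.re) + ((U z₁).im - (U z).im) * (z₁.im - z.im) -
        (((U z₃).re - (U z).re) * (z₃.re - z.re) + ((U z₃).im - (U z).im) * (z₃.im - z.im)) := by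
        rw [hl2, hA3, ha2, hb2, hW]
        ring
      rw [h4]
      linarith
    have g3 := k3_solve e30 d3' (sqre s2 s1).1 (sqre s2 s1).2 (sqre s3 s1).1 (sqre s3 s1).2 g1 g2
    have f1 : p0 + p1 * z.re + p2 * z.im = (l1 * b2 - l2 * b1) / D := by
      rw [hp0, hp1, hp2, hl1, hl2]
      ring
    have f2 : r0 + r1 * z.re + r2 * z.im = (l2 * a1 - l1 * a2) / D := by
      rw [hr0, hr1, hr2, hl1, hl2]
      ring
    rw [f1, f2]
    exact g3
  -- the quadratic relation
  have κ'0 : 0 ≤ κ * 9 / e3 := by positivity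
  have e31 : e3 ≤ 1 := pow_le_one₀ h0.le hη1
  have quad := hC (η ^ 10) (κ * 9 / e3) P
    ![(W.re - p0) * z₁.re + (W.im - r0) * z₁.im,
      -(W.re - p0) - p1 * z₁.re - r1 * z₁.im, -(W.im - r0) - p2 * z₁.re - r2 * z₁.im,
      p1, p2 + r1, r2] (by positivity)
    (by
      calc η ^ 10 = η ^ 9 * η := by ring
        _ ≤ 1 * (1 / 2) := by
          gcongr
          exact pow_le_one₀ h0.le hη1
        _ = 1 / 2 := by ring) κ'0 mP
    (hPR.trans hR) hvP (by
    intro z hz
    simp only [Matrix.cons_val]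
    obtain ⟨m1, m2⟩ := main z hz
    have q1 := eqn hz.1.1.2
    obtain ⟨x1, x2⟩ := sqre s1 (hR (hPR hz))
    have h2 : (W.re - p0) * z₁.re + (W.im - r0) * z₁.im +
        (-(W.re - p0) - p1 * z₁.re - r1 * z₁.im) * z.re +
        (-(W.im - r0) - p2 * z₁.re - r2 * z₁.im) * z.im + p1 * z.re ^ 2 +
        (p2 + r1) * (z.re * z.im) + r2 * z.im ^ 2 =
        (((U z₁).re - (U z).re) * (z₁.re - z.re) + ((U z₁).im - (U z).im) * (z₁.im - z.im)) +
        (((U z).re - (p0 + p1 * z.re + p2 * z.im)) * (z₁.re - z.re) +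
        ((U z).im - (r0 + r1 * z.re + r2 * z.im)) * (z₁.im - z.im)) := by
      rw [hW]
      ring
    rw [h2]
    have h3 : |((U z).re - (p0 + p1 * z.re + p2 * z.im)) * (z₁.re - z.re)| ≤ 4 * κ / e3 * 1 := by
      rw [abs_mul]
      exact mul_le_mul m1 x1 (abs_nonneg _) (by positivity)
    have h4 : |((U z).im - (r0 + r1 * z.re + r2 * z.im)) * (z₁.im - z.im)| ≤ 4 * κ / e3 * 1 := by
      rw [abs_mul]
      exact mul_le_mul m2 x2 (abs_nonneg _) (by positivity)
    have h5 : κ ≤ κ / e3 := by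
      rw [le_div_iff₀ e30]
      nlinarith
    refine (abs_add_le _ _).trans ((add_le_add q1 ((abs_add_le _ _).trans
      (add_le_add h3 h4))).trans ?_)
    have h6 : κ * 9 / e3 = κ / e3 + (4 * κ / e3 * 1 + 4 * κ / e3 * 1) := by ring
    rw [h6]
    linarith)
  have c3 := quad 3
  have c4 := quad 4
  have c5 := quad 5
  simp only [Matrix.cons_val] at c3 c4 c5
  refine ⟨P, ⟨p0, r0⟩, r1, mP, hPR, ?_, ?_⟩
  · refine le_trans (ENNReal.ofReal_le_ofReal ?_) hvP
    exact pow_le_pow_of_le_one h0.le hη1 (by omega)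
  · intro z hz
    obtain ⟨m1, m2⟩ := main z hz
    obtain ⟨y1, y2, y3, y4⟩ := hR (hPR hz)
    simp only [Complex.zero_re, Complex.zero_im, zero_add] at y1 y2 y3 y4
    have hre : (U z - (⟨p0, r0⟩ : ℂ) - r1 * Complex.I * z).re =
        ((U z).re - (p0 + p1 * z.re + p2 * z.im)) + (p1 * z.re + (p2 + r1) * z.im) := by
      simp only [Complex.sub_re, Complex.mul_re, Complex.mul_im, Complex.ofReal_re,
        Complex.ofReal_im, Complex.I_re, Complex.I_im]
      ring
    have him : (U z - (⟨p0, r0⟩ : ℂ) - r1 * Complex.I * z).im =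
        ((U z).im - (r0 + r1 * z.re + r2 * z.im)) + r2 * z.im := by
      simp only [Complex.sub_im, Complex.mul_re, Complex.mul_im, Complex.ofReal_re,
        Complex.ofReal_im, Complex.I_re, Complex.I_im]
      ring
    set q := κ * 9 / e3 / (η ^ 10) ^ C with hq
    have q0 : 0 ≤ q := by positivity
    have b1 : ∀ {a b : ℝ}, |a| ≤ q → 0 ≤ b → b < 1 → |a * b| ≤ q := by
      intro a b ha hb hb'
      rw [abs_mul, abs_of_nonneg hb]
      calc |a| * b ≤ q * 1 := mul_le_mul ha hb'.le hb q0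
        _ = q := mul_one q
    have t1 := b1 c3 y1 y2
    have t2 := b1 c4 y3 y4
    have t3 := b1 c5 y3 y4
    have n1 : |(U z - (⟨p0, r0⟩ : ℂ) - r1 * Complex.I * z).re| ≤ 4 * κ / e3 + (q + q) := by
      rw [hre]
      exact (abs_add_le _ _).trans (add_le_add m1 ((abs_add_le _ _).trans (add_le_add t1 t2)))
    have n2 : |(U z - (⟨p0, r0⟩ : ℂ) - r1 * Complex.I * z).im| ≤ 4 * κ / e3 + q := by
      rw [him]
      exact (abs_add_le _ _).trans (add_le_add m2 t3)
    have n3 := Complex.norm_le_abs_re_add_abs_im (U z - (⟨p0, r0⟩ : ℂ) - r1 * Complex.I * z)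
    have n4 : 4 * κ / e3 ≤ q := by
      rw [hq, le_div_iff₀ (by positivity)]
      have : (η ^ 10) ^ C ≤ 1 := pow_le_one₀ (by positivity) (pow_le_one₀ h0.le hη1)
      calc 4 * κ / e3 * (η ^ 10) ^ C ≤ 4 * κ / e3 * 1 := by gcongr
        _ ≤ κ * 9 / e3 := by
          rw [mul_one]
          exact div_le_div_of_nonneg_right (by linarith) e30.le
    have n5 : 5 * q ≤ κ / η ^ (14 * C + 10) := by
      have h7 : η ^ 6 ≤ 1 / 64 := by
        calc η ^ 6 ≤ (1 / 2) ^ 6 := by gcongr
          _ = 1 / 64 := by norm_num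
      have h8 : q = κ * 9 / η ^ (14 * C + 1) := by
        rw [hq, div_div, he3, ← pow_mul, ← pow_add]
        congr 2
        ring
      rw [h8, le_div_iff₀ (by positivity)]
      have h9 : η ^ (14 * C + 10) = η ^ (14 * C + 1) * (η ^ 6 * η ^ 3) := by
        rw [← pow_add, ← pow_add]
      have h10 : 5 * (κ * 9 / η ^ (14 * C + 1)) * η ^ (14 * C + 10) = 45 * κ * (η ^ 6 * η ^ 3) := by
        rw [h9]
        field_simp
        ring
      rw [h10]
      have h11 : η ^ 3 ≤ 1 := pow_le_one₀ h0.le hη1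
      calc 45 * κ * (η ^ 6 * η ^ 3) ≤ 45 * κ * (1 / 64 * 1) := by gcongr
        _ ≤ κ := by linarith
    linarith

end Pool.Agent.H2.T2
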