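import Pool.Agent.H2.T2.Cell

/-!
# Polar coordinates for hinges
-/

open MeasureTheory Set
open scoped ComplexConjugate Real

namespace Pool.Agent.H2.T2

/-- The position reached from `z`, in real coordinates. -/
noncomputable def gR (z α : ℂ) (p : ℝ × ℝ) : ℝ × ℝ :=
  (z.re + α.re * (Real.cos p.1 - Real.cos p.2) - α.im * (Real.sin p.1 - Real.sin p.2),
    z.im + α.re * (Real.sin p.1 - Real.sin p.2) + α.im * (Real.cos p.1 - Real.cos p.2))

theorem ec_re (t : ℝ) : (ec t).re = Real.cos t := by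
  rw [ec, Complex.exp_ofReal_mul_I_re]

theorem ec_im (t : ℝ) : (ec t).im = Real.sin t := by
  rw [ec, Complex.exp_ofReal_mul_I_im]

theorem equiv_turn (z α : ℂ) (p : ℝ × ℝ) :
    Complex.measurableEquivRealProd (z + α * (ec p.1 - ec p.2)) = gR z α p := by
  simp only [Complex.measurableEquivRealProd_apply, gR, Complex.add_re, Complex.add_im,
    Complex.mul_re, Complex.mul_im, Complex.sub_re, Complex.sub_im, ec_re, ec_im]
  refine Prod.ext ?_ ?_ <;> simp only <;> ring

/-- The derivative of `gR`. -/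
noncomputable def gD (α : ℂ) (p : ℝ × ℝ) : ℝ × ℝ →L[ℝ] ℝ × ℝ :=
  LinearMap.toContinuousLinearMap (Matrix.toLin (.finTwoProd ℝ) (.finTwoProd ℝ)
    !![-α.re * Real.sin p.1 - α.im * Real.cos p.1, α.re * Real.sin p.2 + α.im * Real.cos p.2;
      α.re * Real.cos p.1 - α.im * Real.sin p.1, -α.re * Real.cos p.2 + α.im * Real.sin p.2])

theorem hasFDerivAt_gR (z α : ℂ) (p : ℝ × ℝ) : HasFDerivAt (gR z α) (gD α p) p := by
  unfold gD
  rw [Matrix.toLin_finTwoProd_toContinuousLinearMap]
  have hf : HasFDerivAt (Prod.fst : ℝ × ℝ → ℝ) (ContinuousLinearMap.fst ℝ ℝ ℝ) p :=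
    hasFDerivAt_fst
  have hg : HasFDerivAt (Prod.snd : ℝ × ℝ → ℝ) (ContinuousLinearMap.snd ℝ ℝ ℝ) p :=
    hasFDerivAt_snd
  have hc1 := (Real.hasDerivAt_cos p.1).comp_hasFDerivAt p hf
  have hc2 := (Real.hasDerivAt_cos p.2).comp_hasFDerivAt p hg
  have hs1 := (Real.hasDerivAt_sin p.1).comp_hasFDerivAt p hf
  have hs2 := (Real.hasDerivAt_sin p.2).comp_hasFDerivAt p hg
  have h1 := (((hc1.sub hc2).const_mul α.re).const_add z.re).sub ((hs1.sub hs2).const_mul α.im)
  have h2 := (((hs1.sub hs2).const_mul α.re).const_add z.im).add ((hc1.sub hc2).const_mul α.im)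
  have h := h1.prodMk h2
  refine h.congr_fderiv ?_
  ext <;> (simp; try ring)

theorem det_gD (α : ℂ) (p : ℝ × ℝ) :
    |(gD α p).det| = ‖α‖ ^ 2 * |Real.sin (p.2 - p.1)| := by
  have h : (gD α p).det = -((α.re ^ 2 + α.im ^ 2) * Real.sin (p.2 - p.1)) := by
    unfold gD
    rw [LinearMap.det_toContinuousLinearMap, LinearMap.det_toLin, Matrix.det_fin_two_of,
      Real.sin_sub]
    ring
  rw [h, abs_neg, abs_mul, abs_of_nonneg (by positivity), ← Complex.normSq_eq_norm_sq,
    Complex.normSq_apply]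
  ring

theorem normSq_one_sub_ec (d : ℝ) : Complex.normSq (1 - ec d) = 2 - 2 * Real.cos d := by
  rw [Complex.normSq_apply]
  simp only [Complex.sub_re, Complex.sub_im, Complex.one_re, Complex.one_im, ec_re, ec_im]
  nlinarith [Real.sin_sq_add_cos_sq d]

theorem ec_inj {t u : ℝ} (ht : 0 ≤ t) (ht' : t < 2 * π) (hu : 0 ≤ u) (hu' : u < 2 * π)
    (h : ec t = ec u) : t = u := by
  unfold ec at h
  rw [Complex.exp_eq_exp_iff_exists_int] at h
  obtain ⟨n, hn⟩ := h
  have hn' : t = u + n * (2 * π) := by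
    have := congrArg Complex.im hn
    simpa using this
  have hpi := Real.pi_pos
  have h1 : (n : ℝ) < 1 := by
    by_contra hc
    push Not at hc
    nlinarith
  have h2 : (-1 : ℝ) < n := by
    by_contra hc
    push Not at hc
    nlinarith
  have h3 : n = 0 := by
    have h1' : n < 1 := by exact_mod_cast h1
    have h2' : -1 < n := by exact_mod_cast h2
    omega
  rw [hn', h3]
  simp

/-- The map of `PolarS` is injective. -/
theorem turn_injOn {α : ℂ} (hα : α ≠ 0) (z : ℂ) :
    InjOn (fun p : ℝ × ℝ => z + α * (ec p.1 - ec p.2))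
      {p | 0 ≤ p.1 ∧ p.1 < p.2 ∧ p.2 < 2 * π ∧ p.2 - p.1 ≤ 1} := by
  rintro ⟨t, t'⟩ ⟨h1, h2, h3, h4⟩ ⟨u, u'⟩ ⟨k1, k2, k3, k4⟩ h
  simp only at h h1 h2 h3 h4 k1 k2 k3 k4
  have h5 : ec t - ec t' = ec u - ec u' := mul_left_cancel₀ hα (add_left_cancel h)
  have e1 : ec t - ec t' = ec t * (1 - ec (t' - t)) := by
    rw [mul_sub, ← ec_add]
    ring_nf
  have e2 : ec u - ec u' = ec u * (1 - ec (u' - u)) := by
    rw [mul_sub, ← ec_add]
    ring_nf
  rw [e1, e2] at h5
  have h6 : Real.cos (t' - t) = Real.cos (u' - u) := by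
    have h7 := congrArg Complex.normSq h5
    rw [map_mul, map_mul, normSq_one_sub_ec, normSq_one_sub_ec, Complex.normSq_eq_norm_sq,
      Complex.normSq_eq_norm_sq, norm_ec, norm_ec] at h7
    linarith
  have hpi := Real.pi_gt_three
  have h8 : t' - t = u' - u := Real.injOn_cos ⟨by linarith, by linarith⟩
    ⟨by linarith, by linarith⟩ h6
  have h9 : (1 : ℂ) - ec (t' - t) ≠ 0 := by
    intro h0
    have h10 := normSq_one_sub_ec (t' - t)
    rw [h0, map_zero] at h10
    have h11 : Real.cos (t' - t) = Real.cos 0 := by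
      rw [Real.cos_zero]
      linarith
    have h12 := Real.injOn_cos ⟨by linarith, by linarith⟩ ⟨le_rfl, by linarith⟩ h11
    linarith
  rw [← h8] at h5
  have h13 := ec_inj h1 (by linarith) k1 (by linarith) (mul_right_cancel₀ h9 h5)
  refine Prod.ext h13 ?_
  simp only
  linarith

theorem gR_injOn {α : ℂ} (hα : α ≠ 0) (z : ℂ) :
    InjOn (gR z α) {p | 0 ≤ p.1 ∧ p.1 < p.2 ∧ p.2 < 2 * π ∧ p.2 - p.1 ≤ 1} := by
  intro p hp q hq h
  rw [← equiv_turn, ← equiv_turn] at h
  exact turn_injOn hα z hp hq (Complex.measurableEquivRealProd.injective h)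

/-- The measure of the positions, from below. -/
theorem volume_turn_image {α : ℂ} (hα : α ≠ 0) (z : ℂ) {S : Set (ℝ × ℝ)} (hS : MeasurableSet S)
    (hs : ∀ p ∈ S, 0 ≤ p.1 ∧ p.1 < p.2 ∧ p.2 < 2 * π ∧ p.2 - p.1 ≤ 1) :
    volume ((fun p : ℝ × ℝ => z + α * (ec p.1 - ec p.2)) '' S) =
      ∫⁻ p in S, ENNReal.ofReal (‖α‖ ^ 2 * |Real.sin (p.2 - p.1)|) := by
  have h1 := lintegral_abs_det_fderiv_eq_addHaar_image volume hS
    (fun p _ => (hasFDerivAt_gR z α p).hasFDerivWithinAt)
    ((gR_injOn hα z).mono fun p hp => hs p hp)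
  simp only [det_gD] at h1
  rw [h1]
  have h2 : (fun p : ℝ × ℝ => z + α * (ec p.1 - ec p.2)) '' S =
      Complex.measurableEquivRealProd ⁻¹' (gR z α '' S) := by
    ext w
    simp only [mem_image, mem_preimage]
    constructor
    · rintro ⟨p, hp, rfl⟩
      exact ⟨p, hp, (equiv_turn z α p).symm⟩
    · rintro ⟨p, hp, h⟩
      refine ⟨p, hp, Complex.measurableEquivRealProd.injective ?_⟩
      rw [equiv_turn, h]
  rw [h2]
  refine Complex.volume_preserving_equiv_real_prod.measure_preimage ?_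
  exact (hS.image_of_continuousOn_injOn
    (fun p _ => (hasFDerivAt_gR z α p).continuousAt.continuousWithinAt)
    ((gR_injOn hα z).mono fun p hp => hs p hp)).nullMeasurableSet

theorem polarS {α : ℂ} (hα : α ≠ 0) : PolarS α := by
  have hpi := Real.pi_pos
  have hn : 0 < ‖α‖ := norm_pos_iff.mpr hα
  obtain ⟨K, hK⟩ := exists_pow_lt_of_lt_one (show 0 < ‖α‖ ^ 2 / 64 by positivity)
    (show (1 / 2 : ℝ) < 1 by norm_num)
  refine ⟨K + 2, fun η s z S hη hη2 hs hs1 hS hp hv => ?_⟩
  have hp1 : ∀ p ∈ S, 0 ≤ p.1 ∧ p.1 < p.2 ∧ p.2 < 2 * π ∧ p.2 - p.1 ≤ 1 := fun p h =>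
    ⟨(hp p h).1, (hp p h).2.1, (hp p h).2.2.1, (hp p h).2.2.2.trans hs1⟩
  rw [volume_turn_image hα z hS hp1]
  set c : ℝ := η * s / (4 * π) with hc
  have hc0 : 0 < c := by positivity
  set B : Set (ℝ × ℝ) := {p | 0 ≤ p.1 ∧ p.1 < 2 * π ∧ p.1 < p.2 ∧ p.2 < p.1 + c} with hB
  have hBm : MeasurableSet B := by
    refine (measurableSet_le measurable_const measurable_fst).inter
      ((measurableSet_lt measurable_fst measurable_const).inter
        ((measurableSet_lt measurable_fst measurable_snd).inter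
          (measurableSet_lt measurable_snd (measurable_fst.add_const c))))
  have hBv : volume B ≤ ENNReal.ofReal (η * s / 2) := by
    rw [Measure.volume_eq_prod, Measure.prod_apply hBm]
    calc ∫⁻ t, volume (Prod.mk t ⁻¹' B)
        ≤ ∫⁻ t in Ico 0 (2 * π), ENNReal.ofReal c := by
          rw [← lintegral_indicator measurableSet_Ico]
          refine lintegral_mono fun t => ?_
          by_cases ht : t ∈ Ico 0 (2 * π)
          · rw [indicator_of_mem ht]
            refine (measure_mono (show Prod.mk t ⁻¹' B ⊆ Ioo t (t + c) from ?_)).trans ?_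
            · rintro y ⟨_, _, h3, h4⟩
              exact ⟨h3, h4⟩
            · rw [Real.volume_Ioo]
              simp
          · rw [indicator_of_notMem ht]
            have : Prod.mk t ⁻¹' B = ∅ := by
              ext y
              simp only [mem_preimage, mem_empty_iff_false, iff_false]
              rintro ⟨h1, h2, _, _⟩
              exact ht ⟨h1, h2⟩
            rw [this]
            simp
      _ = ENNReal.ofReal (η * s / 2) := by
          rw [lintegral_const, Measure.restrict_apply MeasurableSet.univ, univ_inter,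
            Real.volume_Ico, ← ENNReal.ofReal_mul hc0.le, hc]
          congr 1
          field_simp
          ring
  have hlow : ∀ p ∈ S \ B, ENNReal.ofReal (‖α‖ ^ 2 * (c / 2)) ≤
      ENNReal.ofReal (‖α‖ ^ 2 * |Real.sin (p.2 - p.1)|) := by
    rintro p ⟨h1, h2⟩
    obtain ⟨q1, q2, q3, q4⟩ := hp1 p h1
    refine ENNReal.ofReal_le_ofReal (mul_le_mul_of_nonneg_left ?_ (by positivity))
    have h3 : c ≤ p.2 - p.1 := by
      by_contra hcc
      push Not at hcc
      exact h2 ⟨q1, q2.trans q3, q2, by linarith⟩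
    have hpi3 := Real.pi_gt_three
    have h4 := Real.mul_le_sin (x := p.2 - p.1) (by linarith) (by linarith)
    have h5 : (1 / 2 : ℝ) ≤ 2 / π := by
      rw [div_le_div_iff₀ (by norm_num) hpi]
      linarith [Real.pi_lt_four]
    have h6 : 1 / 2 * (p.2 - p.1) ≤ 2 / π * (p.2 - p.1) :=
      mul_le_mul_of_nonneg_right h5 (by linarith)
    refine le_trans ?_ (le_abs_self _)
    linarith
  have hSB : ENNReal.ofReal (η * s / 2) ≤ volume (S \ B) := by
    have h1 : volume S ≤ volume (S \ B) + volume B := by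
      refine (measure_mono (show S ⊆ (S \ B) ∪ B from fun x hx => ?_)).trans (measure_union_le _ _)
      by_cases hxB : x ∈ B
      · exact Or.inr hxB
      · exact Or.inl ⟨hx, hxB⟩
    have h2 : ENNReal.ofReal (η * s / 2) + ENNReal.ofReal (η * s / 2) ≤
        volume (S \ B) + ENNReal.ofReal (η * s / 2) := by
      rw [← ENNReal.ofReal_add (by positivity) (by positivity), add_halves]
      exact hv.trans (h1.trans (by gcongr))
    exact (ENNReal.add_le_add_iff_right ENNReal.ofReal_ne_top).mp h2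
  calc ENNReal.ofReal (η ^ (K + 2) * s ^ 2)
      ≤ ENNReal.ofReal (‖α‖ ^ 2 * (c / 2)) * ENNReal.ofReal (η * s / 2) := by
        rw [← ENNReal.ofReal_mul (by positivity)]
        refine ENNReal.ofReal_le_ofReal ?_
        have h1 : η ^ K ≤ ‖α‖ ^ 2 / 64 :=
          (pow_le_pow_left₀ hη.le hη2 K).trans hK.le
        have h2 : ‖α‖ ^ 2 * (c / 2) * (η * s / 2) = ‖α‖ ^ 2 / (16 * π) * (η ^ 2 * s ^ 2) := by
          rw [hc]
          field_simp
          ring
        have h3 : ‖α‖ ^ 2 / 64 ≤ ‖α‖ ^ 2 / (16 * π) := by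
          refine div_le_div_of_nonneg_left (by positivity) (by positivity) ?_
          linarith [Real.pi_lt_four]
        rw [h2, pow_add, mul_assoc]
        exact mul_le_mul_of_nonneg_right (h1.trans h3) (by positivity)
    _ ≤ ENNReal.ofReal (‖α‖ ^ 2 * (c / 2)) * volume (S \ B) := by gcongr
    _ = ∫⁻ _ in S \ B, ENNReal.ofReal (‖α‖ ^ 2 * (c / 2)) := by
        rw [lintegral_const, Measure.restrict_apply MeasurableSet.univ, univ_inter]
    _ ≤ ∫⁻ p in S \ B, ENNReal.ofReal (‖α‖ ^ 2 * |Real.sin (p.2 - p.1)|) :=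
        setLIntegral_mono' (hS.diff hBm) hlow
    _ ≤ ∫⁻ p in S, ENNReal.ofReal (‖α‖ ^ 2 * |Real.sin (p.2 - p.1)|) :=
        lintegral_mono_set sdiff_subset

end Pool.Agent.H2.T2
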