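import Pool.Agent.H2.T2.Cell

/-!
# Pruning

Outside a small set every triangle of `G` is the first and the second member of many hinges.
-/

open MeasureTheory Set
open scoped ComplexConjugate Real

namespace Pool.Agent.H2.T2

/-- The points of a set of reals above which there is little of the set form a small set. -/
theorem prune_thin_above {F : Set ℝ} (hF : MeasurableSet F) (c : ENNReal) :
    volume {t | t ∈ F ∧ volume (F ∩ Ioi t) < c} ≤ c := by
  have hanti : Antitone fun t : ℝ => volume (F ∩ Ioi t) := fun a b hab =>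
    measure_mono (inter_subset_inter_right _ (Ioi_subset_Ioi hab))
  have hm : MeasurableSet {t | t ∈ F ∧ volume (F ∩ Ioi t) < c} :=
    hF.inter (measurableSet_lt hanti.measurable measurable_const)
  by_contra hc
  rw [not_le] at hc
  obtain ⟨K, hK, hKc, hlt⟩ := hm.exists_lt_isCompact hc
  have hne : K.Nonempty := by
    by_contra h
    rw [not_nonempty_iff_eq_empty] at h
    rw [h] at hlt
    simp at hlt
  obtain ⟨m, hmK, hmin⟩ := hKc.exists_isLeast hne
  have h1 := hK hmK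
  have h2 : K ⊆ {m} ∪ (F ∩ Ioi m) := by
    intro t ht
    rcases eq_or_lt_of_le (hmin ht) with h | h
    · left; exact h.symm
    · right; exact ⟨(hK ht).1, h⟩
  have h3 : volume K ≤ volume (F ∩ Ioi m) := by
    calc volume K ≤ volume ({m} ∪ (F ∩ Ioi m)) := measure_mono h2
      _ ≤ volume {m} + volume (F ∩ Ioi m) := measure_union_le _ _
      _ = volume (F ∩ Ioi m) := by simp
  exact absurd (hlt.trans_le h3) (not_lt.mpr h1.2.le)

/-- The points of a set of reals below which there is little of the set form a small set. -/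
theorem prune_thin_below {F : Set ℝ} (hF : MeasurableSet F) (c : ENNReal) :
    volume {t | t ∈ F ∧ volume (F ∩ Iio t) < c} ≤ c := by
  have hmono : Monotone fun t : ℝ => volume (F ∩ Iio t) := fun a b hab =>
    measure_mono (inter_subset_inter_right _ (Iio_subset_Iio hab))
  have hm : MeasurableSet {t | t ∈ F ∧ volume (F ∩ Iio t) < c} :=
    hF.inter (measurableSet_lt hmono.measurable measurable_const)
  by_contra hc
  rw [not_le] at hc
  obtain ⟨K, hK, hKc, hlt⟩ := hm.exists_lt_isCompact hc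
  have hne : K.Nonempty := by
    by_contra h
    rw [not_nonempty_iff_eq_empty] at h
    rw [h] at hlt
    simp at hlt
  obtain ⟨m, hmK, hmax⟩ := hKc.exists_isGreatest hne
  have h1 := hK hmK
  have h2 : K ⊆ {m} ∪ (F ∩ Iio m) := by
    intro t ht
    rcases eq_or_lt_of_le (hmax ht) with h | h
    · left; exact h
    · right; exact ⟨(hK ht).1, h⟩
  have h3 : volume K ≤ volume (F ∩ Iio m) := by
    calc volume K ≤ volume ({m} ∪ (F ∩ Iio m)) := measure_mono h2
      _ ≤ volume {m} + volume (F ∩ Iio m) := measure_union_le _ _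
      _ = volume (F ∩ Iio m) := by simp
  exact absurd (hlt.trans_le h3) (not_lt.mpr h1.2.le)

theorem prune_measurable_shear (α : ℂ) : Measurable fun x : ℂ × ℝ => (x.1 - α * ec x.2, x.2) :=
  (measurable_fst.sub (measurable_const.mul (measurable_ec.comp measurable_snd))).prodMk
    measurable_snd

/-- The measure of a set of triangles, from the sections over the common vertex. -/
theorem prune_volume_shear (α : ℂ) {A : Set (ℂ × ℝ)} (hA : MeasurableSet A) :
    volume A = ∫⁻ a : ℂ, volume {t : ℝ | (a - α * ec t, t) ∈ A} := by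
  have hB : MeasurableSet ((fun x : ℂ × ℝ => (x.1 - α * ec x.2, x.2)) ⁻¹' A) :=
    prune_measurable_shear α hA
  have h1 : volume ((fun x : ℂ × ℝ => (x.1 - α * ec x.2, x.2)) ⁻¹' A)
      = ∫⁻ a : ℂ, volume {t : ℝ | (a - α * ec t, t) ∈ A} := by
    rw [Measure.volume_eq_prod, Measure.prod_apply hB]
    rfl
  have h2 : volume ((fun x : ℂ × ℝ => (x.1 - α * ec x.2, x.2)) ⁻¹' A) = volume A := by
    rw [Measure.volume_eq_prod, Measure.prod_apply_symm hB, Measure.prod_apply_symm hA]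
    refine lintegral_congr fun t => ?_
    have h3 := measure_preimage_add_right volume (-(α * ec t)) ((fun z : ℂ => (z, t)) ⁻¹' A)
    rw [← h3]
    congr 1
  rw [← h2, h1]

theorem prune_norm_ec (t t' : ℝ) : ‖ec t - ec t'‖ ≤ |t - t'| := by
  have h1 : Complex.exp (Complex.I * ((t - t' : ℝ) : ℂ)) = ec (t - t') := by
    unfold ec
    rw [mul_comm]
  have h : ec t - ec t' = ec t' * (Complex.exp (Complex.I * ((t - t' : ℝ) : ℂ)) - 1) := by
    rw [h1, mul_sub, mul_one, ← ec_add]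
    congr 2
    ring
  rw [h, norm_mul, norm_ec, one_mul]
  exact Real.norm_exp_I_mul_ofReal_sub_one_le

/-- A set of triangles in a cell and in one arc, with small sections over the common vertex. -/
theorem prune_arc_bound (α : ℂ) {s : ℝ} (hs : 0 < s) (z₀ : ℂ) (j : ℤ) (c : ENNReal)
    {A : Set (ℂ × ℝ)} (hA : MeasurableSet A) (hsq : ∀ x ∈ A, x.1 ∈ sq z₀ s)
    (hj : ∀ x ∈ A, ⌊x.2 / s⌋ = j)
    (hc : ∀ a : ℂ, volume {t : ℝ | (a - α * ec t, t) ∈ A} ≤ c) :
    volume A ≤ c * ENNReal.ofReal (((1 + 2 * ‖α‖) * s) ^ 2) := by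
  set w : ℂ := z₀ + α * ec (j * s) - ((‖α‖ * s : ℝ) : ℂ) - ((‖α‖ * s : ℝ) : ℂ) * Complex.I with hw
  have hL : 0 ≤ (1 + 2 * ‖α‖) * s := by positivity
  have hle : ∀ a : ℂ, volume {t : ℝ | (a - α * ec t, t) ∈ A}
      ≤ (sq w ((1 + 2 * ‖α‖) * s)).indicator (fun _ => c) a := by
    intro a
    by_cases ha : a ∈ sq w ((1 + 2 * ‖α‖) * s)
    · rw [indicator_of_mem ha]
      exact hc a
    · rw [indicator_of_notMem ha]
      have hemp : {t : ℝ | (a - α * ec t, t) ∈ A} = ∅ := by
        rw [eq_empty_iff_forall_notMem]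
        intro t ht
        apply ha
        have h1 := hsq _ ht
        have h2 := hj _ ht
        simp only [Int.floor_eq_iff, le_div_iff₀ hs, div_lt_iff₀ hs] at h2
        have h3 : ‖α * (ec t - ec (j * s))‖ ≤ ‖α‖ * s := by
          rw [norm_mul]
          apply mul_le_mul_of_nonneg_left _ (norm_nonneg _)
          refine (prune_norm_ec _ _).trans ?_
          rw [abs_le]
          constructor <;> nlinarith [h2.1, h2.2]
        have h4 := (abs_le.mp ((Complex.abs_re_le_norm _).trans h3))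
        have h5 := (abs_le.mp ((Complex.abs_im_le_norm _).trans h3))
        have h6 : a = (a - α * ec t) + α * ec (j * s) + α * (ec t - ec (j * s)) := by ring
        obtain ⟨b1, b2, b3, b4⟩ := h1
        have e1 : a.re = (a - α * ec t).re + (α * ec (j * s)).re
            + (α * (ec t - ec (j * s))).re := by
          conv_lhs => rw [h6]
          simp only [Complex.add_re]
        have e2 : a.im = (a - α * ec t).im + (α * ec (j * s)).im
            + (α * (ec t - ec (j * s))).im := by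
          conv_lhs => rw [h6]
          simp only [Complex.add_im]
        have w1 : w.re = z₀.re + (α * ec (j * s)).re - ‖α‖ * s := by
          rw [hw]
          simp only [Complex.sub_re, Complex.add_re, Complex.ofReal_re, Complex.re_ofReal_mul,
            Complex.I_re]
          ring
        have w2 : w.im = z₀.im + (α * ec (j * s)).im - ‖α‖ * s := by
          rw [hw]
          simp only [Complex.sub_im, Complex.add_im, Complex.ofReal_im, Complex.im_ofReal_mul,
            Complex.I_im]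
          ring
        refine ⟨?_, ?_, ?_, ?_⟩
        · rw [w1, e1]; linarith [h4.1]
        · rw [w1, e1]; linarith [h4.2]
        · rw [w2, e2]; linarith [h5.1]
        · rw [w2, e2]; linarith [h5.2]
      rw [hemp, measure_empty]
  rw [prune_volume_shear α hA]
  calc ∫⁻ a : ℂ, volume {t : ℝ | (a - α * ec t, t) ∈ A}
      ≤ ∫⁻ a : ℂ, (sq w ((1 + 2 * ‖α‖) * s)).indicator (fun _ => c) a := lintegral_mono hle
    _ = c * ENNReal.ofReal (((1 + 2 * ‖α‖) * s) ^ 2) := by
      rw [lintegral_indicator (measurableSet_sq _ _), setLIntegral_const, volume_sq _ hL]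

/-- The same bound, summed over the arcs. -/
theorem prune_arcs_bound (α : ℂ) {s : ℝ} (hs : 0 < s) (hs1 : s ≤ 1) (z₀ : ℂ) (c : ENNReal)
    {B : Set (ℂ × ℝ)} (hB : MeasurableSet B)
    (hBs : ∀ x ∈ B, x.1 ∈ sq z₀ s ∧ 0 ≤ x.2 ∧ x.2 < 2 * π)
    (hc : ∀ (a : ℂ) (j : ℤ), volume {t : ℝ | (a - α * ec t, t) ∈ B ∧ ⌊t / s⌋ = j} ≤ c) :
    volume B ≤ ENNReal.ofReal (8 / s) * (c * ENNReal.ofReal (((1 + 2 * ‖α‖) * s) ^ 2)) := by
  set N : ℕ := ⌊2 * π / s⌋₊ + 1 with hN
  have hNle : (N : ℝ) ≤ 8 / s := by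
    have h1 : ((⌊2 * π / s⌋₊ : ℕ) : ℝ) ≤ 2 * π / s := Nat.floor_le (by positivity)
    have h2 : 2 * π / s + 1 ≤ 8 / s := by
      rw [div_add_one hs.ne', div_le_div_iff_of_pos_right hs]
      linarith [Real.pi_lt_d2]
    rw [hN]
    push_cast
    linarith
  have hfl : Measurable fun x : ℂ × ℝ => ⌊x.2 / s⌋ :=
    Int.measurable_floor.comp (measurable_snd.div_const s)
  have hBj : ∀ j : ℤ, MeasurableSet (B ∩ {x | ⌊x.2 / s⌋ = j}) := fun j =>
    hB.inter (hfl (measurableSet_singleton j))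
  have hj : ∀ j : ℤ, volume (B ∩ {x | ⌊x.2 / s⌋ = j})
      ≤ c * ENNReal.ofReal (((1 + 2 * ‖α‖) * s) ^ 2) := by
    intro j
    refine prune_arc_bound α hs z₀ j c (hBj j) (fun x hx => (hBs x hx.1).1) (fun x hx => hx.2) ?_
    intro a
    exact hc a j
  have hcov : B ⊆ ⋃ j ∈ Finset.range N, (B ∩ {x | ⌊x.2 / s⌋ = (j : ℤ)}) := by
    intro x hx
    obtain ⟨-, h0, h1⟩ := hBs x hx
    have h2 : 0 ≤ x.2 / s := div_nonneg h0 hs.le
    simp only [mem_iUnion, Finset.mem_range, exists_prop]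
    refine ⟨⌊x.2 / s⌋₊, ?_, hx, ?_⟩
    · have : ⌊x.2 / s⌋₊ ≤ ⌊2 * π / s⌋₊ :=
        Nat.floor_le_floor (div_le_div_of_nonneg_right h1.le hs.le)
      omega
    · exact (Int.natCast_floor_eq_floor h2).symm
  calc volume B ≤ volume (⋃ j ∈ Finset.range N, (B ∩ {x | ⌊x.2 / s⌋ = (j : ℤ)})) :=
        measure_mono hcov
    _ ≤ ∑ j ∈ Finset.range N, volume (B ∩ {x | ⌊x.2 / s⌋ = (j : ℤ)}) :=
        measure_biUnion_finset_le _ _
    _ ≤ ∑ _j ∈ Finset.range N, c * ENNReal.ofReal (((1 + 2 * ‖α‖) * s) ^ 2) :=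
        Finset.sum_le_sum fun j _ => hj j
    _ = (N : ENNReal) * (c * ENNReal.ofReal (((1 + 2 * ‖α‖) * s) ^ 2)) := by
        rw [Finset.sum_const, Finset.card_range, nsmul_eq_mul]
    _ ≤ ENNReal.ofReal (8 / s) * (c * ENNReal.ofReal (((1 + 2 * ‖α‖) * s) ^ 2)) := by
        gcongr
        rw [← ENNReal.ofReal_natCast]
        exact ENNReal.ofReal_le_ofReal hNle

theorem prune_turn_section (α : ℂ) (a : ℂ) (φ t : ℝ) :
    turn α (a - α * ec φ, φ) t = (a - α * ec t, t) := by
  simp only [turn, Prod.mk.injEq, and_true]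
  ring

theorem prune_hinge_up (α : ℂ) (s : ℝ) (G : Set (ℂ × ℝ)) (a : ℂ) (φ : ℝ) (j : ℤ)
    (hG : (a - α * ec φ, φ) ∈ G) (hj : ⌊φ / s⌋ = j) :
    {t | Hinge α s G (a - α * ec φ, φ) (turn α (a - α * ec φ, φ) t)}
      = {t | (a - α * ec t, t) ∈ G ∧ ⌊t / s⌋ = j} ∩ Ioi φ := by
  ext t
  simp only [prune_turn_section, mem_ofPred_eq, Hinge, mem_inter_iff, mem_Ioi]
  constructor
  · rintro ⟨-, h2, h3, h4, -⟩
    exact ⟨⟨h2, h4 ▸ hj⟩, h3⟩
  · rintro ⟨⟨h2, h4⟩, h3⟩
    exact ⟨hG, h2, h3, hj.trans h4.symm, by ring⟩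

theorem prune_hinge_down (α : ℂ) (s : ℝ) (G : Set (ℂ × ℝ)) (a : ℂ) (φ : ℝ) (j : ℤ)
    (hG : (a - α * ec φ, φ) ∈ G) (hj : ⌊φ / s⌋ = j) :
    {t | Hinge α s G (turn α (a - α * ec φ, φ) t) (a - α * ec φ, φ)}
      = {t | (a - α * ec t, t) ∈ G ∧ ⌊t / s⌋ = j} ∩ Iio φ := by
  ext t
  simp only [prune_turn_section, mem_ofPred_eq, Hinge, mem_inter_iff, mem_Iio]
  constructor
  · rintro ⟨h2, -, h3, h4, -⟩
    exact ⟨⟨h2, h4.trans hj⟩, h3⟩
  · rintro ⟨⟨h2, h4⟩, h3⟩
    exact ⟨h2, hG, h3, h4.trans hj.symm, by ring⟩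

theorem prune_measurable_turn (α : ℂ) : Measurable fun p : (ℂ × ℝ) × ℝ => turn α p.1 p.2 := by
  unfold turn
  exact ((measurable_fst.comp measurable_fst).add (measurable_const.mul
    ((measurable_ec.comp (measurable_snd.comp measurable_fst)).sub
      (measurable_ec.comp measurable_snd)))).prodMk measurable_snd

theorem prune_measurableSet_hinge (α : ℂ) (s : ℝ) {G : Set (ℂ × ℝ)} (hG : MeasurableSet G) :
    MeasurableSet {p : (ℂ × ℝ) × (ℂ × ℝ) | Hinge α s G p.1 p.2} := by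
  unfold Hinge
  have h1 : Measurable fun p : (ℂ × ℝ) × (ℂ × ℝ) => p.1.2 := measurable_snd.comp measurable_fst
  have h2 : Measurable fun p : (ℂ × ℝ) × (ℂ × ℝ) => p.2.2 := measurable_snd.comp measurable_snd
  have h3 : Measurable fun p : (ℂ × ℝ) × (ℂ × ℝ) => p.1.1 + α * ec p.1.2 :=
    (measurable_fst.comp measurable_fst).add (measurable_const.mul (measurable_ec.comp h1))
  have h4 : Measurable fun p : (ℂ × ℝ) × (ℂ × ℝ) => p.2.1 + α * ec p.2.2 :=
    (measurable_fst.comp measurable_snd).add (measurable_const.mul (measurable_ec.comp h2))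
  exact (measurable_fst hG).inter ((measurable_snd hG).inter ((measurableSet_lt h1 h2).inter
    ((measurableSet_eq_fun (Int.measurable_floor.comp (h1.div_const s))
      (Int.measurable_floor.comp (h2.div_const s))).inter (measurableSet_eq_fun h3 h4))))

/-- Pruning. -/
theorem prune {α : ℂ} (_h : α ≠ 0) : Prune α := by
  obtain ⟨C, hC⟩ : ∃ C : ℕ, 64 * (1 + 2 * ‖α‖) ^ 2 < 2 ^ C :=
    pow_unbounded_of_one_lt _ (by norm_num)
  refine ⟨C + 1, fun η s z₀ G hη hη2 hs hs1 hG hGs => ?_⟩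
  set k : ENNReal := ENNReal.ofReal (η ^ (C + 1) * s) with hk
  have hm1 : Measurable fun x : ℂ × ℝ => volume {t | Hinge α s G x (turn α x t)} :=
    measurable_measure_prodMk_left
      ((measurable_fst.prodMk (prune_measurable_turn α)) (prune_measurableSet_hinge α s hG))
  have hm2 : Measurable fun x : ℂ × ℝ => volume {t | Hinge α s G (turn α x t) x} :=
    measurable_measure_prodMk_left
      (((prune_measurable_turn α).prodMk measurable_fst) (prune_measurableSet_hinge α s hG))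
  set B1 : Set (ℂ × ℝ) := {x | x ∈ G ∧ volume {t | Hinge α s G x (turn α x t)} < k} with hB1
  set B2 : Set (ℂ × ℝ) := {x | x ∈ G ∧ volume {t | Hinge α s G (turn α x t) x} < k} with hB2
  have hB1m : MeasurableSet B1 := hG.inter (measurableSet_lt hm1 measurable_const)
  have hB2m : MeasurableSet B2 := hG.inter (measurableSet_lt hm2 measurable_const)
  have hFm : ∀ (a : ℂ) (j : ℤ), MeasurableSet {t : ℝ | (a - α * ec t, t) ∈ G ∧ ⌊t / s⌋ = j} := by
    intro a j
    have h1 : Measurable fun t : ℝ => (a - α * ec t, t) :=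
      (measurable_const.sub (measurable_const.mul measurable_ec)).prodMk measurable_id
    have h2 : Measurable fun t : ℝ => ⌊t / s⌋ :=
      Int.measurable_floor.comp (measurable_id.div_const s)
    exact (h1 hG).inter (h2 (measurableSet_singleton j))
  have v1 : volume B1 ≤
      ENNReal.ofReal (8 / s) * (k * ENNReal.ofReal (((1 + 2 * ‖α‖) * s) ^ 2)) := by
    refine prune_arcs_bound α hs hs1 z₀ k hB1m (fun x hx => hGs x hx.1) fun a j => ?_
    refine (measure_mono ?_).trans (prune_thin_above (hFm a j) k)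
    rintro t ⟨⟨ht1, ht2⟩, ht3⟩
    refine ⟨⟨ht1, ht3⟩, ?_⟩
    rw [prune_hinge_up α s G a t j ht1 ht3] at ht2
    exact ht2
  have v2 : volume B2 ≤
      ENNReal.ofReal (8 / s) * (k * ENNReal.ofReal (((1 + 2 * ‖α‖) * s) ^ 2)) := by
    refine prune_arcs_bound α hs hs1 z₀ k hB2m (fun x hx => hGs x hx.1) fun a j => ?_
    refine (measure_mono ?_).trans (prune_thin_below (hFm a j) k)
    rintro t ⟨⟨ht1, ht2⟩, ht3⟩
    refine ⟨⟨ht1, ht3⟩, ?_⟩
    rw [prune_hinge_down α s G a t j ht1 ht3] at ht2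
    exact ht2
  refine ⟨G \ (B1 ∪ B2), hG.diff (hB1m.union hB2m), sdiff_subset, ?_, ?_⟩
  · have hsub : G \ (G \ (B1 ∪ B2)) ⊆ B1 ∪ B2 := by
      intro x hx
      by_contra h
      exact hx.2 ⟨hx.1, h⟩
    have hkey : 8 / s * (η ^ (C + 1) * s * ((1 + 2 * ‖α‖) * s) ^ 2)
        + 8 / s * (η ^ (C + 1) * s * ((1 + 2 * ‖α‖) * s) ^ 2) ≤ η / 4 * s ^ 2 := by
      have e : 8 / s * (η ^ (C + 1) * s * ((1 + 2 * ‖α‖) * s) ^ 2)
        + 8 / s * (η ^ (C + 1) * s * ((1 + 2 * ‖α‖) * s) ^ 2)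
        = (64 * (1 + 2 * ‖α‖) ^ 2 * η ^ C) * (η / 4 * s ^ 2) := by
        field_simp
        ring
      rw [e]
      have h1 : η ^ C ≤ (1 / 2) ^ C := pow_le_pow_left₀ hη.le hη2 C
      have h2 : 64 * (1 + 2 * ‖α‖) ^ 2 * η ^ C ≤ 2 ^ C * (1 / 2) ^ C :=
        mul_le_mul hC.le h1 (by positivity) (by positivity)
      have h3 : (2 : ℝ) ^ C * (1 / 2) ^ C = 1 := by
        rw [← mul_pow]
        norm_num
      rw [h3] at h2
      exact mul_le_of_le_one_left (by positivity) h2
    calc volume (G \ (G \ (B1 ∪ B2))) ≤ volume (B1 ∪ B2) := measure_mono hsub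
      _ ≤ volume B1 + volume B2 := measure_union_le _ _
      _ ≤ _ := add_le_add v1 v2
      _ = ENNReal.ofReal (8 / s * (η ^ (C + 1) * s * ((1 + 2 * ‖α‖) * s) ^ 2)
        + 8 / s * (η ^ (C + 1) * s * ((1 + 2 * ‖α‖) * s) ^ 2)) := by
        rw [hk, ← ENNReal.ofReal_mul (by positivity), ← ENNReal.ofReal_mul (by positivity),
          ← ENNReal.ofReal_add (by positivity) (by positivity)]
      _ ≤ ENNReal.ofReal (η / 4 * s ^ 2) := ENNReal.ofReal_le_ofReal hkey
  · rintro x ⟨hxG, hxB⟩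
    have h1 : x ∉ B1 := fun h => hxB (Or.inl h)
    have h2 : x ∉ B2 := fun h => hxB (Or.inr h)
    exact ⟨not_lt.mp fun h => h1 ⟨hxG, h⟩, not_lt.mp fun h => h2 ⟨hxG, h⟩⟩

end Pool.Agent.H2.T2
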