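import Pool.Agent.H2.T2.Defs

open MeasureTheory Set
open scoped ComplexConjugate Real

namespace Pool.Agent.H2.T2

namespace R1aux

/-- the affine chart of the square -/
noncomputable def up (z₀ : ℂ) (L : ℝ) (y : ℂ) : ℂ := z₀ + L • y

theorem continuous_up (z₀ : ℂ) (L : ℝ) : Continuous (up z₀ L) := by
  unfold up; fun_prop

theorem up_mem {z₀ : ℂ} {L : ℝ} (hL : 0 < L) {y : ℂ} (h : up z₀ L y ∈ sq z₀ L) : y ∈ sq 0 1 := by
  simp only [sq, up, mem_ofPred_eq, Complex.add_re, Complex.add_im, Complex.real_smul,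
    Complex.mul_re, Complex.mul_im, Complex.ofReal_re, Complex.ofReal_im, zero_mul, sub_zero,
    add_zero, Complex.zero_re, Complex.zero_im, zero_add] at h ⊢
  obtain ⟨h1, h2, h3, h4⟩ := h
  refine ⟨?_, ?_, ?_, ?_⟩
  · by_contra hc; push Not at hc; nlinarith
  · by_contra hc; push Not at hc; nlinarith
  · by_contra hc; push Not at hc; nlinarith
  · by_contra hc; push Not at hc; nlinarith

theorem volume_up (z₀ : ℂ) {L : ℝ} (hL : 0 < L) (S : Set ℂ) :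
    volume (up z₀ L ⁻¹' S) = ENNReal.ofReal ((L ^ 2)⁻¹) * volume S := by
  have h1 : up z₀ L ⁻¹' S = (fun y : ℂ => L • y) ⁻¹' ((fun y => z₀ + y) ⁻¹' S) := rfl
  rw [h1, Measure.addHaar_preimage_smul volume hL.ne', Complex.finrank_real_complex,
    measure_preimage_add, abs_of_nonneg (by positivity)]

theorem le_up {z₀ : ℂ} {L : ℝ} (hL : 0 < L) {η : ℝ} {S : Set ℂ}
    (h : ENNReal.ofReal (η * L ^ 2) ≤ volume S) : ENNReal.ofReal η ≤ volume (up z₀ L ⁻¹' S) := by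
  rw [volume_up z₀ hL]
  calc ENNReal.ofReal η = ENNReal.ofReal ((L ^ 2)⁻¹) * ENNReal.ofReal (η * L ^ 2) := by
        rw [← ENNReal.ofReal_mul (by positivity)]
        congr 1; field_simp
    _ ≤ _ := by gcongr

theorem norm_le_of_mem_sq {y : ℂ} (h : y ∈ sq 0 1) : ‖y‖ ≤ 2 := by
  obtain ⟨h1, h2, h3, h4⟩ := h
  simp only [Complex.zero_re, Complex.zero_im, zero_add] at h1 h2 h3 h4
  calc ‖y‖ ≤ |y.re| + |y.im| := Complex.norm_le_abs_re_add_abs_im y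
    _ ≤ 2 := by rw [abs_of_nonneg h1, abs_of_nonneg h3]; linarith

/-- a set of measure at least `ε ≤ 1` contains two points at distance at least `ε / 2` -/
theorem two_points {P : Set ℂ} {ε : ℝ} (h0 : 0 < ε) (h1 : ε ≤ 1)
    (hP : ENNReal.ofReal ε ≤ volume P) : ∃ x ∈ P, ∃ y ∈ P, ε / 2 ≤ ‖x - y‖ := by
  have hne : P.Nonempty := by
    by_contra hc
    rw [not_nonempty_iff_eq_empty] at hc
    rw [hc, measure_empty, nonpos_iff_eq_zero, ENNReal.ofReal_eq_zero] at hP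
    linarith
  obtain ⟨x, hx⟩ := hne
  by_contra hc
  push Not at hc
  have hsub : P ⊆ Metric.ball x (ε / 2) := by
    intro y hy
    rw [Metric.mem_ball, dist_comm, dist_eq_norm]
    exact hc x hx y hy
  have h2 := hP.trans (measure_mono hsub)
  rw [Complex.volume_ball] at h2
  have h3 : ENNReal.ofReal (ε / 2) ^ 2 * (NNReal.pi : ENNReal)
      = ENNReal.ofReal ((ε / 2) ^ 2 * π) := by
    rw [ENNReal.ofReal_mul (by positivity), ENNReal.ofReal_pow (by positivity)]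
    congr 1
    rw [← NNReal.coe_real_pi, ENNReal.ofReal_coe_nnreal]
  rw [h3, ENNReal.ofReal_le_ofReal_iff (by positivity)] at h2
  have := Real.pi_lt_d2
  nlinarith [mul_pos h0 h0]

/-- the two angular velocities vanish -/
theorem rot_small {ζ : ℂ} (hre : ζ.re ≠ 0) (him : ζ.im ≠ 0) {c c' A : ℝ}
    (h : ‖(c : ℂ) * conj ζ - c' * ζ‖ ≤ A) : |c| ≤ A * (1 / |ζ.re| + 1 / |ζ.im|) := by
  have h1 : |(c - c') * ζ.re| ≤ A := by
    have := (Complex.abs_re_le_norm ((c : ℂ) * conj ζ - c' * ζ)).trans h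
    have h2 : ((c : ℂ) * conj ζ - c' * ζ).re = (c - c') * ζ.re := by
      simp; ring
    rwa [h2] at this
  have h3 : |(c + c') * ζ.im| ≤ A := by
    have := (Complex.abs_im_le_norm ((c : ℂ) * conj ζ - c' * ζ)).trans h
    have h2 : ((c : ℂ) * conj ζ - c' * ζ).im = -((c + c') * ζ.im) := by
      simp; ring
    rwa [h2, abs_neg] at this
  have hr : 0 < |ζ.re| := abs_pos.2 hre
  have hi : 0 < |ζ.im| := abs_pos.2 him
  rw [abs_mul] at h1 h3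
  have h4 : |c - c'| ≤ A / |ζ.re| := by rwa [le_div_iff₀ hr]
  have h5 : |c + c'| ≤ A / |ζ.im| := by rwa [le_div_iff₀ hi]
  have h6 : |c| ≤ |c - c'| + |c + c'| := by
    have : |2 * c| ≤ |c - c'| + |c + c'| := by
      calc |2 * c| = |(c - c') + (c + c')| := by ring_nf
        _ ≤ _ := abs_add_le _ _
    have h7 : |2 * c| = 2 * |c| := by rw [abs_mul]; norm_num
    have := abs_nonneg c
    linarith
  calc |c| ≤ A / |ζ.re| + A / |ζ.im| := by linarith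
    _ = _ := by ring


theorem core {ζ : ℂ} (hre : ζ.re ≠ 0) (him : ζ.im ≠ 0) {M : ℝ} {m N : ℕ}
    (hM : M = (1 / ‖ζ‖) * (1 + 2 * (8 * ‖ζ‖ * (1 / |ζ.re| + 1 / |ζ.im|)))) (hm : M ≤ m)
    {η κ : ℝ} (hη : 0 < η) (hη2 : η ≤ 1 / 2) (hκ : 0 ≤ κ) {V : ℂ → ℂ} {P : Set ℂ}
    {b₁ b₂ : ℂ} {c₁ c₂ : ℝ} (hP : P ⊆ sq 0 1) (hPv : ENNReal.ofReal (η ^ N) ≤ volume P)
    (hd1 : ∀ y ∈ P, ‖ζ * V y - b₁ - c₁ * Complex.I * y‖ ≤ κ / η ^ N)
    (hd2 : ∀ y ∈ P, ‖conj ζ * V y - b₂ - c₂ * Complex.I * y‖ ≤ κ / η ^ N) :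
    ∀ y ∈ P, ‖V y - b₁ / ζ‖ ≤ κ / η ^ (2 * N + m) := by
  have hζ : ζ ≠ 0 := by rintro rfl; simp at hre
  have hζn : 0 < ‖ζ‖ := norm_pos_iff.2 hζ
  have hη1 : η ≤ 1 := by linarith
  have hηN0 : 0 < η ^ N := by positivity
  have hηN1 : η ^ N ≤ 1 := pow_le_one₀ hη.le hη1
  obtain ⟨D, hD⟩ : ∃ D : ℝ, D = κ / η ^ N := ⟨_, rfl⟩
  rw [← hD] at hd1 hd2
  have hD0 : 0 ≤ D := by rw [hD]; positivity
  -- the angular velocity
  obtain ⟨x, hx, y, hy, hxy⟩ := two_points hηN0 hηN1 hPv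
  have hA : ‖(c₁ : ℂ) * conj ζ - c₂ * ζ‖ * ‖x - y‖ ≤ 4 * ‖ζ‖ * D := by
    have e1 : ((c₁ : ℂ) * conj ζ - c₂ * ζ) * (x - y) * Complex.I
        = -(conj ζ * ((ζ * V x - b₁ - c₁ * Complex.I * x)
            - (ζ * V y - b₁ - c₁ * Complex.I * y))
          - ζ * ((conj ζ * V x - b₂ - c₂ * Complex.I * x)
            - (conj ζ * V y - b₂ - c₂ * Complex.I * y))) := by ring
    have e2 : ‖((c₁ : ℂ) * conj ζ - c₂ * ζ) * (x - y) * Complex.I‖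
        = ‖(c₁ : ℂ) * conj ζ - c₂ * ζ‖ * ‖x - y‖ := by
      rw [norm_mul, norm_mul, Complex.norm_I, mul_one]
    rw [← e2, e1, norm_neg]
    refine (norm_sub_le _ _).trans ?_
    rw [norm_mul, norm_mul, Complex.norm_conj]
    have e3 := (norm_sub_le (ζ * V x - b₁ - c₁ * Complex.I * x)
      (ζ * V y - b₁ - c₁ * Complex.I * y)).trans (add_le_add (hd1 x hx) (hd1 y hy))
    have e4 := (norm_sub_le (conj ζ * V x - b₂ - c₂ * Complex.I * x)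
      (conj ζ * V y - b₂ - c₂ * Complex.I * y)).trans (add_le_add (hd2 x hx) (hd2 y hy))
    have e5 := mul_le_mul_of_nonneg_left e3 hζn.le
    have e6 := mul_le_mul_of_nonneg_left e4 hζn.le
    linarith
  have hA2 : ‖(c₁ : ℂ) * conj ζ - c₂ * ζ‖ ≤ 8 * ‖ζ‖ * D / η ^ N := by
    rw [le_div_iff₀ hηN0]
    have := mul_le_mul_of_nonneg_left hxy (norm_nonneg ((c₁ : ℂ) * conj ζ - c₂ * ζ))
    linarith
  have hc := rot_small hre him hA2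
  obtain ⟨K, hK⟩ : ∃ K : ℝ, K = 1 / |ζ.re| + 1 / |ζ.im| := ⟨_, rfl⟩
  rw [← hK] at hM hc
  intro y hy
  have hy2 : ‖y‖ ≤ 2 := norm_le_of_mem_sq (hP hy)
  have e1 : ζ * (V y - b₁ / ζ) = (ζ * V y - b₁ - c₁ * Complex.I * y)
      + c₁ * Complex.I * y := by
    field_simp; ring
  have e2 : ‖ζ‖ * ‖V y - b₁ / ζ‖ ≤ D + 2 * |c₁| := by
    rw [← norm_mul, e1]
    refine (norm_add_le _ _).trans (add_le_add (hd1 y hy) ?_)
    rw [norm_mul, norm_mul, Complex.norm_I, mul_one, Complex.norm_real, Real.norm_eq_abs,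
      mul_comm]
    exact mul_le_mul_of_nonneg_right hy2 (abs_nonneg _)
  have e3 : D ≤ D / η ^ N := by
    rw [le_div_iff₀ hηN0]
    exact mul_le_of_le_one_right hD0 hηN1
  have e4 : ‖V y - b₁ / ζ‖ ≤ M * (D / η ^ N) := by
    rw [hM, mul_assoc, one_div, ← div_eq_inv_mul, le_div_iff₀ hζn, mul_comm]
    calc ‖ζ‖ * ‖V y - b₁ / ζ‖ ≤ D + 2 * |c₁| := e2
      _ ≤ D / η ^ N + 2 * (8 * ‖ζ‖ * D / η ^ N * K) := by linarith
      _ = (1 + 2 * (8 * ‖ζ‖ * K)) * (D / η ^ N) := by ring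
  have e5 : M ≤ 1 / η ^ m := by
    calc M ≤ (m : ℝ) := hm
      _ ≤ (2 : ℝ) ^ m := by exact_mod_cast Nat.lt_two_pow_self.le
      _ ≤ (1 / η) ^ m := by
          gcongr
          rw [le_div_iff₀ hη]; linarith
      _ = 1 / η ^ m := by rw [div_pow, one_pow]
  calc ‖V y - b₁ / ζ‖ ≤ M * (D / η ^ N) := e4
    _ ≤ 1 / η ^ m * (D / η ^ N) := by gcongr
    _ = κ / η ^ (2 * N + m) := by
        rw [hD, pow_add, two_mul, pow_add]
        field_simp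

theorem resc (z₀ : ℂ) {L κ : ℝ} (hL : 0 < L) (U : ℂ → ℂ) (ξ : ℂ) (p : ℂ × ℂ)
    (hp : |(ξ * (U (up z₀ L p.2) - U (up z₀ L p.1))
      * conj (up z₀ L p.2 - up z₀ L p.1)).re| ≤ κ * L) :
    |((ξ * U (up z₀ L p.2) - ξ * U (up z₀ L p.1)) * conj (p.2 - p.1)).re| ≤ κ := by
  have h1 : up z₀ L p.2 - up z₀ L p.1 = (L : ℂ) * (p.2 - p.1) := by
    simp only [up, Complex.real_smul]; ring
  rw [h1, map_mul, Complex.conj_ofReal] at hp
  have h2 : ξ * (U (up z₀ L p.2) - U (up z₀ L p.1)) * ((L : ℂ) * conj (p.2 - p.1))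
      = (L : ℂ) * ((ξ * U (up z₀ L p.2) - ξ * U (up z₀ L p.1)) * conj (p.2 - p.1)) := by ring
  rw [h2, Complex.re_ofReal_mul, abs_mul, abs_of_pos hL, mul_comm κ L] at hp
  exact le_of_mul_le_mul_left hp hL

/-- the inverse chart -/
noncomputable def dn (z₀ : ℂ) (L : ℝ) (z : ℂ) : ℂ := (L : ℂ)⁻¹ * (z - z₀)

theorem up_dn (z₀ : ℂ) {L : ℝ} (hL : 0 < L) (z : ℂ) : up z₀ L (dn z₀ L z) = z := by
  have : (L : ℂ) ≠ 0 := by exact_mod_cast hL.ne'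
  simp only [up, dn, Complex.real_smul]
  field_simp; ring

theorem dn_up (z₀ : ℂ) {L : ℝ} (hL : 0 < L) (y : ℂ) : dn z₀ L (up z₀ L y) = y := by
  have : (L : ℂ) ≠ 0 := by exact_mod_cast hL.ne'
  simp only [up, dn, Complex.real_smul]
  field_simp; ring

theorem measurable_dn (z₀ : ℂ) (L : ℝ) : Measurable (dn z₀ L) := by
  unfold dn; fun_prop

theorem volume_dn (z₀ : ℂ) {L : ℝ} (hL : 0 < L) (P : Set ℂ) :
    volume (dn z₀ L ⁻¹' P) = ENNReal.ofReal (L ^ 2) * volume P := by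
  have h1 : up z₀ L ⁻¹' (dn z₀ L ⁻¹' P) = P := by
    ext y
    simp only [mem_preimage, dn_up z₀ hL]
  have h2 := volume_up z₀ hL (dn z₀ L ⁻¹' P)
  rw [h1] at h2
  rw [h2, ← mul_assoc, ← ENNReal.ofReal_mul (by positivity),
    mul_inv_cancel₀ (by positivity), ENNReal.ofReal_one, one_mul]

end R1aux

open R1aux

/-- one application of `K3` in the rescaled square -/
theorem step {N₀ : ℕ} (hK : ∀ (η κ : ℝ) (U : ℂ → ℂ) (R : Set ℂ) (E : Set (ℂ × ℂ)),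
    0 < η → η ≤ 1 / 2 → 0 ≤ κ → Measurable U → MeasurableSet R → MeasurableSet E → R ⊆ sq 0 1 →
    (∀ p ∈ E, p.1 ∈ sq 0 1 ∧ p.2 ∈ sq 0 1) →
    (∀ p ∈ E, |((U p.2 - U p.1) * conj (p.2 - p.1)).re| ≤ κ) →
    (∀ z ∈ R, ENNReal.ofReal η ≤ volume {z' | (z, z') ∈ E}) →
    ENNReal.ofReal η ≤ volume R →
    ∃ (P : Set ℂ) (b : ℂ) (c : ℝ), MeasurableSet P ∧ P ⊆ R ∧ ENNReal.ofReal (η ^ N₀) ≤ volume P ∧
      ∀ z ∈ P, ‖U z - b - c * Complex.I * z‖ ≤ κ / η ^ N₀)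
    (ξ : ℂ) {η η' L κ : ℝ} {z₀ : ℂ} {U : ℂ → ℂ} {Q : Set ℂ} {Ea : Set (ℂ × ℂ)}
    (hη : 0 < η) (hη2 : η ≤ 1 / 2) (hη' : η ≤ η') (hL : 0 < L) (hκ : 0 ≤ κ) (hU : Measurable U)
    (hQ : MeasurableSet Q) (hEa : MeasurableSet Ea) (hQs : ∀ y ∈ Q, up z₀ L y ∈ sq z₀ L)
    (hEas : ∀ p ∈ Ea, p.1 ∈ sq z₀ L ∧ p.2 ∈ sq z₀ L)
    (hra : ∀ p ∈ Ea, |(ξ * (U p.2 - U p.1) * conj (p.2 - p.1)).re| ≤ κ * L)
    (hda : ∀ y ∈ Q, ENNReal.ofReal (η' * L ^ 2) ≤ volume {z' | (up z₀ L y, z') ∈ Ea})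
    (hQv : ENNReal.ofReal η ≤ volume Q) :
    ∃ (P : Set ℂ) (b : ℂ) (c : ℝ), MeasurableSet P ∧ P ⊆ Q ∧ ENNReal.ofReal (η ^ N₀) ≤ volume P ∧
      ∀ z ∈ P, ‖ξ * U (up z₀ L z) - b - c * Complex.I * z‖ ≤ κ / η ^ N₀ := by
  have hφm : Measurable (up z₀ L) := (continuous_up z₀ L).measurable
  have hφ2 : Measurable (fun p : ℂ × ℂ => (up z₀ L p.1, up z₀ L p.2)) :=
    (hφm.comp measurable_fst).prodMk (hφm.comp measurable_snd)
  have hm : Measurable (fun y => ξ * U (up z₀ L y)) := (hU.comp hφm).const_mul ξ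
  have h1 : MeasurableSet {p : ℂ × ℂ | (up z₀ L p.1, up z₀ L p.2) ∈ Ea} :=
    measurableSet_preimage hφ2 hEa
  refine hK η κ (fun y => ξ * U (up z₀ L y)) Q {p : ℂ × ℂ | (up z₀ L p.1, up z₀ L p.2) ∈ Ea}
    hη hη2 hκ hm hQ h1 (fun y hy => up_mem hL (hQs y hy)) ?_ ?_ ?_ hQv
  · intro p hp
    rw [mem_ofPred_eq] at hp
    have h3 := hEas (up z₀ L p.1, up z₀ L p.2) hp
    dsimp only at h3
    exact ⟨up_mem hL h3.1, up_mem hL h3.2⟩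
  · intro p hp
    rw [mem_ofPred_eq] at hp
    have h3 := hra (up z₀ L p.1, up z₀ L p.2) hp
    dsimp only at h3
    exact resc z₀ hL U ξ p h3
  · intro y hy
    have h2 : {z' | (y, z') ∈ {p : ℂ × ℂ | (up z₀ L p.1, up z₀ L p.2) ∈ Ea}}
        = up z₀ L ⁻¹' {z' | (up z₀ L y, z') ∈ Ea} := by
      ext z'
      simp only [mem_preimage, mem_ofPred_eq]
    rw [h2]
    exact (ENNReal.ofReal_le_ofReal hη').trans (le_up hL (hda y hy))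

theorem r1 (h : K3) {ζ : ℂ} (hre : ζ.re ≠ 0) (him : ζ.im ≠ 0) : R1 ζ := by
  obtain ⟨N₀, hK⟩ := h
  obtain ⟨M, hM⟩ : ∃ M : ℝ,
      M = (1 / ‖ζ‖) * (1 + 2 * (8 * ‖ζ‖ * (1 / |ζ.re| + 1 / |ζ.im|))) := ⟨_, rfl⟩
  obtain ⟨m, hm⟩ := exists_nat_ge M
  obtain ⟨N, hN⟩ : ∃ N : ℕ, N = (N₀ + 1) * (N₀ + 1) := ⟨_, rfl⟩
  refine ⟨2 * N + m, ?_⟩
  intro η L κ z₀ U R Ea Eb hη hη2 hL hκ hU hR hEa hEb hRs hEas hEbs hra hrb hda hdb hRv
  have hφm : Measurable (up z₀ L) := (continuous_up z₀ L).measurable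
  have hη1 : η ≤ 1 := by linarith
  -- first application
  obtain ⟨P₁, b₁, c₁, hP₁m, hP₁R, hP₁v, hP₁⟩ := step hK ζ (Q := up z₀ L ⁻¹' R) hη hη2 le_rfl hL hκ
    hU (hφm hR) hEa (fun y hy => hRs hy) hEas hra (fun y hy => hda _ hy) (le_up hL hRv)
  -- second application
  obtain ⟨η₂, hη₂⟩ : ∃ η₂ : ℝ, η₂ = η ^ (N₀ + 1) := ⟨_, rfl⟩
  have hη₂0 : 0 < η₂ := by rw [hη₂]; positivity
  have hη₂le : η₂ ≤ η := by
    calc η₂ = η ^ N₀ * η := by rw [hη₂, pow_succ]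
      _ ≤ 1 * η := by gcongr; exact pow_le_one₀ hη.le hη1
      _ = η := one_mul _
  have hη₂N : η₂ ≤ η ^ N₀ := by
    rw [hη₂]; exact pow_le_pow_of_le_one hη.le hη1 (Nat.le_succ _)
  obtain ⟨P₂, b₂, c₂, hP₂m, hP₂P₁, hP₂v, hP₂⟩ := step hK (conj ζ) (Q := P₁) hη₂0
    (hη₂le.trans hη2) hη₂le hL hκ hU hP₁m hEb (fun y hy => hRs (hP₁R hy)) hEbs hrb
    (fun y hy => hdb _ (hP₁R hy)) ((ENNReal.ofReal_le_ofReal hη₂N).trans hP₁v)
  -- sizes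
  have hηN0 : 0 < η ^ N := by positivity
  have hN1 : η ^ N ≤ η ^ N₀ := pow_le_pow_of_le_one hη.le hη1 (by rw [hN]; nlinarith)
  have hN2 : η ^ N ≤ η₂ ^ N₀ := by
    rw [hη₂, ← pow_mul]
    exact pow_le_pow_of_le_one hη.le hη1 (by rw [hN]; nlinarith)
  have hP₂v' : ENNReal.ofReal (η ^ N) ≤ volume P₂ := (ENNReal.ofReal_le_ofReal hN2).trans hP₂v
  have hfin := core hre him hM hm hη hη2 hκ (V := fun y => U (up z₀ L y)) (P := P₂)
    (b₁ := b₁) (b₂ := b₂) (c₁ := c₁) (c₂ := c₂)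
    (fun y hy => up_mem hL (hRs (hP₁R (hP₂P₁ hy)))) hP₂v'
    (fun y hy => (hP₁ y (hP₂P₁ hy)).trans (div_le_div_of_nonneg_left hκ hηN0 hN1))
    (fun y hy => (hP₂ y hy).trans (div_le_div_of_nonneg_left hκ hηN0 hN2))
  -- go back
  refine ⟨dn z₀ L ⁻¹' P₂, b₁ / ζ, measurable_dn z₀ L hP₂m, ?_, ?_, ?_⟩
  · intro z hz
    have h2 := hP₁R (hP₂P₁ hz)
    rwa [mem_preimage, up_dn z₀ hL] at h2
  · rw [volume_dn z₀ hL, mul_comm (η ^ (2 * N + m)), ENNReal.ofReal_mul (by positivity)]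
    gcongr
    refine (ENNReal.ofReal_le_ofReal ?_).trans hP₂v'
    exact pow_le_pow_of_le_one hη.le hη1 (by omega)
  · intro z hz
    have h2 := hfin _ hz
    simp only [up_dn z₀ hL] at h2
    exact h2

end Pool.Agent.H2.T2
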