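import Pool.Agent.H2.T2.Defs
import Pool.Agent.H38.PT.Remez
import Pool.Agent.H38.PT.RemezT

/-!
Remez type inequalities in the form used by the field rigidity theorem.
-/

open MeasureTheory Set
open scoped ComplexConjugate Real

namespace Pool.Agent.H2.T2

/-- Powers of `1/η` absorb constants. -/
theorem const_absorb (η ε : ℝ) (hη : 0 < η) (hη2 : η ≤ 1 / 2) (hε : 0 ≤ ε) (n k : ℕ) :
    2 ^ n * ε / η ^ k ≤ ε / η ^ (n + k) := by
  rw [pow_add, div_le_div_iff₀ (by positivity) (by positivity)]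
  have h1 : (2 * η) ^ n ≤ 1 := pow_le_one₀ (by positivity) (by linarith)
  have h2 : 2 ^ n * η ^ n ≤ 1 := by rw [← mul_pow]; exact h1
  calc 2 ^ n * ε * (η ^ n * η ^ k) = (2 ^ n * η ^ n) * (ε * η ^ k) := by ring
    _ ≤ 1 * (ε * η ^ k) := mul_le_mul_of_nonneg_right h2 (by positivity)
    _ = ε * η ^ k := one_mul _

theorem remez2 : Remez2 := by
  refine ⟨32, ?_⟩
  intro η ε P a hη hη2 hε hP hPs hPv hp i
  set E : Set (ℝ × ℝ) := Complex.measurableEquivRealProd.symm ⁻¹' P with hE
  have hEm : MeasurableSet E := Complex.measurableEquivRealProd.symm.measurable hP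
  have hEv : volume E = volume P := by
    have h1 := Complex.volume_preserving_equiv_real_prod.symm Complex.measurableEquivRealProd
    exact h1.measure_preimage hP.nullMeasurableSet
  have hmem : ∀ x ∈ E, (⟨x.1, x.2⟩ : ℂ) ∈ P := by
    intro x hx
    exact hx
  set c : ℕ → ℕ → ℝ := fun i j =>
    if i = 0 ∧ j = 0 then a 0 else if i = 1 ∧ j = 0 then a 1 else if i = 0 ∧ j = 1 then a 2
    else if i = 2 ∧ j = 0 then a 3 else if i = 1 ∧ j = 1 then a 4
    else if i = 0 ∧ j = 2 then a 5 else 0 with hc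
  have hEs : E ⊆ Icc (-1) 1 ×ˢ Icc (-1) 1 := by
    intro x hx
    have h1 := hPs (hmem x hx)
    simp only [sq, mem_ofPred_eq, Complex.zero_re, Complex.zero_im, zero_add] at h1
    obtain ⟨h1, h2, h3, h4⟩ := h1
    exact ⟨⟨by linarith, h2.le⟩, ⟨by linarith, h4.le⟩⟩
  have key := PoolH38PT.remez2 2 c E hEm η ε hη hε hEs (by rw [hEv]; exact hPv) (by
    intro x hx
    have h1 := hp _ (hmem x hx)
    have h2 : ∑ i ∈ Finset.range (2+1), ∑ j ∈ Finset.range (2+1), c i j * x.1 ^ i * x.2 ^ j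
        = a 0 + a 1 * x.1 + a 2 * x.2 + a 3 * x.1 ^ 2 + a 4 * (x.1 * x.2)
          + a 5 * x.2 ^ 2 := by
      simp only [Finset.sum_range_succ, Finset.sum_range_zero, hc]
      simp
      ring
    rw [h2]
    exact h1)
  have hfin : (32 * ((2:ℕ) + 1 : ℝ)) ^ (2 * 2) * ε / η ^ (2 * 2) ≤ ε / η ^ 32 := by
    refine le_trans ?_ (const_absorb η ε hη hη2 hε 28 4)
    have : (32 * ((2:ℕ) + 1 : ℝ)) ^ (2 * 2) ≤ 2 ^ 28 := by norm_num
    exact div_le_div_of_nonneg_right (mul_le_mul_of_nonneg_right this hε) (by positivity)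
  fin_cases i
  · exact (key 0 (by norm_num) 0 (by norm_num)).trans hfin
  · exact (key 1 (by norm_num) 0 (by norm_num)).trans hfin
  · exact (key 0 (by norm_num) 1 (by norm_num)).trans hfin
  · exact (key 2 (by norm_num) 0 (by norm_num)).trans hfin
  · exact (key 1 (by norm_num) 1 (by norm_num)).trans hfin
  · exact (key 0 (by norm_num) 2 (by norm_num)).trans hfin

theorem remezT : RemezT := by
  refine ⟨55, ?_⟩
  intro η ε S c hη hη2 hε hS hSs hSv hp i hi
  set e : ℤ → ℂ := fun k =>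
    if k = 0 then ((c 0).re : ℂ) else if k = 1 then c 1 / 2 else if k = 2 then c 2 / 2
    else if k = 3 then c 3 / 2 else if k = -1 then conj (c 1) / 2
    else if k = -2 then conj (c 2) / 2 else if k = -3 then conj (c 3) / 2 else 0 with he
  have hIcc : Finset.Icc (-((3:ℕ):ℤ)) ((3:ℕ):ℤ) = {-3, -2, -1, 0, 1, 2, 3} := by decide
  have key := PoolH38PT.remezTrig 3 e S η ε hη hε
    (fun t ht => ⟨(hSs ht).1, (hSs ht).2.le⟩) hSv (by
    intro t ht
    have h1 := hp t ht
    have h2 : ∑ k ∈ Finset.Icc (-((3:ℕ):ℤ)) ((3:ℕ):ℤ), e k * Complex.exp (k * (t * Complex.I))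
        = (((c 0 + c 1 * ec t + c 2 * ec (2 * t) + c 3 * ec (3 * t)).re : ℝ) : ℂ) := by
      rw [hIcc]
      rw [Finset.sum_insert (by decide), Finset.sum_insert (by decide),
        Finset.sum_insert (by decide), Finset.sum_insert (by decide),
        Finset.sum_insert (by decide), Finset.sum_insert (by decide), Finset.sum_singleton]
      have hre : ∀ z : ℂ, ((z.re : ℝ) : ℂ) = (z + conj z) / 2 := by
        intro z
        rw [Complex.add_conj]; push_cast; ring
      have hconj : ∀ s : ℝ, conj (ec s) = Complex.exp (-(s * Complex.I)) := by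
        intro s
        rw [ec, ← Complex.exp_conj]
        congr 1
        simp
      rw [hre]
      simp only [map_add, map_mul, hconj]
      simp only [he]
      norm_num
      simp only [ec]
      push_cast
      rw [hre (c 0)]
      simp only [← mul_assoc]
      ring
    rw [h2, Complex.norm_real, Real.norm_eq_abs]
    exact h1)
  have hb : ∀ z : ℂ, ‖z / 2‖ ≤ (64 * (((3:ℕ):ℝ) + 1)) ^ (2 * 3) * ε / η ^ (2 * 3) →
      ‖z‖ ≤ ε / η ^ 55 := by
    intro z hz
    refine le_trans ?_ (const_absorb η ε hη hη2 hε 49 6)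
    have h1 : ‖z‖ = 2 * ‖z / 2‖ := by
      rw [norm_div, Complex.norm_ofNat]
      ring
    rw [h1]
    calc 2 * ‖z / 2‖ ≤ 2 * ((64 * (((3:ℕ):ℝ) + 1)) ^ (2 * 3) * ε / η ^ (2 * 3)) := by linarith
      _ = 2 ^ 49 * ε / η ^ 6 := by norm_num; ring
  fin_cases i
  · exact absurd rfl hi
  · refine hb _ ?_
    have := key 1 (by decide)
    simpa [he] using this
  · refine hb _ ?_
    have := key 2 (by decide)
    simpa [he] using this
  · refine hb _ ?_
    have := key 3 (by decide)
    simpa [he] using this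

end Pool.Agent.H2.T2
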