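import Pool.Agent.H2.T2.Defs

/-!
# Stage 1: the field is constant up to `O(s)` on a dense part of every cell of side `s`
-/

open MeasureTheory Set
open scoped ComplexConjugate Real

namespace Pool.Agent.H2.T2

theorem s1_of {α β : ℂ} (h1 : R1 (α * conj β)) (h2 : HD α β) (h3 : HA α β) : S1 α β := by
  obtain ⟨C1, h1⟩ := h1
  obtain ⟨C2, h2⟩ := h2
  obtain ⟨C3, hC3, h3⟩ := h3
  obtain ⟨m, hm⟩ := pow_unbounded_of_one_lt (4 + C3) (one_lt_two : (1 : ℝ) < 2)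
  refine ⟨C2 + (C2 + 1) * C1 + (m + 1), ?_⟩
  intro η s δ z₀ w f g G hη hη2 hs hsC hδ hδs hSys hGs hGv
  have hη1 : η ≤ 1 := hη2.trans (by norm_num)
  have hmono : ∀ {i j : ℕ}, i ≤ j → η ^ j ≤ η ^ i := fun h => pow_le_pow_of_le_one hη.le hη1 h
  have hang : ∀ x ∈ G, x.1 ∈ sq z₀ s ∧ 0 ≤ x.2 ∧ x.2 < 2 * π :=
    fun x hx => ⟨hGs x hx, hSys.ang x hx⟩
  obtain ⟨R, Ea, Eb, mR, mEa, mEb, hR, hEa, hEb, ha, hb, -, -, hfib, hRv⟩ :=
    h2 η s z₀ G hη hη2 hs (hsC.trans (hmono (by omega))) hSys.mG hang hGv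
  set η' : ℝ := η ^ (C2 + 1) with hη'
  have hη'0 : 0 < η' := pow_pos hη _
  have hη'2 : η' ≤ 1 / 2 := by
    have := hmono (show 1 ≤ C2 + 1 by omega)
    rw [pow_one] at this
    exact this.trans hη2
  have hη'C : η' ≤ η ^ C2 := hmono (by omega)
  set κ : ℝ := s * (4 / η + 2 * C3) with hκ
  have hκ0 : 0 ≤ κ := by positivity
  -- distance of two points of the cell
  have hdist : ∀ p q : ℂ, p ∈ sq z₀ s → q ∈ sq z₀ s → ‖q - p‖ ≤ 2 * s := by
    intro p q hp hq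
    simp only [sq, Set.mem_ofPred_eq] at hp hq
    have h4 := Complex.norm_le_abs_re_add_abs_im (q - p)
    have h5 : |(q - p).re| ≤ s := by
      rw [Complex.sub_re, abs_le]; constructor <;> linarith [hp.1, hp.2.1, hq.1, hq.2.1]
    have h6 : |(q - p).im| ≤ s := by
      rw [Complex.sub_im, abs_le]
      constructor <;> linarith [hp.2.2.1, hp.2.2.2, hq.2.2.1, hq.2.2.2]
    linarith
  -- from the hinge relations to the hypotheses of `R1`
  have hkey : ∀ (A V D : ℝ), 0 ≤ D → D ≤ 2 * s → η ≤ V → V ≤ 1 / η →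
      |A - D ^ 2 * V| ≤ C3 * δ * D → |A| ≤ κ * s := by
    intro A V D hD hD2 hV hV2 hA
    have e1 : |D ^ 2 * V| ≤ 4 * s ^ 2 * (1 / η) := by
      rw [abs_of_nonneg (mul_nonneg (sq_nonneg D) (hη.le.trans hV))]
      apply mul_le_mul _ hV2 (hη.le.trans hV) (by positivity)
      nlinarith
    have e2 : C3 * δ * D ≤ 2 * C3 * s ^ 2 := by
      have : C3 * δ * D ≤ C3 * s * (2 * s) :=
        mul_le_mul (mul_le_mul_of_nonneg_left hδs hC3) hD2 hD (by positivity)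
      linarith
    have e3 : |A| ≤ |A - D ^ 2 * V| + |D ^ 2 * V| := by
      have := abs_add_le (A - D ^ 2 * V) (D ^ 2 * V)
      rwa [sub_add_cancel] at this
    have e4 : κ * s = 4 * s ^ 2 * (1 / η) + 2 * C3 * s ^ 2 := by rw [hκ]; ring
    rw [e4]; linarith
  have hmid : ∀ x y : ℂ × ℝ, x ∈ G → y ∈ G →
      η ≤ ((mo α β f g x).re + (mo α β f g y).re) / 2 ∧
      ((mo α β f g x).re + (mo α β f g y).re) / 2 ≤ 1 / η := by
    intro x y hx hy
    constructor <;> linarith [hSys.lo x hx, hSys.lo y hy, hSys.hi x hx, hSys.hi y hy]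
  have hEa' : ∀ p ∈ Ea, |(α * conj β * (w p.2 - w p.1) * conj (p.2 - p.1)).re| ≤ κ * s := by
    intro p hp
    obtain ⟨t, t', hh⟩ := hEa hp
    have hm := hmid _ _ hh.1 hh.2.1
    exact hkey _ _ _ (norm_nonneg _) (hdist _ _ (hGs _ hh.1) (hGs _ hh.2.1)) hm.1 hm.2
      ((h3 η s δ w f g G (p.1, t) (p.2, t') hδ hSys).1 hh)
  have hEb' : ∀ p ∈ Eb,
      |(conj (α * conj β) * (w p.2 - w p.1) * conj (p.2 - p.1)).re| ≤ κ * s := by
    intro p hp
    obtain ⟨t, t', hh⟩ := hEb hp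
    have hm := hmid _ _ hh.1 hh.2.1
    exact hkey _ _ _ (norm_nonneg _) (hdist _ _ (hGs _ hh.1) (hGs _ hh.2.1)) hm.1 hm.2
      ((h3 η s δ w f g G (p.1, t) (p.2, t') hδ hSys).2 hh)
  have hEas : ∀ p ∈ Ea, p.1 ∈ sq z₀ s ∧ p.2 ∈ sq z₀ s := by
    intro p hp
    obtain ⟨t, t', hh⟩ := hEa hp
    exact ⟨hGs _ hh.1, hGs _ hh.2.1⟩
  have hEbs : ∀ p ∈ Eb, p.1 ∈ sq z₀ s ∧ p.2 ∈ sq z₀ s := by
    intro p hp
    obtain ⟨t, t', hh⟩ := hEb hp
    exact ⟨hGs _ hh.1, hGs _ hh.2.1⟩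
  have hle : ENNReal.ofReal (η' * s ^ 2) ≤ ENNReal.ofReal (η ^ C2 * s ^ 2) :=
    ENNReal.ofReal_le_ofReal (mul_le_mul_of_nonneg_right hη'C (sq_nonneg s))
  obtain ⟨P, u₀, mP, hPR, hPv, hPu⟩ := h1 η' s κ z₀ w R Ea Eb hη'0 hη'2 hs hκ0 hSys.mw mR mEa mEb
    hR hEas hEbs hEa' hEb' (fun z hz => hle.trans (ha z hz)) (fun z hz => hle.trans (hb z hz))
    (hle.trans hRv)
  have hpw : η' ^ C1 = η ^ ((C2 + 1) * C1) := by rw [hη', ← pow_mul]
  refine ⟨P, u₀, mP, ?_, ?_⟩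
  · intro z hz
    refine (hPu z hz).trans ?_
    have e1 : 4 / η + 2 * C3 ≤ 1 / η ^ (m + 1) := by
      have e2 : 4 / η + 2 * C3 ≤ (4 + C3) / η := by
        rw [add_div]
        have : 2 * C3 ≤ C3 / η := by
          rw [le_div_iff₀ hη]; nlinarith
        linarith
      have e3 : (4 + C3) / η ≤ 2 ^ m / η := div_le_div_of_nonneg_right hm.le hη.le
      have e4 : (2 : ℝ) ^ m ≤ 1 / η ^ m := by
        rw [le_div_iff₀ (pow_pos hη m), ← mul_pow]
        exact pow_le_one₀ (by positivity) (by linarith)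
      calc 4 / η + 2 * C3 ≤ (4 + C3) / η := e2
        _ ≤ 2 ^ m / η := e3
        _ ≤ (1 / η ^ m) / η := div_le_div_of_nonneg_right e4 hη.le
        _ = 1 / η ^ (m + 1) := by rw [pow_succ, div_div]
    have e5 : η ^ (C2 + (C2 + 1) * C1 + (m + 1)) ≤ η ^ ((C2 + 1) * C1) * η ^ (m + 1) := by
      rw [← pow_add]; exact hmono (by omega)
    rw [hpw, hκ]
    calc s * (4 / η + 2 * C3) / η ^ ((C2 + 1) * C1)
        ≤ s * (1 / η ^ (m + 1)) / η ^ ((C2 + 1) * C1) :=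
          div_le_div_of_nonneg_right (mul_le_mul_of_nonneg_left e1 hs.le) (pow_pos hη _).le
      _ = s / (η ^ ((C2 + 1) * C1) * η ^ (m + 1)) := by
          rw [mul_one_div, div_div, mul_comm (η ^ (m + 1))]
      _ ≤ s / η ^ (C2 + (C2 + 1) * C1 + (m + 1)) :=
          div_le_div_of_nonneg_left hs.le (pow_pos hη _) e5
  · have hG : MeasurableSet (G ∩ {x | x.1 ∈ P}) :=
      hSys.mG.inter (measurable_fst mP)
    have hvol : volume (G ∩ {x : ℂ × ℝ | x.1 ∈ P})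
        = ∫⁻ z, volume (Prod.mk z ⁻¹' (G ∩ {x : ℂ × ℝ | x.1 ∈ P})) := by
      rw [Measure.volume_eq_prod, Measure.prod_apply hG]
    have hlow : ENNReal.ofReal (η ^ C2) * volume P
        ≤ volume (G ∩ {x : ℂ × ℝ | x.1 ∈ P}) := by
      rw [hvol]
      calc ENNReal.ofReal (η ^ C2) * volume P = ∫⁻ _z in P, ENNReal.ofReal (η ^ C2) := by
            rw [setLIntegral_const]
        _ ≤ ∫⁻ z in P, volume (Prod.mk z ⁻¹' (G ∩ {x : ℂ × ℝ | x.1 ∈ P})) := by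
            apply setLIntegral_mono' mP
            intro z hz
            refine (hfib z (hPR hz)).trans (measure_mono ?_)
            intro t ht
            exact ⟨ht, hz⟩
        _ ≤ ∫⁻ z, volume (Prod.mk z ⁻¹' (G ∩ {x : ℂ × ℝ | x.1 ∈ P})) :=
            setLIntegral_le_lintegral _ _
    refine le_trans ?_ hlow
    refine le_trans ?_ (mul_le_mul_right hPv _)
    rw [← ENNReal.ofReal_mul (pow_pos hη _).le, hpw]
    apply ENNReal.ofReal_le_ofReal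
    rw [← mul_assoc, ← pow_add]
    exact mul_le_mul_of_nonneg_right (hmono (by omega)) (sq_nonneg s)

end Pool.Agent.H2.T2
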