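import Pool.Agent.H2.T2.Defs
import Pool.Agent.H2.T2.Cell

/-!
# Stage 2, first half: affine approximation on a dense part
-/

open MeasureTheory Set
open scoped ComplexConjugate Real

namespace Pool.Agent.H2.T2

/-- The volume of a rescaled set. -/
theorem s2a_vol_scale {s : ℝ} (hs : 0 < s) (z₀ : ℂ) (A : Set ℂ) :
    volume {y : ℂ | z₀ + s * y ∈ A} = ENNReal.ofReal ((s ^ 2)⁻¹) * volume A := by
  have h1 : {y : ℂ | z₀ + s * y ∈ A} = (fun y : ℂ => s • y) ⁻¹' ((fun x => z₀ + x) ⁻¹' A) := by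
    ext y
    simp [Complex.real_smul]
  rw [h1, Measure.addHaar_preimage_smul volume hs.ne', measure_preimage_add,
    Complex.finrank_real_complex, abs_of_pos (by positivity)]

/-- The angle is determined by its exponential. -/
theorem s2a_ec_inj {t t' : ℝ} (h0 : 0 ≤ t) (h1 : t < 2 * π) (h0' : 0 ≤ t') (h1' : t' < 2 * π)
    (h : ec t = ec t') : t = t' := by
  unfold ec at h
  rw [Complex.exp_eq_exp_iff_exists_int] at h
  obtain ⟨n, hn⟩ := h
  have h2 : (t : ℂ) = t' + n * (2 * π) := by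
    have h3 : (t : ℂ) * Complex.I = (t' + n * (2 * π)) * Complex.I := by
      rw [hn]; ring
    exact mul_right_cancel₀ Complex.I_ne_zero h3
  have h3 : t = t' + n * (2 * π) := by exact_mod_cast h2
  have hpi := Real.pi_pos
  have h4 : (n : ℝ) < 1 := by
    by_contra hc
    push Not at hc
    nlinarith
  have h5 : (-1 : ℝ) < n := by
    by_contra hc
    push Not at hc
    nlinarith
  have h6 : n = 0 := by
    have a1 : n < 1 := by exact_mod_cast h4
    have a2 : -1 < n := by exact_mod_cast h5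
    omega
  rw [h3, h6]; simp

/-- The chord in terms of the middle angle. -/
theorem s2a_chord (t t' : ℝ) :
    ec t - ec t' = -2 * Complex.I * Real.sin ((t' - t) / 2) * ec ((t + t') / 2) := by
  have h1 : ec t = ec ((t + t') / 2) * ec (-((t' - t) / 2)) := by
    rw [← ec_add]; congr 1; ring
  have h2 : ec t' = ec ((t + t') / 2) * ec ((t' - t) / 2) := by
    rw [← ec_add]; congr 1; ring
  rw [h1, h2]
  unfold ec
  simp only [Complex.ofReal_neg, Complex.exp_mul_I, Complex.cos_neg, Complex.sin_neg,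
    Complex.ofReal_sin]
  ring

/-- A function of the direction of the pair of centres of a hinge which recovers a function of the
arc. -/
theorem s2a_psi {α : ℂ} (hα : α ≠ 0) (s : ℝ) (Φ : ℤ → ℝ) :
    ∃ Ψ : ℂ → ℝ, ∀ (z z' : ℂ) (t t' : ℝ), 0 ≤ t → t < t' → t' < 2 * π →
      ⌊t / s⌋ = ⌊t' / s⌋ → 0 < s → z + α * ec t = z' + α * ec t' →
      z ≠ z' ∧ Ψ ((z' - z) / ‖z' - z‖) = Φ ⌊t / s⌋ := by
  classical
  refine ⟨fun e => if h : ∃ φ : ℝ, 0 ≤ φ ∧ φ < 2 * π ∧ -Complex.I * (α / ‖α‖) * ec φ = e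
    then Φ ⌊h.choose / s⌋ else 0, ?_⟩
  intro z z' t t' h0 h1 h2 hf hs hz
  have hsin : 0 < Real.sin ((t' - t) / 2) := by
    apply Real.sin_pos_of_pos_of_lt_pi <;> linarith
  have hd : z' - z = α * (ec t - ec t') := by linear_combination -hz
  have hd2 : z' - z = (2 * ‖α‖ * Real.sin ((t' - t) / 2) : ℝ) *
      (-Complex.I * (α / ‖α‖) * ec ((t + t') / 2)) := by
    have hα' : (‖α‖ : ℂ) ≠ 0 := by exact_mod_cast (norm_pos_iff.mpr hα).ne'
    rw [hd, s2a_chord]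
    push_cast
    field_simp
  have hnorm1 : ‖-Complex.I * (α / ‖α‖) * ec ((t + t') / 2)‖ = 1 := by
    rw [norm_mul, norm_mul, norm_neg, Complex.norm_I, norm_div, norm_ec, Complex.norm_real,
      norm_norm, div_self (norm_pos_iff.mpr hα).ne']
    norm_num
  have hr : 0 < 2 * ‖α‖ * Real.sin ((t' - t) / 2) := by
    have := norm_pos_iff.mpr hα
    positivity
  have hnorm : ‖z' - z‖ = 2 * ‖α‖ * Real.sin ((t' - t) / 2) := by
    rw [hd2, norm_mul, hnorm1, mul_one, Complex.norm_real, Real.norm_of_nonneg hr.le]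
  refine ⟨?_, ?_⟩
  · intro h
    rw [h, sub_self, norm_zero] at hnorm
    exact hr.ne hnorm
  · have hdir : (z' - z) / ‖z' - z‖ = -Complex.I * (α / ‖α‖) * ec ((t + t') / 2) := by
      rw [hnorm]
      conv_lhs => rw [hd2]
      rw [mul_div_assoc, mul_comm, div_mul_cancel₀]
      exact_mod_cast hr.ne'
    have hex : ∃ φ : ℝ, 0 ≤ φ ∧ φ < 2 * π ∧
        -Complex.I * (α / ‖α‖) * ec φ = (z' - z) / ‖z' - z‖ :=
      ⟨(t + t') / 2, by linarith, by linarith, hdir.symm⟩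
    simp only
    rw [dif_pos hex]
    obtain ⟨c0, c1, c2⟩ := hex.choose_spec
    have hne : -Complex.I * (α / ‖α‖) ≠ 0 := by
      intro h
      rw [h, zero_mul, norm_zero] at hnorm1
      exact zero_ne_one hnorm1
    have heq : hex.choose = (t + t') / 2 := by
      apply s2a_ec_inj c0 c1 (by linarith) (by linarith)
      apply mul_left_cancel₀ hne
      rw [c2, hdir]
    rw [heq]
    congr 1
    apply le_antisymm
    · rw [hf]
      exact Int.floor_le_floor (div_le_div_of_nonneg_right (by linarith) hs.le)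
    · exact Int.floor_le_floor (div_le_div_of_nonneg_right (by linarith) hs.le)

/-- Points of the rescaled cell. -/
theorem s2a_mem_sq {s : ℝ} (hs : 0 < s) {z₀ y : ℂ} (h : z₀ + s * y ∈ sq z₀ s) : y ∈ sq 0 1 := by
  simp only [sq, Set.mem_ofPred_eq, Complex.add_re, Complex.add_im, Complex.mul_re,
    Complex.mul_im, Complex.ofReal_re, Complex.ofReal_im, zero_mul, sub_zero, add_zero,
    Complex.zero_re, Complex.zero_im, zero_add] at h ⊢
  refine ⟨?_, ?_, ?_, ?_⟩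
  · by_contra hc
    push Not at hc
    nlinarith [h.1]
  · by_contra hc
    push Not at hc
    nlinarith [h.2.1]
  · by_contra hc
    push Not at hc
    nlinarith [h.2.2.1]
  · by_contra hc
    push Not at hc
    nlinarith [h.2.2.2]

theorem s2a_of {α β : ℂ} (h1 : α ≠ 0) (h2 : β ≠ 0) (h3 : Aff (α * conj β)) (h4 : HD α β)
    (h5 : HA α β) : S2a α β := by
  classical
  obtain ⟨C1, h3⟩ := h3
  obtain ⟨C2, h4⟩ := h4
  obtain ⟨C3, hC3, h5⟩ := h5
  obtain ⟨m, hm⟩ := pow_unbounded_of_one_lt (4 + C3) (one_lt_two : (1 : ℝ) < 2)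
  refine ⟨C2 + (C2 + 1) * C1 + (m + 1), ?_⟩
  intro η s δ z₀ w₀ w f g G Φ hη hη2 hs hsC hδ hδs hSys hGs hGv hGw hGΦ
  have hη1 : η ≤ 1 := hη2.trans (by norm_num)
  have hmono : ∀ {i j : ℕ}, i ≤ j → η ^ j ≤ η ^ i := fun h => pow_le_pow_of_le_one hη.le hη1 h
  have hang : ∀ x ∈ G, x.1 ∈ sq z₀ s ∧ 0 ≤ x.2 ∧ x.2 < 2 * π :=
    fun x hx => ⟨hGs x hx, hSys.ang x hx⟩
  obtain ⟨R, Ea, Eb, mR, mEa, mEb, hR, hEa, hEb, ha, hb, -, -, hfib, hRv⟩ :=
    h4 η s z₀ G hη hη2 hs (hsC.trans (hmono (by omega))) hSys.mG hang hGv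
  obtain ⟨Ψa, hΨa⟩ := s2a_psi h1 s Φ
  obtain ⟨Ψb, hΨb⟩ := s2a_psi h2 s Φ
  set η' : ℝ := η ^ (C2 + 1) with hη'
  have hη'0 : 0 < η' := pow_pos hη _
  have hη'η : η' ≤ η := by
    have := hmono (show 1 ≤ C2 + 1 by omega)
    rwa [pow_one] at this
  have hη'2 : η' ≤ 1 / 2 := hη'η.trans hη2
  have hη'C : η' ≤ η ^ C2 := hmono (by omega)
  set κ : ℝ := s * (4 / η + 2 * C3) with hκ
  have hκ0 : 0 ≤ κ := by positivity
  have hs0 : (s : ℂ) ≠ 0 := by exact_mod_cast hs.ne'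
  -- the rescaled field
  let V : ℂ → ℂ := fun y => (w (z₀ + s * y) - w₀) / s
  let U : ℂ → ℂ := fun y => if ‖V y‖ ≤ 1 / η then V y else 0
  have haff : Measurable (fun y : ℂ => z₀ + s * y) := by fun_prop
  have hVm : Measurable V := ((hSys.mw.comp haff).sub_const w₀).div_const _
  have hUm : Measurable U := Measurable.ite (measurableSet_le hVm.norm measurable_const) hVm
    measurable_const
  have hUb : ∀ y, ‖U y‖ ≤ 1 / η' := by
    intro y
    have e1 : 1 / η ≤ 1 / η' := one_div_le_one_div_of_le hη'0 hη'η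
    by_cases hy : ‖V y‖ ≤ 1 / η
    · simp only [U, if_pos hy]; exact hy.trans e1
    · simp only [U, if_neg hy, norm_zero]; positivity
  have hUV : ∀ (y : ℂ) (t : ℝ), (z₀ + s * y, t) ∈ G → U y = V y := by
    intro y t hy
    have e1 := hGw _ hy
    have e2 : ‖V y‖ ≤ 1 / η := by
      simp only [V]
      rw [norm_div, Complex.norm_real, Real.norm_of_nonneg hs.le, div_le_iff₀ hs]
      calc ‖w (z₀ + s * y) - w₀‖ ≤ s / η := e1
        _ = 1 / η * s := by ring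
    simp only [U, if_pos e2]
  -- the rescaled sets
  let R1 : Set ℂ := {y | z₀ + s * y ∈ R}
  let F : ℂ × ℂ → ℂ × ℂ := fun p => (z₀ + s * p.1, z₀ + s * p.2)
  have hF : Measurable F := by fun_prop
  have mR1 : MeasurableSet R1 := haff mR
  have mEa1 : MeasurableSet (F ⁻¹' Ea) := hF mEa
  have mEb1 : MeasurableSet (F ⁻¹' Eb) := hF mEb
  have hR1 : R1 ⊆ sq 0 1 := fun y hy => s2a_mem_sq hs (hR hy)
  have hscale : ∀ (c : ℝ) (A : Set ℂ), ENNReal.ofReal (c * s ^ 2) ≤ volume A → 0 ≤ c →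
      ENNReal.ofReal c ≤ volume {y : ℂ | z₀ + s * y ∈ A} := by
    intro c A hA hc
    rw [s2a_vol_scale hs]
    calc ENNReal.ofReal c = ENNReal.ofReal ((s ^ 2)⁻¹) * ENNReal.ofReal (c * s ^ 2) := by
          rw [← ENNReal.ofReal_mul (by positivity)]
          congr 1
          field_simp
      _ ≤ _ := mul_le_mul_right hA _
  have hη'v : ENNReal.ofReal η' ≤ ENNReal.ofReal (η ^ C2) := ENNReal.ofReal_le_ofReal hη'C
  -- the key estimate
  have hkey : ∀ (A V' W D : ℝ), 0 ≤ D → D ≤ 2 → |V' - W| ≤ s / η →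
      |A * s ^ 2 - (s * D) ^ 2 * V'| ≤ C3 * δ * (s * D) → |A - D ^ 2 * W| ≤ κ := by
    intro A V' W D hD hD2 hV hA
    have e1 : |A - D ^ 2 * V'| ≤ 2 * C3 * s := by
      have e2 : A * s ^ 2 - (s * D) ^ 2 * V' = s ^ 2 * (A - D ^ 2 * V') := by ring
      rw [e2, abs_mul, abs_of_nonneg (sq_nonneg s)] at hA
      have e3 : C3 * δ * (s * D) ≤ s ^ 2 * (2 * C3 * s) := by
        have : C3 * δ * (s * D) ≤ C3 * s ^ 2 * (s * 2) :=
          mul_le_mul (mul_le_mul_of_nonneg_left hδs hC3)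
            (mul_le_mul_of_nonneg_left hD2 hs.le) (by positivity) (by positivity)
        linarith
      exact le_of_mul_le_mul_left (hA.trans e3) (by positivity)
    have e4 : |D ^ 2 * (V' - W)| ≤ 4 * (s / η) := by
      rw [abs_mul, abs_of_nonneg (sq_nonneg D)]
      exact mul_le_mul (by nlinarith) hV (abs_nonneg _) (by norm_num)
    have e5 : A - D ^ 2 * W = (A - D ^ 2 * V') + D ^ 2 * (V' - W) := by ring
    rw [e5]
    refine (abs_add_le _ _).trans ?_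
    have e6 : κ = 4 * (s / η) + 2 * C3 * s := by rw [hκ]; ring
    rw [e6]; linarith
  have hmid : ∀ x y : ℂ × ℝ, x ∈ G → y ∈ G → ⌊x.2 / s⌋ = ⌊y.2 / s⌋ →
      |((mo α β f g x).re + (mo α β f g y).re) / 2 - Φ ⌊x.2 / s⌋| ≤ s / η := by
    intro x y hx hy hxy
    have e1 := hGΦ x hx
    have e2 := hGΦ y hy
    rw [← hxy] at e2
    rw [abs_le] at e1 e2 ⊢
    constructor <;> linarith [e1.1, e1.2, e2.1, e2.2]
  have hcore : ∀ (ζ : ℂ) (y y' : ℂ) (t t' : ℝ) (V' W : ℝ), (z₀ + s * y, t) ∈ G →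
      (z₀ + s * y', t') ∈ G → |V' - W| ≤ s / η →
      |(ζ * (w (z₀ + s * y') - w (z₀ + s * y)) * conj ((z₀ + s * y') - (z₀ + s * y))).re
        - ‖(z₀ + s * y') - (z₀ + s * y)‖ ^ 2 * V'|
        ≤ C3 * δ * ‖(z₀ + s * y') - (z₀ + s * y)‖ →
      |(ζ * (U y' - U y) * conj (y' - y)).re - ‖y' - y‖ ^ 2 * W| ≤ κ := by
    intro ζ y y' t t' V' W hy hy' hV hA
    have e1 : (z₀ + s * y') - (z₀ + s * y) = s * (y' - y) := by ring
    have e2 : ‖(s : ℂ) * (y' - y)‖ = s * ‖y' - y‖ := by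
      rw [norm_mul, Complex.norm_real, Real.norm_of_nonneg hs.le]
    have e3 : w (z₀ + s * y') - w (z₀ + s * y) = s * (U y' - U y) := by
      rw [hUV y t hy, hUV y' t' hy']
      simp only [V]
      field_simp
      ring
    have e4 : (ζ * (w (z₀ + s * y') - w (z₀ + s * y)) * conj ((s : ℂ) * (y' - y))).re
        = (ζ * (U y' - U y) * conj (y' - y)).re * s ^ 2 := by
      have : ζ * (w (z₀ + s * y') - w (z₀ + s * y)) * conj ((s : ℂ) * (y' - y))
          = ((s ^ 2 : ℝ) : ℂ) * (ζ * (U y' - U y) * conj (y' - y)) := by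
        rw [e3, map_mul, Complex.conj_ofReal]
        push_cast
        ring
      rw [this, Complex.re_ofReal_mul]
      ring
    rw [e1, e2, e4] at hA
    refine hkey _ V' W ‖y' - y‖ (norm_nonneg _) ?_ hV hA
    have hy1 := s2a_mem_sq hs (hGs _ hy)
    have hy2 := s2a_mem_sq hs (hGs _ hy')
    have := norm_sub_le_of_mem_sq hy1 hy2
    rw [norm_sub_rev]
    linarith
  -- the pairs
  have hpa : ∀ p ∈ F ⁻¹' Ea, (p.1 ∈ sq 0 1 ∧ p.2 ∈ sq 0 1 ∧ p.1 ≠ p.2) ∧
      |(α * conj β * (U p.2 - U p.1) * conj (p.2 - p.1)).re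
        - ‖p.2 - p.1‖ ^ 2 * Ψa ((p.2 - p.1) / ‖p.2 - p.1‖)| ≤ κ := by
    intro p hp
    obtain ⟨t, t', hx, hy, htt, hfl, hc⟩ := hEa hp
    simp only [F] at hx hy htt hfl hc
    obtain ⟨hne, hΨ⟩ := hΨa (z₀ + s * p.1) (z₀ + s * p.2) t t' (hSys.ang _ hx).1 htt
      (hSys.ang _ hy).2 hfl hs hc
    have hne' : p.1 ≠ p.2 := fun h => hne (by rw [h])
    have hdir : ((z₀ + s * p.2) - (z₀ + s * p.1)) / ‖(z₀ + s * p.2) - (z₀ + s * p.1)‖
        = (p.2 - p.1) / ‖p.2 - p.1‖ := by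
      have e1 : (z₀ + s * p.2) - (z₀ + s * p.1) = s * (p.2 - p.1) := by ring
      rw [e1, norm_mul, Complex.norm_real, Real.norm_of_nonneg hs.le, Complex.ofReal_mul,
        mul_div_mul_left _ _ hs0]
    rw [hdir] at hΨ
    refine ⟨⟨s2a_mem_sq hs (hGs _ hx), s2a_mem_sq hs (hGs _ hy), hne'⟩, ?_⟩
    rw [hΨ]
    have hh := (h5 η s δ w f g G (z₀ + s * p.1, t) (z₀ + s * p.2, t') hδ hSys).1
      ⟨hx, hy, htt, hfl, hc⟩
    exact hcore (α * conj β) p.1 p.2 t t'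
      (((mo α β f g (z₀ + s * p.1, t)).re + (mo α β f g (z₀ + s * p.2, t')).re) / 2)
      (Φ ⌊t / s⌋) hx hy (hmid (z₀ + s * p.1, t) (z₀ + s * p.2, t') hx hy hfl) hh
  have hpb : ∀ p ∈ F ⁻¹' Eb, (p.1 ∈ sq 0 1 ∧ p.2 ∈ sq 0 1 ∧ p.1 ≠ p.2) ∧
      |(conj (α * conj β) * (U p.2 - U p.1) * conj (p.2 - p.1)).re
        - ‖p.2 - p.1‖ ^ 2 * Ψb ((p.2 - p.1) / ‖p.2 - p.1‖)| ≤ κ := by
    intro p hp
    obtain ⟨t, t', hx, hy, htt, hfl, hc⟩ := hEb hp
    simp only [F] at hx hy htt hfl hc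
    obtain ⟨hne, hΨ⟩ := hΨb (z₀ + s * p.1) (z₀ + s * p.2) t t' (hSys.ang _ hx).1 htt
      (hSys.ang _ hy).2 hfl hs hc
    have hne' : p.1 ≠ p.2 := fun h => hne (by rw [h])
    have hdir : ((z₀ + s * p.2) - (z₀ + s * p.1)) / ‖(z₀ + s * p.2) - (z₀ + s * p.1)‖
        = (p.2 - p.1) / ‖p.2 - p.1‖ := by
      have e1 : (z₀ + s * p.2) - (z₀ + s * p.1) = s * (p.2 - p.1) := by ring
      rw [e1, norm_mul, Complex.norm_real, Real.norm_of_nonneg hs.le, Complex.ofReal_mul,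
        mul_div_mul_left _ _ hs0]
    rw [hdir] at hΨ
    refine ⟨⟨s2a_mem_sq hs (hGs _ hx), s2a_mem_sq hs (hGs _ hy), hne'⟩, ?_⟩
    rw [hΨ]
    have hh := (h5 η s δ w f g G (z₀ + s * p.1, t) (z₀ + s * p.2, t') hδ hSys).2
      ⟨hx, hy, htt, hfl, hc⟩
    exact hcore (conj (α * conj β)) p.1 p.2 t t'
      (((mo α β f g (z₀ + s * p.1, t)).re + (mo α β f g (z₀ + s * p.2, t')).re) / 2)
      (Φ ⌊t / s⌋) hx hy (hmid (z₀ + s * p.1, t) (z₀ + s * p.2, t') hx hy hfl) hh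
  have hva : ∀ y ∈ R1, ENNReal.ofReal η' ≤ volume {y' | (y, y') ∈ F ⁻¹' Ea} := by
    intro y hy
    have e1 : {y' | (y, y') ∈ F ⁻¹' Ea}
        = {y' : ℂ | z₀ + s * y' ∈ {z' | (z₀ + s * y, z') ∈ Ea}} := by
      ext y'
      simp only [F, Set.mem_preimage, Set.mem_ofPred_eq]
    rw [e1]
    exact hη'v.trans (hscale (η ^ C2) {z' | (z₀ + s * y, z') ∈ Ea} (ha _ hy) (pow_pos hη _).le)
  have hvb : ∀ y ∈ R1, ENNReal.ofReal η' ≤ volume {y' | (y, y') ∈ F ⁻¹' Eb} := by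
    intro y hy
    have e1 : {y' | (y, y') ∈ F ⁻¹' Eb}
        = {y' : ℂ | z₀ + s * y' ∈ {z' | (z₀ + s * y, z') ∈ Eb}} := by
      ext y'
      simp only [F, Set.mem_preimage, Set.mem_ofPred_eq]
    rw [e1]
    exact hη'v.trans (hscale (η ^ C2) {z' | (z₀ + s * y, z') ∈ Eb} (hb _ hy) (pow_pos hη _).le)
  have hvR : ENNReal.ofReal η' ≤ volume R1 :=
    hη'v.trans (hscale (η ^ C2) R hRv (pow_pos hη _).le)
  have hUb' := hUb
  clear_value U F κ
  obtain ⟨P1, u₀, m₁, m₂, mP1, hP1R, hP1v, hm1, hm2, hP1⟩ := h3 η' κ U R1 (F ⁻¹' Ea) (F ⁻¹' Eb)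
    Ψa Ψb hη'0 hη'2 hκ0 hUm hUb mR1 mEa1 mEb1 hR1 (fun p hp => (hpa p hp).1)
    (fun p hp => (hpb p hp).1) (fun p hp => (hpa p hp).2) (fun p hp => (hpb p hp).2)
    hva hvb hvR
  have hpw : η' ^ C1 = η ^ ((C2 + 1) * C1) := by rw [hη', ← pow_mul]
  -- back to the cell
  let P : Set ℂ := {z | (z - z₀) / s ∈ P1}
  have hback : ∀ z : ℂ, z₀ + s * ((z - z₀) / s) = z := by
    intro z; field_simp; ring
  have mP : MeasurableSet P := by
    have : Measurable (fun z : ℂ => (z - z₀) / s) := by fun_prop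
    exact this mP1
  have hPR : ∀ z ∈ P, z ∈ R := by
    intro z hz
    have := hP1R hz
    simp only [R1, Set.mem_ofPred_eq] at this
    rwa [hback] at this
  have hPv : ENNReal.ofReal (η ^ ((C2 + 1) * C1) * s ^ 2) ≤ volume P := by
    have e1 : volume {y : ℂ | z₀ + s * y ∈ P} = ENNReal.ofReal ((s ^ 2)⁻¹) * volume P :=
      s2a_vol_scale hs z₀ P
    have e2 : {y : ℂ | z₀ + s * y ∈ P} = P1 := by
      ext y
      simp only [P, Set.mem_ofPred_eq]
      rw [add_sub_cancel_left, mul_div_cancel_left₀ _ hs0]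
    rw [e2] at e1
    have e3 : volume P = ENNReal.ofReal (s ^ 2) * volume P1 := by
      rw [e1, ← mul_assoc, ← ENNReal.ofReal_mul (by positivity),
        mul_inv_cancel₀ (by positivity), ENNReal.ofReal_one, one_mul]
    rw [e3, mul_comm, ENNReal.ofReal_mul (by positivity), ← hpw]
    exact mul_le_mul_right hP1v _
  have e5 : η ^ (C2 + (C2 + 1) * C1 + (m + 1)) ≤ η ^ ((C2 + 1) * C1) * η ^ (m + 1) := by
    rw [← pow_add]; exact hmono (by omega)
  have hle1 : ∀ x : ℝ, x ≤ 1 / η' ^ C1 → x ≤ 1 / η ^ (C2 + (C2 + 1) * C1 + (m + 1)) := by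
    intro x hx
    rw [hpw] at hx
    exact hx.trans (one_div_le_one_div_of_le (pow_pos hη _) (hmono (by omega)))
  refine ⟨P, w₀ + s * u₀ - m₁ * z₀ - m₂ * conj z₀, m₁, m₂, mP, ?_, hle1 _ hm1, hle1 _ hm2, ?_⟩
  · have hG : MeasurableSet (G ∩ {x | x.1 ∈ P}) := hSys.mG.inter (measurable_fst mP)
    have hvol : volume (G ∩ {x : ℂ × ℝ | x.1 ∈ P})
        = ∫⁻ z, volume (Prod.mk z ⁻¹' (G ∩ {x : ℂ × ℝ | x.1 ∈ P})) := by
      rw [Measure.volume_eq_prod, Measure.prod_apply hG]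
    have hlow : ENNReal.ofReal (η ^ C2) * volume P
        ≤ volume (G ∩ {x : ℂ × ℝ | x.1 ∈ P}) := by
      rw [hvol]
      calc ENNReal.ofReal (η ^ C2) * volume P = ∫⁻ _z in P, ENNReal.ofReal (η ^ C2) := by
            rw [setLIntegral_const]
        _ ≤ ∫⁻ z in P, volume (Prod.mk z ⁻¹' (G ∩ {x : ℂ × ℝ | x.1 ∈ P})) := by
            apply setLIntegral_mono' mP
            intro z hz
            refine (hfib z (hPR z hz)).trans (measure_mono ?_)
            intro t ht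
            exact ⟨ht, hz⟩
        _ ≤ ∫⁻ z, volume (Prod.mk z ⁻¹' (G ∩ {x : ℂ × ℝ | x.1 ∈ P})) :=
            setLIntegral_le_lintegral _ _
    refine le_trans ?_ hlow
    refine le_trans ?_ (mul_le_mul_right hPv _)
    rw [← ENNReal.ofReal_mul (pow_pos hη _).le]
    apply ENNReal.ofReal_le_ofReal
    rw [← mul_assoc, ← pow_add]
    exact mul_le_mul_of_nonneg_right (hmono (by omega)) (sq_nonneg s)
  · intro z hz
    have hne : ({t : ℝ | (z, t) ∈ G}).Nonempty := by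
      by_contra hc
      rw [Set.not_nonempty_iff_eq_empty] at hc
      have := hfib z (hPR z hz)
      rw [hc, measure_empty] at this
      exact absurd this (not_le.mpr (ENNReal.ofReal_pos.mpr (pow_pos hη _)))
    obtain ⟨t, ht⟩ := hne
    have hU : U ((z - z₀) / s) = (w z - w₀) / s := by
      rw [hUV ((z - z₀) / s) t (by rw [hback]; exact ht)]
      simp only [V]
      rw [hback]
    have hest := hP1 _ hz
    rw [hU, hpw] at hest
    have e1 : w z - (w₀ + s * u₀ - m₁ * z₀ - m₂ * conj z₀) - m₁ * z - m₂ * conj z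
        = s * ((w z - w₀) / s - u₀ - m₁ * ((z - z₀) / s) - m₂ * conj ((z - z₀) / s)) := by
      rw [map_div₀, map_sub, Complex.conj_ofReal]
      field_simp
      ring
    rw [e1, norm_mul, Complex.norm_real, Real.norm_of_nonneg hs.le]
    refine (mul_le_mul_of_nonneg_left hest hs.le).trans ?_
    have e2 : 4 / η + 2 * C3 ≤ 1 / η ^ (m + 1) := by
      have e3 : 4 / η + 2 * C3 ≤ (4 + C3) / η := by
        rw [add_div]
        have : 2 * C3 ≤ C3 / η := by
          rw [le_div_iff₀ hη]; nlinarith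
        linarith
      have e4 : (2 : ℝ) ^ m ≤ 1 / η ^ m := by
        rw [le_div_iff₀ (pow_pos hη m), ← mul_pow]
        exact pow_le_one₀ (by positivity) (by linarith)
      calc 4 / η + 2 * C3 ≤ (4 + C3) / η := e3
        _ ≤ 2 ^ m / η := div_le_div_of_nonneg_right hm.le hη.le
        _ ≤ (1 / η ^ m) / η := div_le_div_of_nonneg_right e4 hη.le
        _ = 1 / η ^ (m + 1) := by rw [pow_succ, div_div]
    rw [hκ]
    calc s * (s * (4 / η + 2 * C3) / η ^ ((C2 + 1) * C1))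
        = s ^ 2 * (4 / η + 2 * C3) / η ^ ((C2 + 1) * C1) := by ring
      _ ≤ s ^ 2 * (1 / η ^ (m + 1)) / η ^ ((C2 + 1) * C1) :=
          div_le_div_of_nonneg_right (mul_le_mul_of_nonneg_left e2 (sq_nonneg s)) (pow_pos hη _).le
      _ = s ^ 2 / (η ^ ((C2 + 1) * C1) * η ^ (m + 1)) := by
          rw [mul_one_div, div_div, mul_comm (η ^ (m + 1))]
      _ ≤ s ^ 2 / η ^ (C2 + (C2 + 1) * C1 + (m + 1)) :=
          div_le_div_of_nonneg_left (sq_nonneg s) (pow_pos hη _) e5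

end Pool.Agent.H2.T2
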