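import Pool.Agent.H2.T2.Shear

/-!
# The same fields seen from the vertex `b`
-/

open MeasureTheory Set
open scoped ComplexConjugate Real

namespace Pool.Agent.H2.T2

theorem swapS (α β : ℂ) : SwapS α β := by
  refine ⟨1 + ‖β‖, by positivity, ?_⟩
  intro η δ w f g G hη hη2 hδ hC hS
  have hβδ : 0 ≤ ‖β‖ * δ := mul_nonneg (norm_nonneg _) hδ
  have hδle : δ ≤ (1 + ‖β‖) * δ := by linarith
  have hβle : ‖β‖ * δ ≤ (1 + ‖β‖) * δ := by linarith
  -- measurability of the shear
  have hc : Measurable (fun t : ℝ => -(β * ec t)) := (measurable_ec.const_mul β).neg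
  have hpre : atB β G = (fun x : ℂ × ℝ => (x.1 + -(β * ec x.2), x.2)) ⁻¹' G := by
    ext x
    simp only [atB, mem_preimage, sub_eq_add_neg]
    rfl
  have hmG : MeasurableSet (atB β G) := by
    rw [hpre]
    exact (measurable_shear hc) hS.mG
  have hvol : volume (atB β G) = volume G := by
    rw [hpre]
    exact volume_shear_preimage hc hS.mG
  -- comparison of the moments
  have hmo : ∀ x ∈ G, ‖mo (α - β) (-β) f w (x.1 + β * ec x.2, x.2) - mo α β f g x‖ ≤ ‖β‖ * δ := by
    intro x hx
    have e : mo (α - β) (-β) f w (x.1 + β * ec x.2, x.2) - mo α β f g x =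
        -(conj (ec x.2) * conj β *
          (w x.1 + f (x.1 + α * ec x.2) + g (x.1 + β * ec x.2))) := by
      unfold mo
      simp only
      have h1 : x.1 + β * ec x.2 + (α - β) * ec x.2 = x.1 + α * ec x.2 := by ring
      have h2 : x.1 + β * ec x.2 + -β * ec x.2 = x.1 := by ring
      rw [h1, h2, map_sub, map_neg]
      ring
    rw [e, norm_neg, norm_mul, norm_mul, Complex.norm_conj, Complex.norm_conj, norm_ec, one_mul]
    exact mul_le_mul_of_nonneg_left (hS.force x hx) (norm_nonneg _)
  have back : ∀ x ∈ atB β G, ((x.1 - β * ec x.2, x.2) : ℂ × ℝ) ∈ G ∧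
      ‖mo (α - β) (-β) f w x - mo α β f g (x.1 - β * ec x.2, x.2)‖ ≤ ‖β‖ * δ := by
    intro x hx
    have hx' : ((x.1 - β * ec x.2, x.2) : ℂ × ℝ) ∈ G := hx
    refine ⟨hx', ?_⟩
    have h1 := hmo _ hx'
    simp only [sub_add_cancel] at h1
    exact h1
  refine ⟨⟨hS.mg, hS.mf, hS.mw, hmG, ?_, ?_, ?_, ?_, ?_⟩, hvol, ?_⟩
  · intro x hx
    have h1 := hS.ang _ (back x hx).1
    exact h1
  · intro x hx
    have h1 := hS.force _ (back x hx).1
    simp only at h1
    have e : g x.1 + f (x.1 + (α - β) * ec x.2) + w (x.1 + -β * ec x.2) =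
        w (x.1 - β * ec x.2) + f (x.1 - β * ec x.2 + α * ec x.2) +
          g (x.1 - β * ec x.2 + β * ec x.2) := by
      have h2 : x.1 + (α - β) * ec x.2 = x.1 - β * ec x.2 + α * ec x.2 := by ring
      have h3 : x.1 + -β * ec x.2 = x.1 - β * ec x.2 := by ring
      have h4 : x.1 - β * ec x.2 + β * ec x.2 = x.1 := by ring
      rw [h2, h3, h4]
      ring
    rw [e]
    exact h1.trans hδle
  · intro x hx
    obtain ⟨h1, h2⟩ := back x hx
    have h3 := hS.im _ h1
    have h4 := (Complex.abs_im_le_norm _).trans h2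
    rw [Complex.sub_im] at h4
    have h5 := abs_le.mp h3
    have h6 := abs_le.mp h4
    rw [abs_le]
    constructor <;> linarith
  · intro x hx
    obtain ⟨h1, h2⟩ := back x hx
    have h3 := hS.lo _ h1
    have h4 := (Complex.abs_re_le_norm _).trans h2
    rw [Complex.sub_re] at h4
    have h6 := abs_le.mp h4
    linarith
  · intro x hx
    obtain ⟨h1, h2⟩ := back x hx
    have h3 := hS.hi _ h1
    have h4 := (Complex.abs_re_le_norm _).trans h2
    rw [Complex.sub_re] at h4
    have h6 := abs_le.mp h4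
    have h7 : 1 / (η / 2) = 1 / η + 1 / η := by
      field_simp
      ring
    have h8 : 1 ≤ 1 / η := by
      rw [le_div_iff₀ hη]
      linarith
    rw [h7]
    linarith
  · intro x hx
    exact (hmo x hx).trans hβle

end Pool.Agent.H2.T2
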