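import Pool.Agent.H2.T2.FRX
import Pool.Agent.H2.T2.Bridge
import Pool.Agent.H2.T2.Remez
import Pool.Agent.H2.T2.K3
import Pool.Agent.H2.T2.R1
import Pool.Agent.H2.T2.AffA
import Pool.Agent.H2.T2.AffB
import Pool.Agent.H2.T2.Prune
import Pool.Agent.H2.T2.Polar
import Pool.Agent.H2.T2.HD
import Pool.Agent.H2.T2.HA
import Pool.Agent.H2.T2.Swap
import Pool.Agent.H2.T2.CU
import Pool.Agent.H2.T2.S1
import Pool.Agent.H2.T2.S2a
import Pool.Agent.H2.T2.S2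
import Pool.Agent.H2.T2.AG1
import Pool.Agent.H2.T2.AG
import Pool.Agent.H34.T2e.Fin

/-!
# Field rigidity: the theorem
-/

open MeasureTheory Set
open scoped ComplexConjugate Real

namespace Pool.Agent.H2.T2

theorem ne_of_NR {α β : ℂ} (h : NR α β) : α ≠ 0 ∧ β ≠ 0 ∧ α ≠ β := by
  refine ⟨?_, ?_, ?_⟩
  · rintro rfl
    exact h.1 (by simp)
  · rintro rfl
    exact h.1 (by simp)
  · rintro rfl
    exact h.1 (by rw [Complex.mul_conj]; exact Complex.ofReal_im _)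

theorem hd {α β : ℂ} (ha : α ≠ 0) (hb : β ≠ 0) : HD α β :=
  hd_of (prune ha) (prune hb) (polarS ha) (polarS (neg_ne_zero.2 ha)) (polarS hb)
    (polarS (neg_ne_zero.2 hb)) ha hb

theorem part {α β : ℂ} (ha : α ≠ 0) (hb : β ≠ 0) : Part α β := part_of (prune ha) (prune hb)

theorem r1' {α β : ℂ} (h : NR α β) : R1 (α * conj β) := r1 (k3 remez2) h.2 h.1

theorem s1 {α β : ℂ} (h : NR α β) : S1 α β := by
  obtain ⟨h1, h2, -⟩ := ne_of_NR h
  exact s1_of (r1' h) (hd h1 h2) (ha α β)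

theorem s2 {α β : ℂ} (h : NR α β) : S2 α β := by
  obtain ⟨h1, h2, -⟩ := ne_of_NR h
  exact s2_of h.1 (s2a_of h1 h2 (aff_of (affA (r1' h)) affB) (hd h1 h2) (ha α β)) (part h1 h2)
    (ha α β)

theorem ag {α β : ℂ} (h : NR α β) (h' : NR (α - β) (-β)) : AG α β :=
  ag_of (ag1_of (s1 h) (s1 h') (swapS α β) cu) (s2 h) cu

theorem frz {α β : ℂ} (h : NR α β) (h' : NR (α - β) (-β)) : FRz α β :=
  Pool.Agent.H34.T2e.frz_final h (ag h h') (prune (ne_of_NR h).1) (prune (ne_of_NR h).2.1) remezT cu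

/-- Field rigidity for triangles `x`, `x + a₁ e^{iφ}`, `x + a₂ e^{iφ}` without right angle at the
last two vertices. -/
theorem frx {a₁ a₂ : ℂ} (hJ : (a₁ * conj a₂).im ≠ 0) (h1 : (a₁ * conj (a₁ - a₂)).re ≠ 0)
    (h2 : (a₂ * conj (a₂ - a₁)).re ≠ 0) : FRx a₁ a₂ := by
  apply frx_of
  have e1 : (-a₂ * conj (a₁ - a₂)).im = (a₁ * conj a₂).im := by
    simp [Complex.mul_im]
    ring
  have e2 : (-a₂ * conj (a₁ - a₂)).re = (a₂ * conj (a₂ - a₁)).re := by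
    simp [Complex.mul_re]
    ring
  have e3 : (-a₂ - (a₁ - a₂)) * conj (-(a₁ - a₂)) = a₁ * conj (a₁ - a₂) := by
    simp only [map_neg]
    ring
  have e4 : (a₁ * conj (a₁ - a₂)).im = -(a₁ * conj a₂).im := by
    simp [Complex.mul_im]
    ring
  refine frz ⟨by rw [e1]; exact hJ, by rw [e2]; exact h2⟩ ⟨?_, ?_⟩
  · rw [e3, e4]
    exact neg_ne_zero.2 hJ
  · rw [e3]
    exact h1

/-- Field rigidity in the form used by the smoothing inequality. -/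
theorem frx67 (a₁ a₂ : ℂ) (h1 : a₁ ≠ 0) (h2 : a₂ ≠ 0) (him : ((a₁ - a₂) / a₁).im ≠ 0)
    (hre : ((a₁ - a₂) / a₁).re ≠ 0) (_him' : ((a₂ - a₁) / a₂).im ≠ 0)
    (hre' : ((a₂ - a₁) / a₂).re ≠ 0) : Pool.Agent.H67.Pl.FRx a₁ a₂ := by
  obtain ⟨e1, e2, e3⟩ := angle_conv h1 h2 him hre hre'
  exact bridge (frx e1 e2 e3)

end Pool.Agent.H2.T2
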