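import Mathlib

/-!
# Field rigidity (the sublevel theorem) for triangles in the plane: definitions and statements

Triangle: `z`, `a = z + α e^{iφ}`, `b = z + β e^{iφ}`. Fields `w` at `z`, `f` at `a`, `g` at `b`.
-/

open MeasureTheory Set
open scoped ComplexConjugate Real

namespace Pool.Agent.H2.T2

/-- `e^{it}` -/
noncomputable def ec (t : ℝ) : ℂ := Complex.exp (t * Complex.I)

/-- The half-open square with lower left corner `z₀` and side `L`. -/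
def sq (z₀ : ℂ) (L : ℝ) : Set ℂ :=
  {z | z₀.re ≤ z.re ∧ z.re < z₀.re + L ∧ z₀.im ≤ z.im ∧ z.im < z₀.im + L}

/-- The index of the cell of side `s` containing `z`. -/
noncomputable def cellOf (s : ℝ) (z : ℂ) : ℤ × ℤ := (⌊z.re / s⌋, ⌊z.im / s⌋)

/-- No right angle and no flat angle between `α` and `β`. -/
def NR (α β : ℂ) : Prop := (α * conj β).im ≠ 0 ∧ (α * conj β).re ≠ 0

/-- The moment about `z` of the forces at `a` and `b`, divided by `e^{iφ}`. Its real part is the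
virial, its imaginary part the torque. -/
noncomputable def mo (α β : ℂ) (f g : ℂ → ℂ) (x : ℂ × ℝ) : ℂ :=
  conj (ec x.2) * (conj α * f (x.1 + α * ec x.2) + conj β * g (x.1 + β * ec x.2))

/-- Measurable force fields in equilibrium up to `δ` with virial between `η` and `1/η` on the
triangles of `G`. -/
structure Sys (α β : ℂ) (η δ : ℝ) (w f g : ℂ → ℂ) (G : Set (ℂ × ℝ)) : Prop where
  mw : Measurable w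
  mf : Measurable f
  mg : Measurable g
  mG : MeasurableSet G
  ang : ∀ x ∈ G, 0 ≤ x.2 ∧ x.2 < 2 * π
  force : ∀ x ∈ G, ‖w x.1 + f (x.1 + α * ec x.2) + g (x.1 + β * ec x.2)‖ ≤ δ
  im : ∀ x ∈ G, |(mo α β f g x).im| ≤ δ
  lo : ∀ x ∈ G, η ≤ (mo α β f g x).re
  hi : ∀ x ∈ G, (mo α β f g x).re ≤ 1 / η

/-! ### Polynomials on small sets -/

/-- Remez for quadratic polynomials of two variables. -/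
def Remez2 : Prop := ∃ C : ℕ, ∀ (η ε : ℝ) (P : Set ℂ) (a : Fin 6 → ℝ),
  0 < η → η ≤ 1 / 2 → 0 ≤ ε → MeasurableSet P → P ⊆ sq 0 1 → ENNReal.ofReal η ≤ volume P →
  (∀ z ∈ P, |a 0 + a 1 * z.re + a 2 * z.im + a 3 * z.re ^ 2 + a 4 * (z.re * z.im)
    + a 5 * z.im ^ 2| ≤ ε) → ∀ i, |a i| ≤ ε / η ^ C

/-- Remez for real trigonometric polynomials of degree three. -/
def RemezT : Prop := ∃ C : ℕ, ∀ (η ε : ℝ) (S : Set ℝ) (c : Fin 4 → ℂ),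
  0 < η → η ≤ 1 / 2 → 0 ≤ ε → MeasurableSet S → S ⊆ Ico 0 (2 * π) →
  ENNReal.ofReal η ≤ volume S →
  (∀ t ∈ S, |(c 0 + c 1 * ec t + c 2 * ec (2 * t) + c 3 * ec (3 * t)).re| ≤ ε) →
  ∀ i, i ≠ 0 → ‖c i‖ ≤ ε / η ^ C

/-- Three common neighbours: a function with `⟨z - z', U z - U z'⟩` small on a dense set of pairs is
an infinitesimal rotation on a dense set. -/
def K3 : Prop := ∃ C : ℕ, ∀ (η κ : ℝ) (U : ℂ → ℂ) (R : Set ℂ) (E : Set (ℂ × ℂ)),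
  0 < η → η ≤ 1 / 2 → 0 ≤ κ → Measurable U → MeasurableSet R → MeasurableSet E → R ⊆ sq 0 1 →
  (∀ p ∈ E, p.1 ∈ sq 0 1 ∧ p.2 ∈ sq 0 1) →
  (∀ p ∈ E, |((U p.2 - U p.1) * conj (p.2 - p.1)).re| ≤ κ) →
  (∀ z ∈ R, ENNReal.ofReal η ≤ volume {z' | (z, z') ∈ E}) →
  ENNReal.ofReal η ≤ volume R →
  ∃ (P : Set ℂ) (b : ℂ) (c : ℝ), MeasurableSet P ∧ P ⊆ R ∧ ENNReal.ofReal (η ^ C) ≤ volume P ∧
    ∀ z ∈ P, ‖U z - b - c * Complex.I * z‖ ≤ κ / η ^ C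

/-- Two types of pairs: the function is constant on a dense set. -/
def R1 (ζ : ℂ) : Prop := ∃ C : ℕ, ∀ (η L κ : ℝ) (z₀ : ℂ) (U : ℂ → ℂ) (R : Set ℂ)
    (Ea Eb : Set (ℂ × ℂ)),
  0 < η → η ≤ 1 / 2 → 0 < L → 0 ≤ κ → Measurable U → MeasurableSet R → MeasurableSet Ea →
  MeasurableSet Eb → R ⊆ sq z₀ L →
  (∀ p ∈ Ea, p.1 ∈ sq z₀ L ∧ p.2 ∈ sq z₀ L) → (∀ p ∈ Eb, p.1 ∈ sq z₀ L ∧ p.2 ∈ sq z₀ L) →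
  (∀ p ∈ Ea, |(ζ * (U p.2 - U p.1) * conj (p.2 - p.1)).re| ≤ κ * L) →
  (∀ p ∈ Eb, |(conj ζ * (U p.2 - U p.1) * conj (p.2 - p.1)).re| ≤ κ * L) →
  (∀ z ∈ R, ENNReal.ofReal (η * L ^ 2) ≤ volume {z' | (z, z') ∈ Ea}) →
  (∀ z ∈ R, ENNReal.ofReal (η * L ^ 2) ≤ volume {z' | (z, z') ∈ Eb}) →
  ENNReal.ofReal (η * L ^ 2) ≤ volume R →
  ∃ (P : Set ℂ) (u₀ : ℂ), MeasurableSet P ∧ P ⊆ R ∧
    ENNReal.ofReal (η ^ C * L ^ 2) ≤ volume P ∧ ∀ z ∈ P, ‖U z - u₀‖ ≤ κ / η ^ C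

/-- The two types of pairs with a right-hand side depending only on the direction: the function is
affine on a dense set. -/
def Aff (ζ : ℂ) : Prop := ∃ C : ℕ, ∀ (η κ : ℝ) (U : ℂ → ℂ) (R : Set ℂ)
    (Ea Eb : Set (ℂ × ℂ)) (Ψa Ψb : ℂ → ℝ),
  0 < η → η ≤ 1 / 2 → 0 ≤ κ → Measurable U → (∀ z, ‖U z‖ ≤ 1 / η) →
  MeasurableSet R → MeasurableSet Ea → MeasurableSet Eb → R ⊆ sq 0 1 →
  (∀ p ∈ Ea, p.1 ∈ sq 0 1 ∧ p.2 ∈ sq 0 1 ∧ p.1 ≠ p.2) →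
  (∀ p ∈ Eb, p.1 ∈ sq 0 1 ∧ p.2 ∈ sq 0 1 ∧ p.1 ≠ p.2) →
  (∀ p ∈ Ea, |(ζ * (U p.2 - U p.1) * conj (p.2 - p.1)).re
    - ‖p.2 - p.1‖ ^ 2 * Ψa ((p.2 - p.1) / ‖p.2 - p.1‖)| ≤ κ) →
  (∀ p ∈ Eb, |(conj ζ * (U p.2 - U p.1) * conj (p.2 - p.1)).re
    - ‖p.2 - p.1‖ ^ 2 * Ψb ((p.2 - p.1) / ‖p.2 - p.1‖)| ≤ κ) →
  (∀ z ∈ R, ENNReal.ofReal η ≤ volume {z' | (z, z') ∈ Ea}) →
  (∀ z ∈ R, ENNReal.ofReal η ≤ volume {z' | (z, z') ∈ Eb}) →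
  ENNReal.ofReal η ≤ volume R →
  ∃ (P : Set ℂ) (u₀ m m' : ℂ), MeasurableSet P ∧ P ⊆ R ∧ ENNReal.ofReal (η ^ C) ≤ volume P ∧
    ‖m‖ ≤ 1 / η ^ C ∧ ‖m'‖ ≤ 1 / η ^ C ∧
    ∀ z ∈ P, ‖U z - u₀ - m * z - m' * conj z‖ ≤ κ / η ^ C

/-- The domain of the parameters (two homotheties `y ↦ t y + c` and two points) used for `Aff`. -/
def hdom : Set (((ℝ × ℂ) × (ℝ × ℂ)) × (ℂ × ℂ)) :=
  {q | q.1.1.1 ∈ Icc (1 / 2 : ℝ) 1 ∧ q.1.2.1 ∈ Icc (1 / 2 : ℝ) 1 ∧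
    q.1.1.2 ∈ sq (-8 - 8 * Complex.I) 16 ∧ q.1.2.2 ∈ sq (-8 - 8 * Complex.I) 16 ∧
    q.2.1 ∈ sq (-8 - 8 * Complex.I) 16 ∧ q.2.2 ∈ sq (-8 - 8 * Complex.I) 16}

/-- The image of a point under the homothety `(t, c)`. -/
noncomputable def hmap (h : ℝ × ℂ) (y : ℂ) : ℂ := h.1 * y + h.2

/-- The quadruples on which two homothetic copies of `U` have the same increment. -/
def hset (κ : ℝ) (U : ℂ → ℂ) (R : Set ℂ) : Set (((ℝ × ℂ) × (ℝ × ℂ)) × (ℂ × ℂ)) :=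
  {q | q ∈ hdom ∧ hmap q.1.1 q.2.1 ∈ R ∧ hmap q.1.1 q.2.2 ∈ R ∧
    hmap q.1.2 q.2.1 ∈ R ∧ hmap q.1.2 q.2.2 ∈ R ∧
    ‖(U (hmap q.1.1 q.2.1) - U (hmap q.1.1 q.2.2)) / q.1.1.1
      - (U (hmap q.1.2 q.2.1) - U (hmap q.1.2 q.2.2)) / q.1.2.1‖ ≤ κ}

/-- First half of `Aff`: homothetic copies differ by constants on dense sets. -/
def AffA (ζ : ℂ) : Prop := ∃ C : ℕ, ∀ (η κ : ℝ) (U : ℂ → ℂ) (R : Set ℂ)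
    (Ea Eb : Set (ℂ × ℂ)) (Ψa Ψb : ℂ → ℝ),
  0 < η → η ≤ 1 / 2 → 0 ≤ κ → Measurable U →
  MeasurableSet R → MeasurableSet Ea → MeasurableSet Eb → R ⊆ sq 0 1 →
  (∀ p ∈ Ea, p.1 ∈ sq 0 1 ∧ p.2 ∈ sq 0 1 ∧ p.1 ≠ p.2) →
  (∀ p ∈ Eb, p.1 ∈ sq 0 1 ∧ p.2 ∈ sq 0 1 ∧ p.1 ≠ p.2) →
  (∀ p ∈ Ea, |(ζ * (U p.2 - U p.1) * conj (p.2 - p.1)).re
    - ‖p.2 - p.1‖ ^ 2 * Ψa ((p.2 - p.1) / ‖p.2 - p.1‖)| ≤ κ) →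
  (∀ p ∈ Eb, |(conj ζ * (U p.2 - U p.1) * conj (p.2 - p.1)).re
    - ‖p.2 - p.1‖ ^ 2 * Ψb ((p.2 - p.1) / ‖p.2 - p.1‖)| ≤ κ) →
  (∀ z ∈ R, ENNReal.ofReal η ≤ volume {z' | (z, z') ∈ Ea}) →
  (∀ z ∈ R, ENNReal.ofReal η ≤ volume {z' | (z, z') ∈ Eb}) →
  ENNReal.ofReal η ≤ volume R →
  ENNReal.ofReal (η ^ C) ≤ volume (hset (κ / η ^ C) U R)

/-- Second half of `Aff`: from equal increments of homothetic copies to an affine map. -/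
def AffB : Prop := ∃ C : ℕ, ∀ (η κ : ℝ) (U : ℂ → ℂ) (R : Set ℂ),
  0 < η → η ≤ 1 / 2 → 0 ≤ κ → Measurable U → (∀ z, ‖U z‖ ≤ 1 / η) → MeasurableSet R →
  R ⊆ sq 0 1 → ENNReal.ofReal η ≤ volume (hset κ U R) →
  ∃ (P : Set ℂ) (u₀ m m' : ℂ), MeasurableSet P ∧ P ⊆ R ∧ ENNReal.ofReal (η ^ C) ≤ volume P ∧
    ‖m‖ ≤ 1 / η ^ C ∧ ‖m'‖ ≤ 1 / η ^ C ∧
    ∀ z ∈ P, ‖U z - u₀ - m * z - m' * conj z‖ ≤ κ / η ^ C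

/-! ### Hinges -/

/-- An oriented hinge about the common vertex `z + α e^{iφ}`, with both angles in one arc of
length `s`. -/
def Hinge (α : ℂ) (s : ℝ) (G : Set (ℂ × ℝ)) (x y : ℂ × ℝ) : Prop :=
  x ∈ G ∧ y ∈ G ∧ x.2 < y.2 ∧ ⌊x.2 / s⌋ = ⌊y.2 / s⌋ ∧ x.1 + α * ec x.2 = y.1 + α * ec y.2

/-- The pairs of centres of hinges. -/
def EH (α : ℂ) (s : ℝ) (G : Set (ℂ × ℝ)) : Set (ℂ × ℂ) :=
  {p | ∃ t t' : ℝ, Hinge α s G (p.1, t) (p.2, t')}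

/-- The other centre of the hinge about `x.1 + α e^{i x.2}` whose second angle is `t`. -/
noncomputable def turn (α : ℂ) (x : ℂ × ℝ) (t : ℝ) : ℂ × ℝ := (x.1 + α * (ec x.2 - ec t), t)

/-- Pruning: outside a small set every triangle of `G` is the first and the second member of many
hinges. -/
def Prune (α : ℂ) : Prop := ∃ C : ℕ, ∀ (η s : ℝ) (z₀ : ℂ) (G : Set (ℂ × ℝ)),
  0 < η → η ≤ 1 / 2 → 0 < s → s ≤ 1 → MeasurableSet G →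
  (∀ x ∈ G, x.1 ∈ sq z₀ s ∧ 0 ≤ x.2 ∧ x.2 < 2 * π) →
  ∃ G' : Set (ℂ × ℝ), MeasurableSet G' ∧ G' ⊆ G ∧
    volume (G \ G') ≤ ENNReal.ofReal (η / 4 * s ^ 2) ∧
    ∀ x ∈ G', ENNReal.ofReal (η ^ C * s) ≤ volume {t | Hinge α s G x (turn α x t)} ∧
      ENNReal.ofReal (η ^ C * s) ≤ volume {t | Hinge α s G (turn α x t) x}

/-- Polar coordinates: the positions reached from `z` by turning about points at distance `|α|`. -/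
def PolarS (α : ℂ) : Prop := ∃ C : ℕ, ∀ (η s : ℝ) (z : ℂ) (S : Set (ℝ × ℝ)),
  0 < η → η ≤ 1 / 2 → 0 < s → s ≤ 1 → MeasurableSet S →
  (∀ p ∈ S, 0 ≤ p.1 ∧ p.1 < p.2 ∧ p.2 < 2 * π ∧ p.2 - p.1 ≤ s) →
  ENNReal.ofReal (η * s) ≤ volume S →
  ENNReal.ofReal (η ^ C * s ^ 2) ≤ volume ((fun p : ℝ × ℝ => z + α * (ec p.1 - ec p.2)) '' S)

/-- Every dense set of triangles in a cell has dense sets of hinges of the two types (in both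
orientations) over a dense set of centres. -/
def HD (α β : ℂ) : Prop := ∃ C : ℕ, ∀ (η s : ℝ) (z₀ : ℂ) (G : Set (ℂ × ℝ)),
  0 < η → η ≤ 1 / 2 → 0 < s → s ≤ η ^ C → MeasurableSet G →
  (∀ x ∈ G, x.1 ∈ sq z₀ s ∧ 0 ≤ x.2 ∧ x.2 < 2 * π) → ENNReal.ofReal (η * s ^ 2) ≤ volume G →
  ∃ (R : Set ℂ) (Ea Eb : Set (ℂ × ℂ)), MeasurableSet R ∧ MeasurableSet Ea ∧ MeasurableSet Eb ∧
    R ⊆ sq z₀ s ∧ Ea ⊆ EH α s G ∧ Eb ⊆ EH β s G ∧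
    (∀ z ∈ R, ENNReal.ofReal (η ^ C * s ^ 2) ≤ volume {z' | (z, z') ∈ Ea}) ∧
    (∀ z ∈ R, ENNReal.ofReal (η ^ C * s ^ 2) ≤ volume {z' | (z, z') ∈ Eb}) ∧
    (∀ z ∈ R, ENNReal.ofReal (η ^ C * s ^ 2) ≤ volume {z' | (z', z) ∈ Ea}) ∧
    (∀ z ∈ R, ENNReal.ofReal (η ^ C * s ^ 2) ≤ volume {z' | (z', z) ∈ Eb}) ∧
    (∀ z ∈ R, ENNReal.ofReal (η ^ C) ≤ volume {t | (z, t) ∈ G}) ∧
    ENNReal.ofReal (η ^ C * s ^ 2) ≤ volume R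

/-- Partners: most triangles of `G` have hinge partners in `G` of both types at an angle at least
`η ^ C * s`. -/
def Part (α β : ℂ) : Prop := ∃ C : ℕ, ∀ (η s : ℝ) (z₀ : ℂ) (G : Set (ℂ × ℝ)),
  0 < η → η ≤ 1 / 2 → 0 < s → s ≤ η ^ C → MeasurableSet G →
  (∀ x ∈ G, x.1 ∈ sq z₀ s ∧ 0 ≤ x.2 ∧ x.2 < 2 * π) → ENNReal.ofReal (η * s ^ 2) ≤ volume G →
  ∃ G' : Set (ℂ × ℝ), MeasurableSet G' ∧ G' ⊆ G ∧ ENNReal.ofReal (η / 2 * s ^ 2) ≤ volume G' ∧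
    ∀ x ∈ G', (∃ y, Hinge α s G x y ∧ η ^ C * s ≤ y.2 - x.2) ∧
      (∃ y, Hinge β s G x y ∧ η ^ C * s ≤ y.2 - x.2)

/-- The hinge relations. -/
def HA (α β : ℂ) : Prop := ∃ C : ℝ, 0 ≤ C ∧ ∀ (η s δ : ℝ) (w f g : ℂ → ℂ) (G : Set (ℂ × ℝ))
    (x y : ℂ × ℝ), 0 ≤ δ → Sys α β η δ w f g G →
  (Hinge α s G x y → |(α * conj β * (w y.1 - w x.1) * conj (y.1 - x.1)).re
    - ‖y.1 - x.1‖ ^ 2 * (((mo α β f g x).re + (mo α β f g y).re) / 2)|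
      ≤ C * δ * ‖y.1 - x.1‖) ∧
  (Hinge β s G x y → |(conj (α * conj β) * (w y.1 - w x.1) * conj (y.1 - x.1)).re
    - ‖y.1 - x.1‖ ^ 2 * (((mo α β f g x).re + (mo α β f g y).re) / 2)|
      ≤ C * δ * ‖y.1 - x.1‖)

/-! ### Local structure of the fields -/

/-- Stage 1: the field at a vertex without right angle is constant up to `O(s)` on a dense part of
every cell of side `s`. -/
def S1 (α β : ℂ) : Prop := ∃ C : ℕ, ∀ (η s δ : ℝ) (z₀ : ℂ) (w f g : ℂ → ℂ) (G : Set (ℂ × ℝ)),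
  0 < η → η ≤ 1 / 2 → 0 < s → s ≤ η ^ C → 0 ≤ δ → δ ≤ s → Sys α β η δ w f g G →
  (∀ x ∈ G, x.1 ∈ sq z₀ s) → ENNReal.ofReal (η * s ^ 2) ≤ volume G →
  ∃ (P : Set ℂ) (w₀ : ℂ), MeasurableSet P ∧ (∀ z ∈ P, ‖w z - w₀‖ ≤ s / η ^ C) ∧
    ENNReal.ofReal (η ^ C * s ^ 2) ≤ volume (G ∩ {x | x.1 ∈ P})

/-- Stage 2, first half: affine approximation on a dense part. -/
def S2a (α β : ℂ) : Prop := ∃ C : ℕ, ∀ (η s δ : ℝ) (z₀ w₀ : ℂ) (w f g : ℂ → ℂ)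
    (G : Set (ℂ × ℝ)) (Φ : ℤ → ℝ),
  0 < η → η ≤ 1 / 2 → 0 < s → s ≤ η ^ C → 0 ≤ δ → δ ≤ s ^ 2 → Sys α β η δ w f g G →
  (∀ x ∈ G, x.1 ∈ sq z₀ s) → ENNReal.ofReal (η * s ^ 2) ≤ volume G →
  (∀ x ∈ G, ‖w x.1 - w₀‖ ≤ s / η) →
  (∀ x ∈ G, |(mo α β f g x).re - Φ ⌊x.2 / s⌋| ≤ s / η) →
  ∃ (P : Set ℂ) (u₀ m m' : ℂ), MeasurableSet P ∧
    ENNReal.ofReal (η ^ C * s ^ 2) ≤ volume (G ∩ {x | x.1 ∈ P}) ∧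
    ‖m‖ ≤ 1 / η ^ C ∧ ‖m'‖ ≤ 1 / η ^ C ∧
    ∀ z ∈ P, ‖w z - u₀ - m * z - m' * conj z‖ ≤ s ^ 2 / η ^ C

/-- Stage 2: if moreover the virial depends only on the arc of the angle, up to `O(s)`, then the
field is affine up to `O(s ^ 2)` on a dense part, with the right slopes. -/
def S2 (α β : ℂ) : Prop := ∃ C : ℕ, ∀ (η s δ : ℝ) (z₀ w₀ : ℂ) (w f g : ℂ → ℂ)
    (G : Set (ℂ × ℝ)) (Φ : ℤ → ℝ),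
  0 < η → η ≤ 1 / 2 → 0 < s → s ≤ η ^ C → 0 ≤ δ → δ ≤ s ^ 2 → Sys α β η δ w f g G →
  (∀ x ∈ G, x.1 ∈ sq z₀ s) → ENNReal.ofReal (η * s ^ 2) ≤ volume G →
  (∀ x ∈ G, ‖w x.1 - w₀‖ ≤ s / η) →
  (∀ x ∈ G, |(mo α β f g x).re - Φ ⌊x.2 / s⌋| ≤ s / η) →
  ∃ (G' : Set (ℂ × ℝ)) (u₀ m' : ℂ) (m : ℝ), MeasurableSet G' ∧ G' ⊆ G ∧
    ENNReal.ofReal (η ^ C * s ^ 2) ≤ volume G' ∧ |m| ≤ 1 / η ^ C ∧ ‖m'‖ ≤ 1 / η ^ C ∧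
    ∀ x ∈ G', ‖w x.1 - u₀ - m * x.1 - m' * conj x.1‖ ≤ s ^ 2 / η ^ C ∧
      |(mo α β f g x).re - ((α * conj β).re * m
        - (conj (α * β) * m' * ec (-2 * x.2)).re)| ≤ s / η ^ C

/-- The cell union principle. -/
def CU : Prop := ∃ C : ℕ, ∀ (η s η' : ℝ) (G : Set (ℂ × ℝ)) (G' : ℤ × ℤ → Set (ℂ × ℝ)),
  0 < η → η ≤ 1 / 2 → 0 < s → s ≤ 1 → 0 ≤ η' → MeasurableSet G →
  (∀ x ∈ G, ‖x.1‖ ≤ 1 / η ∧ 0 ≤ x.2 ∧ x.2 < 2 * π) → ENNReal.ofReal η ≤ volume G →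
  (∀ k, MeasurableSet (G' k) ∧ G' k ⊆ G ∩ {x | cellOf s x.1 = k}) →
  (∀ k, ENNReal.ofReal (η ^ C * s ^ 2) ≤ volume (G ∩ {x | cellOf s x.1 = k}) →
    ENNReal.ofReal (η' * s ^ 2) ≤ volume (G' k)) →
  ENNReal.ofReal (η' * η ^ C) ≤ volume (⋃ k, G' k)

/-- The set of triangles, described by the vertex `b`. -/
def atB (β : ℂ) (G : Set (ℂ × ℝ)) : Set (ℂ × ℝ) := {x | (x.1 - β * ec x.2, x.2) ∈ G}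

/-- The same fields seen from the vertex `b`: the centre is `b`, the other vertices are
`a = b + (α - β) e^{iφ}` and `z = b - β e^{iφ}`. -/
def SwapS (α β : ℂ) : Prop := ∃ C : ℝ, 0 ≤ C ∧ ∀ (η δ : ℝ) (w f g : ℂ → ℂ) (G : Set (ℂ × ℝ)),
  0 < η → η ≤ 1 / 2 → 0 ≤ δ → C * δ ≤ η / 2 → Sys α β η δ w f g G →
  Sys (α - β) (-β) (η / 2) (C * δ) g f w (atB β G) ∧ volume (atB β G) = volume G ∧
    ∀ x ∈ G, ‖mo (α - β) (-β) f w (x.1 + β * ec x.2, x.2) - mo α β f g x‖ ≤ C * δ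

/-- Stage 1 at both vertices, globally: `w` depends only on the cell of `z` and `g` depends only on
the cell of `z` and the arc of the angle, up to `O(s)`. -/
def AG1 (α β : ℂ) : Prop := ∃ C : ℕ, ∀ (η s δ : ℝ) (w f g : ℂ → ℂ) (G : Set (ℂ × ℝ)),
  0 < η → η ≤ 1 / 2 → 0 < s → s ≤ η ^ C → 0 ≤ δ → δ ≤ s → Sys α β η δ w f g G →
  (∀ x ∈ G, ‖x.1‖ ≤ 1 / η) → ENNReal.ofReal η ≤ volume G →
  ∃ (G' : Set (ℂ × ℝ)) (w₀ : ℤ × ℤ → ℂ) (g₀ : (ℤ × ℤ) × ℤ → ℂ), MeasurableSet G' ∧ G' ⊆ G ∧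
    ENNReal.ofReal (η ^ C) ≤ volume G' ∧
    ∀ x ∈ G', ‖w x.1 - w₀ (cellOf s x.1)‖ ≤ s / η ^ C ∧
      ‖g (x.1 + β * ec x.2) - g₀ (cellOf s x.1, ⌊x.2 / s⌋)‖ ≤ s / η ^ C

/-- The global form: a dense part of the triangles with affine structure on the cells of side
`s`. -/
def AG (α β : ℂ) : Prop := ∃ C : ℕ, ∀ (η s δ : ℝ) (w f g : ℂ → ℂ) (G : Set (ℂ × ℝ)),
  0 < η → η ≤ 1 / 2 → 0 < s → s ≤ η ^ C → 0 ≤ δ → δ ≤ s ^ 2 → Sys α β η δ w f g G →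
  (∀ x ∈ G, ‖x.1‖ ≤ 1 / η) → ENNReal.ofReal η ≤ volume G →
  ∃ (G' : Set (ℂ × ℝ)) (u₀ m' : ℤ × ℤ → ℂ) (m : ℤ × ℤ → ℝ), MeasurableSet G' ∧ G' ⊆ G ∧
    ENNReal.ofReal (η ^ C) ≤ volume G' ∧ (∀ k, |m k| ≤ 1 / η ^ C) ∧ (∀ k, ‖m' k‖ ≤ 1 / η ^ C) ∧
    ∀ x ∈ G', ‖w x.1 - u₀ (cellOf s x.1) - m (cellOf s x.1) * x.1
        - m' (cellOf s x.1) * conj x.1‖ ≤ s ^ 2 / η ^ C ∧
      |(mo α β f g x).re - ((α * conj β).re * m (cellOf s x.1)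
        - (conj (α * β) * m' (cellOf s x.1) * ec (-2 * x.2)).re)| ≤ s / η ^ C

/-- The relations between the slopes `(m, m')` at `z` and `(n, n')` at `b = z + β e^{iφ}`. -/
structure Rel (α β : ℂ) (η κ : ℝ) (m : ℂ → ℝ) (m' : ℂ → ℂ) (n : ℂ → ℝ) (n' : ℂ → ℂ)
    (G : Set (ℂ × ℝ)) : Prop where
  mm : Measurable m
  mm' : Measurable m'
  mn : Measurable n
  mn' : Measurable n'
  mG : MeasurableSet G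
  ang : ∀ x ∈ G, 0 ≤ x.2 ∧ x.2 < 2 * π
  reg : ∀ x ∈ G, ‖x.1‖ ≤ 1 / η
  bm : ∀ z, |m z| ≤ 1 / η
  bm' : ∀ z, ‖m' z‖ ≤ 1 / η
  bn : ∀ z, |n z| ≤ 1 / η
  bn' : ∀ z, ‖n' z‖ ≤ 1 / η
  relb : ∀ x ∈ G, |n (x.1 + β * ec x.2) + m x.1 / 2
    - 3 / (2 * (α * conj β).im) * (conj (α * β) * m' x.1 * ec (-2 * x.2)).im| ≤ κ
  relz : ∀ x ∈ G, |m x.1 + n (x.1 + β * ec x.2) / 2
    + 3 / (2 * (α * conj β).im) *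
      (conj ((β - α) * β) * n' (x.1 + β * ec x.2) * ec (-2 * x.2)).im| ≤ κ
  rel' : ∀ x ∈ G, ‖conj (β - α) * n' (x.1 + β * ec x.2) * ec (-2 * x.2)
    - ((β - α) * n (x.1 + β * ec x.2) - α * m x.1 + conj α * m' x.1 * ec (-2 * x.2))‖ ≤ κ
  low : ∀ x ∈ G, η ≤ (α * conj β).re * m x.1 - (conj (α * β) * m' x.1 * ec (-2 * x.2)).re

/-- Fields with slopes `(m, m')` on the cells of side `s` at `z` and `(n, n')` on the cells of side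
`h` at `b`. -/
structure Slo (α β : ℂ) (η δ s h : ℝ) (w f g : ℂ → ℂ) (u₀ m' v₀ n' : ℤ × ℤ → ℂ)
    (m n : ℤ × ℤ → ℝ) (G : Set (ℂ × ℝ)) : Prop where
  sys : Sys α β η δ w f g G
  reg : ∀ x ∈ G, ‖x.1‖ ≤ 1 / η
  bm : ∀ k, |m k| ≤ 1 / η
  bm' : ∀ k, ‖m' k‖ ≤ 1 / η
  bn : ∀ k, |n k| ≤ 1 / η
  bn' : ∀ k, ‖n' k‖ ≤ 1 / η
  affz : ∀ x ∈ G, ‖w x.1 - u₀ (cellOf s x.1) - m (cellOf s x.1) * x.1
    - m' (cellOf s x.1) * conj x.1‖ ≤ s ^ 2 / η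
  vir : ∀ x ∈ G, |(mo α β f g x).re - ((α * conj β).re * m (cellOf s x.1)
    - (conj (α * β) * m' (cellOf s x.1) * ec (-2 * x.2)).re)| ≤ s / η
  affb : ∀ x ∈ G, ‖g (x.1 + β * ec x.2) - v₀ (cellOf h (x.1 + β * ec x.2))
    - n (cellOf h (x.1 + β * ec x.2)) * (x.1 + β * ec x.2)
    - n' (cellOf h (x.1 + β * ec x.2)) * conj (x.1 + β * ec x.2)‖ ≤ h ^ 2 / η

/-- The first relation, from hinges about `a` at scale `s`. -/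
def E1 (α β : ℂ) : Prop := ∃ C : ℕ, ∀ (η t δ : ℝ) (w f g : ℂ → ℂ) (u₀ m' v₀ n' : ℤ × ℤ → ℂ)
    (m n : ℤ × ℤ → ℝ) (G : Set (ℂ × ℝ)),
  0 < η → η ≤ 1 / 2 → 0 < t → t ≤ η ^ C → 0 ≤ δ → δ ≤ t ^ 6 →
  Slo α β η δ (t ^ 3) (t ^ 2) w f g u₀ m' v₀ n' m n G → ENNReal.ofReal η ≤ volume G →
  ∃ G' : Set (ℂ × ℝ), MeasurableSet G' ∧ G' ⊆ G ∧ ENNReal.ofReal (η ^ C) ≤ volume G' ∧
    ∀ x ∈ G', ‖conj (β - α) * n' (cellOf (t ^ 2) (x.1 + β * ec x.2)) * ec (-2 * x.2)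
      - ((β - α) * n (cellOf (t ^ 2) (x.1 + β * ec x.2)) - α * m (cellOf (t ^ 3) x.1)
        + conj α * m' (cellOf (t ^ 3) x.1) * ec (-2 * x.2))‖ ≤ t / η ^ C

/-- The second relation, from hinges about `z` at scale `h`. -/
def Q1 (α β : ℂ) : Prop := ∃ C : ℕ, ∀ (η t δ : ℝ) (w f g : ℂ → ℂ) (u₀ m' v₀ n' : ℤ × ℤ → ℂ)
    (m n : ℤ × ℤ → ℝ) (G : Set (ℂ × ℝ)),
  0 < η → η ≤ 1 / 2 → 0 < t → t ≤ η ^ C → 0 ≤ δ → δ ≤ t ^ 6 →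
  Slo α β η δ (t ^ 3) (t ^ 2) w f g u₀ m' v₀ n' m n G → ENNReal.ofReal η ≤ volume G →
  ∃ G' : Set (ℂ × ℝ), MeasurableSet G' ∧ G' ⊆ G ∧ ENNReal.ofReal (η ^ C) ≤ volume G' ∧
    ∀ x ∈ G', ‖conj (β - α) * (β * n (cellOf (t ^ 2) (x.1 + β * ec x.2))
        - conj β * n' (cellOf (t ^ 2) (x.1 + β * ec x.2)) * ec (-2 * x.2))
      - ((α * conj β).re * m (cellOf (t ^ 3) x.1)
        - (conj (α * β) * m' (cellOf (t ^ 3) x.1) * ec (-2 * x.2)).re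
        + 2 * (conj (α * β) * m' (cellOf (t ^ 3) x.1) * ec (-2 * x.2)).im * Complex.I)‖
      ≤ t / η ^ C

/-- From the fields to the relations (scales `s = t ^ 3` at `z`, `h = t ^ 2` at `b`). -/
def RelS (α β : ℂ) : Prop := ∃ C : ℕ, ∀ (η t δ : ℝ) (w f g : ℂ → ℂ) (G : Set (ℂ × ℝ)),
  0 < η → η ≤ 1 / 2 → 0 < t → t ≤ η ^ C → 0 ≤ δ → δ ≤ t ^ 6 → Sys α β η δ w f g G →
  (∀ x ∈ G, ‖x.1‖ ≤ 1 / η) → ENNReal.ofReal η ≤ volume G →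
  ∃ (m : ℂ → ℝ) (m' : ℂ → ℂ) (n : ℂ → ℝ) (n' : ℂ → ℂ) (G' : Set (ℂ × ℝ)),
    Rel α β (η ^ C) (t / η ^ C) m m' n n' G' ∧ ENNReal.ofReal (η ^ C) ≤ volume G'

/-- The even homogeneous function of degree one with harmonics `0` and `2`. -/
noncomputable def Fh (g₀ : ℝ) (g₂ : ℂ) (v : ℂ) : ℝ := g₀ * ‖v‖ + (g₂ * conj v ^ 2).re / ‖v‖

/-- The third harmonic. -/
def TH : Prop := ∃ C : ℕ, ∀ (η ε g₀ c : ℝ) (g₂ z₁ z₂ : ℂ) (X : Set ℂ),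
  0 < η → η ≤ 1 / 2 → 0 ≤ ε → MeasurableSet X → X ⊆ sq 0 1 → z₁ ∈ sq 0 1 → z₂ ∈ sq 0 1 →
  z₁ ≠ z₂ → ENNReal.ofReal η ≤ volume X →
  (∀ x ∈ X, |Fh g₀ g₂ (x - z₁) - Fh g₀ g₂ (x - z₂) - c| ≤ ε) →
  ‖g₂‖ ≤ (‖z₁ - z₂‖ * (|g₀| + ‖g₂‖) + ε / ‖z₁ - z₂‖) / η ^ C

/-- Two close out-neighbours of one point with a dense set of common out-neighbours. -/
def CN : Prop := ∃ C : ℕ, ∀ (η κ : ℝ) (R : Set ℂ) (E : Set (ℂ × ℂ)),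
  0 < η → η ≤ 1 / 2 → 0 < κ → κ ≤ 1 → MeasurableSet R → MeasurableSet E → R ⊆ sq 0 1 →
  (∀ p ∈ E, p.1 ∈ sq 0 1 ∧ p.2 ∈ sq 0 1) →
  (∀ z ∈ R, ENNReal.ofReal η ≤ volume {z' | (z, z') ∈ E}) →
  (∀ z ∈ R, ENNReal.ofReal η ≤ volume {z' | (z', z) ∈ E}) → ENNReal.ofReal η ≤ volume R →
  ∃ z₀ z₁ z₂ : ℂ, (z₀, z₁) ∈ E ∧ (z₀, z₂) ∈ E ∧ η ^ C * κ ≤ ‖z₁ - z₂‖ ∧ ‖z₁ - z₂‖ ≤ 2 * κ ∧
    ENNReal.ofReal (η ^ C) ≤ volume {x | (z₁, x) ∈ E ∧ (z₂, x) ∈ E}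

/-- Most triangles of a system of relations have small `m'`. -/
def EndA (α β : ℂ) : Prop := ∃ C : ℕ, ∀ (η κ ρ : ℝ) (m : ℂ → ℝ) (m' : ℂ → ℂ) (n : ℂ → ℝ)
    (n' : ℂ → ℂ) (G : Set (ℂ × ℝ)),
  0 < η → η ≤ 1 / 2 → 0 < ρ → ρ ≤ 1 → 0 ≤ κ → κ ≤ ρ ^ C * η ^ C → Rel α β η κ m m' n n' G →
  (∀ x ∈ G, ρ ≤ ‖m' x.1‖) → ¬ ENNReal.ofReal η ≤ volume G

/-- The end of the proof. -/
def EndS (α β : ℂ) : Prop := ∃ C : ℕ, ∀ (η κ : ℝ) (m : ℂ → ℝ) (m' : ℂ → ℂ) (n : ℂ → ℝ)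
    (n' : ℂ → ℂ) (G : Set (ℂ × ℝ)),
  0 < η → η ≤ 1 / 2 → 0 ≤ κ → κ ≤ η ^ C → Rel α β η κ m m' n n' G →
  ¬ ENNReal.ofReal η ≤ volume G

/-- Field rigidity, centred at `z`. -/
def FRz (α β : ℂ) : Prop := ∃ C : ℕ, ∀ (η δ : ℝ) (w f g : ℂ → ℂ) (G : Set (ℂ × ℝ)),
  0 < η → η ≤ 1 / 2 → 0 ≤ δ → δ ≤ η ^ C → Sys α β η δ w f g G →
  (∀ x ∈ G, ‖x.1‖ ≤ 1 / η) → ¬ ENNReal.ofReal η ≤ volume G

/-- Field rigidity, in the form used by the analytic part: triangles `x`, `x + a₁ e^{iφ}`,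
`x + a₂ e^{iφ}`. -/
def FRx (a₁ a₂ : ℂ) : Prop := ∃ C : ℕ, ∀ (η δ : ℝ) (u₀ u₁ u₂ : ℂ → ℂ) (G : Set (ℂ × ℝ)),
  0 < η → η ≤ 1 / 2 → 0 ≤ δ → δ ≤ η ^ C → Measurable u₀ → Measurable u₁ → Measurable u₂ →
  MeasurableSet G → (∀ x ∈ G, 0 ≤ x.2 ∧ x.2 < 2 * π) → (∀ x ∈ G, ‖x.1‖ ≤ 1 / η) →
  (∀ x ∈ G, ‖u₀ x.1 + u₁ (x.1 + a₁ * ec x.2) + u₂ (x.1 + a₂ * ec x.2)‖ ≤ δ) →
  (∀ x ∈ G, |(ec x.2 * (conj (u₁ (x.1 + a₁ * ec x.2)) * a₁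
    + conj (u₂ (x.1 + a₂ * ec x.2)) * a₂)).im| ≤ δ) →
  (∀ x ∈ G, η ≤ |(ec x.2 * (conj (u₁ (x.1 + a₁ * ec x.2)) * a₁
    + conj (u₂ (x.1 + a₂ * ec x.2)) * a₂)).re|) →
  (∀ x ∈ G, |(ec x.2 * (conj (u₁ (x.1 + a₁ * ec x.2)) * a₁
    + conj (u₂ (x.1 + a₂ * ec x.2)) * a₂)).re| ≤ 1 / η) →
  ¬ ENNReal.ofReal η ≤ volume G

end Pool.Agent.H2.T2
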