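import Pool.Agent.H2.T2.Defs

/-!
# Auxiliary statements
-/

open MeasureTheory Set
open scoped ComplexConjugate Real

namespace Pool.Agent.H2.T2

/-- The boxes (cell of side `s`) x (arc of length `s`) in which the vertex `b` changes its cell of
side `h` have small total measure. -/
def Cross (β : ℂ) : Prop := ∃ C : ℕ, ∀ (η s h : ℝ), 0 < η → η ≤ 1 / 2 → 0 < s → s ≤ h → h ≤ 1 →
  ∃ B : Set (ℂ × ℝ), MeasurableSet B ∧ volume B ≤ ENNReal.ofReal (s / h / η ^ C) ∧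
    ∀ x y : ℂ × ℝ, ‖x.1‖ ≤ 1 / η → 0 ≤ x.2 → x.2 < 2 * π → x ∉ B →
      cellOf s y.1 = cellOf s x.1 → ⌊y.2 / s⌋ = ⌊x.2 / s⌋ →
      cellOf h (y.1 + β * ec y.2) = cellOf h (x.1 + β * ec x.2)

/-- The coefficient of the harmonic of order zero. -/
noncomputable def g0c (α β : ℂ) : ℝ :=
  -(3 * (‖β‖ ^ 2 + (α * conj β).re) / (2 * (α * conj β).im * ‖β‖))

/-- The coefficient of the harmonic of order two. -/
noncomputable def g2c (α β : ℂ) : ℂ :=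
  -(3 / ((α * conj β).im * ‖β‖)) *
    (1 - (3 * (‖β‖ ^ 2 - (α * conj β).re) / (2 * (α * conj β).im) : ℝ) * Complex.I) *
    (conj α * β)

/-- The increments of `m` and `m'` along hinges about `b`. -/
def EndA1 (α β : ℂ) : Prop := ∃ C : ℝ, 0 ≤ C ∧ ∀ (η κ s : ℝ) (m : ℂ → ℝ) (m' : ℂ → ℂ)
    (n : ℂ → ℝ) (n' : ℂ → ℂ) (G : Set (ℂ × ℝ)) (x y : ℂ × ℝ),
  0 < η → η ≤ 1 / 2 → 0 < s → s ≤ 1 → 0 ≤ κ → Rel α β η κ m m' n n' G → Hinge β s G x y →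
  |m y.1 - m x.1 - Fh (g0c α β * m x.1) (g2c α β * m' x.1) (y.1 - x.1)|
      ≤ C * (s ^ 2 / η + κ) ∧
    |m y.1 - m x.1| ≤ C * (s / η + κ) ∧ ‖m' y.1 - m' x.1‖ ≤ C * (s / η + κ)

end Pool.Agent.H2.T2
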