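import Pool.Agent.H2.T2.Defs2
import Pool.Agent.H2.T2.Cell

/-!
# Increments of the slopes along hinges
-/

open MeasureTheory Set
open scoped ComplexConjugate Real

namespace Pool.Agent.H2.T2

namespace EA1

theorem ec_sub_one (t : ℝ) : ‖ec t - 1‖ ≤ |t| := by
  have h := Real.norm_exp_I_mul_ofReal_sub_one_le (x := t)
  rw [Real.norm_eq_abs] at h
  rw [ec, mul_comm]
  exact h

theorem ec_taylor (t : ℝ) : ‖ec t - 1 - t * Complex.I‖ ≤ 2 * t ^ 2 := by
  have hn : ‖(t : ℂ) * Complex.I‖ = |t| := by simp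
  rcases le_or_gt |t| 1 with h | h
  · have h1 := Complex.norm_exp_sub_one_sub_id_le (x := (t : ℂ) * Complex.I) (by rw [hn]; exact h)
    rw [hn, sq_abs] at h1
    calc ‖ec t - 1 - t * Complex.I‖ ≤ t ^ 2 := h1
      _ ≤ 2 * t ^ 2 := by nlinarith [sq_nonneg t]
  · calc ‖ec t - 1 - t * Complex.I‖ ≤ ‖ec t - 1‖ + ‖(t : ℂ) * Complex.I‖ := norm_sub_le _ _
      _ ≤ |t| + |t| := by rw [hn]; exact add_le_add (ec_sub_one t) le_rfl
      _ ≤ 2 * t ^ 2 := by rw [← sq_abs t]; nlinarith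

theorem ec_low {t : ℝ} (h0 : 0 ≤ t) (h1 : t ≤ 1) : t / 2 ≤ ‖1 - ec t‖ := by
  have h := Complex.norm_exp_I_mul_ofReal_sub_one t
  have h2 : ‖1 - ec t‖ = ‖2 * Real.sin (t / 2)‖ := by
    rw [norm_sub_rev, ec, mul_comm, h]
  rw [h2, Real.norm_eq_abs]
  have h3 := Real.mul_le_sin (x := t / 2) (by linarith) (by linarith [Real.pi_gt_three])
  have h4 : (1 / 2 : ℝ) ≤ 2 / π := by
    rw [div_le_div_iff₀ (by norm_num) Real.pi_pos]
    linarith [Real.pi_le_four]
  calc t / 2 = 2 * (1 / 2 * (t / 2)) := by ring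
    _ ≤ 2 * (2 / π * (t / 2)) := by
        have := mul_le_mul_of_nonneg_right h4 (show 0 ≤ t / 2 by linarith)
        linarith
    _ ≤ 2 * Real.sin (t / 2) := by linarith
    _ ≤ _ := le_abs_self _

/-- the increment of a hinge of angle `τ`, normalised -/
noncomputable def rho (τ : ℝ) : ℂ := 1 - ec τ

theorem rho_err (τ : ℝ) : ‖rho τ + τ * Complex.I‖ ≤ 2 * τ ^ 2 := by
  have h : rho τ + τ * Complex.I = -(ec τ - 1 - τ * Complex.I) := by rw [rho]; ring
  rw [h, norm_neg]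
  exact ec_taylor τ

theorem rho_norm {τ : ℝ} (h0 : 0 ≤ τ) : |τ - ‖rho τ‖| ≤ 2 * τ ^ 2 := by
  have h1 : ‖-((τ : ℂ) * Complex.I)‖ = τ := by simp [abs_of_nonneg h0]
  have h := abs_norm_sub_norm_le (rho τ) (-((τ : ℂ) * Complex.I))
  rw [h1, sub_neg_eq_add] at h
  rw [abs_sub_comm]
  exact h.trans (rho_err τ)

theorem mu_err {τ : ℝ} (h0 : 0 < τ) (h1 : τ ≤ 1) :
    ‖(τ : ℂ) - -(conj (rho τ) ^ 2) / ‖rho τ‖‖ ≤ 12 * τ ^ 2 := by
  have hlow : τ / 2 ≤ ‖rho τ‖ := ec_low h0.le h1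
  have hpos : 0 < ‖rho τ‖ := by linarith
  have hup : ‖rho τ‖ ≤ τ := by
    rw [rho, norm_sub_rev]
    exact (ec_sub_one τ).trans_eq (abs_of_pos h0)
  have hne : (‖rho τ‖ : ℂ) ≠ 0 := by exact_mod_cast hpos.ne'
  have hc : ‖conj (rho τ) - τ * Complex.I‖ ≤ 2 * τ ^ 2 := by
    have h : conj (rho τ) - τ * Complex.I = conj (rho τ + τ * Complex.I) := by
      simp only [map_add, map_mul, Complex.conj_ofReal, Complex.conj_I]
      ring
    rw [h, RCLike.norm_conj]
    exact rho_err τ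
  have hid : (τ : ℂ) - -(conj (rho τ) ^ 2) / ‖rho τ‖ =
      (τ * ((‖rho τ‖ : ℂ) - τ) + (conj (rho τ) - τ * Complex.I) *
        (conj (rho τ) + τ * Complex.I)) / ‖rho τ‖ := by
    field_simp
    ring_nf
    rw [Complex.I_sq]
    ring
  have hn2 : ‖(‖rho τ‖ : ℂ) - τ‖ ≤ 2 * τ ^ 2 := by
    rw [← Complex.ofReal_sub, Complex.norm_real, Real.norm_eq_abs, abs_sub_comm]
    exact rho_norm h0.le
  have hn3 : ‖conj (rho τ) + τ * Complex.I‖ ≤ 2 * τ := by
    calc ‖conj (rho τ) + τ * Complex.I‖ ≤ ‖conj (rho τ)‖ + ‖(τ : ℂ) * Complex.I‖ := norm_add_le _ _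
      _ ≤ τ + τ := by
          rw [RCLike.norm_conj]
          refine add_le_add hup ?_
          simp [abs_of_pos h0]
      _ = 2 * τ := by ring
  rw [hid, norm_div, Complex.norm_real, Real.norm_eq_abs, abs_of_pos hpos, div_le_iff₀ hpos]
  calc ‖(τ : ℂ) * ((‖rho τ‖ : ℂ) - τ) + (conj (rho τ) - τ * Complex.I) *
        (conj (rho τ) + τ * Complex.I)‖
      ≤ ‖(τ : ℂ) * ((‖rho τ‖ : ℂ) - τ)‖ + ‖(conj (rho τ) - τ * Complex.I) *
        (conj (rho τ) + τ * Complex.I)‖ := norm_add_le _ _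
    _ ≤ τ * (2 * τ ^ 2) + 2 * τ ^ 2 * (2 * τ) := by
        rw [norm_mul, norm_mul, Complex.norm_real, Real.norm_eq_abs, abs_of_pos h0]
        exact add_le_add (mul_le_mul_of_nonneg_left hn2 h0.le)
          (mul_le_mul hc hn3 (norm_nonneg _) (by positivity))
    _ = 12 * τ ^ 2 * (τ / 2) := by ring
    _ ≤ 12 * τ ^ 2 * ‖rho τ‖ := mul_le_mul_of_nonneg_left hlow (by positivity)

/-- the algebra of the three relations along a hinge about `b` -/
theorem alg {α β P N' e e' : ℂ} {M M' N τ κ η : ℝ} (hJ : (α * conj β).im ≠ 0)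
    (hη : 0 < η) (hτ : 0 < τ) (he : ‖e‖ = 1)
    (hee : e' = e * ec (-2 * τ)) (hN' : ‖N'‖ ≤ 1 / η)
    (h1 : |N + M / 2 - 3 / (2 * (α * conj β).im) * (conj (α * β) * P * e).im| ≤ κ)
    (h2 : |M + N / 2 + 3 / (2 * (α * conj β).im) * (conj ((β - α) * β) * N' * e).im| ≤ κ)
    (h3 : |M' + N / 2 + 3 / (2 * (α * conj β).im) * (conj ((β - α) * β) * N' * e').im| ≤ κ)
    (h4 : ‖conj (β - α) * N' * e - ((β - α) * N - α * M + conj α * P * e)‖ ≤ κ) :
    |M' - M - 3 * τ / (α * conj β).im * (-(‖β‖ ^ 2 + (α * conj β).re) * M / 2 +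
      (conj (α * β) * P * e).re + 3 * (‖β‖ ^ 2 - (α * conj β).re) / (2 * (α * conj β).im) *
        (conj (α * β) * P * e).im)| ≤
      2 * κ + 12 * ‖β - α‖ * ‖β‖ / |(α * conj β).im| * (τ ^ 2 / η) +
        3 * τ / |(α * conj β).im| * ((‖β‖ + |‖β‖ ^ 2 - (α * conj β).re|) * κ) ∧
    |M' - M| ≤ 2 * κ + 3 * ‖β - α‖ * ‖β‖ / |(α * conj β).im| * (τ / η) := by
  set J := (α * conj β).im with hJdef
  set c0 := (α * conj β).re with hc0
  have hJ' : 0 < |J| := abs_pos.2 hJ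
  set A := conj ((β - α) * β) * N' * e with hA
  set A' := conj ((β - α) * β) * N' * e' with hA'
  set E1 := M' - M + 3 / (2 * J) * (A'.im - A.im) with hE1
  have hE1b : |E1| ≤ 2 * κ := by
    have : E1 = (M' + N / 2 + 3 / (2 * J) * A'.im) - (M + N / 2 + 3 / (2 * J) * A.im) := by
      rw [hE1]; ring
    rw [this]
    calc _ ≤ |M' + N / 2 + 3 / (2 * J) * A'.im| + |M + N / 2 + 3 / (2 * J) * A.im| := abs_sub _ _
      _ ≤ κ + κ := add_le_add h3 h2
      _ = 2 * κ := by ring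
  have hKb : ‖conj ((β - α) * β) * N'‖ ≤ ‖β - α‖ * ‖β‖ * (1 / η) := by
    rw [norm_mul, RCLike.norm_conj, norm_mul]
    exact mul_le_mul_of_nonneg_left hN' (by positivity)
  have hAA : A' - A = conj ((β - α) * β) * N' * (e * (ec (-2 * τ) - 1)) := by
    rw [hA, hA', hee]; ring
  constructor
  · set F1 := ec (-2 * τ) - 1 - ((-2 * τ : ℝ) : ℂ) * Complex.I with hF1
    have hF1b : ‖F1‖ ≤ 8 * τ ^ 2 := by
      have := ec_taylor (-2 * τ)
      calc ‖F1‖ ≤ 2 * (-2 * τ) ^ 2 := this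
        _ = 8 * τ ^ 2 := by ring
    have hAim : A'.im - A.im = (conj ((β - α) * β) * N' * (e * F1)).im - 2 * τ * A.re := by
      rw [← Complex.sub_im, hAA]
      have : conj ((β - α) * β) * N' * (e * (ec (-2 * τ) - 1)) =
          conj ((β - α) * β) * N' * (e * F1) + A * (((-2 * τ : ℝ) : ℂ) * Complex.I) := by
        rw [hA, hF1]; ring
      rw [this, Complex.add_im]
      have h5 : (A * (((-2 * τ : ℝ) : ℂ) * Complex.I)).im = -2 * τ * A.re := by
        simp only [Complex.mul_im, Complex.mul_re, Complex.ofReal_re, Complex.ofReal_im,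
          Complex.I_re, Complex.I_im]
        ring
      rw [h5]; ring
    set G1 := conj (β - α) * N' * e - ((β - α) * N - α * M + conj α * P * e) with hG1
    set Z := conj (α * β) * P * e with hZ
    have hAre : A.re = (conj β * G1).re + (‖β‖ ^ 2 - c0) * N - c0 * M + Z.re := by
      have h5 : A = conj β * G1 + conj β * ((β - α) * N - α * M + conj α * P * e) := by
        rw [hA, hG1, map_mul]; ring
      have h6 : conj β * ((β - α) * N - α * M + conj α * P * e) =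
          (((‖β‖ ^ 2 : ℝ) : ℂ) - α * conj β) * N - α * conj β * M + Z := by
        have h7 : ((‖β‖ ^ 2 : ℝ) : ℂ) = conj β * β := by
          rw [Complex.ofReal_pow, ← Complex.mul_conj' β, mul_comm]
        rw [h7, hZ, map_mul]; ring
      rw [h5, h6]
      simp only [Complex.add_re, Complex.sub_re, Complex.mul_re _ (N : ℂ),
        Complex.mul_re _ (M : ℂ), Complex.ofReal_re, Complex.ofReal_im, mul_zero, sub_zero]
      rw [← hc0]
      ring
    set H1 := N + M / 2 - 3 / (2 * J) * Z.im with hH1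
    have hN : N = H1 - M / 2 + 3 / (2 * J) * Z.im := by rw [hH1]; ring
    have hid : M' - M - 3 * τ / J * (-(‖β‖ ^ 2 + c0) * M / 2 + Z.re +
        3 * (‖β‖ ^ 2 - c0) / (2 * J) * Z.im) =
        E1 - 3 / (2 * J) * (conj ((β - α) * β) * N' * (e * F1)).im +
          3 * τ / J * ((conj β * G1).re + (‖β‖ ^ 2 - c0) * H1) := by
      have hMM : M' - M = E1 - 3 / (2 * J) * (A'.im - A.im) := by rw [hE1]; ring
      rw [hMM, hAim, hAre, hN]
      field_simp
      ring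
    rw [hid]
    have b1 : |(conj ((β - α) * β) * N' * (e * F1)).im| ≤ ‖β - α‖ * ‖β‖ * (1 / η) * (8 * τ ^ 2) := by
      refine (Complex.abs_im_le_norm _).trans ?_
      rw [norm_mul]
      refine mul_le_mul hKb ?_ (norm_nonneg _) (by positivity)
      rw [norm_mul, he, one_mul]
      exact hF1b
    have b2 : |(conj β * G1).re + (‖β‖ ^ 2 - c0) * H1| ≤ (‖β‖ + |‖β‖ ^ 2 - c0|) * κ := by
      calc _ ≤ |(conj β * G1).re| + |(‖β‖ ^ 2 - c0) * H1| := abs_add_le _ _
        _ ≤ ‖β‖ * κ + |‖β‖ ^ 2 - c0| * κ := by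
            refine add_le_add ((Complex.abs_re_le_norm _).trans ?_) ?_
            · rw [norm_mul, RCLike.norm_conj]
              exact mul_le_mul_of_nonneg_left h4 (norm_nonneg _)
            · rw [abs_mul]
              exact mul_le_mul_of_nonneg_left h1 (abs_nonneg _)
        _ = _ := by ring
    calc _ ≤ |E1| + |3 / (2 * J) * (conj ((β - α) * β) * N' * (e * F1)).im| +
          |3 * τ / J * ((conj β * G1).re + (‖β‖ ^ 2 - c0) * H1)| :=
          (abs_add_le _ _).trans (add_le_add (abs_sub _ _) le_rfl)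
      _ ≤ 2 * κ + 3 / (2 * |J|) * (‖β - α‖ * ‖β‖ * (1 / η) * (8 * τ ^ 2)) +
          3 * τ / |J| * ((‖β‖ + |‖β‖ ^ 2 - c0|) * κ) := by
          refine add_le_add (add_le_add hE1b ?_) ?_
          · rw [abs_mul, abs_div, abs_mul, abs_of_pos (show (0 : ℝ) < 3 by norm_num),
              abs_of_pos (show (0 : ℝ) < 2 by norm_num)]
            exact mul_le_mul_of_nonneg_left b1 (by positivity)
          · rw [abs_mul, abs_div, abs_of_pos (show (0 : ℝ) < 3 * τ by positivity)]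
            exact mul_le_mul_of_nonneg_left b2 (by positivity)
      _ = _ := by
          field_simp
          ring
  · have hd : ‖A' - A‖ ≤ ‖β - α‖ * ‖β‖ * (1 / η) * (2 * τ) := by
      rw [hAA, norm_mul]
      refine mul_le_mul hKb ?_ (norm_nonneg _) (by positivity)
      rw [norm_mul, he, one_mul]
      refine (ec_sub_one _).trans_eq ?_
      rw [abs_mul, abs_of_pos hτ]
      norm_num
    have hMM : M' - M = E1 - 3 / (2 * J) * (A' - A).im := by rw [hE1, Complex.sub_im]; ring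
    rw [hMM]
    calc _ ≤ |E1| + |3 / (2 * J) * (A' - A).im| := abs_sub _ _
      _ ≤ 2 * κ + 3 / (2 * |J|) * (‖β - α‖ * ‖β‖ * (1 / η) * (2 * τ)) := by
          refine add_le_add hE1b ?_
          rw [abs_mul, abs_div, abs_mul, abs_of_pos (show (0 : ℝ) < 3 by norm_num),
              abs_of_pos (show (0 : ℝ) < 2 by norm_num)]
          exact mul_le_mul_of_nonneg_left ((Complex.abs_im_le_norm _).trans hd) (by positivity)
      _ = _ := by
          field_simp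

/-- the first order term is the value of the homogeneous function -/
theorem fh_err {α β P : ℂ} {M φ τ : ℝ} (hβ : β ≠ 0) (hJ : (α * conj β).im ≠ 0)
    (hτ : 0 < τ) (hτ1 : τ ≤ 1) :
    |3 * τ / (α * conj β).im * (-(‖β‖ ^ 2 + (α * conj β).re) * M / 2 +
      (conj (α * β) * P * ec (-2 * φ)).re + 3 * (‖β‖ ^ 2 - (α * conj β).re) /
        (2 * (α * conj β).im) * (conj (α * β) * P * ec (-2 * φ)).im) -
      Fh (g0c α β * M) (g2c α β * P) (β * (ec φ - ec (φ + τ)))| ≤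
      3 * |‖β‖ ^ 2 + (α * conj β).re| / |(α * conj β).im| * (|M| * τ ^ 2) +
        36 * (1 + |3 * (‖β‖ ^ 2 - (α * conj β).re) / (2 * (α * conj β).im)|) * ‖α‖ * ‖β‖ /
          |(α * conj β).im| * (‖P‖ * τ ^ 2) := by
  set J := (α * conj β).im with hJdef
  set c0 := (α * conj β).re with hc0
  set k0 := 3 * (‖β‖ ^ 2 - c0) / (2 * J) with hk0
  set Z := conj (α * β) * P * ec (-2 * φ) with hZ
  have hJ' : 0 < |J| := abs_pos.2 hJ
  have hbp : 0 < ‖β‖ := norm_pos_iff.2 hβ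
  have hJc : (J : ℂ) ≠ 0 := by exact_mod_cast hJ
  have hbc : (‖β‖ : ℂ) ≠ 0 := by exact_mod_cast hbp.ne'
  have hrp : 0 < ‖rho τ‖ := lt_of_lt_of_le (by linarith) (ec_low hτ.le hτ1)
  have hrc : (‖rho τ‖ : ℂ) ≠ 0 := by exact_mod_cast hrp.ne'
  have hv : β * (ec φ - ec (φ + τ)) = β * ec φ * rho τ := by
    rw [ec_add, rho]; ring
  have hvn : ‖β * ec φ * rho τ‖ = ‖β‖ * ‖rho τ‖ := by
    rw [norm_mul, norm_mul, norm_ec, mul_one]
  set μ := -(conj (rho τ) ^ 2) / ‖rho τ‖ with hμ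
  have hg2 : g2c α β * P * conj (β * ec φ * rho τ) ^ 2 =
      ((‖β‖ * ‖rho τ‖ : ℝ) : ℂ) * (((3 / J : ℝ) : ℂ) * ((1 - (k0 : ℂ) * Complex.I) * Z * μ)) := by
    have h1 : conj (β * ec φ * rho τ) ^ 2 = conj β ^ 2 * ec (-2 * φ) * conj (rho τ) ^ 2 := by
      rw [map_mul, map_mul, conj_ec, mul_pow, mul_pow]
      congr 2
      rw [show -2 * φ = -φ + -φ by ring, ec_add]
      ring
    have h2 : β * conj β = (‖β‖ : ℂ) ^ 2 := Complex.mul_conj' β
    have h3 : g2c α β = -(3 / ((J : ℂ) * ‖β‖)) * (1 - (k0 : ℂ) * Complex.I) * (conj α * β) := by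
      rw [g2c]
    rw [h1, h3, hμ]
    have h4 : -(3 / ((J : ℂ) * ‖β‖)) * (1 - (k0 : ℂ) * Complex.I) * (conj α * β) * P *
        (conj β ^ 2 * ec (-2 * φ) * conj (rho τ) ^ 2) =
        (3 / ((J : ℂ) * ‖β‖)) * (1 - (k0 : ℂ) * Complex.I) * Z * (β * conj β) *
          (-(conj (rho τ) ^ 2)) := by
      rw [hZ, map_mul]; ring
    rw [h4, h2]
    push_cast
    field_simp
  have hre : (g2c α β * P * conj (β * ec φ * rho τ) ^ 2).re / ‖β * ec φ * rho τ‖ =
      3 / J * ((1 - (k0 : ℂ) * Complex.I) * Z * μ).re := by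
    rw [hg2, hvn, Complex.re_ofReal_mul, Complex.re_ofReal_mul]
    field_simp
  have hg0 : g0c α β * M * ‖β * ec φ * rho τ‖ = -(3 * (‖β‖ ^ 2 + c0) / (2 * J)) * M * ‖rho τ‖ := by
    rw [hvn, g0c, ← hJdef, ← hc0]
    field_simp
  have hre2 : Z.re + k0 * Z.im = ((1 - (k0 : ℂ) * Complex.I) * Z).re := by
    simp only [Complex.sub_re, Complex.mul_re, Complex.one_re, Complex.one_im, Complex.sub_im,
      Complex.mul_im, Complex.ofReal_re, Complex.ofReal_im, Complex.I_re, Complex.I_im]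
    ring
  have hid : 3 * τ / J * (-(‖β‖ ^ 2 + c0) * M / 2 + Z.re + k0 * Z.im) -
      Fh (g0c α β * M) (g2c α β * P) (β * (ec φ - ec (φ + τ))) =
      -(3 * (‖β‖ ^ 2 + c0) / (2 * J)) * M * (τ - ‖rho τ‖) +
        3 / J * ((1 - (k0 : ℂ) * Complex.I) * Z * ((τ : ℂ) - μ)).re := by
    rw [Fh, hv, hre, hg0]
    have h1 : ((1 - (k0 : ℂ) * Complex.I) * Z * ((τ : ℂ) - μ)).re =
        τ * (Z.re + k0 * Z.im) - ((1 - (k0 : ℂ) * Complex.I) * Z * μ).re := by
      rw [mul_sub, Complex.sub_re, hre2, mul_comm _ (τ : ℂ), Complex.re_ofReal_mul]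
    rw [h1]
    field_simp
    ring
  rw [hid]
  have hZn : ‖Z‖ = ‖α‖ * ‖β‖ * ‖P‖ := by
    rw [hZ, norm_mul, norm_mul, norm_ec, RCLike.norm_conj, norm_mul, mul_one]
  have hkn : ‖1 - (k0 : ℂ) * Complex.I‖ ≤ 1 + |k0| := by
    refine (norm_sub_le _ _).trans ?_
    simp
  have b1 := rho_norm hτ.le
  have b2 : |((1 - (k0 : ℂ) * Complex.I) * Z * ((τ : ℂ) - μ)).re| ≤
      (1 + |k0|) * (‖α‖ * ‖β‖ * ‖P‖) * (12 * τ ^ 2) := by
    refine (Complex.abs_re_le_norm _).trans ?_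
    rw [norm_mul, norm_mul, hZn]
    exact mul_le_mul (mul_le_mul_of_nonneg_right hkn (by positivity)) (mu_err hτ hτ1)
      (norm_nonneg _) (by positivity)
  calc _ ≤ |(-(3 * (‖β‖ ^ 2 + c0) / (2 * J)) * M * (τ - ‖rho τ‖))| +
        |3 / J * ((1 - (k0 : ℂ) * Complex.I) * Z * ((τ : ℂ) - μ)).re| := abs_add_le _ _
    _ ≤ 3 * |‖β‖ ^ 2 + c0| / (2 * |J|) * |M| * (2 * τ ^ 2) +
        3 / |J| * ((1 + |k0|) * (‖α‖ * ‖β‖ * ‖P‖) * (12 * τ ^ 2)) := by
        refine add_le_add ?_ ?_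
        · rw [abs_mul, abs_mul, abs_neg, abs_div, abs_mul, abs_mul,
            abs_of_pos (show (0 : ℝ) < 3 by norm_num), abs_of_pos (show (0 : ℝ) < 2 by norm_num)]
          exact mul_le_mul_of_nonneg_left b1 (by positivity)
        · rw [abs_mul, abs_div, abs_of_pos (show (0 : ℝ) < 3 by norm_num)]
          exact mul_le_mul_of_nonneg_left b2 (by positivity)
    _ = _ := by
        field_simp
        ring

end EA1

open EA1 in
theorem endA1_of {α β : ℂ} (hNR : NR α β) : EndA1 α β := by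
  have hJ : (α * conj β).im ≠ 0 := hNR.1
  have hβ : β ≠ 0 := by
    rintro rfl
    simp at hJ
  have hα : α ≠ 0 := by
    rintro rfl
    simp at hJ
  have hap : 0 < ‖α‖ := norm_pos_iff.2 hα
  have hJ' : 0 < |(α * conj β).im| := abs_pos.2 hJ
  -- the constants
  set q1 := 12 * ‖β - α‖ * ‖β‖ / |(α * conj β).im| with hq1
  set q2 := 3 / |(α * conj β).im| * (‖β‖ + |‖β‖ ^ 2 - (α * conj β).re|) with hq2
  set q3 := 3 * |‖β‖ ^ 2 + (α * conj β).re| / |(α * conj β).im| with hq3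
  set q4 := 36 * (1 + |3 * (‖β‖ ^ 2 - (α * conj β).re) / (2 * (α * conj β).im)|) * ‖α‖ * ‖β‖ /
    |(α * conj β).im| with hq4
  set q5 := 3 * ‖β - α‖ * ‖β‖ / |(α * conj β).im| with hq5
  have p1 : 0 ≤ q1 := by positivity
  have p2 : 0 ≤ q2 := by positivity
  have p3 : 0 ≤ q3 := by positivity
  have p4 : 0 ≤ q4 := by positivity
  have p5 : 0 ≤ q5 := by positivity
  set q6 := 2 / ‖α‖ + 2 * ‖β - α‖ / ‖α‖ with hq6
  have p6 : 0 ≤ q6 := by positivity
  refine ⟨4 + q1 + q2 + q3 + q4 + q5 + q6, by positivity, ?_⟩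
  intro η κ s m m' n n' G x y hη hη2 hs hs1 hκ hR hH
  obtain ⟨hx, hy, hlt, hfl, hb⟩ := hH
  have hτ : 0 < y.2 - x.2 := by linarith
  have hτs : y.2 - x.2 ≤ s := by
    have h1 := Int.abs_sub_lt_one_of_floor_eq_floor hfl
    rw [← sub_div, abs_div, abs_of_pos hs, div_lt_one hs, abs_sub_comm] at h1
    exact (le_abs_self _).trans h1.le
  have hτ1 : y.2 - x.2 ≤ 1 := hτs.trans hs1
  set τ := y.2 - x.2 with hτdef
  have hy2 : y.2 = x.2 + τ := by rw [hτdef]; ring
  have hee : ec (-2 * y.2) = ec (-2 * x.2) * ec (-2 * τ) := by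
    rw [← ec_add, hy2]; congr 1; ring
  have hrb := hR.relb x hx
  have hrz := hR.relz x hx
  have hrz' := hR.relz y hy
  have hr' := hR.rel' x hx
  have hr'' := hR.rel' y hy
  rw [← hb] at hrz' hr''
  set b := x.1 + β * ec x.2 with hbdef
  have hv : y.1 - x.1 = β * (ec x.2 - ec (x.2 + τ)) := by
    rw [← hy2]
    have : y.1 = b - β * ec y.2 := by rw [hb]; ring
    rw [this, hbdef]; ring
  obtain ⟨a1, a2⟩ := alg (M' := m y.1) hJ hη hτ (norm_ec _) hee (hR.bn' b) hrb hrz hrz' hr'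
  have a3 := fh_err (P := m' x.1) (M := m x.1) (φ := x.2) hβ hJ hτ hτ1
  rw [← hv] at a3
  have hse : 0 ≤ s ^ 2 / η := by positivity
  have hse1 : 0 ≤ s / η := by positivity
  have t1 : τ ^ 2 / η ≤ s ^ 2 / η :=
    div_le_div_of_nonneg_right (pow_le_pow_left₀ hτ.le hτs 2) hη.le
  have t2 : τ / η ≤ s / η := div_le_div_of_nonneg_right hτs hη.le
  have t3 : |m x.1| * τ ^ 2 ≤ s ^ 2 / η := by
    calc |m x.1| * τ ^ 2 ≤ 1 / η * s ^ 2 :=
          mul_le_mul (hR.bm _) (pow_le_pow_left₀ hτ.le hτs 2) (by positivity) (by positivity)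
      _ = s ^ 2 / η := by ring
  have t4 : ‖m' x.1‖ * τ ^ 2 ≤ s ^ 2 / η := by
    calc ‖m' x.1‖ * τ ^ 2 ≤ 1 / η * s ^ 2 :=
          mul_le_mul (hR.bm' _) (pow_le_pow_left₀ hτ.le hτs 2) (by positivity) (by positivity)
      _ = s ^ 2 / η := by ring
  have hM2 : |m y.1 - m x.1| ≤ 2 * κ + q5 * (s / η) :=
    a2.trans (add_le_add le_rfl (mul_le_mul_of_nonneg_left t2 p5))
  refine ⟨?_, ?_, ?_⟩
  · have e1 : 3 * τ / |(α * conj β).im| * ((‖β‖ + |‖β‖ ^ 2 - (α * conj β).re|) * κ) ≤ q2 * κ := by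
      have : 3 * τ / |(α * conj β).im| * ((‖β‖ + |‖β‖ ^ 2 - (α * conj β).re|) * κ) =
          τ * (q2 * κ) := by rw [hq2]; ring
      rw [this]
      exact mul_le_of_le_one_left (by positivity) hτ1
    have e2 := mul_le_mul_of_nonneg_left t1 p1
    have e3 := mul_le_mul_of_nonneg_left t3 p3
    have e4 := mul_le_mul_of_nonneg_left t4 p4
    have key := abs_sub_le (m y.1 - m x.1) (3 * τ / (α * conj β).im *
      (-(‖β‖ ^ 2 + (α * conj β).re) * m x.1 / 2 + (conj (α * β) * m' x.1 * ec (-2 * x.2)).re +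
      3 * (‖β‖ ^ 2 - (α * conj β).re) / (2 * (α * conj β).im) *
        (conj (α * β) * m' x.1 * ec (-2 * x.2)).im))
      (Fh (g0c α β * m x.1) (g2c α β * m' x.1) (y.1 - x.1))
    calc _ ≤ _ := key
      _ ≤ (2 * κ + q1 * (s ^ 2 / η) + q2 * κ) + (q3 * (s ^ 2 / η) + q4 * (s ^ 2 / η)) :=
          add_le_add (a1.trans (add_le_add (add_le_add le_rfl e2) e1))
            (a3.trans (add_le_add e3 e4))
      _ ≤ (4 + q1 + q2 + q3 + q4 + q5 + q6) * (s ^ 2 / η + κ) := by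
          linarith [mul_nonneg p1 hκ, mul_nonneg p2 hse, mul_nonneg p3 hκ, mul_nonneg p4 hκ,
            mul_nonneg p5 hse, mul_nonneg p5 hκ, mul_nonneg p6 hse, mul_nonneg p6 hκ]
  · calc _ ≤ 2 * κ + q5 * (s / η) := hM2
      _ ≤ (4 + q1 + q2 + q3 + q4 + q5 + q6) * (s / η + κ) := by
          linarith [mul_nonneg p1 hκ, mul_nonneg p2 hse1, mul_nonneg p3 hκ, mul_nonneg p4 hκ,
            mul_nonneg p5 hse1, mul_nonneg p5 hκ, mul_nonneg p6 hse1, mul_nonneg p6 hκ,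
            mul_nonneg p1 hse1, mul_nonneg p2 hκ, mul_nonneg p3 hse1, mul_nonneg p4 hse1]
  · set K := β - α with hK
    set G1 := conj K * n' b * ec (-2 * x.2) - (K * n b - α * m x.1 +
      conj α * m' x.1 * ec (-2 * x.2)) with hG1
    set G2 := conj K * n' b * ec (-2 * y.2) - (K * n b - α * m y.1 +
      conj α * m' y.1 * ec (-2 * y.2)) with hG2
    have ex : ec (-2 * x.2) * ec (2 * x.2) = 1 := by
      rw [← ec_add, show -2 * x.2 + 2 * x.2 = 0 by ring, ec_zero]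
    have ey : ec (-2 * y.2) * ec (2 * y.2) = 1 := by
      rw [← ec_add, show -2 * y.2 + 2 * y.2 = 0 by ring, ec_zero]
    have hex : conj α * m' x.1 = conj K * n' b - (K * n b - α * m x.1) * ec (2 * x.2) -
        G1 * ec (2 * x.2) := by
      rw [hG1]
      linear_combination (conj K * n' b - conj α * m' x.1) * ex
    have hey : conj α * m' y.1 = conj K * n' b - (K * n b - α * m y.1) * ec (2 * y.2) -
        G2 * ec (2 * y.2) := by
      rw [hG2]
      linear_combination (conj K * n' b - conj α * m' y.1) * ey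
    have hdiff : conj α * (m' y.1 - m' x.1) = -(K * n b) * (ec (2 * y.2) - ec (2 * x.2)) +
        α * (((m y.1 - m x.1 : ℝ) : ℂ) * ec (2 * y.2)) +
        α * (m x.1 * (ec (2 * y.2) - ec (2 * x.2))) - G2 * ec (2 * y.2) + G1 * ec (2 * x.2) := by
      rw [mul_sub, hex, hey]
      push_cast
      ring
    have hed : ‖ec (2 * y.2) - ec (2 * x.2)‖ ≤ 2 * τ := by
      have : ec (2 * y.2) - ec (2 * x.2) = ec (2 * x.2) * (ec (2 * τ) - 1) := by
        rw [mul_sub, ← ec_add, mul_one, hy2]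
        congr 2
        ring
      rw [this, norm_mul, norm_ec, one_mul]
      refine (ec_sub_one _).trans_eq ?_
      rw [abs_of_pos (by positivity)]
    have hnb : ‖(n b : ℂ)‖ ≤ 1 / η := by
      rw [Complex.norm_real, Real.norm_eq_abs]; exact hR.bn b
    have hmx : ‖(m x.1 : ℂ)‖ ≤ 1 / η := by
      rw [Complex.norm_real, Real.norm_eq_abs]; exact hR.bm _
    have hfin : ‖α‖ * ‖m' y.1 - m' x.1‖ ≤ ‖K‖ * (1 / η) * (2 * s) +
        ‖α‖ * (2 * κ + q5 * (s / η)) + ‖α‖ * (1 / η * (2 * s)) + κ + κ := by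
      have h0 : ‖α‖ * ‖m' y.1 - m' x.1‖ = ‖conj α * (m' y.1 - m' x.1)‖ := by
        rw [norm_mul, RCLike.norm_conj]
      rw [h0, hdiff]
      refine (norm_add_le _ _).trans (add_le_add ((norm_sub_le _ _).trans (add_le_add
        ((norm_add_le _ _).trans (add_le_add ((norm_add_le _ _).trans (add_le_add ?_ ?_)) ?_)) ?_))
        ?_)
      · rw [norm_mul, norm_neg, norm_mul]
        exact mul_le_mul (mul_le_mul_of_nonneg_left hnb (norm_nonneg _))
          (hed.trans (by linarith)) (norm_nonneg _) (by positivity)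
      · rw [norm_mul, norm_mul, norm_ec, mul_one, Complex.norm_real, Real.norm_eq_abs]
        exact mul_le_mul_of_nonneg_left hM2 (norm_nonneg _)
      · rw [norm_mul, norm_mul]
        refine mul_le_mul_of_nonneg_left ?_ (norm_nonneg _)
        exact mul_le_mul hmx (hed.trans (by linarith)) (norm_nonneg _) (by positivity)
      · rw [norm_mul, norm_ec, mul_one]; exact hr''
      · rw [norm_mul, norm_ec, mul_one]; exact hr'
    have hfin2 : ‖m' y.1 - m' x.1‖ ≤ q6 * (s / η) + (2 * κ + q5 * (s / η)) + 2 * (s / η) +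
        q6 * κ := by
      have h1 : ‖α‖ * (q6 * (s / η) + (2 * κ + q5 * (s / η)) + 2 * (s / η) + q6 * κ) =
          (2 + 2 * ‖K‖) * (s / η) + ‖α‖ * (2 * κ + q5 * (s / η)) + ‖α‖ * (1 / η * (2 * s)) +
            (2 + 2 * ‖K‖) * κ := by
        rw [hq6]
        field_simp
      refine le_of_mul_le_mul_left ?_ hap
      rw [h1]
      refine hfin.trans ?_
      have h2 : ‖K‖ * (1 / η) * (2 * s) = 2 * ‖K‖ * (s / η) := by ring
      rw [h2]
      linarith [mul_nonneg (norm_nonneg K) hκ, mul_nonneg (norm_nonneg K) hse1]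
    refine hfin2.trans ?_
    linarith [mul_nonneg p1 hκ, mul_nonneg p2 hse1, mul_nonneg p3 hκ, mul_nonneg p4 hκ,
      mul_nonneg p5 hse1, mul_nonneg p5 hκ, mul_nonneg p6 hse1, mul_nonneg p6 hκ,
      mul_nonneg p1 hse1, mul_nonneg p2 hκ, mul_nonneg p3 hse1, mul_nonneg p4 hse1]

end Pool.Agent.H2.T2
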