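import Pool.Agent.H2.T2.Shear

/-!
# Field rigidity: assembly
-/

open MeasureTheory Set
open scoped ComplexConjugate Real

namespace Pool.Agent.H2.T2

theorem aff_of {ζ : ℂ} (h1 : AffA ζ) (h2 : AffB) : Aff ζ := by
  obtain ⟨C1, h1⟩ := h1
  obtain ⟨C2, h2⟩ := h2
  refine ⟨(C1 + 1) * (C2 + 1) + C1, ?_⟩
  intro η κ U R Ea Eb Ψa Ψb hη hη2 hκ mU bU mR mEa mEb hR hEa hEb rEa rEb dEa dEb dR
  have key := h1 η κ U R Ea Eb Ψa Ψb hη hη2 hκ mU mR mEa mEb hR hEa hEb rEa rEb dEa dEb dR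
  have hη1 : η ≤ 1 := by linarith
  set η' := η ^ (C1 + 1) with hη'
  have hη'0 : 0 < η' := by positivity
  have hη'2 : η' ≤ 1 / 2 := by
    rw [hη', pow_succ]
    calc η ^ C1 * η ≤ 1 * η := by
          gcongr
          exact pow_le_one₀ hη.le hη1
      _ ≤ 1 / 2 := by linarith
  have hηη' : η' ≤ η := by
    rw [hη', pow_succ]
    calc η ^ C1 * η ≤ 1 * η := by
          gcongr
          exact pow_le_one₀ hη.le hη1
      _ = η := one_mul _
  obtain ⟨P, u₀, m, m', mP, PR, vP, bm, bm', hP⟩ := h2 η' (κ / η ^ C1) U R hη'0 hη'2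
    (by positivity) mU (fun z => (bU z).trans (by gcongr)) mR hR
    (le_trans (ENNReal.ofReal_le_ofReal (by
      rw [hη', pow_succ]
      calc η ^ C1 * η ≤ η ^ C1 * 1 := by gcongr
        _ = η ^ C1 := mul_one _)) key)
  have e1 : η ^ ((C1 + 1) * (C2 + 1) + C1) ≤ η' ^ C2 := by
    rw [hη', ← pow_mul]
    apply pow_le_pow_of_le_one hη.le hη1
    nlinarith
  refine ⟨P, u₀, m, m', mP, PR, (ENNReal.ofReal_le_ofReal e1).trans vP, bm.trans ?_,
    bm'.trans ?_, fun z hz => (hP z hz).trans ?_⟩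
  · exact one_div_le_one_div_of_le (by positivity) e1
  · exact one_div_le_one_div_of_le (by positivity) e1
  · rw [div_div]
    apply div_le_div_of_nonneg_left hκ (by positivity)
    rw [hη', ← pow_mul, ← pow_add]
    apply pow_le_pow_of_le_one hη.le hη1
    nlinarith

theorem frz_of {α β : ℂ} (h1 : RelS α β) (h2 : EndS α β) : FRz α β := by
  obtain ⟨C1, h1⟩ := h1
  obtain ⟨C2, h2⟩ := h2
  -- η' = η ^ (C1 + 1), t = η ^ D
  refine ⟨6 * (C1 + (C1 + 1) * C2 + C1), ?_⟩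
  intro η δ w f g G hη hη2 hδ hδη hS hreg hvol
  have hη1 : η ≤ 1 := by linarith
  set D := C1 + (C1 + 1) * C2 + C1 with hD
  obtain ⟨m, m', n, n', G', hRel, hvol'⟩ := h1 η (η ^ D) δ w f g G hη hη2 (by positivity)
    (pow_le_pow_of_le_one hη.le hη1 (by omega)) hδ (hδη.trans (by rw [← pow_mul, mul_comm])) hS
    hreg hvol
  rcases Nat.eq_zero_or_pos C1 with hC1 | hC1
  · -- if C1 = 0 then use η itself
    subst hC1
    have hRel' : Rel α β η (η ^ D) m m' n n' G' := by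
      obtain ⟨a1, a2, a3, a4, a5, a6, a7, a8, a9, a10, a11, a12, a13, a14, a15⟩ := hRel
      simp only [pow_zero, div_one] at *
      have h1η : (1 : ℝ) ≤ 1 / η := by
        rw [le_div_iff₀ hη]; linarith
      exact ⟨a1, a2, a3, a4, a5, a6, fun x hx => (a7 x hx).trans h1η, fun z => (a8 z).trans h1η,
        fun z => (a9 z).trans h1η, fun z => (a10 z).trans h1η, fun z => (a11 z).trans h1η,
        a12, a13, a14, fun x hx => hη1.trans (a15 x hx)⟩
    refine h2 η (η ^ D) m m' n n' G' hη hη2 (by positivity)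
      (pow_le_pow_of_le_one hη.le hη1 (by omega)) hRel' ?_
    refine le_trans (ENNReal.ofReal_le_ofReal ?_) hvol'
    simpa using hη1
  · have hη'2 : η ^ C1 ≤ 1 / 2 := by
      calc η ^ C1 ≤ η ^ 1 := pow_le_pow_of_le_one hη.le hη1 hC1
        _ ≤ 1 / 2 := by simpa using hη2
    refine h2 (η ^ C1) (η ^ D / η ^ C1) m m' n n' G' (by positivity) hη'2 (by positivity) ?_ hRel
      hvol'
    rw [div_le_iff₀ (by positivity), ← pow_mul, ← pow_add]
    apply pow_le_pow_of_le_one hη.le hη1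
    rw [hD]
    nlinarith

theorem frx_of {a₁ a₂ : ℂ} (h : FRz (-a₂) (a₁ - a₂)) : FRx a₁ a₂ := by
  obtain ⟨C0, h⟩ := h
  obtain ⟨k, hk⟩ := pow_unbounded_of_one_lt (2 + ‖a₂‖) (one_lt_two (α := ℝ))
  refine ⟨(k + 2) * C0 + (2 * k + 4), ?_⟩
  intro η δ u₀ u₁ u₂ G hη hη2 hδ hδη m0 m1 m2 mG hang hreg hforce him hlo hhi hvol
  have hη1 : η ≤ 1 := by linarith
  set Z : ℂ × ℝ → ℂ := fun x => ec x.2 * (conj (u₁ (x.1 + a₁ * ec x.2)) * a₁
    + conj (u₂ (x.1 + a₂ * ec x.2)) * a₂) with hZ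
  have mec : Measurable fun x : ℂ × ℝ => ec x.2 := measurable_ec.comp measurable_snd
  have mZ : Measurable Z := by
    have e1 : Measurable fun x : ℂ × ℝ => u₁ (x.1 + a₁ * ec x.2) :=
      m1.comp (measurable_fst.add (mec.const_mul _))
    have e2 : Measurable fun x : ℂ × ℝ => u₂ (x.1 + a₂ * ec x.2) :=
      m2.comp (measurable_fst.add (mec.const_mul _))
    exact mec.mul (((Complex.continuous_conj.measurable.comp e1).mul_const _).add
      ((Complex.continuous_conj.measurable.comp e2).mul_const _))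
  -- powers
  have hpow : ∀ j : ℕ, η ^ j ≤ (1 / 2) ^ j := fun j => by gcongr
  have hk1 : (2 + ‖a₂‖) * η ^ k ≤ 1 := by
    calc (2 + ‖a₂‖) * η ^ k ≤ 2 ^ k * (1 / 2) ^ k := by
          gcongr
      _ = 1 := by rw [← mul_pow]; norm_num
  set η' := η ^ (k + 2) with hη'
  have hη'0 : 0 < η' := by positivity
  have hη'4 : η' ≤ η / 2 := by
    have h1 : η ^ (k + 2) = η ^ k * (η * η) := by ring
    have h2 : η ^ k ≤ 1 := pow_le_one₀ hη.le hη1
    rw [hη', h1]
    nlinarith [mul_le_mul h2 (le_refl (η * η)) (by positivity) one_pos.le]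
  have hη'2 : η' ≤ 1 / 2 := by linarith
  have hinv : 1 / η + ‖a₂‖ + 1 ≤ 1 / η' := by
    rw [hη', le_div_iff₀ (by positivity)]
    have h1 : (1 / η) * η ^ (k + 2) = η ^ k * η := by
      rw [one_div, inv_mul_eq_div, div_eq_iff hη.ne']
      ring
    have h2 : (‖a₂‖ + 2) * η ^ k ≤ 1 := by linarith
    have h3 : (0 : ℝ) ≤ η ^ k := pow_nonneg hη.le _
    have h4 : 0 ≤ ‖a₂‖ := norm_nonneg _
    have h5 : η ^ k * η ≤ η ^ k * (1 / 2) := by gcongr
    have h6 : η ^ (k + 2) ≤ η ^ k * (1 / 2) := by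
      have : η ^ (k + 2) = η ^ k * (η * η) := by ring
      rw [this]
      gcongr
      nlinarith
    have h7 : (‖a₂‖ + 1) * η ^ (k + 2) ≤ (‖a₂‖ + 1) * (η ^ k * (1 / 2)) := by gcongr
    nlinarith
  -- the error
  set δ' := (1 + ‖a₂‖) * δ with hδ'
  have hδ'0 : 0 ≤ δ' := by positivity
  have hδ1 : δ' ≤ η' ^ C0 * η' := by
    have e1 : η ^ ((k + 2) * C0 + (2 * k + 4)) = η' ^ C0 * η' * η ^ (k + 2) := by
      rw [hη', ← pow_mul, ← pow_add, ← pow_add]
      congr 1
      ring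
    have e2 : (1 + ‖a₂‖) * η ^ (k + 2) ≤ 1 := by
      have h6 : η ^ (k + 2) ≤ η ^ k := pow_le_pow_of_le_one hη.le hη1 (by omega)
      have : (1 + ‖a₂‖) * η ^ (k + 2) ≤ (2 + ‖a₂‖) * η ^ k := by
        gcongr
        norm_num
      linarith
    calc δ' ≤ (1 + ‖a₂‖) * (η' ^ C0 * η' * η ^ (k + 2)) := by
          rw [hδ']
          gcongr
          exact hδη.trans e1.le
      _ = (η' ^ C0 * η') * ((1 + ‖a₂‖) * η ^ (k + 2)) := by ring
      _ ≤ (η' ^ C0 * η') * 1 := by gcongr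
      _ = η' ^ C0 * η' := mul_one _
  have hδ2 : δ' ≤ η' ^ C0 := hδ1.trans (by
    calc η' ^ C0 * η' ≤ η' ^ C0 * 1 := by gcongr; linarith
      _ = _ := mul_one _)
  have hδ3 : δ' ≤ η' := hδ1.trans (by
    calc η' ^ C0 * η' ≤ 1 * η' := by
          gcongr
          exact pow_le_one₀ hη'0.le (by linarith)
      _ = _ := one_mul _)
  have had : ‖a₂‖ * δ ≤ δ' := by
    rw [hδ']; nlinarith [norm_nonneg a₂]
  have hdd : δ ≤ δ' := by
    rw [hδ']; nlinarith [norm_nonneg a₂, mul_nonneg (norm_nonneg a₂) hδ]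
  -- the key: a sign σ
  have key : ∀ σ : ℝ, (σ = 1 ∨ σ = -1) →
      ¬ ENNReal.ofReal η' ≤ volume (G ∩ {x | η ≤ σ * (Z x).re}) := by
    intro σ hσ hv
    have hσ1 : |σ| = 1 := by rcases hσ with h | h <;> simp [h]
    have hσn : ‖(σ : ℂ)‖ = 1 := by rw [Complex.norm_real]; exact hσ1
    set G1 := G ∩ {x | η ≤ σ * (Z x).re} with hG1
    have mG1 : MeasurableSet G1 := mG.inter (measurableSet_le measurable_const
      ((Complex.measurable_re.comp mZ).const_mul σ))
    have mc : Measurable fun t : ℝ => -a₂ * ec t := measurable_ec.const_mul _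
    set G2 := (fun x : ℂ × ℝ => (x.1 + -a₂ * ec x.2, x.2)) ⁻¹' G1 with hG2
    have mG2 : MeasurableSet G2 := measurable_shear mc mG1
    have vG2 : volume G2 = volume G1 := volume_shear_preimage mc mG1
    -- identities at a point of `G2`
    have hpt : ∀ x ∈ G2, (x.1 + -a₂ * ec x.2, x.2) ∈ G ∧
        η ≤ σ * (Z (x.1 + -a₂ * ec x.2, x.2)).re := fun x hx => hx
    have hE : ∀ x : ℂ × ℝ, mo (-a₂) (a₁ - a₂) (fun z => σ * u₀ z) (fun z => σ * u₁ z) x
        = σ * (conj (Z (x.1 + -a₂ * ec x.2, x.2)) - conj (ec x.2) * conj a₂ *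
          (u₀ (x.1 + -a₂ * ec x.2) + u₁ (x.1 + -a₂ * ec x.2 + a₁ * ec x.2)
            + u₂ (x.1 + -a₂ * ec x.2 + a₂ * ec x.2))) := by
      intro x
      have e1 : x.1 + (a₁ - a₂) * ec x.2 = x.1 + -a₂ * ec x.2 + a₁ * ec x.2 := by ring
      simp only [mo, hZ, map_mul, map_add, map_sub, map_neg, Complex.conj_conj, e1]
      ring
    have hnc : ∀ t : ℝ, ‖conj (ec t)‖ = 1 := fun t => by
      rw [RCLike.norm_conj, norm_ec]
    have hErr : ∀ x ∈ G2, ‖mo (-a₂) (a₁ - a₂) (fun z => σ * u₀ z) (fun z => σ * u₁ z) x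
        - σ * conj (Z (x.1 + -a₂ * ec x.2, x.2))‖ ≤ δ' := by
      intro x hx
      rw [hE, mul_sub, sub_sub_cancel_left, norm_neg, norm_mul, hσn, one_mul, norm_mul, norm_mul,
        hnc, one_mul, RCLike.norm_conj]
      refine le_trans ?_ had
      gcongr
      exact hforce _ (hpt x hx).1
    have hZre : ∀ x : ℂ × ℝ, (σ * conj (Z x)).re = σ * (Z x).re := fun x => by
      rw [Complex.re_ofReal_mul, Complex.conj_re]
    have hZim : ∀ x : ℂ × ℝ, (σ * conj (Z x)).im = -(σ * (Z x).im) := fun x => by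
      rw [Complex.im_ofReal_mul, Complex.conj_im, mul_neg]
    refine h η' (δ' + δ') (fun z => σ * u₂ z) (fun z => σ * u₀ z) (fun z => σ * u₁ z) G2 hη'0 hη'2
      (by positivity) ?_ ?_ ?_ (vG2 ▸ hv)
    · have : η' ≤ 1 / 2 := hη'2
      calc δ' + δ' ≤ η' ^ C0 * η' + η' ^ C0 * η' := by linarith
        _ = η' ^ C0 * (2 * η') := by ring
        _ ≤ η' ^ C0 * 1 := by gcongr; linarith
        _ = _ := mul_one _
    · refine ⟨m2.const_mul _, m0.const_mul _, m1.const_mul _, mG2, fun x hx => hang (x.1 + -a₂ * ec x.2, x.2) (hpt x hx).1,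
        ?_, ?_, ?_, ?_⟩
      · intro x hx
        have h1 := hforce _ (hpt x hx).1
        have e1 : x.1 + (a₁ - a₂) * ec x.2 = x.1 + -a₂ * ec x.2 + a₁ * ec x.2 := by ring
        have e2 : x.1 + -a₂ * ec x.2 + a₂ * ec x.2 = x.1 := by ring
        simp only [e1]
        simp only [e2] at h1
        calc ‖(σ : ℂ) * u₂ x.1 + σ * u₀ (x.1 + -a₂ * ec x.2)
              + σ * u₁ (x.1 + -a₂ * ec x.2 + a₁ * ec x.2)‖
            = ‖(σ : ℂ) * (u₀ (x.1 + -a₂ * ec x.2) + u₁ (x.1 + -a₂ * ec x.2 + a₁ * ec x.2)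
              + u₂ x.1)‖ := by congr 1; ring
          _ ≤ δ := by rw [norm_mul, hσn, one_mul]; exact h1
          _ ≤ δ' + δ' := by linarith
      · intro x hx
        have h1 := hErr x hx
        have h2 := him _ (hpt x hx).1
        have h3 := (Complex.abs_im_le_norm _).trans h1
        rw [Complex.sub_im, hZim, sub_neg_eq_add] at h3
        have h4 : |σ * (Z (x.1 + -a₂ * ec x.2, x.2)).im| ≤ δ := by
          rw [abs_mul, hσ1, one_mul]; exact h2
        rw [abs_le] at *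
        constructor <;> linarith [h3.1, h3.2, h4.1, h4.2]
      · intro x hx
        have h1 := hErr x hx
        have h3 := (Complex.abs_re_le_norm _).trans h1
        rw [Complex.sub_re, hZre, abs_le] at h3
        linarith [h3.1, (hpt x hx).2]
      · intro x hx
        have h1 := hErr x hx
        have h2 := hhi _ (hpt x hx).1
        have h3 := (Complex.abs_re_le_norm _).trans h1
        rw [Complex.sub_re, hZre, abs_le] at h3
        have h4 : |σ * (Z (x.1 + -a₂ * ec x.2, x.2)).re| ≤ 1 / η := by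
          rw [abs_mul, hσ1, one_mul]; exact h2
        have h5 := (abs_le.1 h4).2
        have h6 : 0 ≤ ‖a₂‖ := norm_nonneg _
        linarith [h3.2]
    · intro x hx
      have h1 := hreg _ (hpt x hx).1
      have e1 : x.1 = (x.1 + -a₂ * ec x.2) + a₂ * ec x.2 := by ring
      calc ‖x.1‖ = ‖(x.1 + -a₂ * ec x.2) + a₂ * ec x.2‖ := by rw [← e1]
        _ ≤ ‖x.1 + -a₂ * ec x.2‖ + ‖a₂ * ec x.2‖ := norm_add_le _ _
        _ ≤ 1 / η + ‖a₂‖ := by
            rw [norm_mul, norm_ec, mul_one]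
            exact add_le_add h1 le_rfl
        _ ≤ 1 / η' := by linarith
  have hcov : G ⊆ (G ∩ {x | η ≤ 1 * (Z x).re}) ∪ (G ∩ {x | η ≤ -1 * (Z x).re}) := by
    intro x hx
    have h1 := hlo x hx
    rcases le_abs.1 h1 with h2 | h2
    · refine Or.inl ⟨hx, ?_⟩
      show η ≤ 1 * (Z x).re
      rw [one_mul]
      exact h2
    · refine Or.inr ⟨hx, ?_⟩
      show η ≤ -1 * (Z x).re
      rw [neg_one_mul]
      exact h2
  have k1 := key 1 (Or.inl rfl)
  have k2 := key (-1) (Or.inr rfl)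
  push Not at k1 k2
  have hsum : volume G < ENNReal.ofReal η' + ENNReal.ofReal η' :=
    ((measure_mono hcov).trans (measure_union_le _ _)).trans_lt (ENNReal.add_lt_add k1 k2)
  rw [← ENNReal.ofReal_add hη'0.le hη'0.le] at hsum
  have := hvol.trans_lt hsum
  rw [ENNReal.ofReal_lt_ofReal_iff (by positivity)] at this
  linarith

end Pool.Agent.H2.T2
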