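import Pool.Agent.H2.T2.Defs

/-!
# Killing fields from three base points: the algebra
-/

open MeasureTheory Set
open scoped ComplexConjugate Real ENNReal

namespace Pool.Agent.H2.T2

/-- Recovering a complex number from two inner products. -/
theorem k3_dual (w d e : ℂ) (hJ : (d * conj e).im ≠ 0) :
    w = (((w * conj d).re : ℂ) * (Complex.I * e) - ((w * conj e).re : ℂ) * (Complex.I * d)) /
      ((d * conj e).im : ℂ) := by
  have hJ' : (((d * conj e).im : ℝ) : ℂ) ≠ 0 := by exact_mod_cast hJ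
  rw [eq_div_iff hJ']
  apply Complex.ext <;> simp <;> ring

theorem k3_alg (h : Remez2) : ∃ C : ℕ, ∀ (η κ : ℝ) (U : ℂ → ℂ) (P : Set ℂ) (z₁ z₂ z₃ : ℂ),
    0 < η → η ≤ 1 / 2 → 0 ≤ κ → MeasurableSet P → P ⊆ sq 0 1 → z₁ ∈ sq 0 1 → z₂ ∈ sq 0 1 →
    z₃ ∈ sq 0 1 → ENNReal.ofReal η ≤ volume P → η ≤ |((z₂ - z₁) * conj (z₃ - z₁)).im| →
    (∀ z ∈ P, |((U z - U z₁) * conj (z - z₁)).re| ≤ κ) →
    (∀ z ∈ P, |((U z - U z₂) * conj (z - z₂)).re| ≤ κ) →
    (∀ z ∈ P, |((U z - U z₃) * conj (z - z₃)).re| ≤ κ) →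
    ∃ (b : ℂ) (c : ℝ), ∀ z ∈ P, ‖U z - b - c * Complex.I * z‖ ≤ κ / η ^ C := by
  obtain ⟨C₀, h⟩ := h
  refine ⟨C₀ + 7, ?_⟩
  intro η κ U P z₁ z₂ z₃ hη hη2 hκ mP hP hz₁ hz₂ hz₃ hvol hJ e₁ e₂ e₃
  have hsq : ∀ z ∈ sq 0 1, 0 ≤ z.re ∧ z.re ≤ 1 ∧ 0 ≤ z.im ∧ z.im ≤ 1 := by
    rintro z ⟨a, b, c, d⟩
    simp only [Complex.zero_re, Complex.zero_im, zero_add] at a b c d
    exact ⟨a, b.le, c, d.le⟩
  have hd : ∀ z ∈ sq 0 1, ∀ w ∈ sq 0 1, ‖z - w‖ ≤ 2 := by
    intro z hz w hw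
    obtain ⟨a, b, c, d⟩ := hsq z hz
    obtain ⟨a', b', c', d'⟩ := hsq w hw
    refine (Complex.norm_le_abs_re_add_abs_im _).trans ?_
    rw [Complex.sub_re, Complex.sub_im]
    have f1 : |z.re - w.re| ≤ 1 := abs_le.2 ⟨by linarith, by linarith⟩
    have f2 : |z.im - w.im| ≤ 1 := abs_le.2 ⟨by linarith, by linarith⟩
    linarith
  set d := z₂ - z₁ with hd'
  set e := z₃ - z₁ with he'
  have nd : ‖d‖ ≤ 2 := hd _ hz₂ _ hz₁
  have ne : ‖e‖ ≤ 2 := hd _ hz₃ _ hz₁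
  set J : ℝ := (d * conj e).im with hJdef
  have hJ0 : J ≠ 0 := by
    intro h0
    rw [h0, abs_zero] at hJ
    linarith
  have hJpos : 0 < |J| := abs_pos.2 hJ0
  set u := U z₁ - U z₂ with hu
  set v := U z₁ - U z₃ with hv
  set k₂ : ℝ := -(U z₁ * conj z₁).re + (U z₂ * conj z₂).re with hk₂
  set k₃ : ℝ := -(U z₁ * conj z₁).re + (U z₃ * conj z₃).re with hk₃
  set b : ℂ := ((k₂ : ℂ) * (Complex.I * e) - (k₃ : ℂ) * (Complex.I * d)) / (J : ℂ) with hb
  set m₁ : ℂ := ((u.re : ℂ) * (Complex.I * e) - (v.re : ℂ) * (Complex.I * d)) / (J : ℂ) with hm₁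
  set m₂ : ℂ := ((u.im : ℂ) * (Complex.I * e) - (v.im : ℂ) * (Complex.I * d)) / (J : ℂ) with hm₂
  have hJ' : ((J : ℝ) : ℂ) ≠ 0 := by exact_mod_cast hJ0
  -- the affine approximation
  have happ : ∀ z ∈ P, ‖U z - (b + (z.re : ℂ) * m₁ + (z.im : ℂ) * m₂)‖ ≤ 8 * κ / η := by
    intro z hz
    have a₂ : |(U z * conj d).re - (u.re * z.re + u.im * z.im + k₂)| ≤ 2 * κ := by
      have : (U z * conj d).re - (u.re * z.re + u.im * z.im + k₂) =
          ((U z - U z₁) * conj (z - z₁)).re - ((U z - U z₂) * conj (z - z₂)).re := by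
        rw [hd', hu, hk₂]
        simp only [Complex.mul_re, Complex.sub_re, Complex.sub_im, Complex.conj_re,
          Complex.conj_im, map_sub]
        ring
      rw [this]
      have := abs_sub (((U z - U z₁) * conj (z - z₁)).re) (((U z - U z₂) * conj (z - z₂)).re)
      linarith [e₁ z hz, e₂ z hz]
    have a₃ : |(U z * conj e).re - (v.re * z.re + v.im * z.im + k₃)| ≤ 2 * κ := by
      have : (U z * conj e).re - (v.re * z.re + v.im * z.im + k₃) =
          ((U z - U z₁) * conj (z - z₁)).re - ((U z - U z₃) * conj (z - z₃)).re := by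
        rw [he', hv, hk₃]
        simp only [Complex.mul_re, Complex.sub_re, Complex.sub_im, Complex.conj_re,
          Complex.conj_im, map_sub]
        ring
      rw [this]
      have := abs_sub (((U z - U z₁) * conj (z - z₁)).re) (((U z - U z₃) * conj (z - z₃)).re)
      linarith [e₁ z hz, e₃ z hz]
    have hrep : U z - (b + (z.re : ℂ) * m₁ + (z.im : ℂ) * m₂) =
        ((((U z * conj d).re - (u.re * z.re + u.im * z.im + k₂) : ℝ) : ℂ) * (Complex.I * e) -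
          (((U z * conj e).re - (v.re * z.re + v.im * z.im + k₃) : ℝ) : ℂ) * (Complex.I * d)) /
          (J : ℂ) := by
      have hdual : U z = (((U z * conj d).re : ℂ) * (Complex.I * e) -
          ((U z * conj e).re : ℂ) * (Complex.I * d)) / (J : ℂ) := k3_dual (U z) d e hJ0
      rw [hb, hm₁, hm₂]
      push_cast
      linear_combination hdual
    rw [hrep, norm_div]
    have hJn : ‖((J : ℝ) : ℂ)‖ = |J| := by rw [Complex.norm_real, Real.norm_eq_abs]
    rw [hJn, div_le_div_iff₀ hJpos hη]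
    have hn : ‖((((U z * conj d).re - (u.re * z.re + u.im * z.im + k₂) : ℝ) : ℂ) *
        (Complex.I * e) - (((U z * conj e).re - (v.re * z.re + v.im * z.im + k₃) : ℝ) : ℂ) *
          (Complex.I * d))‖ ≤ 8 * κ := by
      refine (norm_sub_le _ _).trans ?_
      rw [norm_mul, norm_mul, norm_mul, norm_mul, Complex.norm_I, Complex.norm_real,
        Complex.norm_real, Real.norm_eq_abs, Real.norm_eq_abs, one_mul, one_mul]
      have := mul_le_mul a₂ ne (norm_nonneg _) (by linarith)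
      have := mul_le_mul a₃ nd (norm_nonneg _) (by linarith)
      linarith
    exact mul_le_mul hn hJ hη.le (by linarith)
  -- the quadratic polynomial
  set w := b - U z₁ with hw
  have hq : ∀ z ∈ P, |(-(w.re * z₁.re) - w.im * z₁.im) +
      (w.re - z₁.re * m₁.re - z₁.im * m₁.im) * z.re +
      (w.im - z₁.re * m₂.re - z₁.im * m₂.im) * z.im + m₁.re * z.re ^ 2 +
      (m₂.re + m₁.im) * (z.re * z.im) + m₂.im * z.im ^ 2| ≤ 17 * κ / η := by
    intro z hz
    have hz' := hP hz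
    have t1 : (-(w.re * z₁.re) - w.im * z₁.im) +
      (w.re - z₁.re * m₁.re - z₁.im * m₁.im) * z.re +
      (w.im - z₁.re * m₂.re - z₁.im * m₂.im) * z.im + m₁.re * z.re ^ 2 +
      (m₂.re + m₁.im) * (z.re * z.im) + m₂.im * z.im ^ 2 =
        ((U z - U z₁) * conj (z - z₁)).re -
          ((U z - (b + (z.re : ℂ) * m₁ + (z.im : ℂ) * m₂)) * conj (z - z₁)).re := by
      rw [hw]
      simp only [Complex.mul_re, Complex.sub_re, Complex.sub_im, Complex.conj_re,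
        Complex.conj_im, map_sub, Complex.add_re, Complex.add_im, Complex.ofReal_re,
        Complex.ofReal_im, Complex.mul_im]
      ring
    rw [t1]
    have t2 : |((U z - (b + (z.re : ℂ) * m₁ + (z.im : ℂ) * m₂)) * conj (z - z₁)).re| ≤
        8 * κ / η * 2 := by
      refine (Complex.abs_re_le_norm _).trans ?_
      rw [norm_mul, Complex.norm_conj]
      exact mul_le_mul (happ z hz) (hd _ hz' _ hz₁) (norm_nonneg _) (by positivity)
    have t3 : κ ≤ κ / η := by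
      rw [le_div_iff₀ hη]
      nlinarith
    have t4 := abs_sub (((U z - U z₁) * conj (z - z₁)).re)
      (((U z - (b + (z.re : ℂ) * m₁ + (z.im : ℂ) * m₂)) * conj (z - z₁)).re)
    have t5 : 17 * κ / η = κ / η + 8 * κ / η * 2 := by ring
    rw [t5]
    linarith [e₁ z hz]
  have hR := h η (17 * κ / η) P ![(-(w.re * z₁.re) - w.im * z₁.im),
      (w.re - z₁.re * m₁.re - z₁.im * m₁.im), (w.im - z₁.re * m₂.re - z₁.im * m₂.im), m₁.re,
      (m₂.re + m₁.im), m₂.im] hη hη2 (by positivity) mP hP hvol (by simpa using hq)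
  have c3 : |m₁.re| ≤ 17 * κ / η / η ^ C₀ := by simpa using hR 3
  have c4 : |m₂.re + m₁.im| ≤ 17 * κ / η / η ^ C₀ := by simpa using hR 4
  have c5 : |m₂.im| ≤ 17 * κ / η / η ^ C₀ := by simpa using hR 5
  refine ⟨b, m₁.im, fun z hz => ?_⟩
  obtain ⟨x0, x1, y0, y1⟩ := hsq z (hP hz)
  have s1 : U z - b - (m₁.im : ℂ) * Complex.I * z =
      (U z - (b + (z.re : ℂ) * m₁ + (z.im : ℂ) * m₂)) +
        ((z.re * m₁.re : ℝ) + ((z.im : ℝ) : ℂ) *
          (((m₂.re + m₁.im : ℝ) : ℂ) + ((m₂.im : ℝ) : ℂ) * Complex.I)) := by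
    apply Complex.ext
    · simp
      ring
    · simp
      ring
  rw [s1]
  have s2 : ‖((z.re * m₁.re : ℝ) + ((z.im : ℝ) : ℂ) *
      (((m₂.re + m₁.im : ℝ) : ℂ) + ((m₂.im : ℝ) : ℂ) * Complex.I) : ℂ)‖ ≤
        3 * (17 * κ / η / η ^ C₀) := by
    refine (norm_add_le _ _).trans ?_
    have s20 : ‖((z.re * m₁.re : ℝ) : ℂ)‖ = z.re * |m₁.re| := by
      rw [Complex.norm_real, Real.norm_eq_abs, abs_mul, abs_of_nonneg x0]
    have s21 : ‖((z.im : ℝ) : ℂ)‖ = z.im := by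
      rw [Complex.norm_real, Real.norm_eq_abs, abs_of_nonneg y0]
    rw [s20, norm_mul, s21]
    have s3 : ‖(((m₂.re + m₁.im : ℝ) : ℂ) + ((m₂.im : ℝ) : ℂ) * Complex.I)‖ ≤
        2 * (17 * κ / η / η ^ C₀) := by
      refine (norm_add_le _ _).trans ?_
      rw [norm_mul, Complex.norm_I, Complex.norm_real, Complex.norm_real, Real.norm_eq_abs,
        Real.norm_eq_abs, mul_one]
      linarith
    have s4 : z.re * |m₁.re| ≤ 1 * (17 * κ / η / η ^ C₀) :=
      mul_le_mul x1 c3 (abs_nonneg _) one_pos.le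
    have s5 := mul_le_mul y1 s3 (norm_nonneg _) one_pos.le
    linarith
  have s6 := norm_add_le (U z - (b + (z.re : ℂ) * m₁ + (z.im : ℂ) * m₂))
    ((z.re * m₁.re : ℝ) + ((z.im : ℝ) : ℂ) *
          (((m₂.re + m₁.im : ℝ) : ℂ) + ((m₂.im : ℝ) : ℂ) * Complex.I) : ℂ)
  refine (s6.trans (add_le_add (happ z hz) s2)).trans ?_
  have hp : η ^ (C₀ + 7) = η ^ (C₀ + 1) * η ^ 6 := by ring
  have hη1 : η ≤ 1 := by linarith
  have s7 : 8 * κ / η ≤ 8 * κ / η ^ (C₀ + 1) := by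
    apply div_le_div_of_nonneg_left (by positivity) (by positivity)
    calc η ^ (C₀ + 1) ≤ η ^ 1 := pow_le_pow_of_le_one hη.le hη1 (by omega)
      _ = η := pow_one η
  have s8 : 3 * (17 * κ / η / η ^ C₀) = 51 * κ / η ^ (C₀ + 1) := by
    rw [pow_succ]
    field_simp
    ring
  have s9 : (59 : ℝ) ≤ 1 / η ^ 6 := by
    rw [le_div_iff₀ (by positivity)]
    have : η ^ 6 ≤ (1 / 2) ^ 6 := by gcongr
    linarith
  have s10 : κ / η ^ (C₀ + 7) = κ / η ^ (C₀ + 1) * (1 / η ^ 6) := by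
    rw [hp]
    field_simp
  rw [s8, s10]
  have s11 : 0 ≤ κ / η ^ (C₀ + 1) := by positivity
  have s12 : 8 * κ / η ^ (C₀ + 1) + 51 * κ / η ^ (C₀ + 1) = κ / η ^ (C₀ + 1) * 59 := by ring
  calc 8 * κ / η + 51 * κ / η ^ (C₀ + 1) ≤ 8 * κ / η ^ (C₀ + 1) + 51 * κ / η ^ (C₀ + 1) := by
        linarith
    _ = κ / η ^ (C₀ + 1) * 59 := s12
    _ ≤ κ / η ^ (C₀ + 1) * (1 / η ^ 6) := mul_le_mul_of_nonneg_left s9 s11

end Pool.Agent.H2.T2
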