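import Pool.Agent.H2.T2.Defs
import Pool.Agent.H2.T2.Cell
import Pool.Agent.H2.T2.Shear

/-!
# From the fields to the relations
-/

open MeasureTheory Set
open scoped ComplexConjugate Real

namespace Pool.Agent.H2.T2

/-- The algebra of the relations: first relation. -/
theorem relS_algb {α β : ℂ} (hJ : (α * conj β).im ≠ 0) {N M ε : ℝ} {n' m' e : ℂ}
    (hE : ‖conj (β - α) * n' * e - ((β - α) * N - α * M + conj α * m' * e)‖ ≤ ε)
    (hQ : ‖conj (β - α) * (β * N - conj β * n' * e)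
      - ((α * conj β).re * M - (conj (α * β) * m' * e).re
        + 2 * (conj (α * β) * m' * e).im * Complex.I)‖ ≤ ε) :
    |N + M / 2 - 3 / (2 * (α * conj β).im) * (conj (α * β) * m' * e).im|
      ≤ (1 + ‖β‖) * ε / (2 * |(α * conj β).im|) := by
  set J := (α * conj β).im with hJdef
  set c0 := (α * conj β).re with hc0
  set Z := conj (α * β) * m' * e with hZ
  set D1 := conj (β - α) * n' * e - ((β - α) * N - α * M + conj α * m' * e) with hD1
  set D2 := conj (β - α) * (β * N - conj β * n' * e)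
      - (c0 * M - Z.re + 2 * Z.im * Complex.I) with hD2
  have hconj : conj (β - α) * β - conj β * (β - α) = 2 * J * Complex.I := by
    have := Complex.sub_conj (α * conj β)
    rw [map_mul, Complex.conj_conj] at this
    rw [map_sub]
    push_cast at this
    linear_combination this
  have hid : D2 + conj β * D1 = 2 * J * Complex.I * N + α * conj β * M - Z - c0 * M + Z.re
      - 2 * Z.im * Complex.I := by
    have hZ2 : Z = conj β * (conj α * m' * e) := by rw [hZ, map_mul]; ring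
    rw [← hconj, hD1, hD2]
    linear_combination hZ2
  have him : (D2 + conj β * D1).im = 2 * J * N + J * M - 3 * Z.im := by
    rw [hid]
    simp only [Complex.add_im, Complex.sub_im, Complex.mul_im, Complex.mul_re, Complex.ofReal_re,
      Complex.ofReal_im, Complex.I_re, Complex.I_im, Complex.re_ofNat, Complex.im_ofNat]
    simp only [hJdef, hc0, Complex.mul_re, Complex.mul_im]
    ring
  have hb : |2 * J * N + J * M - 3 * Z.im| ≤ (1 + ‖β‖) * ε := by
    rw [← him]
    calc |(D2 + conj β * D1).im| ≤ ‖D2 + conj β * D1‖ := Complex.abs_im_le_norm _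
      _ ≤ ‖D2‖ + ‖conj β * D1‖ := norm_add_le _ _
      _ = ‖D2‖ + ‖β‖ * ‖D1‖ := by rw [norm_mul, RCLike.norm_conj]
      _ ≤ ε + ‖β‖ * ε := add_le_add hQ (mul_le_mul_of_nonneg_left hE (norm_nonneg _))
      _ = (1 + ‖β‖) * ε := by ring
  have hJ2 : 0 < 2 * |J| := by positivity
  rw [le_div_iff₀ hJ2]
  calc |N + M / 2 - 3 / (2 * J) * Z.im| * (2 * |J|)
      = |(N + M / 2 - 3 / (2 * J) * Z.im) * (2 * J)| := by
        rw [abs_mul, abs_mul 2 J, abs_two]
    _ = |2 * J * N + J * M - 3 * Z.im| := by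
        congr 1
        field_simp
    _ ≤ _ := hb

/-- The algebra of the relations: second relation. -/
theorem relS_algz {α β : ℂ} (hJ : (α * conj β).im ≠ 0) {N M ε : ℝ} {n' m' e : ℂ}
    (hE : ‖conj (β - α) * n' * e - ((β - α) * N - α * M + conj α * m' * e)‖ ≤ ε)
    (hQ : ‖conj (β - α) * (β * N - conj β * n' * e)
      - ((α * conj β).re * M - (conj (α * β) * m' * e).re
        + 2 * (conj (α * β) * m' * e).im * Complex.I)‖ ≤ ε) :
    |M + N / 2 + 3 / (2 * (α * conj β).im) * (conj ((β - α) * β) * n' * e).im|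
      ≤ (1 + 4 * ‖β‖) * ε / (2 * |(α * conj β).im|) := by
  have hb := relS_algb hJ hE hQ
  set J := (α * conj β).im with hJdef
  set Z := conj (α * β) * m' * e with hZ
  set D1 := conj (β - α) * n' * e - ((β - α) * N - α * M + conj α * m' * e) with hD1
  have hid : conj ((β - α) * β) * n' * e = conj β * D1 + (β * conj β - α * conj β) * N
      - α * conj β * M + Z := by
    have hZ2 : Z = conj β * (conj α * m' * e) := by rw [hZ, map_mul]; ring
    rw [hZ2, hD1, map_mul]
    ring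
  have him : (conj ((β - α) * β) * n' * e).im = (conj β * D1).im - J * N - J * M + Z.im := by
    rw [hid, Complex.mul_conj]
    simp only [Complex.add_im, Complex.sub_im, Complex.mul_im (_ - _), Complex.mul_im (α * _),
      Complex.sub_re, Complex.ofReal_re, Complex.ofReal_im]
    simp only [hJdef]
    ring
  rw [him]
  have hJ2 : 0 < 2 * |J| := by positivity
  have h1 : M + N / 2 + 3 / (2 * J) * ((conj β * D1).im - J * N - J * M + Z.im)
      = 3 / (2 * J) * (conj β * D1).im - (N + M / 2 - 3 / (2 * J) * Z.im) := by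
    field_simp
    ring
  rw [h1]
  have h2 : |3 / (2 * J) * (conj β * D1).im| ≤ 3 * ‖β‖ * ε / (2 * |J|) := by
    rw [abs_mul, abs_div, abs_mul 2 J, abs_two, abs_of_pos (by norm_num : (0:ℝ) < 3)]
    rw [div_mul_eq_mul_div]
    apply div_le_div_of_nonneg_right _ hJ2.le
    rw [mul_assoc]
    apply mul_le_mul_of_nonneg_left _ (by norm_num)
    calc |(conj β * D1).im| ≤ ‖conj β * D1‖ := Complex.abs_im_le_norm _
      _ = ‖β‖ * ‖D1‖ := by rw [norm_mul, RCLike.norm_conj]
      _ ≤ ‖β‖ * ε := mul_le_mul_of_nonneg_left hE (norm_nonneg _)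
  calc _ ≤ |3 / (2 * J) * (conj β * D1).im| + |N + M / 2 - 3 / (2 * J) * Z.im| := abs_sub _ _
    _ ≤ 3 * ‖β‖ * ε / (2 * |J|) + (1 + ‖β‖) * ε / (2 * |J|) := add_le_add h2 hb
    _ = (1 + 4 * ‖β‖) * ε / (2 * |J|) := by ring

/-- Monotonicity of `Sys`. -/
theorem relS_sys_mono {α β : ℂ} {η η' δ : ℝ} {w f g : ℂ → ℂ} {G G' : Set (ℂ × ℝ)}
    (h : Sys α β η δ w f g G) (h0 : 0 < η') (hle : η' ≤ η) (hG' : MeasurableSet G')
    (hsub : G' ⊆ G) : Sys α β η' δ w f g G' where
  mw := h.mw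
  mf := h.mf
  mg := h.mg
  mG := hG'
  ang := fun x hx => h.ang x (hsub hx)
  force := fun x hx => h.force x (hsub hx)
  im := fun x hx => h.im x (hsub hx)
  lo := fun x hx => hle.trans (h.lo x (hsub hx))
  hi := fun x hx => (h.hi x (hsub hx)).trans (one_div_le_one_div_of_le h0 hle)

/-- Monotonicity of `Slo`. -/
theorem relS_slo_mono {α β : ℂ} {η η' δ s h : ℝ} {w f g : ℂ → ℂ} {u₀ m' v₀ n' : ℤ × ℤ → ℂ}
    {m n : ℤ × ℤ → ℝ} {G G' : Set (ℂ × ℝ)}
    (H : Slo α β η δ s h w f g u₀ m' v₀ n' m n G) (h0 : 0 < η') (hle : η' ≤ η) (hs : 0 ≤ s)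
    (hG' : MeasurableSet G') (hsub : G' ⊆ G) :
    Slo α β η' δ s h w f g u₀ m' v₀ n' m n G' where
  sys := relS_sys_mono H.sys h0 hle hG' hsub
  reg := fun x hx => (H.reg x (hsub hx)).trans (one_div_le_one_div_of_le h0 hle)
  bm := fun k => (H.bm k).trans (one_div_le_one_div_of_le h0 hle)
  bm' := fun k => (H.bm' k).trans (one_div_le_one_div_of_le h0 hle)
  bn := fun k => (H.bn k).trans (one_div_le_one_div_of_le h0 hle)
  bn' := fun k => (H.bn' k).trans (one_div_le_one_div_of_le h0 hle)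
  affz := fun x hx => (H.affz x (hsub hx)).trans
    (div_le_div_of_nonneg_left (by positivity) h0 hle)
  vir := fun x hx => (H.vir x (hsub hx)).trans (div_le_div_of_nonneg_left hs h0 hle)
  affb := fun x hx => (H.affb x (hsub hx)).trans
    (div_le_div_of_nonneg_left (by positivity) h0 hle)

theorem relS_of {α β : ℂ} (hNR : NR α β) (hNR' : NR (α - β) (-β)) (h1 : AG α β)
    (h2 : AG (α - β) (-β)) (h3 : SwapS α β) (h4 : E1 α β) (h5 : Q1 α β) : RelS α β := by
  obtain ⟨C1, h1⟩ := h1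
  obtain ⟨C2, h2⟩ := h2
  obtain ⟨C3, hC3, h3⟩ := h3
  obtain ⟨C4, h4⟩ := h4
  obtain ⟨C5, h5⟩ := h5
  have hJ : (α * conj β).im ≠ 0 := hNR.1
  have hJ0 : 0 < |(α * conj β).im| := abs_pos.2 hJ
  set K : ℝ := 1 + ‖β‖ + C3 + 3 * (1 + ‖β‖) / |(α * conj β).im| with hK
  obtain ⟨k, hk⟩ : ∃ k : ℕ, K < 2 ^ k := pow_unbounded_of_one_lt K one_lt_two
  refine ⟨(k + 2) * (C2 + 1) * (C1 + 1) * (C4 + 1) * (C5 + 1 + k), ?_⟩
  intro η t δ w f g G hη hη2 ht htC hδ hδt hS hreg hvol
  set ηB := η ^ (k + 2) with hηB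
  set ηC := ηB ^ (C2 + 1) with hηC
  set ηD := ηC ^ (C1 + 1) with hηD
  set ηE := ηD ^ (C4 + 1) with hηE
  set ηF := ηE ^ (C5 + 1 + k) with hηF
  have hFC : η ^ ((k + 2) * (C2 + 1) * (C1 + 1) * (C4 + 1) * (C5 + 1 + k)) = ηF := by
    rw [hηF, hηE, hηD, hηC, hηB, ← pow_mul, ← pow_mul, ← pow_mul, ← pow_mul]
    congr 1
    ring
  rw [hFC] at htC ⊢
  have hB0 : 0 < ηB := by positivity
  have hC0 : 0 < ηC := by positivity
  have hD0 : 0 < ηD := by positivity
  have hE0 : 0 < ηE := by positivity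
  have hF0 : 0 < ηF := by positivity
  have hBh : ηB ≤ η / 2 := by
    calc ηB = η ^ k * η ^ 2 := by rw [hηB, pow_add]
      _ ≤ 1 * η ^ 2 := by
        apply mul_le_mul_of_nonneg_right (pow_le_one₀ hη.le (by linarith)) (by positivity)
      _ ≤ η / 2 := by nlinarith
  have hB1 : ηB ≤ 1 := by linarith
  have hBη : ηB ≤ η := by linarith
  have hpow : ∀ (x : ℝ) (n : ℕ), 0 < x → x ≤ 1 → x ^ (n+1) ≤ x := fun x n h0 h1 => by
    calc x ^ (n+1) = x ^ n * x := pow_succ x n
      _ ≤ 1 * x := mul_le_mul_of_nonneg_right (pow_le_one₀ h0.le h1) h0.le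
      _ = x := one_mul x
  have hpow2 : ∀ (x : ℝ) (n : ℕ), 0 < x → x ≤ 1 → x ^ (n+1) ≤ x ^ n := fun x n h0 h1 =>
    pow_le_pow_of_le_one h0.le h1 (Nat.le_succ n)
  have hCB : ηC ≤ ηB := hpow _ _ hB0 hB1
  have hC1 : ηC ≤ 1 := by linarith
  have hDC : ηD ≤ ηC := hpow _ _ hC0 hC1
  have hD1 : ηD ≤ 1 := by linarith
  have hED : ηE ≤ ηD := hpow _ _ hD0 hD1
  have hE1 : ηE ≤ 1 := by linarith
  have hFE : ηF ≤ ηE := by
    rw [hηF, show C5 + 1 + k = (C5 + k) + 1 by ring]
    exact hpow _ _ hE0 hE1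
  have hF1 : ηF ≤ 1 := by linarith
  have hC_B : ηC ≤ ηB ^ C2 := hpow2 _ _ hB0 hB1
  have hD_C : ηD ≤ ηC ^ C1 := hpow2 _ _ hC0 hC1
  have hE_D : ηE ≤ ηD ^ C4 := hpow2 _ _ hD0 hD1
  have hF_E : ηF ≤ ηE ^ C5 := by
    rw [hηF]
    exact pow_le_pow_of_le_one hE0.le hE1 (by omega)
  have ht1 : t ≤ 1 := htC.trans hF1
  have hK1 : 1 + ‖β‖ ≤ 2 ^ k := by
    have : 0 ≤ 3 * (1 + ‖β‖) / |(α * conj β).im| := by positivity
    linarith
  have hK2 : C3 ≤ 2 ^ k := by
    have : 0 ≤ 3 * (1 + ‖β‖) / |(α * conj β).im| := by positivity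
    have := norm_nonneg β
    linarith
  have hK3 : 3 * (1 + ‖β‖) / |(α * conj β).im| ≤ 2 ^ k := by
    have := norm_nonneg β
    linarith
  have h2η : 2 ^ k * η ^ k ≤ 1 := by
    rw [← mul_pow]
    exact pow_le_one₀ (by positivity) (by linarith)
  have hC3t : C3 * t ≤ η / 2 := by
    calc C3 * t ≤ 2 ^ k * ηB := by
          apply mul_le_mul hK2 _ ht.le (by positivity)
          linarith
      _ = (2 ^ k * η ^ k) * η ^ 2 := by rw [hηB, pow_add]; ring
      _ ≤ 1 * η ^ 2 := mul_le_mul_of_nonneg_right h2η (by positivity)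
      _ ≤ η / 2 := by nlinarith
  have ht6 : t ^ 6 ≤ t := by
    calc t ^ 6 = t ^ 5 * t := by ring
      _ ≤ 1 * t := mul_le_mul_of_nonneg_right (pow_le_one₀ ht.le ht1) ht.le
      _ = t := one_mul t
  -- Stage at b
  have hsw := h3 η δ w f g G hη hη2 hδ (by
    calc C3 * δ ≤ C3 * t := mul_le_mul_of_nonneg_left (hδt.trans ht6) hC3
      _ ≤ η / 2 := hC3t) hS
  obtain ⟨hsw1, hsw2, -⟩ := hsw
  have hregB : ∀ x ∈ atB β G, ‖x.1‖ ≤ 1 / ηB := by
    intro x hx
    have hx' : (x.1 - β * ec x.2, x.2) ∈ G := hx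
    have h6 := hreg _ hx'
    have h7 : ‖x.1‖ ≤ 1 / η + ‖β‖ := by
      calc ‖x.1‖ = ‖(x.1 - β * ec x.2) + β * ec x.2‖ := by rw [sub_add_cancel]
        _ ≤ ‖x.1 - β * ec x.2‖ + ‖β * ec x.2‖ := norm_add_le _ _
        _ ≤ 1 / η + ‖β‖ := by
          rw [norm_mul, norm_ec, mul_one]
          exact add_le_add h6 le_rfl
    refine h7.trans ?_
    rw [le_div_iff₀ hB0, hηB, pow_add]
    calc (1 / η + ‖β‖) * (η ^ k * η ^ 2) = (1 + ‖β‖ * η) * η ^ k * η := by field_simp
      _ ≤ (2 ^ k) * η ^ k * η := by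
        apply mul_le_mul_of_nonneg_right _ hη.le
        apply mul_le_mul_of_nonneg_right _ (by positivity)
        have : ‖β‖ * η ≤ ‖β‖ * 1 := mul_le_mul_of_nonneg_left (by linarith) (norm_nonneg _)
        linarith
      _ ≤ 1 * η := mul_le_mul_of_nonneg_right h2η hη.le
      _ ≤ 1 := by linarith
  have hofB : ENNReal.ofReal ηB ≤ volume (atB β G) := by
    rw [hsw2]
    exact (ENNReal.ofReal_le_ofReal hBη).trans hvol
  have htB : t ^ 2 ≤ ηB ^ C2 := by
    calc t ^ 2 ≤ t ^ 1 := pow_le_pow_of_le_one ht.le ht1 (by norm_num)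
      _ = t := pow_one t
      _ ≤ ηB ^ C2 := by linarith
  obtain ⟨GB, v₀, n', n, hGBm, hGBs, hGBv, hn, hn', hGB⟩ := h2 ηB (t ^ 2) (C3 * δ) g f w (atB β G)
    hB0 (by linarith) (by positivity) htB (by positivity) (by
      calc C3 * δ ≤ C3 * t ^ 6 := mul_le_mul_of_nonneg_left hδt hC3
        _ = (C3 * t) * t * t ^ 4 := by ring
        _ ≤ 1 * 1 * t ^ 4 := by
          apply mul_le_mul_of_nonneg_right _ (by positivity)
          apply mul_le_mul (by linarith) ht1 ht.le (by norm_num)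
        _ = (t ^ 2) ^ 2 := by ring)
    (relS_sys_mono hsw1 hB0 hBh hsw1.mG (subset_refl _)) hregB hofB
  -- back to z
  set G1 : Set (ℂ × ℝ) := (fun x : ℂ × ℝ => (x.1 + β * ec x.2, x.2)) ⁻¹' GB with hG1
  have hcm : Measurable fun t : ℝ => β * ec t := measurable_const.mul measurable_ec
  have hG1m : MeasurableSet G1 := (measurable_shear hcm) hGBm
  have hG1v : volume G1 = volume GB := volume_shear_preimage hcm hGBm
  have hG1s : G1 ⊆ G := by
    intro x hx
    have h6 : ((x.1 + β * ec x.2, x.2) : ℂ × ℝ) ∈ atB β G := hGBs hx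
    have h7 : ((x.1 + β * ec x.2 - β * ec x.2, x.2) : ℂ × ℝ) ∈ G := h6
    rwa [add_sub_cancel_right] at h7
  obtain ⟨G2, u₀, m', m, hG2m, hG2s, hG2v, hm, hm', hG2⟩ := h1 ηC (t ^ 3) δ w f g G1
    hC0 (by linarith) (by positivity) (by
      calc t ^ 3 ≤ t ^ 1 := pow_le_pow_of_le_one ht.le ht1 (by norm_num)
        _ = t := pow_one t
        _ ≤ ηC ^ C1 := by linarith) hδ (by
      calc δ ≤ t ^ 6 := hδt
        _ = (t ^ 3) ^ 2 := by ring)
    (relS_sys_mono hS hC0 (by linarith) hG1m hG1s)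
    (fun x hx => (hreg x (hG1s hx)).trans (one_div_le_one_div_of_le hC0 (by linarith)))
    (by
      rw [hG1v]
      exact (ENNReal.ofReal_le_ofReal hC_B).trans hGBv)
  -- the slopes
  have hSlo : Slo α β ηD δ (t ^ 3) (t ^ 2) w f g u₀ m' v₀ n' m n G2 :=
    { sys := relS_sys_mono hS hD0 (by linarith) hG2m (hG2s.trans hG1s)
      reg := fun x hx => (hreg x (hG1s (hG2s hx))).trans
        (one_div_le_one_div_of_le hD0 (by linarith))
      bm := fun k => (hm k).trans (one_div_le_one_div_of_le hD0 hD_C)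
      bm' := fun k => (hm' k).trans (one_div_le_one_div_of_le hD0 hD_C)
      bn := fun k => (hn k).trans (one_div_le_one_div_of_le hD0 (by linarith))
      bn' := fun k => (hn' k).trans (one_div_le_one_div_of_le hD0 (by linarith))
      affz := fun x hx => (hG2 x hx).1.trans
        (div_le_div_of_nonneg_left (by positivity) hD0 hD_C)
      vir := fun x hx => (hG2 x hx).2.trans
        (div_le_div_of_nonneg_left (by positivity) hD0 hD_C)
      affb := fun x hx => (hGB _ (hG2s hx)).1.trans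
        (div_le_div_of_nonneg_left (by positivity) hD0 (by linarith)) }
  obtain ⟨G3, hG3m, hG3s, hG3v, hG3⟩ := h4 ηD t δ w f g u₀ m' v₀ n' m n G2 hD0 (by linarith) ht
    (by linarith) hδ hδt hSlo ((ENNReal.ofReal_le_ofReal hD_C).trans hG2v)
  obtain ⟨G4, hG4m, hG4s, hG4v, hG4⟩ := h5 ηE t δ w f g u₀ m' v₀ n' m n G3 hE0 (by linarith) ht
    (by linarith) hδ hδt (relS_slo_mono hSlo hE0 hED (by positivity) hG3m hG3s)
    ((ENNReal.ofReal_le_ofReal hE_D).trans hG3v)
  -- the errors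
  have herr : ∀ c : ℝ, 0 ≤ c → c ≤ 2 ^ k → c * (t / ηE ^ (C5 + 1)) ≤ t / ηF := by
    intro c hc0 hc
    rw [hηF, pow_add ηE (C5 + 1) k, ← mul_div_assoc, div_le_div_iff₀ (by positivity) (by positivity)]
    have h6 : c * ηE ^ k ≤ 1 := by
      calc c * ηE ^ k ≤ 2 ^ k * η ^ k := by
            apply mul_le_mul hc _ (by positivity) (by positivity)
            exact pow_le_pow_left₀ hE0.le (by linarith) _
        _ ≤ 1 := h2η
    calc c * t * (ηE ^ (C5 + 1) * ηE ^ k) = (c * ηE ^ k) * (t * ηE ^ (C5 + 1)) := by ring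
      _ ≤ 1 * (t * ηE ^ (C5 + 1)) := mul_le_mul_of_nonneg_right h6 (by positivity)
      _ = t * ηE ^ (C5 + 1) := one_mul _
  have herrE : t / ηD ^ C4 ≤ t / ηE ^ (C5 + 1) := by
    apply div_le_div_of_nonneg_left ht.le (by positivity)
    calc ηE ^ (C5 + 1) ≤ ηE := hpow _ _ hE0 hE1
      _ ≤ ηD ^ C4 := hE_D
  have herrQ : t / ηE ^ C5 ≤ t / ηE ^ (C5 + 1) :=
    div_le_div_of_nonneg_left ht.le (by positivity) (hpow2 _ _ hE0 hE1)
  have hsubG : G4 ⊆ G := fun x hx => hG1s (hG2s (hG3s (hG4s hx)))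
  refine ⟨fun z => m (cellOf (t ^ 3) z), fun z => m' (cellOf (t ^ 3) z),
    fun z => n (cellOf (t ^ 2) z), fun z => n' (cellOf (t ^ 2) z), G4, ?_,
    (ENNReal.ofReal_le_ofReal hF_E).trans hG4v⟩
  refine
    { mm := measurable_cell_comp _ _
      mm' := measurable_cell_comp _ _
      mn := measurable_cell_comp _ _
      mn' := measurable_cell_comp _ _
      mG := hG4m
      ang := fun x hx => hS.ang x (hsubG hx)
      reg := fun x hx => (hreg x (hsubG hx)).trans (one_div_le_one_div_of_le hF0 (by linarith))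
      bm := fun z => (hm _).trans (one_div_le_one_div_of_le hF0 (by linarith))
      bm' := fun z => (hm' _).trans (one_div_le_one_div_of_le hF0 (by linarith))
      bn := fun z => (hn _).trans (one_div_le_one_div_of_le hF0 (by linarith))
      bn' := fun z => (hn' _).trans (one_div_le_one_div_of_le hF0 (by linarith))
      relb := ?_
      relz := ?_
      rel' := ?_
      low := ?_ }
  · intro x hx
    have h6 := (hG3 x (hG4s hx)).trans herrE
    have h7 := (hG4 x hx).trans herrQ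
    refine (relS_algb hJ h6 h7).trans ?_
    refine le_trans (le_of_eq ?_) (herr ((1 + ‖β‖) / (2 * |(α * conj β).im|)) (by positivity)
      (le_trans ?_ hK3))
    · ring
    · rw [div_le_div_iff₀ (by positivity) hJ0]
      have := norm_nonneg β
      nlinarith
  · intro x hx
    have h6 := (hG3 x (hG4s hx)).trans herrE
    have h7 := (hG4 x hx).trans herrQ
    refine (relS_algz hJ h6 h7).trans ?_
    refine le_trans (le_of_eq ?_) (herr ((1 + 4 * ‖β‖) / (2 * |(α * conj β).im|)) (by positivity)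
      (le_trans ?_ hK3))
    · ring
    · rw [div_le_div_iff₀ (by positivity) hJ0]
      have := norm_nonneg β
      nlinarith
  · intro x hx
    have h6 := (hG3 x (hG4s hx)).trans herrE
    refine h6.trans ?_
    have := herr 1 (by norm_num) (by
      have := norm_nonneg β
      linarith)
    rwa [one_mul] at this
  · intro x hx
    have h6 := (hG2 x (hG3s (hG4s hx))).2
    have h7 := hS.lo x (hsubG hx)
    have h8 : t ^ 3 / ηC ^ C1 ≤ η / 2 := by
      have h9 : t / ηC ^ C1 ≤ 1 := by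
        rw [div_le_one (by positivity)]
        linarith
      calc t ^ 3 / ηC ^ C1 = t ^ 2 * (t / ηC ^ C1) := by ring
        _ ≤ t ^ 2 * 1 := mul_le_mul_of_nonneg_left h9 (by positivity)
        _ ≤ η ^ 2 := by
          rw [mul_one]
          exact pow_le_pow_left₀ ht.le (by linarith) 2
        _ ≤ η / 2 := by nlinarith
    rw [abs_le] at h6
    linarith [h6.2]

end Pool.Agent.H2.T2
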