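import Pool.Agent.H2.T2.Cell

/-!
# Stage 2, second half: real slope and the formula for the virial
-/

open MeasureTheory Set
open scoped ComplexConjugate Real

namespace Pool.Agent.H2.T2

theorem s2_norm_ec_sub_one_le (t : ℝ) : ‖ec t - 1‖ ≤ |t| := by
  have h := Real.norm_exp_I_mul_ofReal_sub_one_le (x := t)
  unfold ec
  rw [mul_comm]
  simpa using h

theorem s2_norm_lower {γ : ℂ} {φ τ : ℝ} (h0 : 0 ≤ τ) (h1 : τ ≤ 1) :
    ‖γ‖ * (τ / 2) ≤ ‖γ * (ec φ - ec (φ + τ))‖ := by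
  rw [norm_mul]
  apply mul_le_mul_of_nonneg_left _ (norm_nonneg _)
  have e1 : ec φ - ec (φ + τ) = ec φ * (1 - ec τ) := by rw [ec_add]; ring
  rw [e1, norm_mul, norm_ec, one_mul]
  have e2 : |(1 - ec τ).im| ≤ ‖1 - ec τ‖ := Complex.abs_im_le_norm _
  have e3 : (1 - ec τ).im = - Real.sin τ := by
    unfold ec
    rw [Complex.sub_im, Complex.exp_ofReal_mul_I_im]
    simp
  rw [e3, abs_neg] at e2
  have hpi := Real.pi_le_four
  have hpi3 := Real.pi_gt_three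
  have e4 : 2 / π * τ ≤ Real.sin τ := Real.mul_le_sin h0 (by linarith)
  have e5 : τ / 2 ≤ 2 / π * τ := by
    have : (1 : ℝ) / 2 ≤ 2 / π := by
      rw [div_le_div_iff₀ (by norm_num) (by linarith)]; linarith
    nlinarith
  exact e5.trans (e4.trans ((le_abs_self _).trans e2))

/-- The hinge identity for an affine field. -/
theorem s2_identity {γ Z q m m' e : ℂ} {φ τ : ℝ} (hZ : Z * conj γ ^ 2 = q * (γ * conj γ)) :
    (Z * (m * (γ * (ec φ - ec (φ + τ))) + m' * conj (γ * (ec φ - ec (φ + τ))) + e)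
      * conj (γ * (ec φ - ec (φ + τ)))).re
    = ‖γ * (ec φ - ec (φ + τ))‖ ^ 2 * ((Z * m).re - (q * m' * (ec (-2 * φ) * ec (-τ))).re)
      + (Z * e * conj (γ * (ec φ - ec (φ + τ)))).re := by
  have hU := ec_mul_conj φ
  have hT := ec_mul_conj τ
  have hD : (((‖γ * (ec φ - ec (φ + τ))‖ ^ 2 : ℝ)) : ℂ)
      = (γ * (ec φ - ec (φ + τ))) * conj (γ * (ec φ - ec (φ + τ))) := by
    rw [Complex.mul_conj']
    push_cast
    rfl
  have h2 : ec (-2 * φ) = conj (ec φ) ^ 2 := by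
    rw [conj_ec, pow_two, ← ec_add]
    congr 1
    ring
  have h3 : ec (-τ) = conj (ec τ) := (conj_ec τ).symm
  have key : Z * (m * (γ * (ec φ - ec (φ + τ))) + m' * conj (γ * (ec φ - ec (φ + τ))) + e)
      * conj (γ * (ec φ - ec (φ + τ)))
      = (((‖γ * (ec φ - ec (φ + τ))‖ ^ 2 : ℝ)) : ℂ) * (Z * m - q * m' * (ec (-2 * φ) * ec (-τ)))
        + Z * e * conj (γ * (ec φ - ec (φ + τ))) := by
    rw [hD, h2, h3, ec_add]
    simp only [map_mul, map_sub]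
    set U := ec φ
    set T := ec τ
    set U' := conj U
    set T' := conj T
    set g' := conj γ
    have e1 : Z * m' * (g' * (U' - U' * T')) ^ 2
        = q * (γ * g') * m' * U' ^ 2 * (1 - T') ^ 2 := by
      linear_combination (m' * U' ^ 2 * (1 - T') ^ 2) * hZ
    have e2 : (γ * (U - U * T)) * (g' * (U' - U' * T')) * (q * m' * (U' ^ 2 * T'))
        = - (q * (γ * g') * m' * U' ^ 2 * (1 - T') ^ 2) := by
      linear_combination (γ * g' * q * m' * U' ^ 2 * T' * (1 - T) * (1 - T')) * hU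
        - (γ * g' * q * m' * U' ^ 2 * (1 - T')) * hT
    linear_combination e1 + e2
  rw [key, Complex.add_re, Complex.re_ofReal_mul, Complex.sub_re]

/-- The estimate obtained from one partner. -/
theorem s2_one {γ Z q m m' Dz Dw : ℂ} {φ φ' s κ M C3 δ ν ν' : ℝ}
    (hγ : γ ≠ 0) (hZ : Z * conj γ ^ 2 = q * (γ * conj γ)) (hs : 0 < s) (hs1 : s ≤ 1)
    (hκ : 0 < κ) (hM : 0 ≤ M) (hC3 : 0 ≤ C3) (hδs : δ ≤ s ^ 2)
    (hlt : φ < φ') (hφs : φ' - φ < s) (hφκ : κ * s ≤ φ' - φ)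
    (hDz : Dz = γ * (ec φ - ec φ')) (hDw : ‖Dw - m * Dz - m' * conj Dz‖ ≤ 2 * s ^ 2 * M)
    (hm' : ‖m'‖ ≤ M) (hν : |ν' - ν| ≤ 2 * (s * M))
    (hH : |(Z * Dw * conj Dz).re - ‖Dz‖ ^ 2 * ((ν + ν') / 2)| ≤ C3 * δ * ‖Dz‖) :
    |ν - ((Z * m).re - (q * m' * ec (-2 * φ)).re)| ≤
      s * (M + ‖q‖ * M + 2 * (C3 + 2 * ‖Z‖ * M) / (‖γ‖ * κ)) := by
  obtain ⟨τ, hτ⟩ : ∃ τ, τ = φ' - φ := ⟨_, rfl⟩
  have hφ' : φ' = φ + τ := by rw [hτ]; ring
  subst hφ'
  have hτ0 : 0 < τ := by linarith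
  have hτs : τ < s := by linarith
  have hγ0 : 0 < ‖γ‖ := norm_pos_iff.mpr hγ
  have hlow := s2_norm_lower (γ := γ) (φ := φ) hτ0.le (by linarith : τ ≤ 1)
  rw [← hDz] at hlow
  have hD0 : 0 < ‖Dz‖ := lt_of_lt_of_le (by positivity) hlow
  have hD1 : ‖γ‖ * κ * s / 2 ≤ ‖Dz‖ := by
    have : ‖γ‖ * κ * s / 2 ≤ ‖γ‖ * (τ / 2) := by
      have h := mul_le_mul_of_nonneg_left hφκ hγ0.le
      have h5 : φ + τ - φ = τ := by ring
      rw [h5] at h
      nlinarith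
    linarith
  set e := Dw - m * Dz - m' * conj Dz with he
  have hDw' : Dw = m * Dz + m' * conj Dz + e := by rw [he]; ring
  have hid := s2_identity (γ := γ) (Z := Z) (q := q) (m := m) (m' := m') (e := e) (φ := φ)
    (τ := τ) hZ
  rw [← hDz, ← hDw'] at hid
  rw [hid] at hH
  have he2 : |(Z * e * conj Dz).re| ≤ ‖Z‖ * (2 * s ^ 2 * M) * ‖Dz‖ := by
    refine (Complex.abs_re_le_norm _).trans ?_
    rw [norm_mul, norm_mul, Complex.norm_conj]
    gcongr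
  set X := (Z * m).re - (q * m' * (ec (-2 * φ) * ec (-τ))).re with hX
  have hmain : ‖Dz‖ ^ 2 * |X - (ν + ν') / 2| ≤ (C3 + 2 * ‖Z‖ * M) * s ^ 2 * ‖Dz‖ := by
    have e1 : ‖Dz‖ ^ 2 * |X - (ν + ν') / 2| = |‖Dz‖ ^ 2 * (X - (ν + ν') / 2)| := by
      rw [abs_mul, abs_of_nonneg (sq_nonneg ‖Dz‖)]
    have e2 : ‖Dz‖ ^ 2 * (X - (ν + ν') / 2)
        = (‖Dz‖ ^ 2 * X + (Z * e * conj Dz).re - ‖Dz‖ ^ 2 * ((ν + ν') / 2))
          - (Z * e * conj Dz).re := by ring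
    rw [e1, e2]
    refine (abs_sub _ _).trans ?_
    have e3 : C3 * δ * ‖Dz‖ ≤ C3 * s ^ 2 * ‖Dz‖ := by gcongr
    nlinarith
  have hmain2 : |X - (ν + ν') / 2| ≤ s * (2 * (C3 + 2 * ‖Z‖ * M) / (‖γ‖ * κ)) := by
    have hc : 0 ≤ C3 + 2 * ‖Z‖ * M := by positivity
    have e1 : ‖Dz‖ * |X - (ν + ν') / 2| ≤ (C3 + 2 * ‖Z‖ * M) * s ^ 2 := by
      have : ‖Dz‖ * (‖Dz‖ * |X - (ν + ν') / 2|) ≤ ‖Dz‖ * ((C3 + 2 * ‖Z‖ * M) * s ^ 2) := by
        nlinarith
      exact le_of_mul_le_mul_left this hD0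
    have e2 : ‖γ‖ * κ * s / 2 * |X - (ν + ν') / 2| ≤ (C3 + 2 * ‖Z‖ * M) * s ^ 2 :=
      (mul_le_mul_of_nonneg_right hD1 (abs_nonneg _)).trans e1
    have e3 : s * (2 * (C3 + 2 * ‖Z‖ * M) / (‖γ‖ * κ))
        = ((C3 + 2 * ‖Z‖ * M) * s ^ 2) / (‖γ‖ * κ * s / 2) := by
      field_simp
    rw [e3, le_div_iff₀ (by positivity)]
    linarith
  have hrot : |(q * m' * (ec (-2 * φ) * ec (-τ))).re - (q * m' * ec (-2 * φ)).re| ≤
      s * (‖q‖ * M) := by
    rw [← Complex.sub_re]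
    refine (Complex.abs_re_le_norm _).trans ?_
    have e1 : q * m' * (ec (-2 * φ) * ec (-τ)) - q * m' * ec (-2 * φ)
        = q * m' * ec (-2 * φ) * (ec (-τ) - 1) := by ring
    rw [e1, norm_mul, norm_mul, norm_mul, norm_ec, mul_one]
    have e2 : ‖ec (-τ) - 1‖ ≤ s := by
      refine (s2_norm_ec_sub_one_le _).trans ?_
      rw [abs_neg, abs_of_pos hτ0]
      exact hτs.le
    have e3 : ‖q‖ * ‖m'‖ * ‖ec (-τ) - 1‖ ≤ ‖q‖ * M * s := by gcongr
    linarith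
  have hνb : |(ν + ν') / 2 - ν| ≤ s * M := by
    have : (ν + ν') / 2 - ν = (ν' - ν) / 2 := by ring
    rw [this, abs_div, abs_of_pos (by norm_num : (0 : ℝ) < 2)]
    linarith
  have htri : ν - ((Z * m).re - (q * m' * ec (-2 * φ)).re)
      = -((ν + ν') / 2 - ν) - (X - (ν + ν') / 2)
        - ((q * m' * (ec (-2 * φ) * ec (-τ))).re - (q * m' * ec (-2 * φ)).re) := by
    rw [hX]; ring
  rw [htri]
  have t1 := abs_sub (-((ν + ν') / 2 - ν) - (X - (ν + ν') / 2))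
    ((q * m' * (ec (-2 * φ) * ec (-τ))).re - (q * m' * ec (-2 * φ)).re)
  have t2 := abs_sub (-((ν + ν') / 2 - ν)) (X - (ν + ν') / 2)
  rw [abs_neg] at t2
  nlinarith

theorem s2_of {α β : ℂ} (hJ : (α * conj β).im ≠ 0) (h1 : S2a α β) (h2 : Part α β)
    (h3 : HA α β) : S2 α β := by
  obtain ⟨C1, h1⟩ := h1
  obtain ⟨C2, h2⟩ := h2
  obtain ⟨C3, hC3, h3⟩ := h3
  have hα : α ≠ 0 := by rintro rfl; simp at hJ
  have hβ : β ≠ 0 := by rintro rfl; simp at hJ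
  have hα0 : 0 < ‖α‖ := norm_pos_iff.mpr hα
  have hβ0 : 0 < ‖β‖ := norm_pos_iff.mpr hβ
  set J : ℝ := |(α * conj β).im| with hJdef
  have hJ0 : 0 < J := abs_pos.mpr hJ
  set ζ : ℂ := α * conj β with hζ
  set q : ℂ := conj (α * β) with hq
  set K : ℝ := 1 + ‖q‖ + 2 * (C3 + 2 * ‖ζ‖) * (1 / ‖α‖ + 1 / ‖β‖) with hK
  have hK1 : 1 ≤ K := by
    have h4 : 0 ≤ ‖q‖ := norm_nonneg _
    have h5 : 0 ≤ 2 * (C3 + 2 * ‖ζ‖) * (1 / ‖α‖ + 1 / ‖β‖) := by positivity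
    rw [hK]; linarith
  obtain ⟨n0, hn0⟩ := pow_unbounded_of_one_lt (1 + 2 * K + 2 * K / J) (one_lt_two : (1 : ℝ) < 2)
  set N : ℕ := 1 + C1 + (C1 + 1) * C2 with hN
  refine ⟨N + n0 + C1 + 2, ?_⟩
  intro η s δ z₀ w₀ w f g G Φ hη hη2 hs hsC hδ hδs hSys hGs hGv hw0 hΦ
  have hη1 : η ≤ 1 := hη2.trans (by norm_num)
  have hmono : ∀ {i j : ℕ}, i ≤ j → η ^ j ≤ η ^ i := fun h => pow_le_pow_of_le_one hη.le hη1 h
  have hs1 : s ≤ 1 := hsC.trans (pow_le_one₀ hη.le hη1)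
  obtain ⟨P, u₀, m, m', mP, hPv, hm, hm', hP⟩ := h1 η s δ z₀ w₀ w f g G Φ hη hη2 hs
    (hsC.trans (hmono (by omega))) hδ hδs hSys hGs hGv hw0 hΦ
  -- the part over `P`
  set G1 : Set (ℂ × ℝ) := G ∩ {x | x.1 ∈ P} with hG1
  have mG1 : MeasurableSet G1 := hSys.mG.inter (measurable_fst mP)
  set η1 : ℝ := η ^ (C1 + 1) with hη1def
  have hη10 : 0 < η1 := pow_pos hη _
  have hη12 : η1 ≤ 1 / 2 := by
    have := hmono (show 1 ≤ C1 + 1 by omega)
    rw [pow_one] at this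
    exact this.trans hη2
  have hη1C : η1 ^ C2 = η ^ ((C1 + 1) * C2) := by rw [hη1def, ← pow_mul]
  have hG1v : ENNReal.ofReal (η1 * s ^ 2) ≤ volume G1 := by
    refine (ENNReal.ofReal_le_ofReal ?_).trans hPv
    exact mul_le_mul_of_nonneg_right (hmono (by omega)) (sq_nonneg s)
  obtain ⟨G', mG', hG'G1, hG'v, hpart⟩ := h2 η1 s z₀ G1 hη10 hη12 hs
    (by
      rw [hη1C]
      refine hsC.trans (hmono ?_)
      rw [hN]
      omega) mG1
    (fun x hx => ⟨hGs x hx.1, hSys.ang x hx.1⟩) hG1v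
  -- constants
  set κ : ℝ := η ^ ((C1 + 1) * C2) with hκ
  have hκ0 : 0 < κ := pow_pos hη _
  set M1 : ℝ := 1 / η ^ (1 + C1) with hM1
  have hM10 : 0 < M1 := by positivity
  have hη1M : 1 / η ≤ M1 := by
    rw [hM1]
    apply one_div_le_one_div_of_le (pow_pos hη _)
    have := hmono (show 1 ≤ 1 + C1 by omega)
    rwa [pow_one] at this
  have hC1M : 1 / η ^ C1 ≤ M1 := by
    rw [hM1]
    exact one_div_le_one_div_of_le (pow_pos hη _) (hmono (by omega))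
  have h1M1 : 1 ≤ M1 := by
    rw [hM1]
    exact one_le_one_div (pow_pos hη _) (pow_le_one₀ hη.le hη1)
  set M : ℝ := 1 / η ^ N with hM
  have hM0 : 0 < M := by positivity
  have hMM1 : M = M1 / κ := by
    rw [hM, hM1, hκ, div_div, ← pow_add, hN]
  have hM1M : M1 ≤ M := by
    rw [hM, hM1]
    exact one_div_le_one_div_of_le (pow_pos hη _) (hmono (by omega))
  have h1M : 1 ≤ M := h1M1.trans hM1M
  -- the estimate for one partner
  have hBound : ∀ γ : ℂ, 0 < ‖γ‖ → 1 / ‖γ‖ ≤ 1 / ‖α‖ + 1 / ‖β‖ →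
      s * (M1 + ‖q‖ * M1 + 2 * (C3 + 2 * ‖ζ‖ * M1) / (‖γ‖ * κ)) ≤ s * (K * M) := by
    intro γ hγ0 hγ1
    apply mul_le_mul_of_nonneg_left _ hs.le
    have e1 : M1 + ‖q‖ * M1 ≤ (1 + ‖q‖) * M := by
      have : M1 + ‖q‖ * M1 = (1 + ‖q‖) * M1 := by ring
      rw [this]
      exact mul_le_mul_of_nonneg_left hM1M (by positivity)
    have e2 : 2 * (C3 + 2 * ‖ζ‖ * M1) / (‖γ‖ * κ)
        ≤ 2 * (C3 + 2 * ‖ζ‖) * (1 / ‖α‖ + 1 / ‖β‖) * M := by
      have e3 : 2 * (C3 + 2 * ‖ζ‖ * M1) / (‖γ‖ * κ)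
          = 2 * (C3 + 2 * ‖ζ‖ * M1) * (1 / ‖γ‖) * (1 / κ) := by
        field_simp
      have e4 : 2 * (C3 + 2 * ‖ζ‖ * M1) ≤ 2 * (C3 + 2 * ‖ζ‖) * M1 := by
        have h5 : C3 ≤ C3 * M1 := le_mul_of_one_le_right hC3 h1M1
        nlinarith [norm_nonneg ζ]
      calc 2 * (C3 + 2 * ‖ζ‖ * M1) / (‖γ‖ * κ)
          = 2 * (C3 + 2 * ‖ζ‖ * M1) * (1 / ‖γ‖) * (1 / κ) := e3
        _ ≤ 2 * (C3 + 2 * ‖ζ‖) * M1 * (1 / ‖α‖ + 1 / ‖β‖) * (1 / κ) := by gcongr
        _ = 2 * (C3 + 2 * ‖ζ‖) * (1 / ‖α‖ + 1 / ‖β‖) * M := by rw [hMM1]; ring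
    rw [hK]
    nlinarith
  have hpair : ∀ (γ Z : ℂ) (x y : ℂ × ℝ), γ ≠ 0 → Z * conj γ ^ 2 = q * (γ * conj γ) →
      ‖Z‖ = ‖ζ‖ → 1 / ‖γ‖ ≤ 1 / ‖α‖ + 1 / ‖β‖ → Hinge γ s G1 x y → κ * s ≤ y.2 - x.2 →
      |(Z * (w y.1 - w x.1) * conj (y.1 - x.1)).re
        - ‖y.1 - x.1‖ ^ 2 * (((mo α β f g x).re + (mo α β f g y).re) / 2)|
        ≤ C3 * δ * ‖y.1 - x.1‖ →
      |(mo α β f g x).re - ((Z * m).re - (q * m' * ec (-2 * x.2)).re)| ≤ s * (K * M) := by
    intro γ Z x y hγ hZ hZn hγ1 hh hyx hH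
    obtain ⟨hx, hy, hlt, hfl, heq⟩ := hh
    have hφs : y.2 - x.2 < s := by
      have h4 : |y.2 / s - x.2 / s| < 1 := Int.abs_sub_lt_one_of_floor_eq_floor hfl.symm
      rw [← sub_div, abs_div, abs_of_pos hs, div_lt_one hs] at h4
      exact (le_abs_self _).trans_lt h4
    have hDz : y.1 - x.1 = γ * (ec x.2 - ec y.2) := by
      linear_combination -heq
    have hDw : ‖(w y.1 - w x.1) - m * (y.1 - x.1) - m' * conj (y.1 - x.1)‖ ≤
        2 * s ^ 2 * M1 := by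
      have e1 := hP y.1 hy.2
      have e2 := hP x.1 hx.2
      have e3 : (w y.1 - w x.1) - m * (y.1 - x.1) - m' * conj (y.1 - x.1)
          = (w y.1 - u₀ - m * y.1 - m' * conj y.1) - (w x.1 - u₀ - m * x.1 - m' * conj x.1) := by
        rw [map_sub]; ring
      rw [e3]
      refine (norm_sub_le _ _).trans ?_
      have e4 : s ^ 2 / η ^ C1 ≤ s ^ 2 * M1 := by
        rw [div_eq_mul_one_div]
        exact mul_le_mul_of_nonneg_left hC1M (sq_nonneg s)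
      linarith
    have hν : |(mo α β f g y).re - (mo α β f g x).re| ≤ 2 * (s * M1) := by
      have e1 := hΦ x hx.1
      have e2 := hΦ y hy.1
      rw [← hfl] at e2
      have e3 : s / η ≤ s * M1 := by
        rw [div_eq_mul_one_div]
        exact mul_le_mul_of_nonneg_left hη1M hs.le
      rw [abs_le] at e1 e2 ⊢
      constructor <;> linarith [e1.1, e1.2, e2.1, e2.2]
    have := s2_one (γ := γ) (Z := Z) (q := q) (m := m) (m' := m') (M := M1) (κ := κ) hγ hZ hs hs1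
      hκ0 hM10.le hC3 hδs hlt hφs hyx hDz hDw (hm'.trans hC1M) hν hH
    rw [hZn] at this
    exact this.trans (hBound γ (norm_pos_iff.mpr hγ) hγ1)
  have hZα : ζ * conj α ^ 2 = q * (α * conj α) := by
    rw [hζ, hq, map_mul]; ring
  have hZβ : conj ζ * conj β ^ 2 = q * (β * conj β) := by
    rw [hζ, hq, map_mul, map_mul, Complex.conj_conj]; ring
  have hboth : ∀ x ∈ G',
      |(mo α β f g x).re - ((ζ * m).re - (q * m' * ec (-2 * x.2)).re)| ≤ s * (K * M) ∧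
      |(mo α β f g x).re - ((conj ζ * m).re - (q * m' * ec (-2 * x.2)).re)| ≤ s * (K * M) := by
    intro x hx
    obtain ⟨⟨y, hy, hyx⟩, y', hy', hyx'⟩ := hpart x hx
    rw [hη1C] at hyx hyx'
    have up : ∀ {γ : ℂ} {y : ℂ × ℝ}, Hinge γ s G1 x y → Hinge γ s G x y :=
      fun h => ⟨h.1.1, h.2.1.1, h.2.2.1, h.2.2.2.1, h.2.2.2.2⟩
    constructor
    · refine hpair α ζ x y hα hZα rfl ?_ hy hyx ((h3 η s δ w f g G x y hδ hSys).1 (up hy))
      have : 0 ≤ 1 / ‖β‖ := by positivity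
      linarith
    · refine hpair β (conj ζ) x y' hβ hZβ (Complex.norm_conj _) ?_ hy' hyx'
        ((h3 η s δ w f g G x y' hδ hSys).2 (up hy'))
      have : 0 ≤ 1 / ‖α‖ := by positivity
      linarith
  -- the imaginary part of the slope
  have hG'ne : G'.Nonempty := by
    by_contra hne
    rw [Set.not_nonempty_iff_eq_empty] at hne
    rw [hne, measure_empty, nonpos_iff_eq_zero, ENNReal.ofReal_eq_zero] at hG'v
    have : 0 < η1 / 2 * s ^ 2 := by positivity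
    linarith
  have hdiff : (ζ * m).re - (conj ζ * m).re = -2 * (ζ.im * m.im) := by
    simp only [Complex.mul_re, Complex.conj_re, Complex.conj_im]
    ring
  have hmim : J * |m.im| ≤ s * (K * M) := by
    obtain ⟨x, hx⟩ := hG'ne
    obtain ⟨e1, e2⟩ := hboth x hx
    have e3 : |(ζ * m).re - (conj ζ * m).re| ≤ 2 * (s * (K * M)) := by
      rw [abs_le] at e1 e2 ⊢
      constructor <;> linarith [e1.1, e1.2, e2.1, e2.2]
    rw [hdiff, abs_mul, abs_mul] at e3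
    have e4 : |(-2 : ℝ)| = 2 := by norm_num
    rw [e4] at e3
    rw [hJdef]
    linarith
  have hmim2 : |m.im| ≤ s * (K / J * M) := by
    have : s * (K / J * M) = s * (K * M) / J := by ring
    rw [this, le_div_iff₀ hJ0]
    linarith
  -- absorb the constants
  have hpow : (1 + 2 * K + 2 * K / J) * M ≤ 1 / η ^ (N + n0) := by
    have e1 : (2 : ℝ) ^ n0 ≤ 1 / η ^ n0 := by
      rw [le_div_iff₀ (pow_pos hη _), ← mul_pow]
      apply pow_le_one₀ (by positivity)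
      linarith
    have e2 : 1 / η ^ (N + n0) = (1 / η ^ n0) * M := by
      rw [hM, pow_add]; field_simp
    rw [e2]
    exact mul_le_mul_of_nonneg_right (hn0.le.trans e1) hM0.le
  have hfin : 1 / η ^ (N + n0) ≤ 1 / η ^ (N + n0 + C1 + 2) :=
    one_div_le_one_div_of_le (pow_pos hη _) (hmono (by omega))
  have hKJ : 0 ≤ K / J := by positivity
  have hMfin : M ≤ 1 / η ^ (N + n0 + C1 + 2) := by
    refine le_trans ?_ (hpow.trans hfin)
    have : 0 ≤ (2 * K + 2 * K / J) * M := by positivity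
    nlinarith
  refine ⟨G', u₀ + m.im * Complex.I * z₀, m', m.re, mG', fun x hx => (hG'G1 hx).1, ?_, ?_, ?_, ?_⟩
  · refine (ENNReal.ofReal_le_ofReal ?_).trans hG'v
    apply mul_le_mul_of_nonneg_right _ (sq_nonneg s)
    have e1 : η ^ (N + n0 + C1 + 2) ≤ η ^ (C1 + 1 + 1) := hmono (by omega)
    have e2 : η ^ (C1 + 1 + 1) = η1 * η := by rw [hη1def, pow_succ η (C1 + 1)]
    have e3 : η1 * η ≤ η1 * (1 / 2) := mul_le_mul_of_nonneg_left hη2 hη10.le
    linarith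
  · exact (Complex.abs_re_le_norm m).trans (hm.trans (hC1M.trans (hM1M.trans hMfin)))
  · exact hm'.trans (hC1M.trans (hM1M.trans hMfin))
  · intro x hx
    have hxG := (hG'G1 hx).1
    have hxP : x.1 ∈ P := (hG'G1 hx).2
    constructor
    · have e1 := hP x.1 hxP
      have e2 : w x.1 - (u₀ + m.im * Complex.I * z₀) - m.re * x.1 - m' * conj x.1
          = (w x.1 - u₀ - m * x.1 - m' * conj x.1) + m.im * Complex.I * (x.1 - z₀) := by
        have e3 : m = m.re + m.im * Complex.I := (Complex.re_add_im m).symm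
        linear_combination (x.1) * e3
      rw [e2]
      refine (norm_add_le _ _).trans ?_
      have hz0 : z₀ ∈ sq z₀ s := ⟨le_rfl, by linarith, le_rfl, by linarith⟩
      have e4 : ‖x.1 - z₀‖ ≤ 2 * s := norm_sub_le_of_mem_sq (hGs x hxG) hz0
      have e5 : ‖(m.im : ℂ) * Complex.I * (x.1 - z₀)‖ ≤ s * (K / J * M) * (2 * s) := by
        rw [norm_mul, norm_mul, Complex.norm_I, mul_one, Complex.norm_real, Real.norm_eq_abs]
        exact mul_le_mul hmim2 e4 (norm_nonneg _) (by positivity)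
      have e6 : s ^ 2 / η ^ C1 ≤ s ^ 2 * M := by
        rw [div_eq_mul_one_div]
        exact mul_le_mul_of_nonneg_left (hC1M.trans hM1M) (sq_nonneg s)
      have e7 : s ^ 2 * ((1 + 2 * K + 2 * K / J) * M) ≤ s ^ 2 / η ^ (N + n0 + C1 + 2) := by
        rw [div_eq_mul_one_div (s ^ 2)]
        exact mul_le_mul_of_nonneg_left (hpow.trans hfin) (sq_nonneg s)
      have e8 : s ^ 2 * M + s * (K / J * M) * (2 * s)
          ≤ s ^ 2 * ((1 + 2 * K + 2 * K / J) * M) := by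
        have e9 : s ^ 2 * ((1 + 2 * K + 2 * K / J) * M)
            = s ^ 2 * M + s * (K / J * M) * (2 * s) + s ^ 2 * (2 * K * M) := by ring
        rw [e9]
        have : 0 ≤ s ^ 2 * (2 * K * M) := by positivity
        linarith
      linarith
    · obtain ⟨e1, -⟩ := hboth x hx
      have e2 : (ζ * m).re = ζ.re * m.re - ζ.im * m.im := Complex.mul_re _ _
      have e3 : |ζ.im * m.im| ≤ s * (K * M) := by rw [abs_mul]; exact hmim
      have e4 : |(mo α β f g x).re - (ζ.re * m.re - (q * m' * ec (-2 * x.2)).re)|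
          ≤ 2 * (s * (K * M)) := by
        rw [e2] at e1
        rw [abs_le] at e1 e3 ⊢
        constructor <;> linarith [e1.1, e1.2, e3.1, e3.2]
      refine e4.trans ?_
      have e5 : s * ((1 + 2 * K + 2 * K / J) * M) ≤ s / η ^ (N + n0 + C1 + 2) := by
        rw [div_eq_mul_one_div s]
        exact mul_le_mul_of_nonneg_left (hpow.trans hfin) hs.le
      refine le_trans ?_ e5
      have e9 : s * ((1 + 2 * K + 2 * K / J) * M)
          = 2 * (s * (K * M)) + s * ((1 + 2 * (K / J)) * M) := by ring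
      rw [e9]
      have : 0 ≤ s * ((1 + 2 * (K / J)) * M) := by positivity
      linarith

end Pool.Agent.H2.T2
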